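import Pool.Agent.Lib.MP_524519_ag.DUR.Iface

set_option autoImplicit false

/-! ### H14/Cct1 -/

section
/-! # CCT1: contraction preserves the elementary part of a configuration -/

set_option autoImplicit false
set_option linter.unusedSectionVars false

namespace Pool.Agent.DUR

open Finset

/-- CCT1. -/
theorem cct1 : Cct1Statement := by
  intro S B w K c hC hc hcc hKc
  have hw : 0 < w c := hC.wpos c hc
  have hw0 : w c ≠ 0 := hw.ne'
  have hdv : ∀ b ∈ S, w c ∣ B c b := fun b hb => hC.dvd c hc b hb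
  have hq : ∀ b ∈ S, w c * (B c b / w c) = B c b := fun b hb => Int.mul_ediv_cancel' (hdv b hb)
  have hB : ∀ a, ∀ b ∈ S, Bct B w c a b = B a b + B a c * (B c b / w c) := by
    intro a b hb
    show B a b + B a c * B c b / w c = _
    rw [Int.mul_ediv_assoc _ (hdv b hb)]
  have hmem : ∀ a ∈ S.erase c, a ≠ c ∧ a ∈ S := fun a ha => mem_erase.1 ha
  refine ⟨?_, ?_, ?_, ?_, ?_, ?_, ?_⟩
  · intro a b
    show B a b + B a c * B c b / w c = B b a + B b c * B c a / w c
    rw [hC.symm a b, hC.symm a c, hC.symm c b, mul_comm]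
  · intro a ha b hb hab
    rw [hB a b (hmem b hb).2]
    have h1 := hC.off a (hmem a ha).2 b (hmem b hb).2 hab
    have h2 := hC.off a (hmem a ha).2 c hc (hmem a ha).1
    have h3 := hC.off c hc b (hmem b hb).2 (hmem b hb).1.symm
    have h4 : 0 ≤ B c b / w c := Int.ediv_nonneg h3 hw.le
    have h5 := mul_nonneg h2 h4
    linarith
  · intro a ha b hb
    rw [hB a b (hmem b hb).2]
    exact dvd_add (hC.dvd a (hmem a ha).2 b (hmem b hb).2)
      ((hC.dvd a (hmem a ha).2 c hc).mul_right _)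
  · intro a ha
    exact dvd_sub (hC.dvdK a (hmem a ha).2) (hC.dvd a (hmem a ha).2 c hc)
  · intro a ha i
    have e1 : w c * cc (S.erase c) (Bct B w c) a i =
        -∑ b ∈ S.erase c, (w c * B a b + B a c * B c b) * b i := by
      show w c * -∑ b ∈ S.erase c, Bct B w c a b * b i = _
      rw [mul_neg, mul_sum]
      congr 1
      refine sum_congr rfl fun b hb => ?_
      rw [hB a b (hmem b hb).2]
      linear_combination (B a c * b i) * hq b (hmem b hb).2
    have e2 : w c * cc S B a i + B a c * cc S B c i =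
        -∑ b ∈ S, (w c * B a b + B a c * B c b) * b i := by
      show w c * -∑ b ∈ S, B a b * b i + B a c * -∑ b ∈ S, B c b * b i = _
      rw [mul_neg, mul_neg, mul_sum, mul_sum, ← neg_add, ← sum_add_distrib]
      congr 1
      refine sum_congr rfl fun b hb => ?_
      ring
    rw [e1, e2, ← add_sum_erase S _ hc, hcc]
    ring
  · intro a ha
    rw [hB a a (hmem a ha).2]
    have h1 := hC.adj a (hmem a ha).2
    have h2 := hq a (hmem a ha).2
    have h3 : B a c = w c * (B c a / w c) := by rw [h2, hC.symm]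
    rw [h3]
    have h4 : ∀ q : ℤ, 0 ≤ q * q - q := by
      intro q
      rcases le_or_gt q 0 with h | h
      · nlinarith
      · nlinarith
    have h5 := mul_nonneg hw.le (h4 (B c a / w c))
    have h6 : w c * (B c a / w c) / w c = B c a / w c := Int.mul_ediv_cancel_left _ hw0
    nlinarith [h5]
  · intro x hx
    let X : ℤ := ∑ b ∈ S.erase c, (B c b / w c) * x b
    let x' : V3 → ℤ := fun a => if a = c then X else x a
    have hx'c : x' c = X := if_pos rfl
    have hx' : ∀ a ∈ S.erase c, x' a = x a := fun a ha => if_neg (hmem a ha).1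
    have hneg := hC.neg x' (by
      obtain ⟨a, ha, hxa⟩ := hx
      exact ⟨a, (hmem a ha).2, by rwa [hx' a ha]⟩)
    have hX : ∑ b ∈ S.erase c, B c b * x b = w c * X := by
      show _ = w c * ∑ b ∈ S.erase c, (B c b / w c) * x b
      rw [mul_sum]
      refine sum_congr rfl fun b hb => ?_
      linear_combination (-(x b)) * hq b (hmem b hb).2
    have e1 : ∑ a ∈ S, ∑ b ∈ S, B a b * x' a * x' b =
        ∑ a ∈ S.erase c, ∑ b ∈ S.erase c, B a b * x a * x b + w c * X * X := by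
      rw [← add_sum_erase S _ hc, ← add_sum_erase S _ hc, hx'c, hcc]
      have f1 : ∑ b ∈ S.erase c, B c b * X * x' b = X * (w c * X) := by
        rw [← hX, mul_sum]
        refine sum_congr rfl fun b hb => ?_
        rw [hx' b hb]
        ring
      have f2 : ∑ a ∈ S.erase c, ∑ b ∈ S, B a b * x' a * x' b =
          X * (w c * X) + ∑ a ∈ S.erase c, ∑ b ∈ S.erase c, B a b * x a * x b := by
        rw [← hX, mul_sum, ← sum_add_distrib]
        refine sum_congr rfl fun a ha => ?_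
        rw [← add_sum_erase S _ hc, hx'c, hx' a ha, hC.symm a c]
        congr 1
        · ring
        · refine sum_congr rfl fun b hb => ?_
          rw [hx' b hb]
      rw [f1, f2]
      ring
    have e2 : ∑ a ∈ S.erase c, ∑ b ∈ S.erase c, Bct B w c a b * x a * x b =
        ∑ a ∈ S.erase c, ∑ b ∈ S.erase c, B a b * x a * x b + w c * X * X := by
      rw [← hX]
      have f1 : (∑ b ∈ S.erase c, B c b * x b) * X = ∑ a ∈ S.erase c, ∑ b ∈ S.erase c,
          (B c a * x a) * ((B c b / w c) * x b) := sum_mul_sum _ _ _ _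
      rw [f1, ← sum_add_distrib]
      refine sum_congr rfl fun a ha => ?_
      rw [← sum_add_distrib]
      refine sum_congr rfl fun b hb => ?_
      rw [hB a b (hmem b hb).2, hC.symm a c]
      ring
    rw [e2, ← e1]
    exact hneg

end Pool.Agent.DUR

end

/-! ### H14/Edge -/

section
/-! # EDGE: lattice lengths -/

set_option autoImplicit false
set_option linter.unusedSectionVars false

namespace Pool.Agent.DUR

open Finset

namespace H14

/-- The dual basis. -/
theorem dual (a b c d : V3) (h : det3 a b c = 1) :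
    d = dot d a • cross b c + dot d b • cross c a + dot d c • cross a b := by
  have h' : (a 1 * b 2 - a 2 * b 1) * c 0 + (a 2 * b 0 - a 0 * b 2) * c 1 +
      (a 0 * b 1 - a 1 * b 0) * c 2 = 1 := by
    simpa [det3, dot, cross] using h
  funext i
  fin_cases i
  · simp [dot, cross]
    linear_combination (-(d 0)) * h'
  · simp [dot, cross]
    linear_combination (-(d 1)) * h'
  · simp [dot, cross]
    linear_combination (-(d 2)) * h'

theorem dot_sub (d e a : V3) : dot (d - e) a = dot d a - dot e a := by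
  simp [dot]; ring

theorem dot_zero (a : V3) : dot 0 a = 0 := by simp [dot]

theorem dot_smul (n : ℤ) (d a : V3) : dot (n • d) a = n * dot d a := by
  simp [dot]; ring

theorem cross_swap (a b : V3) : cross b a = -cross a b := by
  funext i
  fin_cases i <;> simp [cross] <;> ring

variable {T : Finset Tri} {l : V3 → ℤ} {v : Tri → V3}

theorem vE_eq (hT : Good T) {a b c : V3} (h : (a, b, c) ∈ T) : vE T v a b = v (a, b, c) := by
  have e : (T.filter fun t => t.1 = a ∧ t.2.1 = b) = {(a, b, c)} := by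
    ext ⟨x, y, z⟩
    rw [mem_filter, mem_singleton]
    constructor
    · rintro ⟨h1, h2, h3⟩
      have h2' : x = a := h2
      have h3' : y = b := h3
      subst h2'
      subst h3'
      rw [hT.uniq _ _ _ _ h1 h]
    · intro h1
      rw [h1]
      exact ⟨h, rfl, rfl⟩
  rw [vE, e, sum_singleton]

theorem vE_zero {a b : V3} (h : ¬ ∃ c, (a, b, c) ∈ T) : vE T v a b = 0 := by
  rw [vE, filter_eq_empty_iff.2, sum_empty]
  rintro ⟨x, y, z⟩ h1 ⟨h2, h3⟩
  have h2' : x = a := h2
  have h3' : y = b := h3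
  subst h2'
  subst h3'
  exact h ⟨z, h1⟩

theorem Lw_pos (hT : Good T) {a b c : V3} (h : (a, b, c) ∈ T) :
    Lw T v a b = dot (vE T v b a - vE T v a b) c := by
  have e : (T.filter fun t => t.1 = a ∧ t.2.1 = b) = {(a, b, c)} := by
    ext ⟨x, y, z⟩
    rw [mem_filter, mem_singleton]
    constructor
    · rintro ⟨h1, h2, h3⟩
      have h2' : x = a := h2
      have h3' : y = b := h3
      subst h2'
      subst h3'
      rw [hT.uniq _ _ _ _ h1 h]
    · intro h1
      rw [h1]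
      exact ⟨h, rfl, rfl⟩
  rw [Lw, if_pos ⟨c, h⟩, e, sum_singleton]

theorem Lw_swap {a b : V3} (h1 : ∃ c, (a, b, c) ∈ T) (h2 : ¬ ∃ c, (b, a, c) ∈ T) :
    Lw T v b a = Lw T v a b := by
  rw [Lw, if_neg h2, Lw, if_pos h1]

theorem Lw_none {a b : V3} (h1 : ¬ ∃ c, (a, b, c) ∈ T) (h2 : ¬ ∃ c, (b, a, c) ∈ T) :
    Lw T v a b = 0 := by
  rw [Lw, if_neg h1, filter_eq_empty_iff.2, sum_empty]
  rintro ⟨x, y, z⟩ h3 ⟨h4, h5⟩
  have h4' : x = b := h4
  have h5' : y = a := h5
  subst h4'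
  subst h5'
  exact h2 ⟨z, h3⟩

theorem mem_rays (hT : Good T) {a b c : V3} (h : (a, b, c) ∈ T) : a ∈ rays T ∧ b ∈ rays T :=
  ⟨mem_image.2 ⟨_, h, rfl⟩, mem_image.2 ⟨_, hT.rot _ _ _ h, rfl⟩⟩

theorem diff_eq (hA : Adm T l v) {a b c : V3} (h : (a, b, c) ∈ T) :
    vE T v b a - vE T v a b = Lw T v a b • cross a b := by
  have hT := hA.good
  have e1 := vE_eq (v := v) hT h
  have ha1 : dot (vE T v a b) a = l a := by
    rw [e1]; exact hA.eq _ h a (Or.inl rfl)
  have hb1 : dot (vE T v a b) b = l b := by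
    rw [e1]; exact hA.eq _ h b (Or.inr (Or.inl rfl))
  have hab : dot (vE T v b a) a = l a ∧ dot (vE T v b a) b = l b := by
    by_cases hd : ∃ d, (b, a, d) ∈ T
    · obtain ⟨d, hd⟩ := hd
      have e2 := vE_eq (v := v) hT hd
      rw [e2]
      exact ⟨hA.eq _ hd a (Or.inr (Or.inl rfl)), hA.eq _ hd b (Or.inl rfl)⟩
    · rcases hT.opp _ _ _ h with ⟨i, hi1, hi2⟩ | hd'
      · rw [vE_zero hd, dot_zero, dot_zero]
        exact ⟨(hA.bd a (mem_rays hT h).1 ⟨i, hi1⟩).symm, (hA.bd b (mem_rays hT h).2 ⟨i, hi2⟩).symm⟩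
      · exact absurd hd' hd
  have h1 := dual a b c (vE T v b a - vE T v a b) (hT.det1 _ _ _ h)
  rw [dot_sub, dot_sub _ _ b, ha1, hb1, hab.1, hab.2, sub_self, sub_self, zero_smul, zero_smul,
    zero_add, zero_add, ← Lw_pos hT h] at h1
  exact h1

end H14

open H14 in
/-- EDGE. -/
theorem edge : EdgeStatement := by
  intro T l v hA
  have hT := hA.good
  refine ⟨fun a b => ?_, fun a b h => ?_, fun a b c h => vE_eq hT h, fun a b c h => ?_,
    fun a b c h => diff_eq hA h⟩
  · by_cases h1 : ∃ c, (a, b, c) ∈ T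
    · by_cases h2 : ∃ c, (b, a, c) ∈ T
      · obtain ⟨c, h1⟩ := h1
        obtain ⟨d, h2⟩ := h2
        have e1 := diff_eq hA h1
        have e2 := diff_eq hA h2
        rw [Lw_pos hT h1, e1, dot_smul]
        have h3 : vE T v b a - vE T v a b = Lw T v b a • cross a b := by
          rw [← neg_sub, e2, cross_swap, smul_neg, neg_neg]
        have h4 : Lw T v a b • cross a b = Lw T v b a • cross a b := e1.symm.trans h3
        have h5 : dot (cross a b) c = 1 := hT.det1 _ _ _ h1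
        have h6 := congrArg (fun x => dot x c) h4
        simp only [dot_smul, h5, mul_one] at h6
        rw [h5, mul_one, h6]
      · exact (Lw_swap h1 h2).symm
    · by_cases h2 : ∃ c, (b, a, c) ∈ T
      · exact Lw_swap h2 h1
      · rw [Lw_none h1 h2, Lw_none h2 h1]
  · by_contra hc
    rw [not_or] at hc
    exact h (Lw_none hc.1 hc.2)
  · have h' := hT.rot _ _ _ h
    have h1 := dual a b c (v (b, c, a) - v (a, b, c)) (hT.det1 _ _ _ h)
    have ea : dot (v (b, c, a)) a = dot (v (a, b, c)) a := by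
      rw [hA.eq _ h' a (Or.inr (Or.inr rfl)), hA.eq _ h a (Or.inl rfl)]
    have eb : dot (v (b, c, a)) b = dot (v (a, b, c)) b := by
      rw [hA.eq _ h' b (Or.inl rfl), hA.eq _ h b (Or.inr (Or.inl rfl))]
    have ec : dot (v (b, c, a)) c = dot (v (a, b, c)) c := by
      rw [hA.eq _ h' c (Or.inr (Or.inl rfl)), hA.eq _ h c (Or.inr (Or.inr rfl))]
    rw [dot_sub, dot_sub _ _ b, dot_sub _ _ c, ea, eb, ec, sub_self, sub_self, sub_self, zero_smul,
      zero_smul, zero_smul, add_zero, add_zero] at h1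
    exact sub_eq_zero.1 h1

end Pool.Agent.DUR

end

/-! ### H17/Strk -/

section
set_option autoImplicit false

set_option linter.unusedSimpArgs false

namespace Pool.Agent.DUR

open Finset

namespace StrkAux

lemma det_eq (x y z : V3) : det3 x y z =
    (x 1 * y 2 - x 2 * y 1) * z 0 + (x 2 * y 0 - x 0 * y 2) * z 1 +
      (x 0 * y 1 - x 1 * y 0) * z 2 := by
  simp [det3, dot, cross]

lemma not_zero {x y z : V3} (h : det3 x y z = 1) (i : Fin 3) (hx : x i = 0) (hy : y i = 0)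
    (hz : z i = 0) : False := by
  rw [det_eq] at h
  fin_cases i <;> simp_all

lemma deg_pos {x y z : V3} (h : det3 x y z = 1) (hx : ∀ i, 0 ≤ x i) : 0 < deg x := by
  by_contra hc
  have h0 := hx 0
  have h1 := hx 1
  have h2 := hx 2
  unfold deg at hc
  have e0 : x 0 = 0 := by omega
  have e1 : x 1 = 0 := by omega
  have e2 : x 2 = 0 := by omega
  rw [det_eq] at h
  rw [e0, e1, e2] at h
  simp at h

lemma det_rot (x y z : V3) : det3 y z x = det3 x y z := by
  rw [det_eq, det_eq]; ring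

lemma deg_add (a b : V3) : deg (a + b) = deg a + deg b := by
  simp only [deg, Pi.add_apply]; ring

lemma kap_add {a b : V3} (ha : 0 < deg a) (hb : 0 < deg b) :
    kap (a + b) b + kap a (a + b) = kap a b := by
  unfold kap
  rw [deg_add]
  have ha' : (0 : ℝ) < (deg a : ℝ) := by exact_mod_cast ha
  have hb' : (0 : ℝ) < (deg b : ℝ) := by exact_mod_cast hb
  push_cast
  have hs : (0 : ℝ) < (deg a : ℝ) + (deg b : ℝ) := by positivity
  field_simp
  ring

lemma kap_add' {a b : V3} (ha : 0 < deg a) (hb : 0 < deg b) :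
    kap b (a + b) + kap (a + b) a = kap b a := by
  have := kap_add (a := b) (b := a) hb ha
  rw [add_comm b a] at this
  linarith

end StrkAux

open StrkAux in
theorem strk (h : SsumStatement) : StrkStatement := by
  intro T a b c hG hab hfr i
  have hdet : ∀ x y z, (x, y, z) ∈ T → det3 x y z = 1 := hG.det1
  rw [sum_filter, h T a b c hab hdet hfr (fun t => if t.1 i = 0 ∧ t.2.1 i = 0 then kap t.1 t.2.1
    else 0), ← hG.bdk i, sum_filter]
  have hdab : det3 a b c = 1 := hdet a b c hab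
  have hbc := hG.rot a b c hab
  have hne : a ≠ b := by
    intro e
    rw [det_eq, e] at hdab
    ring_nf at hdab
    omega
  have hna : ∀ j, 0 ≤ a j := hG.nn a b c hab
  have hnb : ∀ j, 0 ≤ b j := hG.nn b c a hbc
  have hda : 0 < deg a := deg_pos hdab hna
  have hdb : 0 < deg b := deg_pos (hdet _ _ _ hbc) hnb
  apply sum_congr rfl
  rintro ⟨x, y, z⟩ ht
  have hd := hdet x y z ht
  have hxy : x ≠ y := by
    intro e; rw [det_eq, e] at hd; ring_nf at hd; omega
  have hyz : y ≠ z := by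
    intro e; rw [det_eq, e] at hd; ring_nf at hd; omega
  have hxz : x ≠ z := by
    intro e; rw [det_eq, e] at hd; ring_nf at hd; omega
  by_cases hh : has a (x, y, z) ∧ has b (x, y, z)
  · rw [if_pos hh]
    have hci : (a + b) i = 0 ↔ a i = 0 ∧ b i = 0 := by
      rw [Pi.add_apply]
      have := hna i
      have := hnb i
      omega
    obtain ⟨h1, h2⟩ := hh
    simp only [has] at h1 h2
    have nz : ¬ (x i = 0 ∧ y i = 0 ∧ z i = 0) := fun hc => not_zero hd i hc.1 hc.2.1 hc.2.2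
    rcases h1 with h1 | h1 | h1 <;> rcases h2 with h2 | h2 | h2
    · exact absurd (h1.symm.trans h2) hne
    · subst h1; subst h2
      simp only [rp, if_true, if_neg hxy, if_neg hxy.symm, if_neg hyz.symm, if_neg hxz.symm]
      by_cases hz : x i = 0 ∧ y i = 0
      · rw [if_pos ⟨hci.2 hz, hz.2⟩, if_pos ⟨hz.1, hci.2 hz⟩, if_pos hz]
        exact kap_add hda hdb
      · rw [if_neg (fun hc => hz (hci.1 hc.1)), if_neg (fun hc => hz (hci.1 hc.2)), if_neg hz]
        simp
    · subst h1; subst h2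
      simp only [rp, if_true, if_neg hxy, if_neg hxy.symm, if_neg hyz, if_neg hyz.symm,
        if_neg hxz, if_neg hxz.symm]
      rw [if_neg (fun hc => nz ⟨(hci.1 hc.1).1, hc.2, (hci.1 hc.1).2⟩)]
      simp
    · subst h1; subst h2
      simp only [rp, if_true, if_neg hxy, if_neg hxy.symm, if_neg hyz, if_neg hyz.symm,
        if_neg hxz, if_neg hxz.symm]
      by_cases hz : x i = 0 ∧ y i = 0
      · rw [if_pos ⟨hz.1, hci.2 ⟨hz.2, hz.1⟩⟩, if_pos ⟨hci.2 ⟨hz.2, hz.1⟩, hz.2⟩, if_pos hz]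
        exact kap_add' hda hdb
      · rw [if_neg (fun hc => hz ⟨(hci.1 hc.2).2, (hci.1 hc.2).1⟩),
          if_neg (fun hc => hz ⟨(hci.1 hc.1).2, (hci.1 hc.1).1⟩), if_neg hz]
        simp
    · exact absurd (h1.symm.trans h2) hne
    · subst h1; subst h2
      simp only [rp, if_true, if_neg hxy, if_neg hxy.symm, if_neg hyz, if_neg hyz.symm,
        if_neg hxz, if_neg hxz.symm]
      rw [if_neg (fun hc => nz ⟨hc.1, (hci.1 hc.2).1, (hci.1 hc.2).2⟩)]
      simp
    · subst h1; subst h2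
      simp only [rp, if_true, if_neg hxy, if_neg hxy.symm, if_neg hyz, if_neg hyz.symm,
        if_neg hxz, if_neg hxz.symm]
      rw [if_neg (c := (z + x) i = 0 ∧ y i = 0)
        (fun hc => nz ⟨(hci.1 hc.1).2, hc.2, (hci.1 hc.1).1⟩)]
      simp
    · subst h1; subst h2
      simp only [rp, if_true, if_neg hxy, if_neg hxy.symm, if_neg hyz, if_neg hyz.symm,
        if_neg hxz, if_neg hxz.symm]
      rw [if_neg (c := x i = 0 ∧ (z + y) i = 0)
        (fun hc => nz ⟨hc.1, (hci.1 hc.2).2, (hci.1 hc.2).1⟩)]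
      simp
    · exact absurd (h1.symm.trans h2) hne
  · rw [if_neg hh]

end Pool.Agent.DUR

end

/-! ### H21/Good -/

section
/-! # GOOD: fans obtained by star subdivisions are good -/

set_option autoImplicit false

namespace Pool.Agent.DUR

open Finset

namespace GoodAux

theorem sum_T0 (f : Tri → ℝ) : ∑ t ∈ T0, f t =
    f (ev 0, ev 1, ev 2) + (f (ev 1, ev 2, ev 0) + f (ev 2, ev 0, ev 1)) := by
  unfold T0
  rw [sum_insert (by decide), sum_insert (by decide), sum_singleton]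

theorem mem_T0 {t : Tri} (h : t ∈ T0) :
    t = (ev 0, ev 1, ev 2) ∨ t = (ev 1, ev 2, ev 0) ∨ t = (ev 2, ev 0, ev 1) := by
  simpa [T0] using h

theorem W01 (x : E3) : W (ev 0) (ev 1) x = x 2 := by
  simp [W, rd, cross, ev]

theorem W12 (x : E3) : W (ev 1) (ev 2) x = x 0 := by
  simp [W, rd, cross, ev]

theorem W20 (x : E3) : W (ev 2) (ev 0) x = x 1 := by
  simp [W, rd, cross, ev]

theorem pp_one {x : ℝ} (h : 0 < x) : pp x = 1 := if_pos h

theorem n01 : ev 0 ≠ ev 1 := by decide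
theorem n02 : ev 0 ≠ ev 2 := by decide
theorem n12 : ev 1 ≠ ev 2 := by decide

theorem kap_ev (i j : Fin 3) : kap (ev i) (ev j) = 1 := by
  have h : ∀ i : Fin 3, deg (ev i) = 1 := by decide
  unfold kap
  rw [h, h]
  norm_num

theorem base : Good T0 where
  rot := by
    intro a b c h
    rcases mem_T0 h with h | h | h <;> obtain ⟨rfl, h'⟩ := Prod.mk.inj h <;>
      obtain ⟨rfl, rfl⟩ := Prod.mk.inj h' <;> simp [T0]
  det1 := by
    intro a b c h
    rcases mem_T0 h with h | h | h <;> obtain ⟨rfl, h'⟩ := Prod.mk.inj h <;>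
      obtain ⟨rfl, rfl⟩ := Prod.mk.inj h' <;> decide
  nn := by
    intro a b c h
    rcases mem_T0 h with h | h | h <;> obtain ⟨rfl, h'⟩ := Prod.mk.inj h <;> decide
  uniq := by
    intro a b c d h k
    rcases mem_T0 h with h | h | h <;> rcases mem_T0 k with k | k | k <;>
      obtain ⟨e1, h'⟩ := Prod.mk.inj h <;> obtain ⟨e2, k'⟩ := Prod.mk.inj k <;>
      obtain ⟨_, e3⟩ := Prod.mk.inj h' <;> obtain ⟨_, e4⟩ := Prod.mk.inj k'
    · exact e3.trans e4.symm
    · exact absurd (e1.symm.trans e2) n01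
    · exact absurd (e1.symm.trans e2) n02
    · exact absurd (e1.symm.trans e2) n01.symm
    · exact e3.trans e4.symm
    · exact absurd (e1.symm.trans e2) n12
    · exact absurd (e1.symm.trans e2) n02.symm
    · exact absurd (e1.symm.trans e2) n12.symm
    · exact e3.trans e4.symm
  opp := by
    intro a b c h
    left
    rcases mem_T0 h with h | h | h <;> obtain ⟨rfl, h'⟩ := Prod.mk.inj h <;>
      obtain ⟨rfl, rfl⟩ := Prod.mk.inj h' <;> decide
  base := by
    intro i
    fin_cases i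
    · exact ⟨ev 1, ev 2, by simp [T0]⟩
    · exact ⟨ev 2, ev 0, by simp [T0]⟩
    · exact ⟨ev 0, ev 1, by simp [T0]⟩
  n1 := by
    intro a ha x _ hx
    rw [sum_filter, sum_T0]
    have ha' : a = ev 0 ∨ a = ev 1 ∨ a = ev 2 := by
      obtain ⟨t, ht, rfl⟩ := mem_image.1 ha
      rcases mem_T0 ht with rfl | rfl | rfl
      · exact Or.inl rfl
      · exact Or.inr (Or.inl rfl)
      · exact Or.inr (Or.inr rfl)
    simp only [W01, W12, W20, pp_one (hx 0), pp_one (hx 1), pp_one (hx 2)]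
    rcases ha' with rfl | rfl | rfl
    · rw [if_pos rfl, if_neg n01.symm, if_neg n02.symm]; norm_num
    · rw [if_neg n01, if_pos rfl, if_neg n12.symm]; norm_num
    · rw [if_neg n02, if_neg n12, if_pos rfl]; norm_num
  n3 := by
    intro x _ hx
    rw [sum_T0]
    simp only [W01, W12, W20, pp_one (hx 0), pp_one (hx 1), pp_one (hx 2)]
    norm_num
  cover := by
    intro x hx
    refine ⟨(ev 0, ev 1, ev 2), by simp [T0], ?_, ?_, ?_⟩
    · show 0 ≤ W (ev 0) (ev 1) x
      rw [W01]; exact hx 2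
    · show 0 ≤ W (ev 1) (ev 2) x
      rw [W12]; exact hx 0
    · show 0 ≤ W (ev 2) (ev 0) x
      rw [W20]; exact hx 1
  bdk := by
    intro i
    rw [sum_filter, sum_T0]
    simp only [kap_ev]
    fin_cases i
    · rw [if_neg (by decide), if_pos (by decide), if_neg (by decide)]; norm_num
    · rw [if_neg (by decide), if_neg (by decide), if_pos (by decide)]; norm_num
    · rw [if_pos (by decide), if_neg (by decide), if_neg (by decide)]; norm_num

end GoodAux

theorem good (hF : FrshStatement) (hA : StraStatement) (hB : StrbStatement) (hC : StrcStatement)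
    (h1 : Str1Statement) (h3 : Str3Statement) (hK : StrkStatement) : GoodStatement := by
  intro T hT
  induction hT with
  | base => exact GoodAux.base
  | @step T a b c _ hab ih =>
    have fr := hF T a b c ih hab
    obtain ⟨a1, a2, a3, a4⟩ := hA T a b c ih hab fr
    obtain ⟨b1, b2⟩ := hB T a b c ih hab fr
    exact ⟨a1, a2, a3, b1, b2, a4, h1 T a b c ih hab fr, h3 T a b c ih hab fr,
      hC T a b c ih hab, hK T a b c ih hab fr⟩

end Pool.Agent.DUR

end

/-! ### H21/Npex -/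

section
/-! # NPEX, NPAD: existence of adapted data; the support function is admissible -/

set_option autoImplicit false

namespace Pool.Agent.DUR

open Finset

namespace NpexAux

theorem dot_sub (u w r : V3) : dot (u - w) r = dot u r - dot w r := by
  simp only [dot, Pi.sub_apply]
  ring

theorem dot_nonneg {u r : V3} (hu : ∀ i, 0 ≤ u i) (hr : ∀ i, 0 ≤ r i) : 0 ≤ dot u r := by
  unfold dot
  have := mul_nonneg (hu 0) (hr 0)
  have := mul_nonneg (hu 1) (hr 1)
  have := mul_nonneg (hu 2) (hr 2)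
  omega

theorem dot_ev (n : ℤ) (i : Fin 3) (r : V3) : dot (n • ev i) r = n * r i := by
  fin_cases i <;> simp [dot, ev]

theorem ell_le {A : Finset V3} {u : V3} (hu : u ∈ A) (r : V3) : ell A r ≤ dot u r := by
  unfold ell
  rw [dif_pos ⟨u, hu⟩]
  exact inf'_le (fun v => dot v r) hu

theorem le_ell {A : Finset V3} (hA : A.Nonempty) {r : V3} {n : ℤ} (h : ∀ u ∈ A, n ≤ dot u r) :
    n ≤ ell A r := by
  unfold ell
  rw [dif_pos hA]
  exact le_inf' _ _ h

end NpexAux

open NpexAux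

theorem npad : NpadStatement := by
  intro A T v h
  refine ⟨h.good, h.eq, ?_, ?_⟩
  · intro t ht r _
    exact ell_le (h.mem t ht) r
  · rintro r hr ⟨i, hi⟩
    obtain ⟨t, ht, rfl⟩ := mem_image.1 hr
    obtain ⟨n, hn, hnA⟩ := h.conv i
    apply le_antisymm
    · have := ell_le hnA t.1
      rw [dot_ev, hi, mul_zero] at this
      exact this
    · exact le_ell ⟨_, hnA⟩ fun u hu => dot_nonneg (h.nn u hu) (h.good.nn t.1 t.2.1 t.2.2 ht)

theorem npex : NpexStatement := by
  classical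
  intro A T hG hC hnn hconv h0
  have hne : A.Nonempty := by
    obtain ⟨n, _, hn⟩ := hconv 0
    exact ⟨_, hn⟩
  have key : ∀ t ∈ T, ∃ u ∈ A, ∀ w ∈ A, ∀ r, has r t → dot u r ≤ dot w r := by
    intro t ht
    obtain ⟨u, hu, hmin⟩ := exists_min_image A
      (fun u => dot u t.1 + dot u t.2.1 + dot u t.2.2) hne
    refine ⟨u, hu, fun w hw r hr => ?_⟩
    rcases hC w hw u hu t ht with h | h
    · have := h r hr
      rw [dot_sub] at this
      omega
    · have k1 := h t.1 (Or.inl rfl)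
      have k2 := h t.2.1 (Or.inr (Or.inl rfl))
      have k3 := h t.2.2 (Or.inr (Or.inr rfl))
      have k4 := hmin w hw
      rw [dot_sub] at k1 k2 k3
      rcases hr with rfl | rfl | rfl <;> omega
  choose! v hv hv' using key
  refine ⟨v, hG, hnn, hconv, h0, hv, ?_⟩
  intro t ht r hr
  exact le_antisymm (le_ell hne fun w hw => hv' t ht w hw r hr) (ell_le (hv t ht) r)

end Pool.Agent.DUR

end

/-! ### H30/Star -/

section
/-! # Description of a star subdivision; STRB, STRC -/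

set_option autoImplicit false
set_option linter.all false

namespace Pool.Agent.DUR.H30

open Finset

/-! ## Linear algebra -/

theorem det3_rot (a b c : V3) : det3 b c a = det3 a b c := by
  simp only [det3, dot, cross, Matrix.cons_val_zero, Matrix.cons_val_one, Matrix.cons_val]
  ring

theorem det3_swap (a b c : V3) : det3 b a c = -det3 a b c := by
  simp only [det3, dot, cross, Matrix.cons_val_zero, Matrix.cons_val_one, Matrix.cons_val]
  ring

theorem det3_self (a c : V3) : det3 a a c = 0 := by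
  simp only [det3, dot, cross, Matrix.cons_val_zero, Matrix.cons_val_one, Matrix.cons_val]
  ring

theorem ne12 {a b c : V3} (h : det3 a b c = 1) : a ≠ b := by
  rintro rfl
  rw [det3_self] at h
  exact zero_ne_one h

theorem ne23 {a b c : V3} (h : det3 a b c = 1) : b ≠ c := by
  rw [← det3_rot] at h
  exact ne12 h

theorem ne31 {a b c : V3} (h : det3 a b c = 1) : c ≠ a := by
  rw [← det3_rot, ← det3_rot] at h
  exact ne12 h

theorem W_add_left (a b c : V3) (x : E3) : W (a + b) c x = W a c x + W b c x := by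
  simp only [W, rd, cross, Matrix.cons_val_zero, Matrix.cons_val_one, Matrix.cons_val,
    Pi.add_apply]
  push_cast
  ring

theorem W_add_right (a b c : V3) (x : E3) : W c (a + b) x = W c a x + W c b x := by
  simp only [W, rd, cross, Matrix.cons_val_zero, Matrix.cons_val_one, Matrix.cons_val,
    Pi.add_apply]
  push_cast
  ring

theorem W_swap (a b : V3) (x : E3) : W b a x = -W a b x := by
  simp only [W, rd, cross, Matrix.cons_val_zero, Matrix.cons_val_one, Matrix.cons_val]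
  push_cast
  ring

theorem W_self (a : V3) (x : E3) : W a a x = 0 := by
  have := W_swap a a x
  linarith

/-! ## Membership -/

section

variable {T : Finset Tri} {a b : V3}

/-- The rotations of `(p, q, r)`. -/
def Rot (p q r : V3) (t : Tri) : Prop := t = (p, q, r) ∨ t = (q, r, p) ∨ t = (r, p, q)

theorem rot_mem (hrot : ∀ a b c, (a, b, c) ∈ T → (b, c, a) ∈ T) {p q r : V3} {t : Tri}
    (h : Rot p q r t) (ht : t ∈ T) : (p, q, r) ∈ T := by
  rcases h with rfl | rfl | rfl
  · exact ht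
  · exact hrot _ _ _ (hrot _ _ _ ht)
  · exact hrot _ _ _ ht

theorem rot_mem' (hrot : ∀ a b c, (a, b, c) ∈ T → (b, c, a) ∈ T) {p q r : V3} {t : Tri}
    (h : Rot p q r t) (ht : (p, q, r) ∈ T) : t ∈ T := by
  rcases h with rfl | rfl | rfl
  · exact ht
  · exact hrot _ _ _ ht
  · exact hrot _ _ _ (hrot _ _ _ ht)

/-- A triple containing `a` and `b` is a rotation of `(a, b, z)` or `(b, a, z)`. -/
theorem has_both (hrot : ∀ a b c, (a, b, c) ∈ T → (b, c, a) ∈ T) (hab : a ≠ b) {t : Tri}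
    (ht : t ∈ T) (h1 : has a t) (h2 : has b t) :
    ∃ z, ((a, b, z) ∈ T ∧ Rot a b z t) ∨ ((b, a, z) ∈ T ∧ Rot b a z t) := by
  obtain ⟨p, q, r⟩ := t
  unfold has at h1 h2
  simp only at h1 h2
  rcases h1 with rfl | rfl | rfl <;> rcases h2 with rfl | rfl | rfl
  · exact absurd rfl hab
  · exact ⟨r, Or.inl ⟨ht, Or.inl rfl⟩⟩
  · exact ⟨q, Or.inr ⟨hrot _ _ _ (hrot _ _ _ ht), Or.inr (Or.inl rfl)⟩⟩
  · exact ⟨r, Or.inr ⟨ht, Or.inl rfl⟩⟩
  · exact absurd rfl hab
  · exact ⟨p, Or.inl ⟨hrot _ _ _ ht, Or.inr (Or.inr rfl)⟩⟩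
  · exact ⟨q, Or.inl ⟨hrot _ _ _ (hrot _ _ _ ht), Or.inr (Or.inl rfl)⟩⟩
  · exact ⟨p, Or.inr ⟨hrot _ _ _ ht, Or.inr (Or.inr rfl)⟩⟩
  · exact absurd rfl hab

/-- `rp` of the rotations. -/
theorem rp_rot {p q r : V3} (hpq : p ≠ q) (hqr : q ≠ r) (hrp : r ≠ p) (c : V3) {t : Tri}
    (h : Rot p q r t) : Rot c q r (rp p c t) ∧ Rot p c r (rp q c t) := by
  rcases h with rfl | rfl | rfl
  · simp [rp, Rot, hpq, hpq.symm, hqr, hqr.symm, hrp, hrp.symm]
  · simp [rp, Rot, hpq, hpq.symm, hqr, hqr.symm, hrp, hrp.symm]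
  · simp [rp, Rot, hpq, hpq.symm, hqr, hqr.symm, hrp, hrp.symm]

theorem mem_star_iff (hrot : ∀ a b c, (a, b, c) ∈ T → (b, c, a) ∈ T)
    (hdet : ∀ a b c, (a, b, c) ∈ T → det3 a b c = 1) (hab : a ≠ b) {t : Tri} :
    t ∈ star a b T ↔ (t ∈ T ∧ ¬ (has a t ∧ has b t)) ∨
      (∃ z, (a, b, z) ∈ T ∧ (Rot a (a + b) z t ∨ Rot (a + b) b z t)) ∨
      (∃ z, (b, a, z) ∈ T ∧ (Rot b (a + b) z t ∨ Rot (a + b) a z t)) := by
  unfold star
  rw [mem_union, mem_union, mem_filter, mem_image, mem_image, or_assoc]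
  constructor
  · rintro (h | ⟨t₀, h0, rfl⟩ | ⟨t₀, h0, rfl⟩)
    · exact Or.inl h
    · rw [mem_filter] at h0
      obtain ⟨hT, h1, h2⟩ := h0
      obtain ⟨z, ⟨h3, h4⟩ | ⟨h3, h4⟩⟩ := has_both hrot hab hT h1 h2
      · have hd := hdet _ _ _ h3
        exact Or.inr (Or.inl ⟨z, h3, Or.inr (rp_rot (ne12 hd) (ne23 hd) (ne31 hd) _ h4).1⟩)
      · have hd := hdet _ _ _ h3
        exact Or.inr (Or.inr ⟨z, h3, Or.inl (rp_rot (ne12 hd) (ne23 hd) (ne31 hd) _ h4).2⟩)
    · rw [mem_filter] at h0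
      obtain ⟨hT, h1, h2⟩ := h0
      obtain ⟨z, ⟨h3, h4⟩ | ⟨h3, h4⟩⟩ := has_both hrot hab hT h1 h2
      · have hd := hdet _ _ _ h3
        exact Or.inr (Or.inl ⟨z, h3, Or.inl (rp_rot (ne12 hd) (ne23 hd) (ne31 hd) _ h4).2⟩)
      · have hd := hdet _ _ _ h3
        exact Or.inr (Or.inr ⟨z, h3, Or.inr (rp_rot (ne12 hd) (ne23 hd) (ne31 hd) _ h4).1⟩)
  · rintro (h | ⟨z, h3, h⟩ | ⟨z, h3, h⟩)
    · exact Or.inl h
    · have hd := hdet _ _ _ h3
      have n1 := ne12 hd
      have n2 := ne23 hd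
      have n3 := ne31 hd
      have m1 := hrot _ _ _ h3
      have m2 := hrot _ _ _ m1
      rcases h with (rfl | rfl | rfl) | (rfl | rfl | rfl)
      · exact Or.inr (Or.inr ⟨(a, b, z), by simp [has, h3], by simp [rp, n1, n2, n3, n1.symm, n2.symm, n3.symm]⟩)
      · exact Or.inr (Or.inr ⟨(b, z, a), by simp [has, m1], by simp [rp, n1, n2, n3, n1.symm, n2.symm, n3.symm]⟩)
      · exact Or.inr (Or.inr ⟨(z, a, b), by simp [has, m2], by simp [rp, n1, n2, n3, n1.symm, n2.symm, n3.symm]⟩)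
      · exact Or.inr (Or.inl ⟨(a, b, z), by simp [has, h3], by simp [rp, n1, n2, n3, n1.symm, n2.symm, n3.symm]⟩)
      · exact Or.inr (Or.inl ⟨(b, z, a), by simp [has, m1], by simp [rp, n1, n2, n3, n1.symm, n2.symm, n3.symm]⟩)
      · exact Or.inr (Or.inl ⟨(z, a, b), by simp [has, m2], by simp [rp, n1, n2, n3, n1.symm, n2.symm, n3.symm]⟩)
    · have hd := hdet _ _ _ h3
      have n1 := ne12 hd
      have n2 := ne23 hd
      have n3 := ne31 hd
      have m1 := hrot _ _ _ h3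
      have m2 := hrot _ _ _ m1
      rcases h with (rfl | rfl | rfl) | (rfl | rfl | rfl)
      · exact Or.inr (Or.inl ⟨(b, a, z), by simp [has, h3], by simp [rp, n1, n2, n3, n1.symm, n2.symm, n3.symm]⟩)
      · exact Or.inr (Or.inl ⟨(a, z, b), by simp [has, m1], by simp [rp, n1, n2, n3, n1.symm, n2.symm, n3.symm]⟩)
      · exact Or.inr (Or.inl ⟨(z, b, a), by simp [has, m2], by simp [rp, n1, n2, n3, n1.symm, n2.symm, n3.symm]⟩)
      · exact Or.inr (Or.inr ⟨(b, a, z), by simp [has, h3], by simp [rp, n1, n2, n3, n1.symm, n2.symm, n3.symm]⟩)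
      · exact Or.inr (Or.inr ⟨(a, z, b), by simp [has, m1], by simp [rp, n1, n2, n3, n1.symm, n2.symm, n3.symm]⟩)
      · exact Or.inr (Or.inr ⟨(z, b, a), by simp [has, m2], by simp [rp, n1, n2, n3, n1.symm, n2.symm, n3.symm]⟩)

/-- Triples starting with the new ray. -/
theorem star_c (hrot : ∀ a b c, (a, b, c) ∈ T → (b, c, a) ∈ T)
    (hdet : ∀ a b c, (a, b, c) ∈ T → det3 a b c = 1) (hab : a ≠ b)
    (hfr : ∀ t ∈ T, ¬ has (a + b) t) {y z : V3} (ha : a + b ≠ a) (hb : a + b ≠ b) :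
    (a + b, y, z) ∈ star a b T ↔ (y = a ∧ (b, a, z) ∈ T) ∨ (y = b ∧ (a, b, z) ∈ T) ∨
      (z = a ∧ (a, b, y) ∈ T) ∨ (z = b ∧ (b, a, y) ∈ T) := by
  rw [mem_star_iff hrot hdet hab]
  constructor
  · rintro (⟨h, -⟩ | ⟨w, h3, h⟩ | ⟨w, h3, h⟩)
    · exact absurd (Or.inl rfl) (hfr _ h)
    · have hw : w ≠ a + b := fun hw => hfr _ h3 (Or.inr (Or.inr hw))
      rcases h with (h | h | h) | (h | h | h) <;> simp only [Prod.mk.injEq] at h <;>
        obtain ⟨e1, e2, e3⟩ := h
      · exact absurd e1 ha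
      · exact Or.inr (Or.inr (Or.inl ⟨e3, e2 ▸ h3⟩))
      · exact absurd e1.symm hw
      · exact Or.inr (Or.inl ⟨e2, e3 ▸ h3⟩)
      · exact absurd e1 hb
      · exact absurd e1.symm hw
    · have hw : w ≠ a + b := fun hw => hfr _ h3 (Or.inr (Or.inr hw))
      rcases h with (h | h | h) | (h | h | h) <;> simp only [Prod.mk.injEq] at h <;>
        obtain ⟨e1, e2, e3⟩ := h
      · exact absurd e1 hb
      · exact Or.inr (Or.inr (Or.inr ⟨e3, e2 ▸ h3⟩))
      · exact absurd e1.symm hw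
      · exact Or.inl ⟨e2, e3 ▸ h3⟩
      · exact absurd e1 ha
      · exact absurd e1.symm hw
  · rintro (⟨rfl, h⟩ | ⟨rfl, h⟩ | ⟨rfl, h⟩ | ⟨rfl, h⟩)
    · exact Or.inr (Or.inr ⟨z, h, Or.inr (Or.inl rfl)⟩)
    · exact Or.inr (Or.inl ⟨z, h, Or.inr (Or.inl rfl)⟩)
    · exact Or.inr (Or.inl ⟨y, h, Or.inl (Or.inr (Or.inl rfl))⟩)
    · exact Or.inr (Or.inr ⟨y, h, Or.inl (Or.inr (Or.inl rfl))⟩)

/-- Triples whose first edge does not contain the new ray. -/
theorem star_n (hrot : ∀ a b c, (a, b, c) ∈ T → (b, c, a) ∈ T)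
    (hdet : ∀ a b c, (a, b, c) ∈ T → det3 a b c = 1) (hab : a ≠ b)
    {x y z : V3} (hx : x ≠ a + b) (hy : y ≠ a + b) (h : (x, y, z) ∈ star a b T) :
    (¬ (x = a ∧ y = b) ∧ ¬ (x = b ∧ y = a)) ∧ ∃ w, (x, y, w) ∈ T ∧
      z = if has a (x, y, w) ∧ has b (x, y, w) then a + b else w := by
  rw [mem_star_iff hrot hdet hab] at h
  rcases h with ⟨h, h'⟩ | ⟨w, h3, h⟩ | ⟨w, h3, h⟩
  · refine ⟨⟨?_, ?_⟩, z, h, ?_⟩
    · rintro ⟨rfl, rfl⟩
      exact h' ⟨Or.inl rfl, Or.inr (Or.inl rfl)⟩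
    · rintro ⟨rfl, rfl⟩
      exact h' ⟨Or.inr (Or.inl rfl), Or.inl rfl⟩
    · rw [if_neg h']
  · have hd := hdet _ _ _ h3
    have n1 := ne12 hd
    have n2 := ne23 hd
    have n3 := ne31 hd
    rcases h with (h | h | h) | (h | h | h) <;> simp only [Prod.mk.injEq] at h <;>
      obtain ⟨rfl, rfl, rfl⟩ := h
    · exact absurd rfl hy
    · exact absurd rfl hx
    · refine ⟨⟨fun h => n3 h.1, fun h => n2 h.1.symm⟩, b, hrot _ _ _ (hrot _ _ _ h3), ?_⟩
      rw [if_pos ⟨Or.inr (Or.inl rfl), Or.inr (Or.inr rfl)⟩]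
    · exact absurd rfl hx
    · refine ⟨⟨fun h => n1 h.1.symm, fun h => n3 h.2⟩, a, hrot _ _ _ h3, ?_⟩
      rw [if_pos ⟨Or.inr (Or.inr rfl), Or.inl rfl⟩]
    · exact absurd rfl hy
  · have hd := hdet _ _ _ h3
    have n1 := ne12 hd
    have n2 := ne23 hd
    have n3 := ne31 hd
    rcases h with (h | h | h) | (h | h | h) <;> simp only [Prod.mk.injEq] at h <;>
      obtain ⟨rfl, rfl, rfl⟩ := h
    · exact absurd rfl hy
    · exact absurd rfl hx
    · refine ⟨⟨fun h => n2 h.1.symm, fun h => n3 h.1⟩, a, hrot _ _ _ (hrot _ _ _ h3), ?_⟩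
      rw [if_pos ⟨Or.inr (Or.inr rfl), Or.inr (Or.inl rfl)⟩]
    · exact absurd rfl hx
    · refine ⟨⟨fun h => n3 h.2, fun h => n1 h.1.symm⟩, b, hrot _ _ _ h3, ?_⟩
      rw [if_pos ⟨Or.inl rfl, Or.inr (Or.inr rfl)⟩]
    · exact absurd rfl hy

theorem star_rot (hrot : ∀ a b c, (a, b, c) ∈ T → (b, c, a) ∈ T)
    (hdet : ∀ a b c, (a, b, c) ∈ T → det3 a b c = 1) (hab : a ≠ b) {x y z : V3}
    (h : (x, y, z) ∈ star a b T) : (y, z, x) ∈ star a b T := by
  have key : ∀ p q r, Rot p q r (x, y, z) → Rot p q r (y, z, x) := by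
    rintro p q r (h | h | h) <;> simp only [Prod.mk.injEq] at h <;> obtain ⟨rfl, rfl, rfl⟩ := h
    · exact Or.inr (Or.inl rfl)
    · exact Or.inr (Or.inr rfl)
    · exact Or.inl rfl
  rw [mem_star_iff hrot hdet hab] at h ⊢
  rcases h with ⟨h, h'⟩ | ⟨w, h3, h⟩ | ⟨w, h3, h⟩
  · refine Or.inl ⟨hrot _ _ _ h, fun hh => h' ⟨?_, ?_⟩⟩
    · rcases hh.1 with h | h | h
      · exact Or.inr (Or.inl h)
      · exact Or.inr (Or.inr h)
      · exact Or.inl h
    · rcases hh.2 with h | h | h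
      · exact Or.inr (Or.inl h)
      · exact Or.inr (Or.inr h)
      · exact Or.inl h
  · exact Or.inr (Or.inl ⟨w, h3, h.imp (key _ _ _) (key _ _ _)⟩)
  · exact Or.inr (Or.inr ⟨w, h3, h.imp (key _ _ _) (key _ _ _)⟩)

end

theorem add_ne_left {a b c : V3} (h : det3 a b c = 1) : a + b ≠ a := by
  intro h'
  have hb : b = 0 := by simpa using h'
  rw [hb] at h
  simp [det3, dot, cross] at h

theorem add_ne_right {a b c : V3} (h : det3 a b c = 1) : a + b ≠ b := by
  intro h'
  have ha : a = 0 := by simpa using h'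
  rw [ha] at h
  simp [det3, dot, cross] at h

end Pool.Agent.DUR.H30

end

/-! ### H30/Bala -/

section
/-! # BALA -/

set_option autoImplicit false
set_option linter.all false

namespace Pool.Agent.DUR.H30

open Finset

theorem cross_smul_right (a b : V3) (k : ℤ) : cross a (k • b) = k • cross a b := by
  funext i
  fin_cases i <;> simp [cross] <;> ring

theorem cross_add_right (a b c : V3) : cross a (b + c) = cross a b + cross a c := by
  funext i
  fin_cases i <;> simp [cross] <;> ring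

theorem cross_zero_right (a : V3) : cross a 0 = 0 := by
  funext i
  fin_cases i <;> simp [cross]

theorem cross_sum_right {ι : Type*} (a : V3) (s : Finset ι) (f : ι → V3) :
    cross a (∑ i ∈ s, f i) = ∑ i ∈ s, cross a (f i) := by
  classical
  induction s using Finset.induction_on with
  | empty => simp [cross_zero_right]
  | insert i s hi ih => rw [sum_insert hi, sum_insert hi, cross_add_right, ih]

/-- `a × s = 0` and `det (a,b,c) = 1` give `s = (s · (b × c)) a`. -/
theorem par_of_cross {a b c s : V3} (h : det3 a b c = 1) (hs : cross a s = 0) :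
    s = dot s (cross b c) • a := by
  have h0 : a 1 * s 2 - a 2 * s 1 = 0 := by
    have := congrFun hs 0; simpa [cross] using this
  have h1 : a 2 * s 0 - a 0 * s 2 = 0 := by
    have := congrFun hs 1; simpa [cross] using this
  have h2 : a 0 * s 1 - a 1 * s 0 = 0 := by
    have := congrFun hs 2; simpa [cross] using this
  simp only [det3, dot, cross, Matrix.cons_val_zero, Matrix.cons_val_one, Matrix.cons_val] at h
  funext i
  simp only [Pi.smul_apply, smul_eq_mul]
  fin_cases i <;>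
    simp only [dot, cross, Matrix.cons_val_zero, Matrix.cons_val_one, Matrix.cons_val,
      Fin.zero_eta, Fin.mk_one, Fin.reduceFinMk]
  · linear_combination (-s 0) * h + (b 0 * c 1 - b 1 * c 0) * h1 - (b 2 * c 0 - b 0 * c 2) * h2
  · linear_combination (-s 1) * h - (b 0 * c 1 - b 1 * c 0) * h0 + (b 1 * c 2 - b 2 * c 1) * h2
  · linear_combination (-s 2) * h + (b 2 * c 0 - b 0 * c 2) * h0 - (b 1 * c 2 - b 2 * c 1) * h1

theorem mem_rays_fst {T : Finset Tri} {t : Tri} (h : t ∈ T) : t.1 ∈ rays T :=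
  mem_image.2 ⟨t, h, rfl⟩

/-- Out-sum. -/
theorem sum_vE_out {T : Finset Tri} (hrot : ∀ a b c, (a, b, c) ∈ T → (b, c, a) ∈ T)
    (v : Tri → V3) (a : V3) :
    ∑ b ∈ rays T, vE T v a b = ∑ t ∈ T with t.1 = a, v t := by
  unfold vE
  rw [← Finset.sum_fiberwise_of_maps_to (s := T.filter fun t => t.1 = a) (t := rays T)
    (g := fun t => t.2.1)]
  · apply sum_congr rfl
    intro b _
    rw [filter_filter]
  · rintro ⟨x, y, z⟩ ht
    rw [mem_filter] at ht
    exact mem_rays_fst (hrot _ _ _ ht.1)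

/-- In-sum. -/
theorem sum_vE_in {T : Finset Tri} (v : Tri → V3) (a : V3) :
    ∑ b ∈ rays T, vE T v b a = ∑ t ∈ T with t.2.1 = a, v t := by
  unfold vE
  rw [← Finset.sum_fiberwise_of_maps_to (s := T.filter fun t => t.2.1 = a) (t := rays T)
    (g := fun t => t.1)]
  · apply sum_congr rfl
    intro b _
    rw [filter_filter]
    congr 1
    apply filter_congr
    intro t _
    exact and_comm
  · rintro ⟨x, y, z⟩ ht
    rw [mem_filter] at ht
    exact mem_rays_fst ht.1

theorem sum_in_out {T : Finset Tri} (hrot : ∀ a b c, (a, b, c) ∈ T → (b, c, a) ∈ T)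
    {v : Tri → V3} (hv : ∀ a b c, (a, b, c) ∈ T → v (b, c, a) = v (a, b, c)) (a : V3) :
    ∑ t ∈ T with t.2.1 = a, v t = ∑ t ∈ T with t.1 = a, v t := by
  refine Finset.sum_bij' (fun t _ => (t.2.1, t.2.2, t.1)) (fun t _ => (t.2.2, t.1, t.2.1)) ?_ ?_
    ?_ ?_ ?_
  · rintro ⟨x, y, z⟩ ht
    rw [mem_filter] at ht ⊢
    exact ⟨hrot _ _ _ ht.1, ht.2⟩
  · rintro ⟨x, y, z⟩ ht
    rw [mem_filter] at ht ⊢
    exact ⟨hrot _ _ _ (hrot _ _ _ ht.1), ht.2⟩
  · rintro ⟨x, y, z⟩ ht
    rfl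
  · rintro ⟨x, y, z⟩ ht
    rfl
  · rintro ⟨x, y, z⟩ ht
    rw [mem_filter] at ht
    exact (hv _ _ _ ht.1).symm

theorem bala (h : EdgeStatement) : BalaStatement := by
  intro T l v hA
  obtain ⟨hsym, hne, hvE, hvr, hW⟩ := h T l v hA
  have hrot := hA.good.rot
  have key : ∀ a ∈ rays T, cross a (∑ b ∈ rays T, Lw T v a b • b) = 0 := by
    intro a ha
    rw [cross_sum_right]
    have h1 : ∀ b ∈ rays T, cross a (Lw T v a b • b) = vE T v b a - vE T v a b := by
      intro b _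
      rw [cross_smul_right]
      by_cases h1 : ∃ c, (a, b, c) ∈ T
      · obtain ⟨c, hc⟩ := h1
        exact (hW _ _ _ hc).symm
      · by_cases h2 : ∃ c, (b, a, c) ∈ T
        · obtain ⟨c, hc⟩ := h2
          have := hW _ _ _ hc
          rw [hsym b a] at this
          have h3 : cross b a = -cross a b := by
            funext i
            fin_cases i <;> simp [cross] <;> ring
          rw [h3, smul_neg] at this
          rw [← neg_sub, this, neg_neg]
        · have h3 : Lw T v a b = 0 := by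
            by_contra h3
            rcases hne a b h3 with h | h
            · exact h1 h
            · exact h2 h
          have e1 : vE T v a b = 0 := by
            unfold vE
            apply sum_eq_zero
            rintro ⟨x, y, z⟩ ht
            rw [mem_filter] at ht
            obtain ⟨ht, rfl, rfl⟩ := ht
            exact absurd ⟨z, ht⟩ h1
          have e2 : vE T v b a = 0 := by
            unfold vE
            apply sum_eq_zero
            rintro ⟨x, y, z⟩ ht
            rw [mem_filter] at ht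
            obtain ⟨ht, rfl, rfl⟩ := ht
            exact absurd ⟨z, ht⟩ h2
          rw [h3, e1, e2]
          simp
    rw [sum_congr rfl h1, sum_sub_distrib, sum_vE_in, sum_vE_out hrot,
      sum_in_out hrot hvr, sub_self]
  have hex : ∀ a : V3, ∃ k : ℤ, a ∈ rays T → ∑ b ∈ rays T, Lw T v a b • b = k • a := by
    intro a
    by_cases ha : a ∈ rays T
    · obtain ⟨⟨x, y, z⟩, ht, hx⟩ := mem_image.1 ha
      simp only at hx
      subst hx
      exact ⟨_, fun _ => par_of_cross (hA.good.det1 _ _ _ ht) (key _ ha)⟩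
    · exact ⟨0, fun h => absurd h ha⟩
  choose e he using hex
  exact ⟨e, fun a ha => he a ha⟩

end Pool.Agent.DUR.H30

end

/-! ### H30/Cpsi -/

section
/-! # CPSI: the change of `Ψ` under a contraction -/

set_option autoImplicit false
set_option linter.all false

namespace Pool.Agent.DUR.H30

open Finset

/-- CPSI. -/
theorem cpsi : CpsiStatement := by
  classical
  intro S B w K c m γ hC hc hBc hKc hm hγ
  have hw : 1 ≤ w c := hC.wpos c hc
  have hw0 : w c ≠ 0 := by omega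
  set S' := S.erase c with hS'
  have hmemS : ∀ {a}, a ∈ S' → a ∈ S := fun h => mem_of_mem_erase h
  have hne : ∀ {a}, a ∈ S' → a ≠ c := fun h => ne_of_mem_erase h
  have hS : ∀ f : V3 → ℤ, ∑ a ∈ S, f a = f c + ∑ a ∈ S', f a := fun f =>
    (add_sum_erase S f hc).symm
  let q : V3 → ℤ := fun b => B c b / w c
  have hq : ∀ b ∈ S, B c b = w c * q b := fun b hb =>
    (Int.mul_ediv_cancel' (hC.dvd c hc b hb)).symm
  have hq' : ∀ b ∈ S', B c b = w c * q b := fun b hb => hq b (hmemS hb)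
  have hq'' : ∀ b ∈ S', B b c = w c * q b := fun b hb => by rw [hC.symm]; exact hq' b hb
  have hqn : ∀ b ∈ S', 0 ≤ q b := fun b hb => by
    have h1 := hC.off c hc b (hmemS hb) (hne hb).symm
    exact Int.ediv_nonneg h1 (by omega)
  have hB' : ∀ a ∈ S', ∀ b ∈ S', Bct B w c a b = B a b + w c * q a * q b := by
    intro a ha b hb
    unfold Bct
    rw [hq'' a ha, hq' b hb]
    congr 1
    rw [show w c * q a * (w c * q b) = w c * (w c * q a * q b) by ring,
      Int.mul_ediv_cancel_left _ hw0]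
  have hfilt : ∀ (R : Finset V3) (F : V3 → V3 → ℤ), ∑ a ∈ R, ∑ b ∈ R with b ≠ a, F a b =
      ∑ a ∈ R, ∑ b ∈ R, F a b - ∑ a ∈ R, F a a := by
    intro R F
    rw [← sum_sub_distrib]
    refine sum_congr rfl fun a ha => ?_
    rw [filter_ne', sum_erase_eq_sub ha]
  -- the relations
  have E1 : ∑ b ∈ S', q b = m := by
    have h1 : ∑ b ∈ S with b ≠ c, B c b = w c * ∑ b ∈ S', q b := by
      rw [filter_ne', mul_sum]
      exact sum_congr rfl hq'
    rw [h1, mul_comm] at hm
    exact mul_right_cancel₀ hw0 hm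
  have E2 : ∀ i, c i = ∑ b ∈ S', q b * b i + γ i := by
    intro i
    have h1 := hγ i
    unfold cc at h1
    rw [hS, hBc] at h1
    have h2 : ∑ b ∈ S', B c b * b i = w c * ∑ b ∈ S', q b * b i := by
      rw [mul_sum]
      refine sum_congr rfl fun b hb => ?_
      rw [hq' b hb]; ring
    rw [h2] at h1
    have h3 : w c * c i = w c * (∑ b ∈ S', q b * b i + γ i) := by linarith
    exact mul_left_cancel₀ hw0 h3
  have hcc : ∀ a ∈ S', ∀ i, cc S' (Bct B w c) a i = cc S B a i + w c * q a * γ i := by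
    intro a ha i
    unfold cc
    have h1 : ∑ b ∈ S', Bct B w c a b * b i =
        ∑ b ∈ S', B a b * b i + w c * q a * ∑ b ∈ S', q b * b i := by
      rw [mul_sum, ← sum_add_distrib]
      refine sum_congr rfl fun b hb => ?_
      rw [hB' a ha b hb]; ring
    rw [h1, hS, hq'' a ha, E2 i]
    ring
  -- weighted double sums
  have hdbl : ∀ β : V3 → V3 → ℤ, ∑ a ∈ S, ∑ b ∈ S, B a b * β a b =
      B c c * β c c + w c * ∑ b ∈ S', q b * β c b + w c * ∑ a ∈ S', q a * β a c +
        ∑ a ∈ S', ∑ b ∈ S', B a b * β a b := by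
    intro β
    rw [hS]
    simp only [hS]
    rw [sum_add_distrib]
    have h1 : ∑ b ∈ S', B c b * β c b = w c * ∑ b ∈ S', q b * β c b := by
      rw [mul_sum]
      exact sum_congr rfl fun b hb => by rw [hq' b hb]; ring
    have h2 : ∑ a ∈ S', B a c * β a c = w c * ∑ a ∈ S', q a * β a c := by
      rw [mul_sum]
      exact sum_congr rfl fun b hb => by rw [hq'' b hb]; ring
    rw [h1, h2]
    ring
  have hdbl' : ∀ β : V3 → V3 → ℤ, ∑ a ∈ S', ∑ b ∈ S', Bct B w c a b * β a b =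
      ∑ a ∈ S', ∑ b ∈ S', B a b * β a b + w c * ∑ a ∈ S', ∑ b ∈ S', q a * q b * β a b := by
    intro β
    rw [mul_sum, ← sum_add_distrib]
    refine sum_congr rfl fun a ha => ?_
    rw [mul_sum, ← sum_add_distrib]
    refine sum_congr rfl fun b hb => ?_
    rw [hB' a ha b hb]; ring
  set Q : Fin 3 → ℤ := fun i => ∑ b ∈ S', q b * b i with hQ
  have E2' : ∀ i, c i = Q i + γ i := E2
  -- term 1
  have T1 : ∑ a ∈ S, (deg a - 3) * K a - ∑ a ∈ S', (deg a - 3) * (K a - B a c) =
      w c * (-(γ 0 + γ 1 + γ 2) - 3 * (m - 1)) := by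
    have h1 : ∑ a ∈ S', (deg a - 3) * (K a - B a c) =
        ∑ a ∈ S', (deg a - 3) * K a - w c * (Q 0 + Q 1 + Q 2 - 3 * m) := by
      have h2 : Q 0 + Q 1 + Q 2 - 3 * m = ∑ a ∈ S', (deg a - 3) * q a := by
        rw [hQ, ← E1, mul_sum, ← sum_add_distrib, ← sum_add_distrib, ← sum_sub_distrib]
        exact sum_congr rfl fun a _ => by unfold deg; ring
      rw [h2, mul_sum, ← sum_sub_distrib]
      exact sum_congr rfl fun a ha => by rw [hq'' a ha]; ring
    rw [h1, hS, hKc]
    have h3 : deg c = Q 0 + Q 1 + Q 2 + (γ 0 + γ 1 + γ 2) := by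
      unfold deg; rw [E2' 0, E2' 1, E2' 2]; ring
    rw [h3]; ring
  -- term 2
  have T2 : ∑ a ∈ S, ∑ b ∈ S, B a b - ∑ a ∈ S', ∑ b ∈ S', Bct B w c a b =
      -(w c * (m - 1) ^ 2) := by
    have h1 := hdbl fun _ _ => 1
    have h2 := hdbl' fun _ _ => 1
    simp only [mul_one] at h1 h2
    rw [h1, h2, hBc, E1]
    have h3 : ∑ a ∈ S', ∑ b ∈ S', q a * q b = m * m := by
      rw [← E1, sum_mul_sum]
    rw [h3]; ring
  -- term 3
  have T3 : ∑ a ∈ S, ∑ b ∈ S, B a b * (a 0 * b 1 + a 0 * b 2 + a 1 * b 2) -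
      ∑ a ∈ S', ∑ b ∈ S', Bct B w c a b * (a 0 * b 1 + a 0 * b 2 + a 1 * b 2) =
      -(w c * (γ 0 * γ 1 + γ 0 * γ 2 + γ 1 * γ 2)) := by
    rw [hdbl fun a b => a 0 * b 1 + a 0 * b 2 + a 1 * b 2,
      hdbl' fun a b => a 0 * b 1 + a 0 * b 2 + a 1 * b 2, hBc]
    have h1 : ∑ b ∈ S', q b * (c 0 * b 1 + c 0 * b 2 + c 1 * b 2) =
        c 0 * Q 1 + c 0 * Q 2 + c 1 * Q 2 := by
      rw [hQ, mul_sum, mul_sum, mul_sum, ← sum_add_distrib, ← sum_add_distrib]
      exact sum_congr rfl fun a _ => by ring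
    have h2 : ∑ a ∈ S', q a * (a 0 * c 1 + a 0 * c 2 + a 1 * c 2) =
        Q 0 * c 1 + Q 0 * c 2 + Q 1 * c 2 := by
      rw [hQ, sum_mul, sum_mul, sum_mul, ← sum_add_distrib, ← sum_add_distrib]
      exact sum_congr rfl fun a _ => by ring
    have h3 : ∑ a ∈ S', ∑ b ∈ S', q a * q b * (a 0 * b 1 + a 0 * b 2 + a 1 * b 2) =
        Q 0 * Q 1 + Q 0 * Q 2 + Q 1 * Q 2 := by
      rw [hQ, sum_mul_sum, sum_mul_sum, sum_mul_sum, ← sum_add_distrib, ← sum_add_distrib]
      refine sum_congr rfl fun a _ => ?_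
      rw [← sum_add_distrib, ← sum_add_distrib]
      exact sum_congr rfl fun b _ => by ring
    rw [h1, h2, h3, E2' 0, E2' 1, E2' 2]
    ring
  -- term 4
  have T4 : ∑ a ∈ S, ∑ i, cc S B a i - ∑ a ∈ S', ∑ i, cc S' (Bct B w c) a i =
      w c * (γ 0 + γ 1 + γ 2) - w c * m * (γ 0 + γ 1 + γ 2) := by
    have h1 : ∑ a ∈ S', ∑ i, cc S' (Bct B w c) a i =
        ∑ a ∈ S', ∑ i, cc S B a i + w c * m * (γ 0 + γ 1 + γ 2) := by
      have h2 : w c * m * (γ 0 + γ 1 + γ 2) = ∑ a ∈ S', w c * q a * (γ 0 + γ 1 + γ 2) := by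
        rw [← E1, mul_sum, sum_mul]
      rw [h2, ← sum_add_distrib]
      refine sum_congr rfl fun a ha => ?_
      rw [Fin.sum_univ_three, Fin.sum_univ_three, hcc a ha, hcc a ha, hcc a ha]
      ring
    rw [h1, hS, Fin.sum_univ_three, hγ, hγ, hγ]
    ring
  -- term 5
  have T5 : w c * (3 * m - m ^ 2) ≤ ∑ a ∈ S, ∑ b ∈ S with b ≠ a, B a b -
      ∑ a ∈ S', ∑ b ∈ S' with b ≠ a, Bct B w c a b := by
    rw [hfilt, hfilt]
    have h1 : ∑ a ∈ S', Bct B w c a a = ∑ a ∈ S', B a a + w c * ∑ a ∈ S', q a ^ 2 := by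
      rw [mul_sum, ← sum_add_distrib]
      exact sum_congr rfl fun a ha => by rw [hB' a ha a ha]; ring
    have h2 : ∑ a ∈ S, B a a = -w c + ∑ a ∈ S', B a a := by rw [hS, hBc]
    have h3 : m ≤ ∑ a ∈ S', q a ^ 2 := by
      rw [← E1]
      refine sum_le_sum fun a ha => ?_
      have := hqn a ha
      nlinarith [mul_nonneg this (sub_nonneg.2 this), Int.le_self_sq (q a)]
    rw [h1, h2]
    have h4 : 0 ≤ w c * (∑ a ∈ S', q a ^ 2 - m) := mul_nonneg (by omega) (by linarith)
    nlinarith [T2, h4]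
  unfold psi2
  have key : ∀ X X' Y Y' Z Z' U U' V V' : ℤ,
      (2 * X - 4 * Y - 2 * Z - 2 * U + V) - (2 * X' - 4 * Y' - 2 * Z' - 2 * U' + V') =
      2 * (X - X') - 4 * (Y - Y') - 2 * (Z - Z') - 2 * (U - U') + (V - V') := by
    intros; ring
  rw [← sub_nonneg]
  have h6 := key (∑ a ∈ S, (deg a - 3) * K a) (∑ a ∈ S', (deg a - 3) * (K a - B a c))
    (∑ a ∈ S, ∑ b ∈ S, B a b) (∑ a ∈ S', ∑ b ∈ S', Bct B w c a b)
    (∑ a ∈ S, ∑ b ∈ S, B a b * (a 0 * b 1 + a 0 * b 2 + a 1 * b 2))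
    (∑ a ∈ S', ∑ b ∈ S', Bct B w c a b * (a 0 * b 1 + a 0 * b 2 + a 1 * b 2))
    (∑ a ∈ S, ∑ i, cc S B a i) (∑ a ∈ S', ∑ i, cc S' (Bct B w c) a i)
    (∑ a ∈ S, ∑ b ∈ S with b ≠ a, B a b) (∑ a ∈ S', ∑ b ∈ S' with b ≠ a, Bct B w c a b)
  rw [T1, T2, T3, T4] at h6
  linarith [T5, h6]

end Pool.Agent.DUR.H30

end

/-! ### H30/Strb -/

section
/-! # STRB, STRC -/

set_option autoImplicit false
set_option linter.all false

namespace Pool.Agent.DUR.H30

open Finset

/-- STRB. -/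
theorem strb : StrbStatement := by
  intro T a b c hG hT hfr
  have hrot := hG.rot
  have hdet := hG.det1
  have hd := hdet _ _ _ hT
  have hab := ne12 hd
  have ha := add_ne_left hd
  have hb := add_ne_right hd
  have hC : ∀ {y z : V3}, (a + b, y, z) ∈ star a b T ↔ _ := fun {y z} =>
    star_c hrot hdet hab hfr (y := y) (z := z) ha hb
  have hR : ∀ {x y z : V3}, (x, y, z) ∈ star a b T → (y, z, x) ∈ star a b T := fun h =>
    star_rot hrot hdet hab h
  have hR' : ∀ {x y z : V3}, (x, y, z) ∈ star a b T → (z, x, y) ∈ star a b T := fun h => hR (hR h)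
  have hsw : ∀ {y : V3}, (a, b, y) ∈ T → (b, a, y) ∈ T → False := by
    intro y h1 h2
    have e1 := hdet _ _ _ h1
    have e2 := hdet _ _ _ h2
    rw [det3_swap, e1] at e2
    norm_num at e2
  have haa : ∀ {y : V3}, (a, b, a) ∈ T → False := fun h => ne31 (hdet _ _ _ h) rfl
  have hbb : ∀ {y : V3}, (b, a, b) ∈ T → False := fun h => ne31 (hdet _ _ _ h) rfl
  have hab' : (a, b, b) ∈ T → False := fun h => ne23 (hdet _ _ _ h) rfl
  have hba' : (b, a, a) ∈ T → False := fun h => ne23 (hdet _ _ _ h) rfl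
  constructor
  · intro x y z w h1 h2
    by_cases hx : x = a + b
    · subst hx
      rw [hC] at h1 h2
      rcases h1 with ⟨e1, h1⟩ | ⟨e1, h1⟩ | ⟨e1, h1⟩ | ⟨e1, h1⟩ <;>
        rcases h2 with ⟨e2, h2⟩ | ⟨e2, h2⟩ | ⟨e2, h2⟩ | ⟨e2, h2⟩
      · exact hG.uniq _ _ _ _ h1 h2
      · exact absurd (e1.symm.trans e2) hab
      · exact absurd rfl (ne31 (hdet _ _ _ (e1 ▸ h2)))
      · exact absurd rfl (ne23 (hdet _ _ _ (e1 ▸ h2)))
      · exact absurd (e2.symm.trans e1) hab
      · exact hG.uniq _ _ _ _ h1 h2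
      · exact absurd rfl (ne23 (hdet _ _ _ (e1 ▸ h2)))
      · exact absurd rfl (ne31 (hdet _ _ _ (e1 ▸ h2)))
      · exact absurd rfl (ne31 (hdet _ _ _ (e2 ▸ h1)))
      · exact absurd rfl (ne23 (hdet _ _ _ (e2 ▸ h1)))
      · rw [e1, e2]
      · exact (hsw h1 h2).elim
      · exact absurd rfl (ne23 (hdet _ _ _ (e2 ▸ h1)))
      · exact absurd rfl (ne31 (hdet _ _ _ (e2 ▸ h1)))
      · exact (hsw h2 h1).elim
      · rw [e1, e2]
    · by_cases hy : y = a + b
      · subst hy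
        have h1 := hR h1
        have h2 := hR h2
        rw [hC] at h1 h2
        rcases h1 with ⟨e1, h1⟩ | ⟨e1, h1⟩ | ⟨e1, h1⟩ | ⟨e1, h1⟩ <;>
          rcases h2 with ⟨e2, h2⟩ | ⟨e2, h2⟩ | ⟨e2, h2⟩ | ⟨e2, h2⟩
        · rw [e1, e2]
        · exact (hsw h2 h1).elim
        · exact absurd rfl (ne23 (hdet _ _ _ (e2 ▸ h1)))
        · exact absurd rfl (ne31 (hdet _ _ _ (e2 ▸ h1)))
        · exact (hsw h1 h2).elim
        · rw [e1, e2]
        · exact absurd rfl (ne31 (hdet _ _ _ (e2 ▸ h1)))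
        · exact absurd rfl (ne23 (hdet _ _ _ (e2 ▸ h1)))
        · exact absurd rfl (ne23 (hdet _ _ _ (e1 ▸ h2)))
        · exact absurd rfl (ne31 (hdet _ _ _ (e1 ▸ h2)))
        · exact hG.uniq _ _ _ _ h1 h2
        · exact absurd (e1.symm.trans e2) hab
        · exact absurd rfl (ne31 (hdet _ _ _ (e1 ▸ h2)))
        · exact absurd rfl (ne23 (hdet _ _ _ (e1 ▸ h2)))
        · exact absurd (e2.symm.trans e1) hab
        · exact hG.uniq _ _ _ _ h1 h2
      · obtain ⟨-, w1, h3, e3⟩ := star_n hrot hdet hab hx hy h1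
        obtain ⟨-, w2, h4, e4⟩ := star_n hrot hdet hab hx hy h2
        have e5 := hG.uniq _ _ _ _ h3 h4
        rw [e3, e4, e5]
  · -- opposite triangles
    have hbd : ∀ {i : Fin 3}, a i = 0 → b i = 0 → (a + b) i = 0 := fun h1 h2 => by
      rw [Pi.add_apply, h1, h2, add_zero]
    intro x y z h
    by_cases hx : x = a + b
    · subst hx
      rw [hC] at h
      rcases h with ⟨e, h⟩ | ⟨e, h⟩ | ⟨e, h⟩ | ⟨e, h⟩
      · subst e
        rcases hG.opp _ _ _ h with ⟨i, h1, h2⟩ | ⟨d, h1⟩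
        · exact Or.inl ⟨i, hbd h2 h1, h2⟩
        · exact Or.inr ⟨d, hR' (hC.2 (Or.inr (Or.inr (Or.inl ⟨rfl, h1⟩))))⟩
      · subst e
        rcases hG.opp _ _ _ h with ⟨i, h1, h2⟩ | ⟨d, h1⟩
        · exact Or.inl ⟨i, hbd h1 h2, h2⟩
        · exact Or.inr ⟨d, hR' (hC.2 (Or.inr (Or.inr (Or.inr ⟨rfl, h1⟩))))⟩
      · exact Or.inr ⟨b, hR' (hC.2 (Or.inr (Or.inl ⟨rfl, h⟩)))⟩
      · exact Or.inr ⟨a, hR' (hC.2 (Or.inl ⟨rfl, h⟩))⟩
    · by_cases hy : y = a + b
      · subst hy
        have h := hR h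
        rw [hC] at h
        rcases h with ⟨e, h⟩ | ⟨e, h⟩ | ⟨e, h⟩ | ⟨e, h⟩
        · exact Or.inr ⟨b, hC.2 (Or.inr (Or.inr (Or.inr ⟨rfl, h⟩)))⟩
        · exact Or.inr ⟨a, hC.2 (Or.inr (Or.inr (Or.inl ⟨rfl, h⟩)))⟩
        · subst e
          rcases hG.opp _ _ _ h with ⟨i, h1, h2⟩ | ⟨d, h1⟩
          · exact Or.inl ⟨i, h1, hbd h1 h2⟩
          · exact Or.inr ⟨d, hC.2 (Or.inl ⟨rfl, h1⟩)⟩
        · subst e
          rcases hG.opp _ _ _ h with ⟨i, h1, h2⟩ | ⟨d, h1⟩
          · exact Or.inl ⟨i, h1, hbd h2 h1⟩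
          · exact Or.inr ⟨d, hC.2 (Or.inr (Or.inl ⟨rfl, h1⟩))⟩
      · obtain ⟨⟨hn1, hn2⟩, w1, h3, -⟩ := star_n hrot hdet hab hx hy h
        rcases hG.opp _ _ _ h3 with h4 | ⟨d, h4⟩
        · exact Or.inl h4
        · right
          have hd4 := hdet _ _ _ h4
          have m1 := hrot _ _ _ h4
          have m2 := hrot _ _ _ m1
          by_cases hh : has a (y, x, d) ∧ has b (y, x, d)
          · obtain ⟨h5, h6⟩ := hh
            unfold has at h5 h6
            simp only at h5 h6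
            rcases h5 with h5 | h5 | h5 <;> rcases h6 with h6 | h6 | h6
            · exact absurd (h5.symm.trans h6) hab
            · exact absurd ⟨h6, h5⟩ hn2
            · subst h5; subst h6
              exact ⟨_, hR (hC.2 (Or.inl ⟨rfl, m2⟩))⟩
            · exact absurd ⟨h5, h6⟩ hn1
            · exact absurd (h5.symm.trans h6) hab
            · subst h5; subst h6
              exact ⟨_, hR (hC.2 (Or.inr (Or.inr (Or.inl ⟨rfl, m1⟩))))⟩
            · subst h5; subst h6
              exact ⟨_, hR (hC.2 (Or.inr (Or.inl ⟨rfl, m2⟩)))⟩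
            · subst h5; subst h6
              exact ⟨_, hR (hC.2 (Or.inr (Or.inr (Or.inr ⟨rfl, m1⟩))))⟩
            · exact absurd (h5.symm.trans h6) hab
          · exact ⟨d, (mem_star_iff hrot hdet hab).2 (Or.inl ⟨h4, hh⟩)⟩

theorem W_rot_nonneg {p q r : V3} {x : E3} {t : Tri} (h : Rot p q r t)
    (h1 : 0 ≤ W t.1 t.2.1 x) (h2 : 0 ≤ W t.2.1 t.2.2 x) (h3 : 0 ≤ W t.2.2 t.1 x) :
    0 ≤ W p q x ∧ 0 ≤ W q r x ∧ 0 ≤ W r p x := by
  rcases h with rfl | rfl | rfl
  · exact ⟨h1, h2, h3⟩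
  · exact ⟨h3, h1, h2⟩
  · exact ⟨h2, h3, h1⟩

/-- STRC. -/
theorem strc : StrcStatement := by
  intro T a b c hG hT x hx
  have hrot := hG.rot
  have hdet := hG.det1
  have hab := ne12 (hdet _ _ _ hT)
  have hM : ∀ {t : Tri}, t ∈ star a b T ↔ _ := fun {t} => mem_star_iff hrot hdet hab (t := t)
  obtain ⟨t, ht, h1, h2, h3⟩ := hG.cover x hx
  by_cases hh : has a t ∧ has b t
  · obtain ⟨z, ⟨h4, h5⟩ | ⟨h4, h5⟩⟩ := has_both hrot hab ht hh.1 hh.2
    · obtain ⟨w1, w2, w3⟩ := W_rot_nonneg h5 h1 h2 h3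
      have e1 := W_add_left a b z x
      have e2 := W_add_right a b z x
      have e3 := W_add_left a b b x
      have e4 := W_add_right a b a x
      have s1 := W_swap a b x
      have s2 := W_swap b z x
      have s3 := W_swap z a x
      have u1 := W_self a x
      have u2 := W_self b x
      rcases le_total (W b z x) (W z a x) with hle | hle
      · refine ⟨(a + b, b, z), hM.2 (Or.inr (Or.inl ⟨z, h4, Or.inr (Or.inl rfl)⟩)), ?_, ?_, ?_⟩
        · show 0 ≤ W (a + b) b x; linarith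
        · show 0 ≤ W b z x; linarith
        · show 0 ≤ W z (a + b) x; linarith
      · refine ⟨(a, a + b, z), hM.2 (Or.inr (Or.inl ⟨z, h4, Or.inl (Or.inl rfl)⟩)), ?_, ?_, ?_⟩
        · show 0 ≤ W a (a + b) x; linarith
        · show 0 ≤ W (a + b) z x; linarith
        · show 0 ≤ W z a x; linarith
    · obtain ⟨w1, w2, w3⟩ := W_rot_nonneg h5 h1 h2 h3
      have e1 := W_add_left a b z x
      have e2 := W_add_right a b z x
      have e3 := W_add_left a b a x
      have e4 := W_add_right a b b x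
      have s1 := W_swap b a x
      have s2 := W_swap a z x
      have s3 := W_swap z b x
      have u1 := W_self a x
      have u2 := W_self b x
      rcases le_total (W a z x) (W z b x) with hle | hle
      · refine ⟨(a + b, a, z), hM.2 (Or.inr (Or.inr ⟨z, h4, Or.inr (Or.inl rfl)⟩)), ?_, ?_, ?_⟩
        · show 0 ≤ W (a + b) a x; linarith
        · show 0 ≤ W a z x; linarith
        · show 0 ≤ W z (a + b) x; linarith
      · refine ⟨(b, a + b, z), hM.2 (Or.inr (Or.inr ⟨z, h4, Or.inl (Or.inl rfl)⟩)), ?_, ?_, ?_⟩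
        · show 0 ≤ W b (a + b) x; linarith
        · show 0 ≤ W (a + b) z x; linarith
        · show 0 ≤ W z b x; linarith
  · exact ⟨t, hM.2 (Or.inl ⟨ht, hh⟩), h1, h2, h3⟩

end Pool.Agent.DUR.H30

end
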