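import Pool.Agent.Lib.MP_524519_ag.DUR.Iface

set_option autoImplicit false

/-! ### H38/Lpos -/

section
/-! # Module LPOS: signs and boundary values of the lattice lengths -/

set_option autoImplicit false
set_option linter.unusedSectionVars false

namespace Pool.Agent.DUR

open Finset

namespace LposAux

theorem smul_apply (n : ℤ) (a : V3) (i : Fin 3) : (n • a) i = n * a i := rfl

theorem dot_sub (a b c : V3) : dot (a - b) c = dot a c - dot b c := by
  simp only [dot, Pi.sub_apply]; ring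

theorem dot_smul (n : ℤ) (a c : V3) : dot (n • a) c = n * dot a c := by
  simp only [dot, smul_apply]; ring

theorem det3_rot (a b c : V3) : det3 b c a = det3 a b c := by
  simp [det3, dot, cross]; ring

theorem det3_swap (a b c : V3) : det3 b a c = -det3 a b c := by
  simp [det3, dot, cross]; ring

theorem mem_rays {T : Finset Tri} {a b c : V3} (h : (a, b, c) ∈ T) : a ∈ rays T :=
  Finset.mem_image.2 ⟨_, h, rfl⟩

/-- If `a i = b i = 0` then `cross a b` is a multiple of `ev i`. -/
theorem det3_of_zero {a b : V3} {i : Fin 3} (ha : a i = 0) (hb : b i = 0) (c : V3) :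
    det3 a b c = cross a b i * c i := by
  fin_cases i <;> simp only [det3, dot, cross, Fin.zero_eta, Fin.mk_one, Fin.reduceFinMk,
    Matrix.cons_val_zero, Matrix.cons_val_one, Matrix.cons_val] at ha hb ⊢ <;>
    rw [ha, hb] <;> ring

theorem cross_zero {a b : V3} {i j : Fin 3} (hij : j ≠ i) (ha : a j = 0) (hb : b j = 0) :
    cross a b i = 0 := by
  have h : ∀ i j : Fin 3, j ≠ i → a j = 0 → b j = 0 → cross a b i = 0 := by
    intro i j hij ha hb
    match i, j with
    | 0, 0 => exact absurd rfl hij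
    | 1, 1 => exact absurd rfl hij
    | 2, 2 => exact absurd rfl hij
    | 0, 1 => simp [cross, ha, hb]
    | 0, 2 => simp [cross, ha, hb]
    | 1, 0 => simp [cross, ha, hb]
    | 1, 2 => simp [cross, ha, hb]
    | 2, 0 => simp [cross, ha, hb]
    | 2, 1 => simp [cross, ha, hb]
  exact h i j hij ha hb

theorem eq_zero_of_dot {a u : V3} (ha : ∀ i, 0 ≤ a i) (hu : ∀ i, 0 ≤ u i) (h : dot u a = 0)
    (i : Fin 3) : u i * a i = 0 := by
  have h0 := mul_nonneg (hu 0) (ha 0)
  have h1 := mul_nonneg (hu 1) (ha 1)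
  have h2 := mul_nonneg (hu 2) (ha 2)
  unfold dot at h
  fin_cases i <;> simp only [Fin.zero_eta, Fin.mk_one, Fin.reduceFinMk] <;> omega

theorem dot_single {u c : V3} {i : Fin 3} (h : ∀ j, j ≠ i → u j = 0) : dot u c = u i * c i := by
  unfold dot
  fin_cases i
  · rw [h 1 (by decide), h 2 (by decide)]; simp
  · rw [h 0 (by decide), h 2 (by decide)]; simp
  · rw [h 0 (by decide), h 1 (by decide)]; simp

theorem eq_smul_ev {u : V3} {i : Fin 3} (h : ∀ j, j ≠ i → u j = 0) : u = u i • ev i := by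
  funext j
  rw [smul_apply]
  by_cases hj : j = i
  · subst hj
    simp [ev]
  · rw [h j hj]
    simp [ev, hj]

theorem ell_le {A : Finset V3} {u : V3} (hu : u ∈ A) (k : V3) : ell A k ≤ dot u k := by
  unfold ell
  rw [dif_pos ⟨u, hu⟩]
  exact Finset.inf'_le (fun v => dot v k) hu

theorem vE_of_none {T : Finset Tri} (v : Tri → V3) {a b : V3} (h : ∀ c, (a, b, c) ∉ T) :
    vE T v a b = 0 := by
  unfold vE
  refine Finset.sum_eq_zero ?_
  rintro ⟨a', b', c'⟩ ht
  rw [Finset.mem_filter] at ht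
  obtain ⟨h1, h2, h3⟩ := ht
  simp only at h2 h3
  subst h2 h3
  exact absurd h1 (h c')

end LposAux

open LposAux

theorem lpos (hNpad : NpadStatement) (hEdge : EdgeStatement) : LposStatement := by
  intro A T v hN
  have hA := hNpad A T v hN
  have hG := hN.good
  obtain ⟨e1, e2, e3, e4, e5⟩ := hEdge T (ell A) v hA
  have hvn : ∀ a b c, (a, b, c) ∈ T → ∀ i, 0 ≤ v (a, b, c) i := fun a b c h i =>
    hN.nn _ (hN.mem _ h) i
  have hr1 : ∀ a b c, (a, b, c) ∈ T → a ∈ rays T := fun a b c h => mem_rays h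
  have hr2 : ∀ a b c, (a, b, c) ∈ T → b ∈ rays T := fun a b c h => mem_rays (hG.rot _ _ _ h)
  have hr3 : ∀ a b c, (a, b, c) ∈ T → c ∈ rays T := fun a b c h =>
    mem_rays (hG.rot _ _ _ (hG.rot _ _ _ h))
  have hn1 : ∀ a b c, (a, b, c) ∈ T → ∀ i, 0 ≤ a i := hG.nn
  have hn2 : ∀ a b c, (a, b, c) ∈ T → ∀ i, 0 ≤ b i := fun a b c h => hG.nn _ _ _ (hG.rot _ _ _ h)
  have hn3 : ∀ a b c, (a, b, c) ∈ T → ∀ i, 0 ≤ c i := fun a b c h =>
    hG.nn _ _ _ (hG.rot _ _ _ (hG.rot _ _ _ h))
  have q1 : ∀ a b c, (a, b, c) ∈ T → dot (v (a, b, c)) a = ell A a := fun a b c h =>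
    hA.eq _ h a (Or.inl rfl)
  have q2 : ∀ a b c, (a, b, c) ∈ T → dot (v (a, b, c)) b = ell A b := fun a b c h =>
    hA.eq _ h b (Or.inr (Or.inl rfl))
  have q3 : ∀ a b c, (a, b, c) ∈ T → dot (v (a, b, c)) c = ell A c := fun a b c h =>
    hA.eq _ h c (Or.inr (Or.inr rfl))
  -- the length in terms of the third vertex
  have hL : ∀ a b c, (a, b, c) ∈ T → dot (vE T v b a - vE T v a b) c = Lw T v a b := by
    intro a b c h
    have h1 : dot (cross a b) c = 1 := hG.det1 a b c h
    rw [e5 a b c h, dot_smul, h1, mul_one]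
  refine ⟨?_, ?_, ?_, ?_⟩
  · -- (i)
    have key : ∀ a b, (¬ ∃ i, a i = 0 ∧ b i = 0) → (∃ c, (a, b, c) ∈ T) → 0 ≤ Lw T v a b := by
      rintro a b hab ⟨c, hc⟩
      obtain ⟨d, hd⟩ := (hG.opp a b c hc).resolve_left hab
      have h1 := hL a b c hc
      rw [e3 a b c hc, e3 b a d hd, dot_sub, q3 a b c hc] at h1
      have h2 := hA.le _ hd c (hr3 a b c hc)
      linarith
    intro a b hab
    by_contra hcon
    have hne : Lw T v a b ≠ 0 := by
      intro h
      rw [h] at hcon
      exact hcon le_rfl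
    rcases e2 a b hne with h | h
    · exact hcon (key a b hab h)
    · refine hcon ?_
      rw [e1 a b]
      refine key b a ?_ h
      rintro ⟨i, h1, h2⟩
      exact hab ⟨i, h2, h1⟩
  · -- (ii)
    intro a b c i h ha hb
    have hdet : cross a b i * c i = 1 := by rw [← det3_of_zero ha hb]; exact hG.det1 a b c h
    have hci : c i = 1 := by
      have h1 : c i ∣ 1 := ⟨cross a b i, by rw [mul_comm]; exact hdet.symm⟩
      exact Int.eq_one_of_dvd_one (hn3 a b c h i) h1
    have hcr : cross a b i = 1 := by rw [hci, mul_one] at hdet; exact hdet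
    have hla : ell A a = 0 := hA.bd a (hr1 a b c h) ⟨i, ha⟩
    have hlb : ell A b = 0 := hA.bd b (hr2 a b c h) ⟨i, hb⟩
    have hda := eq_zero_of_dot (hn1 a b c h) (hvn a b c h) ((q1 a b c h).trans hla)
    have hdb := eq_zero_of_dot (hn2 a b c h) (hvn a b c h) ((q2 a b c h).trans hlb)
    have hv0 : ∀ j, j ≠ i → v (a, b, c) j = 0 := by
      intro j hj
      by_contra hne
      have h1 : a j = 0 := (mul_eq_zero.1 (hda j)).resolve_left hne
      have h2 : b j = 0 := (mul_eq_zero.1 (hdb j)).resolve_left hne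
      have h3 : cross a b i = 0 := cross_zero hj h1 h2
      rw [hcr] at h3
      exact one_ne_zero h3
    have hve := eq_smul_ev hv0
    have hz : 0 ≤ v (a, b, c) i := hvn a b c h i
    have hlc : ell A c = v (a, b, c) i := by
      rw [← q3 a b c h, dot_single hv0, hci, mul_one]
    have hic : (icpt A i : ℤ) = v (a, b, c) i := by
      have h1 : (v (a, b, c) i).toNat ∈ {n : ℕ | (n : ℤ) • ev i ∈ A} := by
        show ((v (a, b, c) i).toNat : ℤ) • ev i ∈ A
        rw [Int.toNat_of_nonneg hz, ← hve]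
        exact hN.mem _ h
      have h2 : ∀ n ∈ {n : ℕ | (n : ℤ) • ev i ∈ A}, (v (a, b, c) i).toNat ≤ n := by
        intro n hn
        have h3 := ell_le hn c
        rw [hlc, dot_smul] at h3
        have h4 : dot (ev i) c = 1 := by
          rw [dot_single (i := i) (fun j hj => by simp [ev, hj]), hci]
          simp [ev]
        rw [h4, mul_one] at h3
        omega
      have h5 : icpt A i = (v (a, b, c) i).toNat := by
        unfold icpt
        exact le_antisymm (Nat.sInf_le h1) (h2 _ (Nat.sInf_mem ⟨_, h1⟩))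
      rw [h5, Int.toNat_of_nonneg hz]
    refine ⟨by rw [hic]; exact hve, ?_⟩
    have hnone : ∀ d, (b, a, d) ∉ T := by
      intro d hd
      have h1 := hG.det1 b a d hd
      rw [det3_swap, det3_of_zero ha hb, hcr, one_mul] at h1
      have h2 := hn3 b a d hd i
      omega
    have h1 := e5 a b c h
    rw [vE_of_none v hnone, e3 a b c h, zero_sub] at h1
    have h2 := congrFun h1 i
    rw [smul_apply, hcr, mul_one] at h2
    rw [← h2, hic]
    rfl
  · -- (iii)
    have key : ∀ a b c d, (a, b, c) ∈ T → (b, a, d) ∈ T → (∃ i, a i = 0) → (∀ i, a ≠ ev i) →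
        (∀ i, 0 < b i) → Lw T v a b = 0 := by
      rintro a b c d hc hd ⟨i, hi⟩ hne hb
      have hla : ell A a = 0 := hA.bd a (hr1 a b c hc) ⟨i, hi⟩
      have ha0 := hn1 a b c hc
      -- the other coordinates of `a` are positive
      have hpos : ∀ j, j ≠ i → a j ≠ 0 := by
        intro j hj haj
        obtain ⟨k, hki, hkj⟩ : ∃ k : Fin 3, k ≠ i ∧ k ≠ j := by
          revert hj
          fin_cases i <;> fin_cases j <;> decide
        have hall : ∀ l, l ≠ k → a l = 0 := by
          intro l hl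
          have : l = i ∨ l = j := by
            revert hj hki hkj hl
            clear haj hi hne ha0 hla
            revert i j k l
            decide
          rcases this with rfl | rfl
          · exact hi
          · exact haj
        have h1 := eq_smul_ev hall
        have h2 : det3 a b c = a k * det3 (ev k) b c := by
          conv_lhs => rw [h1]
          simp [det3, dot, cross, smul_apply]; ring
        have h3 : a k = 1 := by
          refine Int.eq_one_of_dvd_one (ha0 k) ⟨det3 (ev k) b c, ?_⟩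
          rw [← h2]; exact (hG.det1 a b c hc).symm
        refine hne k ?_
        rw [h1, h3, one_smul]
      have hv0 : ∀ j, j ≠ i → v (a, b, c) j = 0 := fun j hj =>
        (mul_eq_zero.1 (eq_zero_of_dot ha0 (hvn a b c hc) ((q1 a b c hc).trans hla) j)).resolve_right
          (hpos j hj)
      have hv0' : ∀ j, j ≠ i → v (b, a, d) j = 0 := fun j hj =>
        (mul_eq_zero.1 (eq_zero_of_dot ha0 (hvn b a d hd) ((q2 b a d hd).trans hla) j)).resolve_right
          (hpos j hj)
      have h1 : v (a, b, c) i * b i = ell A b := by rw [← q2 a b c hc, dot_single hv0]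
      have h2 : v (b, a, d) i * b i = ell A b := by rw [← q1 b a d hd, dot_single hv0']
      have h3 : v (a, b, c) = v (b, a, d) := by
        funext j
        by_cases hj : j = i
        · subst hj
          exact mul_right_cancel₀ (hb j).ne' (h1.trans h2.symm)
        · rw [hv0 j hj, hv0' j hj]
      have h4 := hL a b c hc
      rw [e3 a b c hc, e3 b a d hd, h3, sub_self] at h4
      rw [← h4]
      simp [dot]
    intro a b _ _ ha hne hb
    by_contra hcon
    have hno : ¬ ∃ i, a i = 0 ∧ b i = 0 := by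
      rintro ⟨i, _, h⟩
      exact (hb i).ne' h
    have hno' : ¬ ∃ i, b i = 0 ∧ a i = 0 := by
      rintro ⟨i, h, _⟩
      exact (hb i).ne' h
    rcases e2 a b hcon with ⟨c, hc⟩ | ⟨c, hc⟩
    · obtain ⟨d, hd⟩ := (hG.opp a b c hc).resolve_left hno
      exact hcon (key a b c d hc hd ha hne hb)
    · obtain ⟨d, hd⟩ := (hG.opp b a c hc).resolve_left hno'
      exact hcon (key a b d c hd hc ha hne hb)
  · -- (iv)
    have key : ∀ a b, (∃ i, a i = 0) → (∃ i, b i = 0) → (∃ c, (a, b, c) ∈ T) →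
        ∃ i, a i = 0 ∧ b i = 0 := by
      rintro a b ha hb ⟨c, hc⟩
      by_contra hno
      have hla : ell A a = 0 := hA.bd a (hr1 a b c hc) ha
      have hlb : ell A b = 0 := hA.bd b (hr2 a b c hc) hb
      have hda := eq_zero_of_dot (hn1 a b c hc) (hvn a b c hc) ((q1 a b c hc).trans hla)
      have hdb := eq_zero_of_dot (hn2 a b c hc) (hvn a b c hc) ((q2 a b c hc).trans hlb)
      refine hN.zero ?_
      have h0 : v (a, b, c) = 0 := by
        funext i
        by_contra hne
        exact hno ⟨i, (mul_eq_zero.1 (hda i)).resolve_left hne,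
          (mul_eq_zero.1 (hdb i)).resolve_left hne⟩
      rw [← h0]
      exact hN.mem _ hc
    intro a b ha hb hne
    rcases e2 a b hne with h | h
    · exact key a b ha hb h
    · obtain ⟨i, h1, h2⟩ := key b a hb ha h
      exact ⟨i, h2, h1⟩

theorem succ (hNpad : NpadStatement) (hEdge : EdgeStatement) (_ : LposStatement) :
    SuccStatement := by
  intro A T v hN a b ha hb hL
  classical
  have hA := hNpad A T v hN
  have hG := hN.good
  obtain ⟨e1, e2, e3, e4, e5⟩ := hEdge T (ell A) v hA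
  have hprev : ∀ x, (∃ c, (a, x, c) ∈ T) → ∃ d, (a, d, x) ∈ T := by
    rintro x ⟨c, hc⟩
    have hno : ¬ ∃ i, a i = 0 ∧ x i = 0 := by
      rintro ⟨i, h, _⟩
      exact (ha i).ne' h
    obtain ⟨d, hd⟩ := (hG.opp a x c hc).resolve_left hno
    exact ⟨d, hG.rot _ _ _ hd⟩
  have hvE : ∀ x d, (∃ c, (a, x, c) ∈ T) → (a, d, x) ∈ T → vE T v x a = vE T v a d := by
    rintro x d _ hd
    have h1 : (x, a, d) ∈ T := hG.rot _ _ _ (hG.rot _ _ _ hd)
    rw [e3 a d x hd, e3 x a d h1, e4 x a d h1]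
  have hsm : ∀ x, (∃ c, (a, x, c) ∈ T) → (Lw T v a x = 0 ↔ vE T v x a = vE T v a x) := by
    rintro x ⟨c, hc⟩
    have h1 := e5 a x c hc
    constructor
    · intro h
      rw [h, zero_smul, sub_eq_zero] at h1
      exact h1
    · intro h
      rw [h, sub_self] at h1
      have h2 : dot (Lw T v a x • cross a x) c = 0 := by rw [← h1]; simp [dot]
      have h3 : dot (cross a x) c = 1 := hG.det1 a x c hc
      rw [dot_smul, h3, mul_one] at h2
      exact h2
  by_contra hcon
  push Not at hcon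
  let S : Finset V3 := ((T.filter fun t => t.1 = a).image fun t => t.2.1).filter
    fun x => vE T v a x = vE T v b a
  have hS : ∀ x, x ∈ S ↔ (∃ c, (a, x, c) ∈ T) ∧ vE T v a x = vE T v b a := by
    intro x
    simp only [S, Finset.mem_filter, Finset.mem_image]
    constructor
    · rintro ⟨⟨⟨a', x', c'⟩, ⟨h1, h2⟩, h3⟩, h4⟩
      simp only at h2 h3
      subst h2 h3
      exact ⟨⟨c', h1⟩, h4⟩
    · rintro ⟨⟨c, hc⟩, h4⟩
      exact ⟨⟨(a, x, c), ⟨hc, rfl⟩, rfl⟩, h4⟩
  have hbS : b ∉ S := by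
    intro h
    exact hL ((hsm b hb).2 ((hS b).1 h).2.symm)
  let pr : V3 → V3 := fun x => if h : ∃ d, (a, d, x) ∈ T then h.choose else 0
  have hpr : ∀ x, (∃ c, (a, x, c) ∈ T) → (a, pr x, x) ∈ T := by
    intro x hx
    have h := hprev x hx
    simp only [pr, dif_pos h]
    exact h.choose_spec
  have hmaps : ∀ x ∈ S, pr x ∈ S := by
    intro x hx
    obtain ⟨h1, h2⟩ := (hS x).1 hx
    have h3 := hpr x h1
    have hxb : x ≠ b := fun h => hbS (h ▸ hx)
    have h4 : Lw T v a x = 0 := by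
      by_contra hne
      obtain ⟨c, hc⟩ := h1
      exact hcon x c hc hne hxb h2
    refine (hS _).2 ⟨⟨x, h3⟩, ?_⟩
    rw [← hvE x _ h1 h3, (hsm x h1).1 h4, h2]
  have hinj : ∀ x y, (∃ c, (a, x, c) ∈ T) → (∃ c, (a, y, c) ∈ T) → pr x = pr y → x = y := by
    intro x y hx hy h
    have h1 := hpr x hx
    have h2 := hpr y hy
    rw [← h] at h2
    exact hG.uniq _ _ _ _ h1 h2
  have hpb : pr b ∈ S := (hS _).2 ⟨⟨b, hpr b hb⟩, (hvE b _ hb (hpr b hb)).symm⟩
  have hsurj : S.image pr = S := by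
    refine Finset.eq_of_subset_of_card_le ?_ ?_
    · intro y hy
      obtain ⟨x, hx, rfl⟩ := Finset.mem_image.1 hy
      exact hmaps x hx
    · rw [Finset.card_image_of_injOn]
      intro x hx y hy h
      exact hinj x y ((hS x).1 hx).1 ((hS y).1 hy).1 h
  rw [← hsurj] at hpb
  obtain ⟨x, hx, h1⟩ := Finset.mem_image.1 hpb
  have h2 := hinj x b ((hS x).1 hx).1 hb h1
  exact hbS (h2 ▸ hx)

end Pool.Agent.DUR

end

/-! ### H43/Brgb -/

section
/-! # BRGB: the interior of the Newton polyhedron -/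

set_option autoImplicit false

namespace Pool.Agent.DUR.H43

open Pool.Agent.DUR Finset

theorem rd_continuous (r : V3) : Continuous fun x : E3 => rd r x := by
  unfold rd
  fun_prop

theorem brgb (h1 : BrgaStatement) : BrgbStatement := by
  intro A T v hNP x
  constructor
  · intro hx r hr
    have hev : ∀ᶠ ε in nhdsWithin (0 : ℝ) (Set.Ioi 0), (fun i => x i - ε : E3) ∈ PA A := by
      have hc : ContinuousAt (fun ε : ℝ => (fun i => x i - ε : E3)) 0 := by
        apply Continuous.continuousAt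
        fun_prop
      have h0 : (fun i => x i - (0 : ℝ) : E3) ∈ interior (PA A) := by
        have : (fun i => x i - (0 : ℝ) : E3) = x := by
          funext i
          simp
        rw [this]
        exact hx
      have h2 := hc.preimage_mem_nhds (isOpen_interior.mem_nhds h0)
      refine Filter.Eventually.filter_mono nhdsWithin_le_nhds ?_
      filter_upwards [h2] with ε hε
      exact interior_subset hε
    obtain ⟨ε, hε1, hε2⟩ := (hev.and self_mem_nhdsWithin).exists
    have hε2' : 0 < ε := hε2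
    have h3 := (h1 A T v hNP _).1 hε1 r hr
    obtain ⟨t, ht, rfl⟩ := Finset.mem_image.1 hr
    obtain ⟨a, b, c⟩ := t
    have hnn := hNP.good.nn a b c ht
    have hdet := hNP.good.det1 a b c ht
    have hpos : 0 < a 0 + a 1 + a 2 := by
      by_contra hcon
      have h00 := hnn 0
      have h01 := hnn 1
      have h02 := hnn 2
      have e0 : a 0 = 0 := by omega
      have e1 : a 1 = 0 := by omega
      have e2 : a 2 = 0 := by omega
      simp [det3, dot, cross, e0, e1, e2] at hdet
    have hpos' : (0 : ℝ) < (a 0 : ℝ) + a 1 + a 2 := by exact_mod_cast hpos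
    have h4 : rd a (fun i => x i - ε : E3) = rd a x - ε * ((a 0 : ℝ) + a 1 + a 2) := by
      unfold rd
      ring
    have h5 : 0 < ε * ((a 0 : ℝ) + a 1 + a 2) := mul_pos hε2' hpos'
    have h6 : (ell A a : ℝ) ≤ rd a x - ε * ((a 0 : ℝ) + a 1 + a 2) := by
      rw [← h4]
      exact h3
    show (ell A a : ℝ) < rd a x
    linarith
  · intro hx
    have hopen : IsOpen {y : E3 | ∀ r ∈ rays T, (ell A r : ℝ) < rd r y} := by
      have : {y : E3 | ∀ r ∈ rays T, (ell A r : ℝ) < rd r y} =
          ⋂ r ∈ rays T, {y : E3 | (ell A r : ℝ) < rd r y} := by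
        ext y
        simp
      rw [this]
      exact isOpen_biInter_finset fun r _ => isOpen_lt continuous_const (rd_continuous r)
    have hsub : {y : E3 | ∀ r ∈ rays T, (ell A r : ℝ) < rd r y} ⊆ PA A := by
      intro y hy
      exact (h1 A T v hNP y).2 fun r hr => (hy r hr).le
    exact interior_maximal hsub hopen hx

end Pool.Agent.DUR.H43

end

/-! ### H45/Brka -/

section
set_option autoImplicit false

namespace Pool.Agent.DUR

open Finset

namespace H45

theorem rd_sum {ι : Type*} (s : Finset ι) (f : ι → V3) (x : E3) :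
    rd (∑ i ∈ s, f i) x = ∑ i ∈ s, rd (f i) x := by
  classical
  induction s using Finset.induction_on with
  | empty => simp [rd]
  | insert i s hi ih =>
    rw [Finset.sum_insert hi, Finset.sum_insert hi, ← ih]
    simp only [rd, Pi.add_apply]
    push_cast
    ring

theorem dot_sum {ι : Type*} (u : V3) (s : Finset ι) (f : ι → V3) :
    dot u (∑ i ∈ s, f i) = ∑ i ∈ s, dot u (f i) := by
  classical
  induction s using Finset.induction_on with
  | empty => simp [dot]
  | insert i s hi ih =>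
    rw [Finset.sum_insert hi, Finset.sum_insert hi, ← ih]
    simp only [dot, Pi.add_apply]
    ring

theorem dot_smul (u b : V3) (n : ℤ) : dot u (n • b) = n * dot u b := by
  simp only [dot, Pi.smul_apply, smul_eq_mul]
  ring

/-- Coordinates of a linear form. -/
theorem rd_eq (n a b c : V3) (x : E3) (h : det3 a b c = 1) :
    rd n x = W b c x * dot n a + W c a x * dot n b + W a b x * dot n c := by
  have hR : ((det3 a b c : ℤ) : ℝ) = 1 := by rw [h]; norm_num
  simp only [rd, W, cross, dot, det3, Matrix.cons_val_zero, Matrix.cons_val_one,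
    Matrix.cons_val] at hR ⊢
  push_cast at hR ⊢
  linear_combination (-((n 0 : ℝ) * x 0 + (n 1 : ℝ) * x 1 + (n 2 : ℝ) * x 2)) * hR

theorem W_anti (a b : V3) (x : E3) : W b a x = -W a b x := by
  simp only [rd, W, cross, Matrix.cons_val_zero, Matrix.cons_val_one, Matrix.cons_val]
  push_cast
  ring

theorem det3_ident (a b c η : V3) (x : E3) :
    W a b x * det3 a c η - W a c x * det3 a b η = det3 a b c * rd (cross η a) x := by
  simp only [rd, W, cross, dot, det3, Matrix.cons_val_zero, Matrix.cons_val_one,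
    Matrix.cons_val]
  push_cast
  ring

theorem cross_ne {a b c : V3} (h : det3 a b c = 1) : cross a b ≠ 0 := by
  intro e
  rw [det3, e] at h
  simp [dot] at h

theorem W_ne {a b c : V3} {x : E3} (hx : Gen x) (h : det3 a b c = 1) : W a b x ≠ 0 :=
  hx _ (cross_ne h)

theorem det3_rot (a b c : V3) : det3 b c a = det3 a b c := by
  simp only [cross, dot, det3, Matrix.cons_val_zero, Matrix.cons_val_one, Matrix.cons_val]
  ring

section

variable {T : Finset Tri} {l : V3 → ℤ} {v : Tri → V3}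

theorem alg1 {g wq wr yq yr D : ℝ} (h : wq * yr - wr * yq = D) (hq : wq ≠ 0) (hr : wr ≠ 0)
    (hD : D ≠ 0) : g / (wq * -wr) = (-1 / D) * ((yr / wr - yq / wq) * g) := by
  subst h
  field_simp

theorem alg2 {g wq wr u uq ur X : ℝ} (h : u = X + -wr * uq + wq * ur) (hq : wq ≠ 0)
    (hr : wr ≠ 0) : g * X / (wq * -wr) = u * (g / (wq * -wr)) + (ur / wr - uq / wq) * g := by
  subst h
  field_simp
  ring

theorem alg3 {g wq wr lp lq lr X : ℝ} (h : g = X * lp + -wr * lq + wq * lr) (hq : wq ≠ 0)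
    (hr : wr ≠ 0) : g ^ 2 / (wq * -wr) = lp * (g * X / (wq * -wr)) - (lr / wr - lq / wq) * g := by
  have h2 : g ^ 2 = g * (X * lp + -wr * lq + wq * lr) := by rw [← h]; ring
  rw [h2]
  field_simp
  ring

theorem mem_rays {T : Finset Tri} {a : V3} : a ∈ rays T ↔ ∃ t ∈ T, t.1 = a := by
  simp [rays]

theorem gg_eq (hA : Adm T l v) (x : E3) {t : Tri} (ht : t ∈ T) : rd (v t) x = gg l x t := by
  have hd := hA.good.det1 t.1 t.2.1 t.2.2 ht
  rw [rd_eq (v t) _ _ _ x hd, hA.eq t ht t.1 (Or.inl rfl), hA.eq t ht t.2.1 (Or.inr (Or.inl rfl)),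
    hA.eq t ht t.2.2 (Or.inr (Or.inr rfl))]
  rfl

theorem edge_all (h1 : EdgeStatement) (hA : Adm T l v) (a b : V3) :
    vE T v b a - vE T v a b = Lw T v a b • cross a b := by
  obtain ⟨e1, e2, e3, e4, e5⟩ := h1 T l v hA
  by_cases h : ∃ c, (a, b, c) ∈ T
  · obtain ⟨c, hc⟩ := h
    exact e5 a b c hc
  by_cases h' : ∃ c, (b, a, c) ∈ T
  · obtain ⟨c, hc⟩ := h'
    have := e5 b a c hc
    rw [e1 b a] at this
    have hcr : cross b a = -cross a b := by
      ext i
      fin_cases i <;> simp [cross] <;> ring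
    rw [hcr, smul_neg] at this
    rw [← neg_sub, this, neg_neg]
  · have hL : Lw T v a b = 0 := by
      by_contra hne
      rcases e2 a b hne with h2 | h2
      · exact h h2
      · exact h' h2
    have hz : ∀ p q : V3, (¬ ∃ c, (p, q, c) ∈ T) → vE T v p q = 0 := by
      intro p q hpq
      unfold vE
      rw [Finset.filter_eq_empty_iff.mpr, Finset.sum_empty]
      rintro ⟨x, y, z⟩ ht ⟨rfl, rfl⟩
      exact hpq ⟨z, ht⟩
    rw [hz a b h, hz b a h', hL, zero_smul, sub_zero]

/-- The regrouping lemma. -/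
theorem key (h1 : EdgeStatement) (hA : Adm T l v) (x : E3) (a : V3)
    (G : V3 → ℝ) :
    ∑ t ∈ T with t.1 = a, (G t.2.2 - G t.2.1) * gg l x t =
      ∑ b ∈ rays T, (Lw T v a b : ℝ) * (G b * W a b x) := by
  obtain ⟨e1, e2, e3, e4, e5⟩ := h1 T l v hA
  have rot := hA.good.rot
  have hin1 : ∀ t ∈ T.filter (fun t => t.1 = a), t.2.1 ∈ rays T := by
    rintro ⟨p, q, r⟩ ht
    exact mem_rays.mpr ⟨_, rot _ _ _ (Finset.mem_filter.mp ht).1, rfl⟩
  have hin2 : ∀ t ∈ T.filter (fun t => t.1 = a), t.2.2 ∈ rays T := by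
    rintro ⟨p, q, r⟩ ht
    exact mem_rays.mpr ⟨_, rot _ _ _ (rot _ _ _ (Finset.mem_filter.mp ht).1), rfl⟩
  have s1 : ∑ t ∈ T with t.1 = a, G t.2.1 * gg l x t =
      ∑ b ∈ rays T, G b * rd (vE T v a b) x := by
    rw [← Finset.sum_fiberwise_of_maps_to hin1]
    refine Finset.sum_congr rfl fun b _ => ?_
    rw [Finset.filter_filter, vE, rd_sum, Finset.mul_sum]
    refine Finset.sum_congr rfl fun t ht => ?_
    obtain ⟨ht, _, hb⟩ := Finset.mem_filter.mp ht
    rw [hb, gg_eq hA x ht]
  have s2 : ∑ t ∈ T with t.1 = a, G t.2.2 * gg l x t =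
      ∑ b ∈ rays T, G b * rd (vE T v b a) x := by
    rw [← Finset.sum_fiberwise_of_maps_to hin2]
    refine Finset.sum_congr rfl fun b _ => ?_
    rw [Finset.filter_filter, vE, rd_sum, Finset.mul_sum]
    refine Finset.sum_nbij' (fun t => (t.2.2, t.1, t.2.1)) (fun t => (t.2.1, t.2.2, t.1))
      ?_ ?_ ?_ ?_ ?_
    · rintro ⟨p, q, r⟩ ht
      obtain ⟨ht, hp, hr⟩ := Finset.mem_filter.mp ht
      exact Finset.mem_filter.mpr ⟨rot _ _ _ (rot _ _ _ ht), hr, hp⟩
    · rintro ⟨p, q, r⟩ ht
      obtain ⟨ht, hp, hr⟩ := Finset.mem_filter.mp ht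
      exact Finset.mem_filter.mpr ⟨rot _ _ _ ht, hr, hp⟩
    · intro t _; rfl
    · intro t _; rfl
    · rintro ⟨p, q, r⟩ ht
      obtain ⟨ht, hp, hr⟩ := Finset.mem_filter.mp ht
      have h4 : v (p, q, r) = v (r, p, q) := e4 r p q (rot _ _ _ (rot _ _ _ ht))
      have hr' : r = b := hr
      show G r * gg l x (p, q, r) = G b * rd (v (r, p, q)) x
      rw [hr', ← gg_eq hA x (by rw [← hr']; exact ht), ← hr', h4]
  simp only [sub_mul]
  rw [Finset.sum_sub_distrib, s1, s2, ← Finset.sum_sub_distrib]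
  refine Finset.sum_congr rfl fun b _ => ?_
  have h3 : rd (vE T v b a) x - rd (vE T v a b) x = Lw T v a b * W a b x := by
    have h4 := edge_all h1 hA a b
    have h5 : rd (vE T v b a) x - rd (vE T v a b) x = rd (vE T v b a - vE T v a b) x := by
      simp only [rd, Pi.sub_apply]
      push_cast
      ring
    rw [h5, h4]
    simp only [rd, W, Pi.smul_apply, smul_eq_mul]
    push_cast
    ring
  rw [← mul_sub, h3]
  ring

end

end H45

open H45 in
/-- BRKA. -/
theorem brka (h1 : EdgeStatement) : BrkaStatement := by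
  intro T l v e hA hB x hx hpos a ha
  have hdet := hA.good.det1
  obtain ⟨e1, e2, e3, e4, e5⟩ := h1 T l v hA
  obtain ⟨⟨a', b0, c0⟩, ht0, ha'⟩ := mem_rays.mp ha
  have ha'' : a' = a := ha'
  subst ha''
  have hd0 := hdet _ _ _ ht0
  -- facts for a triple
  have hne : ∀ p q r, (p, q, r) ∈ T → W p q x ≠ 0 ∧ W p r x ≠ 0 := by
    intro p q r ht
    have h2 : W r p x ≠ 0 := W_ne hx (c := q) (by rw [← det3_rot]; exact hdet _ _ _ ht)
    refine ⟨W_ne hx (hdet _ _ _ ht), fun h6 => h2 ?_⟩
    rw [W_anti, h6, neg_zero]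
  -- parallel neighbours
  have hL0 : ∀ b, W a' b x = 0 → Lw T v a' b = 0 := by
    intro b hb
    by_contra hne'
    rcases e2 a' b hne' with ⟨c, hc⟩ | ⟨c, hc⟩
    · exact (hne _ _ _ hc).1 hb
    · apply (hne _ _ _ hc).1
      show W b a' x = 0
      rw [W_anti, hb, neg_zero]
  have hLG : ∀ f : V3 → ℝ, ∑ b ∈ rays T, (Lw T v a' b : ℝ) * ((f b / W a' b x) * W a' b x) =
      ∑ b ∈ rays T, (Lw T v a' b : ℝ) * f b := by
    intro f
    refine Finset.sum_congr rfl fun b _ => ?_
    by_cases hw : W a' b x = 0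
    · rw [hL0 b hw]; simp
    · rw [div_mul_cancel₀ _ hw]
  have hlin : ∀ u : V3, ∑ b ∈ rays T, (Lw T v a' b : ℝ) * (dot u b : ℝ) = e a' * dot u a' := by
    intro u
    have h2 := congrArg (dot u) (hB a' ha)
    rw [dot_sum, dot_smul] at h2
    simp only [dot_smul] at h2
    exact_mod_cast h2
  -- first
  have hD : rd (cross c0 a') x ≠ 0 := W_ne hx (by rw [← det3_rot]; exact hd0)
  have p1 : ∑ t ∈ T with t.1 = a', gg l x t / (W t.1 t.2.1 x * W t.2.2 t.1 x) = 0 := by
    have h2 := key h1 hA x a' (fun b => (dot (cross c0 a') b : ℝ) / W a' b x)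
    have h3 := hLG (fun b => (dot (cross c0 a') b : ℝ))
    rw [h3, hlin] at h2
    have h4 : dot (cross c0 a') a' = 0 := by
      simp only [cross, dot, Matrix.cons_val_zero, Matrix.cons_val_one, Matrix.cons_val]
      ring
    rw [h4, Int.cast_zero, mul_zero] at h2
    have h5 : ∑ t ∈ T with t.1 = a', gg l x t / (W t.1 t.2.1 x * W t.2.2 t.1 x) =
        (-1 / rd (cross c0 a') x) * ∑ t ∈ T with t.1 = a',
          (((dot (cross c0 a') t.2.2 : ℝ) / W a' t.2.2 x) - (dot (cross c0 a') t.2.1 : ℝ) /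
            W a' t.2.1 x) * gg l x t := by
      rw [Finset.mul_sum]
      refine Finset.sum_congr rfl ?_
      rintro ⟨p, q, r⟩ ht1
      obtain ⟨ht, hp⟩ := Finset.mem_filter.mp ht1
      clear ht1
      have hp' : p = a' := hp
      subst hp'
      obtain ⟨hw1, hw2'⟩ := hne p q r ht
      have h7 := det3_ident p q r c0 x
      have h8 : det3 p q r = 1 := hdet _ _ _ ht
      rw [h8, Int.cast_one, one_mul] at h7
      have h9 : det3 p r c0 = dot (cross c0 p) r := by
        simp only [cross, dot, det3, Matrix.cons_val_zero, Matrix.cons_val_one, Matrix.cons_val]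
        ring
      have h10 : det3 p q c0 = dot (cross c0 p) q := by
        simp only [cross, dot, det3, Matrix.cons_val_zero, Matrix.cons_val_one, Matrix.cons_val]
        ring
      rw [h9, h10] at h7
      show gg l x (p, q, r) / (W p q x * W r p x) = (-1 / rd (cross c0 p) x) *
        (((dot (cross c0 p) r : ℝ) / W p r x - (dot (cross c0 p) q : ℝ) / W p q x) *
          gg l x (p, q, r))
      rw [W_anti p r x]
      exact alg1 h7 hw1 hw2' hD
    rw [h5, h2, mul_zero]
  -- second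
  obtain ⟨u, hu⟩ : ∃ u, u = cross b0 c0 := ⟨_, rfl⟩
  have hua : dot u a' = 1 := by
    rw [hu]
    have : dot (cross b0 c0) a' = det3 b0 c0 a' := rfl
    rw [this, det3_rot]
    exact hd0
  have p2 : ∑ t ∈ T with t.1 = a', gg l x t * W t.2.1 t.2.2 x /
      (W t.1 t.2.1 x * W t.2.2 t.1 x) = e a' := by
    have h2 := key h1 hA x a' (fun b => (dot u b : ℝ) / W a' b x)
    have h3 := hLG (fun b => (dot u b : ℝ))
    rw [h3, hlin, hua, Int.cast_one, mul_one] at h2
    have h5 : ∑ t ∈ T with t.1 = a', gg l x t * W t.2.1 t.2.2 x /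
        (W t.1 t.2.1 x * W t.2.2 t.1 x) =
        rd u x * (∑ t ∈ T with t.1 = a', gg l x t / (W t.1 t.2.1 x * W t.2.2 t.1 x)) +
        ∑ t ∈ T with t.1 = a',
          (((dot u t.2.2 : ℝ) / W a' t.2.2 x) - (dot u t.2.1 : ℝ) / W a' t.2.1 x) * gg l x t := by
      rw [Finset.mul_sum, ← Finset.sum_add_distrib]
      refine Finset.sum_congr rfl ?_
      rintro ⟨p, q, r⟩ ht1
      obtain ⟨ht, hp⟩ := Finset.mem_filter.mp ht1
      clear ht1
      have hp' : p = a' := hp
      subst hp'
      obtain ⟨hw1, hw2'⟩ := hne p q r ht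
      have h8 : det3 p q r = 1 := hdet _ _ _ ht
      have h9 := rd_eq u p q r x h8
      rw [hua, Int.cast_one, mul_one] at h9
      show gg l x (p, q, r) * W q r x / (W p q x * W r p x) =
        rd u x * (gg l x (p, q, r) / (W p q x * W r p x)) +
        ((dot u r : ℝ) / W p r x - (dot u q : ℝ) / W p q x) * gg l x (p, q, r)
      rw [W_anti p r x] at h9 ⊢
      exact alg2 h9 hw1 hw2'
    rw [h5, h2, p1, mul_zero, zero_add]
  refine ⟨p1, p2, ?_⟩
  have h2 := key h1 hA x a' (fun b => (l b : ℝ) / W a' b x)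
  have h3 := hLG (fun b => (l b : ℝ))
  rw [h3] at h2
  have h5 : ∑ t ∈ T with t.1 = a', gg l x t ^ 2 / (W t.1 t.2.1 x * W t.2.2 t.1 x) =
      l a' * (∑ t ∈ T with t.1 = a', gg l x t * W t.2.1 t.2.2 x /
        (W t.1 t.2.1 x * W t.2.2 t.1 x)) -
      ∑ t ∈ T with t.1 = a',
        (((l t.2.2 : ℝ) / W a' t.2.2 x) - (l t.2.1 : ℝ) / W a' t.2.1 x) * gg l x t := by
    rw [Finset.mul_sum, ← Finset.sum_sub_distrib]
    refine Finset.sum_congr rfl ?_
    rintro ⟨p, q, r⟩ ht1
    obtain ⟨ht, hp⟩ := Finset.mem_filter.mp ht1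
    clear ht1
    have hp' : p = a' := hp
    subst hp'
    obtain ⟨hw1, hw2'⟩ := hne p q r ht
    show gg l x (p, q, r) ^ 2 / (W p q x * W r p x) =
      l p * (gg l x (p, q, r) * W q r x / (W p q x * W r p x)) -
      ((l r : ℝ) / W p r x - (l q : ℝ) / W p q x) * gg l x (p, q, r)
    have h9 : gg l x (p, q, r) = W q r x * l p + W r p x * l q + W p q x * l r := rfl
    rw [W_anti p r x] at h9 ⊢
    exact alg3 h9 hw1 hw2'
  rw [h5, h2, p2]
  unfold Ar
  push_cast
  ring

end Pool.Agent.DUR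

end

/-! ### H45/Expd -/

section
set_option autoImplicit false

namespace Pool.Agent.DUR

open Filter Asymptotics Topology

/-- Second order expansion at `0+`. -/
def Ap (f : ℝ → ℝ) (a b c : ℝ) : Prop :=
  (fun s : ℝ => f s - (a + b * s + c * s ^ 2)) =o[𝓝[>] 0] (fun s : ℝ => s ^ 2)

theorem Ap.tendsto {f : ℝ → ℝ} {a b c : ℝ} (h : Ap f a b c) :
    Tendsto f (𝓝[>] 0) (𝓝 a) := by
  have h1 : Tendsto (fun s : ℝ => s ^ 2) (𝓝[>] 0) (𝓝 0) := by
    have : Tendsto (fun s : ℝ => s ^ 2) (𝓝 0) (𝓝 (0 ^ 2)) := (continuous_pow 2).tendsto 0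
    rw [zero_pow two_ne_zero] at this
    exact this.mono_left nhdsWithin_le_nhds
  have h2 := h.trans_tendsto h1
  have h3 : Tendsto (fun s : ℝ => a + b * s + c * s ^ 2) (𝓝[>] 0) (𝓝 a) := by
    have : Tendsto (fun s : ℝ => a + b * s + c * s ^ 2) (𝓝 0) (𝓝 (a + b * 0 + c * 0 ^ 2)) := by
      have : Continuous (fun s : ℝ => a + b * s + c * s ^ 2) := by fun_prop
      exact this.tendsto 0
    have e : a + b * 0 + c * 0 ^ 2 = a := by ring
    rw [e] at this
    exact this.mono_left nhdsWithin_le_nhds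
  have h4 := h2.add h3
  rw [zero_add] at h4
  refine h4.congr fun s => ?_
  ring

theorem cube_o : (fun s : ℝ => s ^ 3) =o[𝓝[>] 0] (fun s : ℝ => s ^ 2) :=
  (isLittleO_pow_pow (by norm_num : 2 < 3)).mono nhdsWithin_le_nhds

theorem bdd_of_tendsto {f : ℝ → ℝ} {a : ℝ} (h : Tendsto f (𝓝[>] 0) (𝓝 a)) :
    f =O[𝓝[>] 0] (fun _ : ℝ => (1 : ℝ)) := h.isBigO_one ℝ

theorem Ap.mul {f g : ℝ → ℝ} {a b c a' b' c' : ℝ} (hf : Ap f a b c) (hg : Ap g a' b' c') :
    Ap (fun s => f s * g s) (a * a') (a * b' + b * a') (a * c' + b * b' + c * a') := by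
  unfold Ap at *
  have h1 : (fun s : ℝ => (f s - (a + b * s + c * s ^ 2)) * g s) =o[𝓝[>] 0]
      (fun s : ℝ => s ^ 2 * 1) := hf.mul_isBigO (bdd_of_tendsto (Ap.tendsto hg))
  have hP : Tendsto (fun s : ℝ => a + b * s + c * s ^ 2) (𝓝[>] 0)
      (𝓝 (a + b * 0 + c * 0 ^ 2)) := by
    have : Continuous (fun s : ℝ => a + b * s + c * s ^ 2) := by fun_prop
    exact (this.tendsto 0).mono_left nhdsWithin_le_nhds
  have h2 : (fun s : ℝ => (a + b * s + c * s ^ 2) * (g s - (a' + b' * s + c' * s ^ 2)))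
      =o[𝓝[>] 0] (fun s : ℝ => 1 * s ^ 2) := (bdd_of_tendsto hP).mul_isLittleO hg
  have h3 : (fun s : ℝ => (b * c' + c * b' + c * c' * s) * s ^ 3) =o[𝓝[>] 0]
      (fun s : ℝ => 1 * s ^ 2) := by
    have : Tendsto (fun s : ℝ => b * c' + c * b' + c * c' * s) (𝓝[>] 0)
        (𝓝 (b * c' + c * b' + c * c' * 0)) := by
      have : Continuous (fun s : ℝ => b * c' + c * b' + c * c' * s) := by fun_prop
      exact (this.tendsto 0).mono_left nhdsWithin_le_nhds
    exact (bdd_of_tendsto this).mul_isLittleO cube_o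
  simp only [mul_one, one_mul] at h1 h2 h3
  refine ((h1.add h2).add h3).congr_left fun s => ?_
  ring

theorem Ap.congr {f g : ℝ → ℝ} {a b c a' b' c' : ℝ} (hf : Ap f a b c)
    (h : ∀ s, 0 < s → f s = g s) (ha : a = a') (hb : b = b') (hc : c = c') : Ap g a' b' c' := by
  subst ha hb hc
  unfold Ap at *
  refine hf.congr' ?_ EventuallyEq.rfl
  filter_upwards [self_mem_nhdsWithin] with s hs
  rw [h s hs]

theorem ap_poly (a b c : ℝ) : Ap (fun s => a + b * s + c * s ^ 2) a b c := by
  unfold Ap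
  simp only [sub_self]
  exact isLittleO_zero _ _

theorem Ap.inv {f : ℝ → ℝ} {a b c : ℝ} (hf : Ap f a b c) (ha : a ≠ 0) :
    Ap (fun s => (f s)⁻¹) a⁻¹ (-b / a ^ 2) (b ^ 2 / a ^ 3 - c / a ^ 2) := by
  have h1 := hf.mul (ap_poly a⁻¹ (-b / a ^ 2) (b ^ 2 / a ^ 3 - c / a ^ 2))
  have h2 : Ap (fun s => f s * (a⁻¹ + (-b / a ^ 2) * s + (b ^ 2 / a ^ 3 - c / a ^ 2) * s ^ 2))
      1 0 0 := by
    refine h1.congr (fun s _ => rfl) (by field_simp) (by field_simp; ring) (by field_simp; ring)
  have h3 : Tendsto (fun s => (f s)⁻¹) (𝓝[>] 0) (𝓝 a⁻¹) := hf.tendsto.inv₀ ha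
  have hne : ∀ᶠ s in 𝓝[>] (0 : ℝ), f s ≠ 0 := hf.tendsto.eventually_ne ha
  unfold Ap at h2 ⊢
  have h4 := (h2.mul_isBigO (bdd_of_tendsto h3)).neg_left
  simp only [mul_one] at h4
  refine h4.congr' ?_ EventuallyEq.rfl
  filter_upwards [hne] with s hs
  field_simp
  ring

theorem ap_exp (u : ℝ) : Ap (fun s => (Real.exp (s * u) - 1) / s) u (u ^ 2 / 2) (u ^ 3 / 6) := by
  have h0 : (fun x : ℝ => Real.exp x - ∑ i ∈ Finset.range 4, x ^ i / (i.factorial : ℝ))
      =O[𝓝 0] fun x : ℝ => x ^ 4 := Real.exp_sub_sum_range_isBigO_pow 4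
  have ht : Tendsto (fun s : ℝ => s * u) (𝓝[>] 0) (𝓝 0) := by
    have : Tendsto (fun s : ℝ => s * u) (𝓝 0) (𝓝 (0 * u)) := by
      have : Continuous (fun s : ℝ => s * u) := by fun_prop
      exact this.tendsto 0
    rw [zero_mul] at this
    exact this.mono_left nhdsWithin_le_nhds
  have h1 := h0.comp_tendsto ht
  have h2 : (fun s : ℝ => (s * u) ^ 4) =O[𝓝[>] 0] (fun s : ℝ => s ^ 4) := by
    refine IsBigO.of_bound (|u| ^ 4) (Eventually.of_forall fun s => ?_)
    rw [Real.norm_eq_abs, Real.norm_eq_abs, mul_pow, abs_mul, abs_pow, abs_pow, mul_comm]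
  have h3 := h1.trans h2
  have h4 : (fun s : ℝ => s⁻¹) =O[𝓝[>] 0] (fun s : ℝ => s⁻¹) := isBigO_refl _ _
  have h5 := h4.mul h3
  have h6 : (fun s : ℝ => s⁻¹ * s ^ 4) =O[𝓝[>] 0] (fun s : ℝ => s ^ 3) := by
    refine IsBigO.of_bound 1 ?_
    filter_upwards [self_mem_nhdsWithin] with s hs
    have hs' : s ≠ 0 := ne_of_gt hs
    rw [one_mul]
    apply le_of_eq
    congr 1
    field_simp
  have h7 := (h5.trans h6).trans_isLittleO cube_o
  unfold Ap
  refine h7.congr' ?_ EventuallyEq.rfl
  filter_upwards [self_mem_nhdsWithin] with s hs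
  have hs' : s ≠ 0 := ne_of_gt hs
  simp only [Function.comp, Finset.sum_range_succ, Finset.sum_range_zero, Nat.factorial]
  field_simp
  ring

theorem Ap.out {F : ℝ → ℝ} {a b c : ℝ} (h6 : Ap (fun s => s ^ 2 * F s) a b c) :
    Tendsto (fun s : ℝ => F s - (a / s ^ 2 + b / s + c)) (𝓝[>] 0) (𝓝 0) := by
  unfold Ap at h6
  have h7 := h6.tendsto_div_nhds_zero
  refine h7.congr' ?_
  filter_upwards [self_mem_nhdsWithin] with s hs
  have hs' : s ≠ 0 := ne_of_gt hs
  rw [sub_div, mul_div_cancel_left₀ _ (pow_ne_zero 2 hs')]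
  congr 1
  field_simp

/-- The expansion of one term. -/
theorem ap_term (g x y z : ℝ) (hx : x ≠ 0) (hy : y ≠ 0) (hz : z ≠ 0) :
    ∃ a b : ℝ, Tendsto (fun s : ℝ => (1 - Real.exp (-(s * g))) /
      ((Real.exp (s * x) - 1) * (Real.exp (s * y) - 1) * (Real.exp (s * z) - 1)) -
        (a / s ^ 2 + b / s + phi g x y z)) (𝓝[>] 0) (𝓝 0) := by
  have h1 := ap_exp (-g)
  have h2 := (ap_exp x).inv hx
  have h3 := (ap_exp y).inv hy
  have h4 := (ap_exp z).inv hz
  have h5 := (ap_poly (-1) 0 0).mul (((h1.mul h2).mul h3).mul h4)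
  have h6 := h5.congr (g := fun s => s ^ 2 * ((1 - Real.exp (-(s * g))) /
      ((Real.exp (s * x) - 1) * (Real.exp (s * y) - 1) * (Real.exp (s * z) - 1))))
      (c' := phi g x y z) (fun s hs => ?_) rfl rfl ?_
  · exact ⟨_, _, h6.out⟩
  · have hs' : s ≠ 0 := ne_of_gt hs
    have e1 : s * -g = -(s * g) := by ring
    rw [e1]
    have hxs : Real.exp (s * x) - 1 ≠ 0 := by
      rw [sub_ne_zero, Ne, Real.exp_eq_one_iff]
      exact mul_ne_zero hs' hx
    have hys : Real.exp (s * y) - 1 ≠ 0 := by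
      rw [sub_ne_zero, Ne, Real.exp_eq_one_iff]
      exact mul_ne_zero hs' hy
    have hzs : Real.exp (s * z) - 1 ≠ 0 := by
      rw [sub_ne_zero, Ne, Real.exp_eq_one_iff]
      exact mul_ne_zero hs' hz
    field_simp
    ring
  · unfold phi
    field_simp
    ring

/-- EXPD. -/
theorem expd : ExpdStatement := by
  intro S g x y z L hS hL
  have key : ∀ t : Tri, ∃ a b : ℝ, t ∈ S → Tendsto (fun s : ℝ => (1 - Real.exp (-(s * g t))) /
      ((Real.exp (s * x t) - 1) * (Real.exp (s * y t) - 1) * (Real.exp (s * z t) - 1)) -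
        (a / s ^ 2 + b / s + phi (g t) (x t) (y t) (z t))) (𝓝[>] 0) (𝓝 0) := by
    intro t
    by_cases ht : t ∈ S
    · obtain ⟨h1, h2, h3⟩ := hS t ht
      obtain ⟨a, b, h4⟩ := ap_term (g t) (x t) (y t) (z t) h1 h2 h3
      exact ⟨a, b, fun _ => h4⟩
    · exact ⟨0, 0, fun h => absurd h ht⟩
  choose a b hab using key
  have h1 := tendsto_finsetSum S (fun t ht => hab t ht)
  have h2 := hL.sub h1
  rw [Finset.sum_const_zero, sub_zero] at h2
  set A := ∑ t ∈ S, a t
  set B := ∑ t ∈ S, b t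
  set P := ∑ t ∈ S, phi (g t) (x t) (y t) (z t)
  have h3 : Tendsto (fun s : ℝ => A / s ^ 2 + B / s + P) (𝓝[>] 0) (𝓝 L) := by
    refine h2.congr fun s => ?_
    rw [Finset.sum_sub_distrib, sub_sub_cancel, Finset.sum_add_distrib, Finset.sum_add_distrib,
      ← Finset.sum_div, ← Finset.sum_div]
  have hs1 : Tendsto (fun s : ℝ => s) (𝓝[>] 0) (𝓝 0) := tendsto_id.mono_left nhdsWithin_le_nhds
  have hA : A = 0 := by
    have h4 := (hs1.mul hs1).mul h3
    have h5 : Tendsto (fun s : ℝ => A + B * s + P * (s * s)) (𝓝[>] 0) (𝓝 (0 * 0 * L)) := by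
      refine h4.congr' ?_
      filter_upwards [self_mem_nhdsWithin] with s hs
      have hs' : s ≠ 0 := ne_of_gt hs
      field_simp
    have h6 : Tendsto (fun s : ℝ => A + B * s + P * (s * s)) (𝓝[>] 0)
        (𝓝 (A + B * 0 + P * (0 * 0))) :=
      (tendsto_const_nhds.add (tendsto_const_nhds.mul hs1)).add
        (tendsto_const_nhds.mul (hs1.mul hs1))
    have h7 := tendsto_nhds_unique h5 h6
    simpa using h7.symm
  have hB : B = 0 := by
    have h4 := hs1.mul h3
    have h5 : Tendsto (fun s : ℝ => B + P * s) (𝓝[>] 0) (𝓝 (0 * L)) := by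
      refine h4.congr' ?_
      filter_upwards [self_mem_nhdsWithin] with s hs
      have hs' : s ≠ 0 := ne_of_gt hs
      rw [hA]
      field_simp
      ring
    have h6 : Tendsto (fun s : ℝ => B + P * s) (𝓝[>] 0) (𝓝 (B + P * 0)) :=
      tendsto_const_nhds.add (tendsto_const_nhds.mul hs1)
    have h7 := tendsto_nhds_unique h5 h6
    simpa using h7.symm
  have h8 : Tendsto (fun _ : ℝ => P) (𝓝[>] 0) (𝓝 L) := by
    refine h3.congr fun s => ?_
    rw [hA, hB]; ring
  exact tendsto_nhds_unique h8 tendsto_const_nhds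

end Pool.Agent.DUR

end

/-! ### H47/Finl -/

section
/-!
# FINL: the final theorem
-/

set_option autoImplicit false

namespace Pool.Agent.DUR

open Finset
open scoped Pointwise

namespace FinlAux

/-- The cast of exponent vectors. -/
def cst (u : Fin 3 → ℕ) : V3 := fun i => (u i : ℤ)

theorem cst_inj : Function.Injective cst := by
  intro u w h
  funext i
  have h2 : ((u i : ℕ) : ℤ) = ((w i : ℕ) : ℤ) := congrFun h i
  exact_mod_cast h2

theorem cst_single (i : Fin 3) (n : ℕ) : cst (Pi.single i n) = (n : ℤ) • ev i := by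
  funext j
  by_cases h : j = i
  · subst h
    simp [cst, ev]
  · simp [cst, ev, Pi.single_eq_of_ne h]

theorem pa_image (A : Finset (Fin 3 → ℕ)) :
    PA (A.image cst) = convexHull ℝ ((fun (u : Fin 3 → ℕ) (i : Fin 3) => (u i : ℝ)) ''
      (A : Set (Fin 3 → ℕ))) + {x : E3 | ∀ i, 0 ≤ x i} := by
  unfold PA
  congr 2
  rw [Finset.coe_image, Set.image_image]
  refine Set.image_congr ?_
  intro u _
  funext i
  simp [cst]

theorem rd_cst (r : V3) (m : Fin 3 → ℕ) :
    rd r (fun i => (m i : ℝ)) = ((dot (cst m) r : ℤ) : ℝ) := by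
  unfold rd dot cst
  push_cast
  ring

theorem count (h1 : BrgbStatement) (A : Finset (Fin 3 → ℕ)) (T : Finset Tri) (v : Tri → V3)
    (hN : NP (A.image cst) T v) :
    {m : Fin 3 → ℕ | (∀ i, 0 < m i) ∧ (fun i => (m i : ℝ)) ∉ interior (PA (A.image cst))}.ncard =
      (BB T (ell (A.image cst))).ncard := by
  rw [← Set.ncard_image_of_injective _ cst_inj]
  congr 1
  ext m
  constructor
  · rintro ⟨u, ⟨hu, hu'⟩, rfl⟩
    refine ⟨fun i => by simpa [cst] using hu i, ?_⟩
    rw [h1 _ T v hN] at hu'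
    push Not at hu'
    obtain ⟨r, hr, hle⟩ := hu'
    refine ⟨r, hr, ?_⟩
    rw [rd_cst] at hle
    exact_mod_cast hle
  · rintro ⟨hm, r, hr, hle⟩
    refine ⟨fun i => (m i).toNat, ⟨fun i => ?_, ?_⟩, ?_⟩
    · have h3 : 0 < m i := hm i
      exact Int.pos_iff_toNat_pos.1 h3
    · rw [h1 _ T v hN]
      push Not
      refine ⟨r, hr, ?_⟩
      have e1 : cst (fun i => (m i).toNat) = m := by
        funext i
        exact Int.toNat_of_nonneg (hm i).le
      rw [rd_cst, e1]
      exact_mod_cast hle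
    · funext i
      exact Int.toNat_of_nonneg (hm i).le

end FinlAux

open FinlAux

theorem finl (h1 : AdptStatement) (h2 : GoodStatement) (h3 : NpexStatement) (h4 : NpadStatement)
    (h5 : VoluStatement) (h6 : PyraStatement) (h7 : PyrcStatement) (h8 : AxisStatement)
    (h9 : CombStatement) (h10 : BrgbStatement) (h11 : BalaStatement) : FinlStatement := by
  classical
  intro A0 hA0 h0 P
  set A : Finset V3 := A0.image cst with hA
  have hP : P = PA A := (pa_image A0).symm
  have hnn : ∀ u ∈ A, ∀ i, 0 ≤ u i := by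
    intro u hu i
    rw [hA, Finset.mem_image] at hu
    obtain ⟨w, _, rfl⟩ := hu
    exact Int.natCast_nonneg _
  have hconv : ∀ i, ∃ n : ℤ, 0 < n ∧ n • ev i ∈ A := by
    intro i
    obtain ⟨n, hn⟩ := hA0 i
    have hn0 : n ≠ 0 := by
      rintro rfl
      rw [Pi.single_zero] at hn
      exact h0 hn
    refine ⟨n, by exact_mod_cast Nat.pos_of_ne_zero hn0, ?_⟩
    rw [← cst_single, hA]
    exact Finset.mem_image_of_mem _ hn
  have hzero : (0 : V3) ∉ A := by
    intro h
    rw [hA, Finset.mem_image] at h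
    obtain ⟨w, hw, hw0⟩ := h
    have : w = 0 := by
      apply cst_inj
      rw [hw0]
      funext i
      simp [cst]
    exact h0 (this ▸ hw)
  -- the fan
  obtain ⟨T, hT, hcmp⟩ := h1 (A ∪ (Finset.univ.image ev))
  have hG : Good T := h2 T hT
  have hcA : ∀ v ∈ A, ∀ w ∈ A, Cmp T (v - w) := fun v hv w hw =>
    hcmp v (Finset.mem_union_left _ hv) w (Finset.mem_union_left _ hw)
  obtain ⟨v, hv⟩ := h3 A T hG hcA hnn hconv hzero
  obtain ⟨e, he⟩ := h11 T (ell A) v (h4 A T v hv)
  have hVA := h5 A T v e hv he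
  -- the pyramids
  have hpyr : ∀ i : Fin 3, 2 * MeasureTheory.volume.real
      {y : Fin 2 → ℝ | (∀ j, 0 ≤ y j) ∧ i.insertNth (0 : ℝ) y ∉ PA A} =
        -(Ar T (ell A) v e (ev i) : ℝ) := by
    intro i
    have hsub : ∀ u ∈ pyr A i, u ∈ A ∪ (Finset.univ.image ev) := by
      intro u hu
      rw [pyr, Finset.mem_insert, Finset.mem_filter] at hu
      rcases hu with rfl | ⟨hu, _⟩
      · exact Finset.mem_union_right _ (Finset.mem_image_of_mem _ (Finset.mem_univ _))
      · exact Finset.mem_union_left _ hu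
    have g1 : ∀ v ∈ pyr A i, ∀ w ∈ pyr A i, Cmp T (v - w) := fun v hv w hw =>
      hcmp v (hsub v hv) w (hsub w hw)
    have g2 : ∀ u ∈ pyr A i, ∀ j, 0 ≤ u j := by
      intro u hu j
      rw [pyr, Finset.mem_insert, Finset.mem_filter] at hu
      rcases hu with rfl | ⟨hu, _⟩
      · unfold ev
        by_cases hj : j = i
        · subst hj; simp
        · simp [Pi.single_eq_of_ne hj]
      · exact hnn u hu j
    have g3 : ∀ j, ∃ n : ℤ, 0 < n ∧ n • ev j ∈ pyr A i := by
      intro j
      by_cases hj : j = i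
      · subst hj
        exact ⟨1, one_pos, by simp [pyr]⟩
      · obtain ⟨n, hn, hm⟩ := hconv j
        refine ⟨n, hn, ?_⟩
        rw [pyr, Finset.mem_insert, Finset.mem_filter]
        refine Or.inr ⟨hm, ?_⟩
        simp [ev, Pi.single_eq_of_ne (Ne.symm hj)]
    have g4 : (0 : V3) ∉ pyr A i := by
      intro h
      rw [pyr, Finset.mem_insert, Finset.mem_filter] at h
      rcases h with h | ⟨h, _⟩
      · have := congrFun h i
        simp [ev] at this
      · exact hzero h
    obtain ⟨v', hv'⟩ := h3 (pyr A i) T hG g1 g2 g3 g4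
    obtain ⟨e', he'⟩ := h11 T (ell (pyr A i)) v' (h4 (pyr A i) T v' hv')
    have k1 := h5 (pyr A i) T v' e' hv' he'
    have k2 := h6 A T v v' e e' i hv he hv' he'
    have k3 := h7 A i hnn hconv
    have k4 : (∑ a ∈ rays T, (ell (pyr A i) a : ℝ) * (Ar T (ell (pyr A i)) v' e' a : ℝ)) =
        -(Ar T (ell A) v e (ev i) : ℝ) := by
      exact_mod_cast k2
    rw [k4] at k1
    linarith
  have haxis : ∀ i : Fin 3, MeasureTheory.volume.real
      {t : ℝ | 0 ≤ t ∧ (Pi.single i t : E3) ∉ PA A} = icpt A i := fun i => h8 A i hnn hconv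
  have hcomb := h9 A T v e hv he
  have hcount := count h10 A0 T v hv
  rw [hP]
  rw [hcount]
  refine hcomb.trans (le_of_eq ?_)
  unfold newtonNumber
  rw [hVA]
  have hs : (2 : ℝ) * ∑ i : Fin 3, MeasureTheory.volume.real
      {y : Fin 2 → ℝ | (∀ j, 0 ≤ y j) ∧ i.insertNth (0 : ℝ) y ∉ PA A} =
        -∑ i : Fin 3, (Ar T (ell A) v e (ev i) : ℝ) := by
    rw [Finset.mul_sum, ← Finset.sum_neg_distrib]
    exact Finset.sum_congr rfl fun i _ => hpyr i
  rw [hs, Finset.sum_congr rfl fun i _ => haxis i]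
  ring

end Pool.Agent.DUR

end

/-! ### H48/Str3 -/

section
/-! # Module STR3: the sum `n3` is preserved by a star subdivision -/

set_option autoImplicit false
set_option linter.unusedSectionVars false

namespace Pool.Agent.DUR

open Finset
open scoped Pointwise

namespace Str3Aux

theorem pp_eq (x : ℝ) : (0 < x ∧ pp x = 1) ∨ (x ≤ 0 ∧ pp x = 0) := by
  unfold pp
  rcases lt_or_ge 0 x with h | h
  · exact Or.inl ⟨h, if_pos h⟩
  · exact Or.inr ⟨h, if_neg (not_lt.2 h)⟩

theorem W_add_left (a b z : V3) (x : E3) : W (a + b) z x = W a z x + W b z x := by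
  simp only [W, rd, cross, Matrix.cons_val_zero, Matrix.cons_val_one, Matrix.cons_val, Pi.add_apply]
  push_cast
  ring

theorem W_swap (a b : V3) (x : E3) : W a b x = - W b a x := by
  simp only [W, rd, cross, Matrix.cons_val_zero, Matrix.cons_val_one, Matrix.cons_val]
  push_cast
  ring

theorem W_self (a : V3) (x : E3) : W a a x = 0 := by
  have := W_swap a a x
  linarith

theorem W_add_right (a b z : V3) (x : E3) : W z (a + b) x = W z a x + W z b x := by
  rw [W_swap, W_add_left, W_swap a z, W_swap b z]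
  ring

/-- The product over the three edges. -/
noncomputable def F3 (x : E3) (t : Tri) : ℝ :=
  pp (W t.1 t.2.1 x) * pp (W t.2.1 t.2.2 x) * pp (W t.2.2 t.1 x)

theorem F3_rot (x : E3) (a b c : V3) : F3 x (a, b, c) = F3 x (b, c, a) := by
  simp only [F3]
  ring

theorem det_rot (a b c : V3) : det3 a b c = det3 b c a := by
  simp only [det3, dot, cross, Matrix.cons_val_zero, Matrix.cons_val_one, Matrix.cons_val]
  ring

theorem det_ne1 {a b c : V3} (h : det3 a b c = 1) : a ≠ b := by
  rintro rfl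
  simp only [det3, dot, cross, Matrix.cons_val_zero, Matrix.cons_val_one, Matrix.cons_val] at h
  have h2 : (0 : ℤ) = 1 := by rw [← h]; ring
  exact absurd h2 (by norm_num)

theorem det_ne {a b c : V3} (h : det3 a b c = 1) : a ≠ b ∧ b ≠ c ∧ c ≠ a := by
  refine ⟨det_ne1 h, ?_, ?_⟩
  · rw [det_rot] at h
    exact det_ne1 h
  · rw [det_rot, det_rot] at h
    exact det_ne1 h

theorem core {x : E3} (hx : Gen x) {a b z : V3} (hd : det3 a b z = 1) :
    F3 x (a + b, b, z) + F3 x (a, a + b, z) = F3 x (a, b, z) := by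
  have hne : W (a + b) z x ≠ 0 := by
    apply hx
    intro h0
    have h1 : dot (cross (a + b) z) a = 1 := by
      rw [← hd]
      simp only [det3, dot, cross, Matrix.cons_val_zero, Matrix.cons_val_one, Matrix.cons_val,
        Pi.add_apply]
      ring
    rw [h0] at h1
    simp [dot] at h1
  simp only [F3]
  have e1 : W (a + b) b x = W a b x := by rw [W_add_left, W_self, add_zero]
  have e2 : W z (a + b) x = W z a x - W b z x := by
    rw [W_add_right, W_swap z b]
    ring
  have e3 : W a (a + b) x = W a b x := by rw [W_add_right, W_self, zero_add]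
  have e4 : W (a + b) z x = W b z x - W z a x := by
    rw [W_add_left, W_swap a z]
    ring
  rw [e4] at hne
  rw [e1, e2, e3, e4]
  generalize W a b x = p at *
  generalize W b z x = q at *
  generalize W z a x = r at *
  have key : pp q * pp (r - q) + pp (q - r) * pp r = pp q * pp r := by
    rcases lt_trichotomy q r with h | h | h
    · rcases pp_eq (r - q) with ⟨_, h1⟩ | ⟨h1, _⟩
      · rcases pp_eq (q - r) with ⟨h2, _⟩ | ⟨_, h2⟩
        · linarith
        · rw [h1, h2]
          rcases pp_eq q with ⟨h3, h4⟩ | ⟨_, h4⟩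
          · rcases pp_eq r with ⟨_, h5⟩ | ⟨h5, _⟩
            · rw [h4, h5]; ring
            · linarith
          · rw [h4]; ring
      · linarith
    · exact absurd (by linarith) hne
    · rcases pp_eq (r - q) with ⟨h1, _⟩ | ⟨_, h1⟩
      · linarith
      · rcases pp_eq (q - r) with ⟨_, h2⟩ | ⟨h2, _⟩
        · rw [h1, h2]
          rcases pp_eq r with ⟨h3, h4⟩ | ⟨_, h4⟩
          · rcases pp_eq q with ⟨_, h5⟩ | ⟨h5, _⟩
            · rw [h4, h5]; ring
            · linarith
          · rw [h4]; ring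
        · linarith
  linear_combination (pp p) * key

theorem rp1 {a c b z : V3} (hb : b ≠ a) (hz : z ≠ a) : rp a c (a, b, z) = (c, b, z) := by
  simp [rp, hb, hz]

theorem rp2 {a c b z : V3} (hb : b ≠ a) (hz : z ≠ a) : rp a c (b, a, z) = (b, c, z) := by
  simp [rp, hb, hz]

theorem rp3 {a c b z : V3} (hb : b ≠ a) (hz : z ≠ a) : rp a c (b, z, a) = (b, z, c) := by
  simp [rp, hb, hz]

theorem point {x : E3} (hx : Gen x) {a b : V3} (hab : a ≠ b) (t : Tri)
    (hd : det3 t.1 t.2.1 t.2.2 = 1) (ha : has a t) (hb : has b t) :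
    F3 x (rp a (a + b) t) + F3 x (rp b (a + b) t) = F3 x t := by
  obtain ⟨u, v, w⟩ := t
  obtain ⟨h1, h2, h3⟩ := det_ne hd
  simp only at hd h1 h2 h3
  have hd2 : det3 v w u = 1 := by rw [← det_rot]; exact hd
  have hd3 : det3 w u v = 1 := by rw [← det_rot]; exact hd2
  have ha' : u = a ∨ v = a ∨ w = a := ha
  have hb' : u = b ∨ v = b ∨ w = b := hb
  rcases ha' with ha' | ha' | ha' <;> rcases hb' with hb' | hb' | hb'
  · exact absurd (ha'.symm.trans hb') hab
  · -- (a, b, w)
    subst ha' hb'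
    rw [rp1 h1.symm h3, rp2 h1 h2.symm]
    exact core hx hd
  · -- (a, v, b)
    subst ha' hb'
    rw [rp1 h1.symm h3, rp3 h3.symm h2]
    rw [add_comm u w]
    have h4 := core hx hd3
    linarith [F3_rot x u v (w + u), F3_rot x v (w + u) u, F3_rot x (w + u) v w,
      F3_rot x (w + u) u v, F3_rot x w (w + u) v, F3_rot x v w (w + u),
      F3_rot x w u v, F3_rot x u v w, F3_rot x v w u]
  · -- (b, a, w)
    subst ha' hb'
    rw [rp2 h1 h2.symm, rp1 h1.symm h3, add_comm v u]
    have h4 := core hx hd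
    linarith
  · exact absurd (ha'.symm.trans hb') hab
  · -- (u, a, b)
    subst ha' hb'
    rw [rp2 h1 h2.symm, rp3 h3.symm h2]
    have h4 := core hx hd2
    linarith [F3_rot x u (v + w) w, F3_rot x u v (v + w), F3_rot x u v w,
      F3_rot x (v + w) w u, F3_rot x v (v + w) u, F3_rot x v w u]
  · -- (b, v, a)
    subst ha' hb'
    rw [rp3 h3.symm h2, rp1 h1.symm h3]
    have h4 := core hx hd3
    linarith [F3_rot x u v (w + u), F3_rot x v (w + u) u, F3_rot x (w + u) v w,
      F3_rot x (w + u) u v, F3_rot x w (w + u) v, F3_rot x v w (w + u),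
      F3_rot x w u v, F3_rot x u v w, F3_rot x v w u]
  · -- (u, b, a)
    subst ha' hb'
    rw [rp3 h3.symm h2, rp2 h1 h2.symm, add_comm w v]
    have h4 := core hx hd2
    linarith [F3_rot x u (v + w) w, F3_rot x u v (v + w), F3_rot x u v w,
      F3_rot x (v + w) w u, F3_rot x v (v + w) u, F3_rot x v w u]
  · exact absurd (ha'.symm.trans hb') hab

end Str3Aux

open Str3Aux in
theorem str3 (h : SsumStatement) : Str3Statement := by
  intro T a b c hT habc hnew x hx hp
  have h1 := h T a b c habc hT.det1 hnew (F3 x)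
  have hab : a ≠ b := (det_ne (hT.det1 a b c habc)).1
  change ∑ t ∈ star a b T, F3 x t = 3
  rw [h1, ← hT.n3 x hx hp]
  refine Finset.sum_congr rfl fun t ht => ?_
  split_ifs with h2
  · obtain ⟨u, v, w⟩ := t
    exact point hx hab (u, v, w) (hT.det1 u v w ht) h2.1 h2.2
  · rfl

end Pool.Agent.DUR

end

/-! ### H49/Brkb -/

section
/-! # Module BRKB -/

set_option autoImplicit false

namespace Pool.Agent.DUR

open Finset

namespace H49

theorem rd_dual (a b c u : V3) (x : E3) :
    W b c x * (dot u a : ℝ) + W c a x * (dot u b : ℝ) + W a b x * (dot u c : ℝ) =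
      rd u x * (det3 a b c : ℝ) := by
  simp only [W, rd, cross, dot, det3, Matrix.cons_val_zero, Matrix.cons_val_one, Matrix.cons_val]
  push_cast
  ring

theorem gg_eq {T : Finset Tri} {l : V3 → ℤ} {v : Tri → V3} (hA : Adm T l v) (x : E3)
    (t : Tri) (ht : t ∈ T) : gg l x t = rd (v t) x := by
  have h1 := hA.eq t ht t.1 (Or.inl rfl)
  have h2 := hA.eq t ht t.2.1 (Or.inr (Or.inl rfl))
  have h3 := hA.eq t ht t.2.2 (Or.inr (Or.inr rfl))
  have hd := hA.good.det1 t.1 t.2.1 t.2.2 ht
  have h := rd_dual t.1 t.2.1 t.2.2 (v t) x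
  rw [h1, h2, h3, hd] at h
  unfold gg
  rw [h]
  simp

theorem rd_sub (u w : V3) (x : E3) : rd (u - w) x = rd u x - rd w x := by
  simp only [rd, Pi.sub_apply]
  push_cast
  ring

theorem rd_smul (n : ℤ) (w : V3) (x : E3) : rd (n • w) x = n * rd w x := by
  simp only [rd, Pi.smul_apply, smul_eq_mul]
  push_cast
  ring

theorem rd_zero (x : E3) : rd 0 x = 0 := by
  simp [rd]

theorem W_swap (a b : V3) (x : E3) : W b a x = - W a b x := by
  simp only [W, rd, cross, Matrix.cons_val_zero, Matrix.cons_val_one, Matrix.cons_val]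
  push_cast
  ring

theorem cross_ne {a b c : V3} (h : det3 a b c = 1) : cross a b ≠ 0 := by
  intro h0
  unfold det3 at h
  rw [h0] at h
  simp [dot] at h

theorem vE_zero {T : Finset Tri} {v : Tri → V3} {a b : V3} (h : ¬ ∃ c, (a, b, c) ∈ T) :
    vE T v a b = 0 := by
  unfold vE
  apply Finset.sum_eq_zero
  intro t ht
  exfalso
  rw [Finset.mem_filter] at ht
  obtain ⟨ht, h1, h2⟩ := ht
  apply h
  refine ⟨t.2.2, ?_⟩
  rw [← h1, ← h2]
  exact ht

theorem mem_rays1 {T : Finset Tri} {t : Tri} (h : t ∈ T) : t.1 ∈ rays T :=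
  Finset.mem_image_of_mem _ h

theorem mem_rays2 {T : Finset Tri} (hG : Good T) {t : Tri} (h : t ∈ T) : t.2.1 ∈ rays T :=
  Finset.mem_image.2 ⟨_, hG.rot t.1 t.2.1 t.2.2 h, rfl⟩

theorem mem_rays3 {T : Finset Tri} (hG : Good T) {t : Tri} (h : t ∈ T) : t.2.2 ∈ rays T :=
  Finset.mem_image.2 ⟨_, hG.rot _ _ _ (hG.rot t.1 t.2.1 t.2.2 h), rfl⟩

/-- Sums over the cones are sums over directed edges. -/
theorem sum_edges {T : Finset Tri} (hG : Good T) (F : V3 → V3 → ℝ)
    (hF : ∀ a b, (¬ ∃ c, (a, b, c) ∈ T) → F a b = 0) :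
    ∑ t ∈ T, F t.1 t.2.1 = ∑ a ∈ rays T, ∑ b ∈ rays T, F a b := by
  classical
  rw [← Finset.sum_product' (rays T) (rays T) F]
  have hinj : Set.InjOn (fun t : Tri => (t.1, t.2.1)) (T : Set Tri) := by
    intro s hs t ht hst
    simp only [Prod.mk.injEq] at hst
    obtain ⟨h1, h2⟩ := hst
    obtain ⟨a, b, c⟩ := s
    obtain ⟨a', b', c'⟩ := t
    simp only at h1 h2
    subst h1 h2
    have := hG.uniq _ _ _ _ hs ht
    rw [this]
  have h := Finset.sum_image (f := fun p : V3 × V3 => F p.1 p.2) hinj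
  simp only at h
  rw [← h]
  apply Finset.sum_subset
  · intro p hp
    obtain ⟨t, ht, rfl⟩ := Finset.mem_image.1 hp
    exact Finset.mem_product.2 ⟨mem_rays1 ht, mem_rays2 hG ht⟩
  · intro p _ hp
    apply hF
    rintro ⟨c, hc⟩
    exact hp (Finset.mem_image.2 ⟨_, hc, rfl⟩)

end H49

open H49 in
theorem brkb (hE : EdgeStatement) : BrkbStatement := by
  intro T l v hA x hx _ f hf
  obtain ⟨hsym, hne, hvE, _, hD⟩ := hE T l v hA
  have hG := hA.good
  set F : V3 → V3 → ℝ := fun a b => f a b * rd (vE T v a b) x / W a b x with hFdef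
  have h1 : ∑ t ∈ T, f t.1 t.2.1 * gg l x t / W t.1 t.2.1 x = ∑ t ∈ T, F t.1 t.2.1 := by
    apply Finset.sum_congr rfl
    intro t ht
    rw [hFdef]
    simp only
    rw [hvE t.1 t.2.1 t.2.2 ht, gg_eq hA x t ht]
  have hF0 : ∀ a b, (¬ ∃ c, (a, b, c) ∈ T) → F a b = 0 := by
    intro a b hab
    rw [hFdef]
    simp only
    rw [vE_zero hab, rd_zero]
    simp
  have hpos : ∀ a b c, (a, b, c) ∈ T → F a b + F b a = -(f a b * Lw T v a b) := by
    intro a b c h
    have hW : W a b x ≠ 0 := hx _ (cross_ne (hG.det1 a b c h))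
    have hd := congrArg (fun u => rd u x) (hD a b c h)
    rw [rd_sub, rd_smul] at hd
    change _ = (Lw T v a b : ℝ) * W a b x at hd
    rw [hFdef]
    simp only
    rw [W_swap a b x, hf b a]
    have e : rd (vE T v b a) x = rd (vE T v a b) x + (Lw T v a b : ℝ) * W a b x := by linarith
    rw [e]
    field_simp
    ring
  have hsum : ∀ a b, F a b + F b a = -(f a b * Lw T v a b) := by
    intro a b
    by_cases h : ∃ c, (a, b, c) ∈ T
    · obtain ⟨c, hc⟩ := h
      exact hpos a b c hc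
    · by_cases h' : ∃ c, (b, a, c) ∈ T
      · obtain ⟨c, hc⟩ := h'
        have := hpos b a c hc
        rw [hf a b, hsym a b, add_comm]
        exact this
      · have hL : Lw T v a b = 0 := by
          by_contra hL
          rcases hne a b hL with h1 | h1
          · exact h h1
          · exact h' h1
        rw [hF0 a b h, hF0 b a h', hL]
        simp
  rw [h1, sum_edges hG F hF0]
  have h2 : ∑ a ∈ rays T, ∑ b ∈ rays T, F a b = ∑ a ∈ rays T, ∑ b ∈ rays T, F b a :=
    Finset.sum_comm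
  have h3 : ∑ a ∈ rays T, ∑ b ∈ rays T, F a b + ∑ a ∈ rays T, ∑ b ∈ rays T, F a b =
      - ∑ a ∈ rays T, ∑ b ∈ rays T, f a b * Lw T v a b := by
    conv_lhs => rw [h2]
    conv_lhs => arg 1; rw [← h2]
    rw [← Finset.sum_add_distrib, ← Finset.sum_neg_distrib]
    apply Finset.sum_congr rfl
    intro a _
    rw [← Finset.sum_add_distrib, ← Finset.sum_neg_distrib]
    apply Finset.sum_congr rfl
    intro b _
    exact hsum a b
  linarith

end Pool.Agent.DUR

end

/-! ### H49/Lnkw -/

section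
/-! # Module LNKW -/

set_option autoImplicit false

namespace Pool.Agent.DUR

open Finset

namespace H49L

theorem cont_rd (n : V3) : Continuous (fun x : E3 => rd n x) := by
  unfold rd
  fun_prop

theorem cont_W (a b : V3) : Continuous (fun x : E3 => W a b x) := cont_rd _

theorem pp_pos {x : ℝ} (h : 0 < x) : pp x = 1 := by
  unfold pp
  rw [if_pos h]

theorem pp_nonneg (x : ℝ) : 0 ≤ pp x := by
  unfold pp
  split_ifs <;> norm_num

end H49L

open H49L in
theorem lnkw (hGen : GensStatement) : LnkwStatement := by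
  intro T a b b' n hG ha hb hb' hbb
  obtain ⟨c, hc⟩ := hb
  obtain ⟨c', hc'⟩ := hb'
  have hd : det3 a b c = 1 := hG.det1 _ _ _ hc
  have hd' : det3 a b' c' = 1 := hG.det1 _ _ _ hc'
  have hd2 : det3 a b c' = 1 := by
    rw [← hd', hbb]
    simp only [cross, dot, det3, Matrix.cons_val_zero, Matrix.cons_val_one, Matrix.cons_val,
      Pi.add_apply, Pi.smul_apply, smul_eq_mul]
    ring
  set D : ℝ := (det3 c' a c : ℝ) with hD
  set ε : ℝ := 1 / (1 + |D|) with hε
  have hDpos : 0 < 1 + |D| := by positivity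
  have hεpos : 0 < ε := by positivity
  have hε1 : 0 < 1 + ε * D := by
    have h1 : -|D| ≤ D := neg_abs_le D
    have h2 : ε * (1 + |D|) = 1 := by rw [hε]; field_simp
    nlinarith
  set y0 : E3 := fun i => (a i : ℝ) + (b i : ℝ) + ε * (c i : ℝ) with hy0
  set U : Set E3 := {y | (∀ i, 0 < y i) ∧ 0 < W c a y ∧ 0 < W a b y ∧ 0 < W c' a y ∧
    0 < W a b' y} with hU
  have hUo : IsOpen U := by
    have e : U = (⋂ i, {y : E3 | 0 < y i}) ∩ {y | 0 < W c a y} ∩ {y | 0 < W a b y} ∩
        {y | 0 < W c' a y} ∩ {y | 0 < W a b' y} := by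
      ext y
      simp only [hU, Set.mem_ofPred_eq, Set.mem_inter_iff, Set.mem_iInter]
      tauto
    rw [e]
    refine IsOpen.inter (IsOpen.inter (IsOpen.inter (IsOpen.inter ?_ ?_) ?_) ?_) ?_
    · exact isOpen_iInter_of_finite fun i => isOpen_lt continuous_const (continuous_apply i)
    · exact isOpen_lt continuous_const (cont_W _ _)
    · exact isOpen_lt continuous_const (cont_W _ _)
    · exact isOpen_lt continuous_const (cont_W _ _)
    · exact isOpen_lt continuous_const (cont_W _ _)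
  have hd3 : (det3 a b c : ℝ) = 1 := by rw [hd]; norm_num
  have hd4 : (det3 a b c' : ℝ) = 1 := by rw [hd2]; norm_num
  have hW1 : W c a y0 = 1 := by
    rw [← hd3]
    simp only [hy0, W, rd, cross, dot, det3, Matrix.cons_val_zero, Matrix.cons_val_one,
      Matrix.cons_val]
    push_cast
    ring
  have hW2 : W a b y0 = ε := by
    have : W a b y0 = ε * (det3 a b c : ℝ) := by
      simp only [hy0, W, rd, cross, dot, det3, Matrix.cons_val_zero, Matrix.cons_val_one,
        Matrix.cons_val]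
      push_cast
      ring
    rw [this, hd3, mul_one]
  have hW3 : W c' a y0 = 1 + ε * D := by
    have : W c' a y0 = (det3 a b c' : ℝ) + ε * D := by
      simp only [hD, hy0, W, rd, cross, dot, det3, Matrix.cons_val_zero, Matrix.cons_val_one,
        Matrix.cons_val]
      push_cast
      ring
    rw [this, hd4]
  have hW4 : W a b' y0 = ε := by
    rw [← hW2, hbb]
    simp only [hy0, W, rd, cross, Matrix.cons_val_zero, Matrix.cons_val_one,
      Matrix.cons_val, Pi.add_apply, Pi.smul_apply, smul_eq_mul]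
    push_cast
    ring
  have hy0U : y0 ∈ U := by
    refine ⟨?_, ?_, ?_, ?_, ?_⟩
    · intro i
      have h1 : (0 : ℝ) < a i := by exact_mod_cast ha i
      have h2 : (0 : ℝ) ≤ b i := by
        exact_mod_cast hG.nn _ _ _ (hG.rot _ _ _ hc) i
      have h3 : (0 : ℝ) ≤ c i := by
        exact_mod_cast hG.nn _ _ _ (hG.rot _ _ _ (hG.rot _ _ _ hc)) i
      simp only [hy0]
      positivity
    · rw [hW1]; norm_num
    · rw [hW2]; exact hεpos
    · rw [hW3]; exact hε1
    · rw [hW4]; exact hεpos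
  obtain ⟨y, ⟨hyp, hy1, hy2, hy3, hy4⟩, hyg⟩ := hGen U hUo ⟨y0, hy0U⟩
  have har : a ∈ rays T := Finset.mem_image_of_mem (fun t : Tri => t.1) hc
  have hs := hG.n1 a har y hyg hyp
  by_contra hbne
  have hne : ((a, b, c) : Tri) ≠ (a, b', c') := by
    intro h
    simp only [Prod.mk.injEq] at h
    exact hbne h.2.1
  have hsub : ({(a, b, c), (a, b', c')} : Finset Tri) ⊆ T.filter fun t => t.1 = a := by
    intro t ht
    rw [Finset.mem_insert, Finset.mem_singleton] at ht
    rcases ht with rfl | rfl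
    · exact Finset.mem_filter.2 ⟨hc, rfl⟩
    · exact Finset.mem_filter.2 ⟨hc', rfl⟩
  have hle := Finset.sum_le_sum_of_subset_of_nonneg (f := fun t : Tri =>
    pp (W t.1 t.2.1 y) * pp (W t.2.2 t.1 y)) hsub
    (fun t _ _ => mul_nonneg (pp_nonneg _) (pp_nonneg _))
  rw [Finset.sum_pair hne, hs] at hle
  simp only at hle
  rw [pp_pos hy1, pp_pos hy2, pp_pos hy3, pp_pos hy4] at hle
  norm_num at hle

end Pool.Agent.DUR

end
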