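import Pool.Agent.Lib.MP_524519_ag.DUR.Iface

set_option autoImplicit false

/-! ### H54/Axnb -/

section
set_option autoImplicit false

/-! # AXNB: the neighbour of `e_j` in the coordinate plane `x_k = 0` -/

namespace Pool.Agent.DUR

open Finset

theorem axnb_cases : ∀ i j k : Fin 3, i ≠ j → j ≠ k → i ≠ k → ∀ m : Fin 3, m = i ∨ m = j ∨ m = k := by
  decide

/-- determinants with `e_j` -/
theorem axnb_sgn (i j k : Fin 3) (hij : i ≠ j) (hjk : j ≠ k) (hik : i ≠ k) :
    ∃ σ : ℤ, (σ = 1 ∨ σ = -1) ∧ (∀ b c : V3, det3 (ev j) b c = σ * (b i * c k - b k * c i)) ∧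
      (∀ (b : V3) (x : E3), W (ev j) b x = σ * (b i * x k - b k * x i)) ∧
      (∀ (b : V3) (x : E3), W b (ev j) x = -σ * (b i * x k - b k * x i)) := by
  refine ⟨det3 (ev j) (ev i) (ev k), ?_, fun b c => ?_, fun b x => ?_, fun b x => ?_⟩
  · revert hij hjk hik
    revert i j k
    decide
  · fin_cases i <;> fin_cases j <;> fin_cases k <;>
      simp_all [det3, dot, cross, ev] <;> ring
  · fin_cases i <;> fin_cases j <;> fin_cases k <;>
      simp_all [det3, dot, W, rd, cross, ev] <;> ring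
  · fin_cases i <;> fin_cases j <;> fin_cases k <;>
      simp_all [det3, dot, W, rd, cross, ev] <;> ring

theorem axnb_mul_one {a b : ℤ} (ha : 0 ≤ a) (h : a * b = 1) : a = 1 ∧ b = 1 := by
  have h1 : a = 1 := by
    rcases Int.eq_one_or_neg_one_of_mul_eq_one h with h1 | h1
    · exact h1
    · omega
  refine ⟨h1, ?_⟩
  rw [h1] at h; linarith

/-- A neighbour `b` of `e_j` with `b_k = 0` belongs to a cone of a certain type. -/
theorem axnb_tri {T : Finset Tri} (hG : Good T) {i j k : Fin 3} {σ : ℤ} (hσ : σ = 1 ∨ σ = -1)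
    (hdet : ∀ b c : V3, det3 (ev j) b c = σ * (b i * c k - b k * c i)) {b : V3} (hbk : b k = 0)
    (h : (∃ c, (ev j, b, c) ∈ T) ∨ ∃ c, (b, ev j, c) ∈ T) :
    ∃ c, b i = 1 ∧ c k = 1 ∧ ((σ = 1 ∧ (ev j, b, c) ∈ T) ∨ (σ = -1 ∧ (ev j, c, b) ∈ T)) := by
  rcases h with ⟨c, hc⟩ | ⟨c, hc⟩
  · have h1 := hG.det1 _ _ _ hc
    rw [hdet, hbk] at h1
    have hb := hG.nn _ _ _ (hG.rot _ _ _ hc) i
    have hcn := hG.nn _ _ _ (hG.rot _ _ _ (hG.rot _ _ _ hc)) k
    have hbc : 0 ≤ b i * c k := mul_nonneg hb hcn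
    rcases hσ with hs | hs
    · rw [hs] at h1
      obtain ⟨h2, h3⟩ := axnb_mul_one hb (b := c k) (by linarith)
      exact ⟨c, h2, h3, Or.inl ⟨hs, hc⟩⟩
    · rw [hs] at h1
      exfalso; linarith
  · have hc' := hG.rot _ _ _ hc
    have h1 := hG.det1 _ _ _ hc'
    rw [hdet, hbk] at h1
    have hb := hG.nn _ _ _ hc i
    have hcn := hG.nn _ _ _ (hG.rot _ _ _ hc') k
    have hbc : 0 ≤ b i * c k := mul_nonneg hb hcn
    rcases hσ with hs | hs
    · rw [hs] at h1
      exfalso; nlinarith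
    · rw [hs] at h1
      obtain ⟨h2, h3⟩ := axnb_mul_one hb (b := c k) (by linarith)
      exact ⟨c, h2, h3, Or.inr ⟨hs, hc'⟩⟩

theorem axnb_pp {x : ℝ} (h : 0 < x) : pp x = 1 := if_pos h

theorem axnb_pp_nonneg (x : ℝ) : 0 ≤ pp x := by
  unfold pp; split_ifs <;> norm_num

/-- uniqueness -/
theorem axnb_uniq (hgens : GensStatement) {T : Finset Tri} (hG : Good T) {i j k : Fin 3} {σ : ℤ}
    (hσ : σ = 1 ∨ σ = -1)
    (hdet : ∀ b c : V3, det3 (ev j) b c = σ * (b i * c k - b k * c i))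
    (hW1 : ∀ (b : V3) (x : E3), W (ev j) b x = σ * (b i * x k - b k * x i))
    (hW2 : ∀ (b : V3) (x : E3), W b (ev j) x = -σ * (b i * x k - b k * x i)) {b b' : V3}
    (hik : i ≠ k)
    (hbk : b k = 0) (h : (∃ c, (ev j, b, c) ∈ T) ∨ ∃ c, (b, ev j, c) ∈ T)
    (hbk' : b' k = 0) (h' : (∃ c, (ev j, b', c) ∈ T) ∨ ∃ c, (b', ev j, c) ∈ T) : b' = b := by
  obtain ⟨c, hb1, hc1, ht⟩ := axnb_tri hG hσ hdet hbk h
  obtain ⟨c', hb1', hc1', ht'⟩ := axnb_tri hG hσ hdet hbk' h'
  -- a generic vector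
  obtain ⟨C, hC⟩ : ∃ C : ℝ, C = |(c i : ℝ)| + |(c' i : ℝ)| := ⟨_, rfl⟩
  have hC0 : 0 ≤ C := by rw [hC]; positivity
  have hopen : IsOpen {x : E3 | (∀ m, 0 < x m) ∧ C * x k < x i} := by
    refine IsOpen.inter ?_ ?_
    · have : {x : E3 | ∀ m, 0 < x m} = ⋂ m, {x : E3 | 0 < x m} := by ext x; simp
      show IsOpen {x : E3 | ∀ m, 0 < x m}
      rw [this]
      exact isOpen_iInter_of_finite fun m => isOpen_lt continuous_const (continuous_apply m)
    · exact isOpen_lt (continuous_const.mul (continuous_apply k)) (continuous_apply i)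
  obtain ⟨x, ⟨hx1, hx2⟩, hgen⟩ := hgens _ hopen
    ⟨fun m => if m = k then 1 else C + 1, fun m => by
      by_cases hm : m = k
      · simp [hm]
      · simp only [hm, if_false]; linarith, by simp [hik]⟩
  have hxk := hx1 k
  have hxi := hx1 i
  have hci : (c i : ℝ) * x k < x i := by
    have h1 : (c i : ℝ) ≤ C := by
      rw [hC]; linarith [le_abs_self (c i : ℝ), abs_nonneg (c' i : ℝ)]
    have h2 : (c i : ℝ) * x k ≤ C * x k := mul_le_mul_of_nonneg_right h1 hxk.le
    linarith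
  have hci' : (c' i : ℝ) * x k < x i := by
    have h1 : (c' i : ℝ) ≤ C := by
      rw [hC]; linarith [le_abs_self (c' i : ℝ), abs_nonneg (c i : ℝ)]
    have h2 : (c' i : ℝ) * x k ≤ C * x k := mul_le_mul_of_nonneg_right h1 hxk.le
    linarith
  by_contra hne
  have key : ∃ t t' : Tri, t ≠ t' ∧ t ∈ T ∧ t' ∈ T ∧ t.1 = ev j ∧ t'.1 = ev j ∧
      pp (W t.1 t.2.1 x) * pp (W t.2.2 t.1 x) = 1 ∧
      pp (W t'.1 t'.2.1 x) * pp (W t'.2.2 t'.1 x) = 1 := by
    rcases ht with ⟨hs, ht⟩ | ⟨hs, ht⟩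
    · rcases ht' with ⟨-, ht'⟩ | ⟨hs', -⟩
      · refine ⟨(ev j, b, c), (ev j, b', c'), ?_, ht, ht', rfl, rfl, ?_, ?_⟩
        · intro e
          exact hne (congrArg (fun t : Tri => t.2.1) e).symm
        · simp only [hW1, hW2, hs, hbk, hb1, hc1]
          rw [axnb_pp, axnb_pp, one_mul] <;> push_cast <;> linarith
        · simp only [hW1, hW2, hs, hbk', hb1', hc1']
          rw [axnb_pp, axnb_pp, one_mul] <;> push_cast <;> linarith
      · exfalso; rw [hs] at hs'; norm_num at hs'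
    · rcases ht' with ⟨hs', -⟩ | ⟨-, ht'⟩
      · exfalso; rw [hs] at hs'; norm_num at hs'
      · refine ⟨(ev j, c, b), (ev j, c', b'), ?_, ht, ht', rfl, rfl, ?_, ?_⟩
        · intro e
          exact hne (congrArg (fun t : Tri => t.2.2) e).symm
        · simp only [hW1, hW2, hs, hbk, hb1, hc1]
          rw [axnb_pp, axnb_pp, one_mul] <;> push_cast <;> linarith
        · simp only [hW1, hW2, hs, hbk', hb1', hc1']
          rw [axnb_pp, axnb_pp, one_mul] <;> push_cast <;> linarith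
  obtain ⟨t, t', htt, h1, h2, h3, h4, h5, h6⟩ := key
  have hray : ev j ∈ rays T := by
    rw [← h3]; exact Finset.mem_image_of_mem _ h1
  have hsum := hG.n1 (ev j) hray x hgen hx1
  have hle : ∑ s ∈ ({t, t'} : Finset Tri), pp (W s.1 s.2.1 x) * pp (W s.2.2 s.1 x) ≤
      ∑ s ∈ T with s.1 = ev j, pp (W s.1 s.2.1 x) * pp (W s.2.2 s.1 x) := by
    refine Finset.sum_le_sum_of_subset_of_nonneg ?_ fun s _ _ =>
      mul_nonneg (axnb_pp_nonneg _) (axnb_pp_nonneg _)
    intro s hs
    rcases Finset.mem_insert.1 hs with e | e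
    · rw [e]; exact Finset.mem_filter.2 ⟨h1, h3⟩
    · rw [Finset.mem_singleton.1 e]; exact Finset.mem_filter.2 ⟨h2, h4⟩
  rw [Finset.sum_pair htt, h5, h6, hsum] at hle
  norm_num at hle

/-- coordinates in a cone -/
theorem axnb_coord {a b c : V3} (h : det3 a b c = 1) (x : E3) (m : Fin 3) :
    W b c x * a m + W c a x * b m + W a b x * c m = x m := by
  have h' : ((det3 a b c : ℤ) : ℝ) = 1 := by rw [h]; norm_num
  have e : W b c x * a m + W c a x * b m + W a b x * c m = x m * ((det3 a b c : ℤ) : ℝ) := by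
    fin_cases m <;>
      simp only [W, rd, det3, dot, cross, Matrix.cons_val_zero, Matrix.cons_val_one,
        Matrix.cons_val, Fin.zero_eta, Fin.mk_one, Fin.reduceFinMk] <;> push_cast <;> ring
  rw [e, h', mul_one]

/-- a cone that contains the vector `x`, starting with `e_j` -/
theorem axnb_start {T : Finset Tri} (hG : Good T) {i j k : Fin 3} (hij : i ≠ j) (hjk : j ≠ k)
    (hik : i ≠ k) {x : E3} {M : ℝ} (hM : ∀ r ∈ rays T, (r j : ℝ) ≤ M - 1) (hM1 : 1 ≤ M)
    (hxi : x i = 1) (hxj : x j = M) (hxk : x k = 0) {a b c : V3} (h : (a, b, c) ∈ T)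
    (h1 : 0 ≤ W b c x) (h2 : 0 ≤ W c a x) (h3 : 0 ≤ W a b x) :
    ∃ b' c', (ev j, b', c') ∈ T ∧ 0 ≤ W b' c' x ∧ 0 ≤ W c' (ev j) x ∧ 0 ≤ W (ev j) b' x := by
  have hr1 := hG.rot _ _ _ h
  have hr2 := hG.rot _ _ _ hr1
  have hd := hG.det1 _ _ _ h
  have na := hG.nn _ _ _ h
  have nb := hG.nn _ _ _ hr1
  have nc := hG.nn _ _ _ hr2
  have ma := hM a (Finset.mem_image_of_mem (fun t : Tri => t.1) h)
  have mb := hM b (Finset.mem_image_of_mem (fun t : Tri => t.1) hr1)
  have mc := hM c (Finset.mem_image_of_mem (fun t : Tri => t.1) hr2)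
  have ei := axnb_coord hd x i
  have ej := axnb_coord hd x j
  have ek := axnb_coord hd x k
  rw [hxi] at ei
  rw [hxj] at ej
  rw [hxk] at ek
  have nak : (0 : ℝ) ≤ a k := by exact_mod_cast na k
  have nbk : (0 : ℝ) ≤ b k := by exact_mod_cast nb k
  have nck : (0 : ℝ) ≤ c k := by exact_mod_cast nc k
  have nai : (0 : ℝ) ≤ a i := by exact_mod_cast na i
  have nbi : (0 : ℝ) ≤ b i := by exact_mod_cast nb i
  have nci : (0 : ℝ) ≤ c i := by exact_mod_cast nc i
  have pak := mul_nonneg h1 nak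
  have pbk := mul_nonneg h2 nbk
  have pck := mul_nonneg h3 nck
  -- a ray with positive coefficient and vanishing `i`-th coordinate is `e_j`
  have fin : ∀ {p q r : V3}, (p, q, r) ∈ T → p i = 0 → p k = 0 → p = ev j := by
    intro p q r hp hpi hpk
    have hpj : p = p j • ev j := by
      funext m
      rcases axnb_cases i j k hij hjk hik m with e | e | e
      · rw [e]; simp [ev, hpi, hij]
      · rw [e]; simp [ev]
      · rw [e]; simp [ev, hpk, hjk.symm]
    have hdp := hG.det1 _ _ _ hp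
    have e2 : det3 p q r = p j * det3 (ev j) q r := by
      conv_lhs => rw [hpj]
      simp only [det3, dot, cross, Matrix.cons_val_zero, Matrix.cons_val_one, Matrix.cons_val,
        Pi.smul_apply, smul_eq_mul]
      ring
    rw [e2] at hdp
    have := (axnb_mul_one (hG.nn _ _ _ hp j) hdp).1
    rw [hpj, this, one_smul]
  have cst : ∀ {X : ℝ} {p : V3}, 0 ≤ X → 0 ≤ p i → (p j : ℝ) ≤ M - 1 → ¬ (0 < X ∧ p i = 0) →
      X * p j ≤ (M - 1) * (X * p i) := by
    intro X p hX hpi hpj hno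
    rcases hX.lt_or_eq with hX | hX
    · have hpi1 : 1 ≤ p i := by
        rcases hpi.lt_or_eq with e | e
        · omega
        · exact absurd ⟨hX, e.symm⟩ hno
      have hpi1' : (1 : ℝ) ≤ p i := by exact_mod_cast hpi1
      have e1 : X * p j ≤ X * (M - 1) := mul_le_mul_of_nonneg_left hpj hX.le
      have e2 : X * (M - 1) * 1 ≤ X * (M - 1) * p i :=
        mul_le_mul_of_nonneg_left hpi1' (mul_nonneg hX.le (by linarith))
      linarith
    · rw [← hX]; simp
  by_cases ha : 0 < W b c x ∧ a i = 0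
  · have hak : a k = 0 := by
      have h0 : W b c x * a k = 0 := by linarith
      rcases mul_eq_zero.1 h0 with e | e
      · exact absurd e ha.1.ne'
      · exact_mod_cast e
    have := fin h ha.2 hak
    rw [this] at h h2 h3
    exact ⟨b, c, h, h1, h2, h3⟩
  by_cases hb : 0 < W c a x ∧ b i = 0
  · have hbk : b k = 0 := by
      have h0 : W c a x * b k = 0 := by linarith
      rcases mul_eq_zero.1 h0 with e | e
      · exact absurd e hb.1.ne'
      · exact_mod_cast e
    have := fin hr1 hb.2 hbk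
    rw [this] at hr1 h1 h3
    exact ⟨c, a, hr1, h2, h3, h1⟩
  by_cases hc : 0 < W a b x ∧ c i = 0
  · have hck : c k = 0 := by
      have h0 : W a b x * c k = 0 := by linarith
      rcases mul_eq_zero.1 h0 with e | e
      · exact absurd e hc.1.ne'
      · exact_mod_cast e
    have := fin hr2 hc.2 hck
    rw [this] at hr2 h1 h2
    exact ⟨a, b, hr2, h3, h1, h2⟩
  exfalso
  have q1 := cst h1 (na i) ma ha
  have q2 := cst h2 (nb i) mb hb
  have q3 := cst h3 (nc i) mc hc
  have q4 : (M - 1) * (W b c x * a i + W c a x * b i + W a b x * c i) = M - 1 := by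
    rw [ei, mul_one]
  linarith

theorem axnb (hgens : GensStatement) : AxnbStatement := by
  intro T hG i j k hij hjk hik
  obtain ⟨σ, hσ, hdet, hW1, hW2⟩ := axnb_sgn i j k hij hjk hik
  suffices hex : ∃ b, b k = 0 ∧ ((∃ c, (ev j, b, c) ∈ T) ∨ ∃ c, (b, ev j, c) ∈ T) by
    obtain ⟨b, hbk, hb⟩ := hex
    obtain ⟨c, hb1, -, -⟩ := axnb_tri hG hσ hdet hbk hb
    refine ⟨b, ?_, hb1, hbk, hb, fun b' hbk' hb' =>
      axnb_uniq hgens hG hσ hdet hW1 hW2 hik hbk hb hbk' hb'⟩
    rcases hb with ⟨c, hc⟩ | ⟨c, hc⟩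
    · exact Finset.mem_image_of_mem (fun t : Tri => t.1) (hG.rot _ _ _ hc)
    · exact Finset.mem_image_of_mem (fun t : Tri => t.1) hc
  -- the vector `e_i + M e_j`
  have hnn : ∀ r ∈ rays T, ∀ m, 0 ≤ r m := by
    intro r hr m
    obtain ⟨⟨a, b, c⟩, ht, e⟩ := Finset.mem_image.1 hr
    rw [← e]
    exact hG.nn a b c ht m
  obtain ⟨M, hMdef⟩ : ∃ M : ℝ, M = 1 + ∑ r ∈ rays T, (r j : ℝ) := ⟨_, rfl⟩
  have hsum0 : 0 ≤ ∑ r ∈ rays T, (r j : ℝ) :=
    Finset.sum_nonneg fun r hr => by exact_mod_cast hnn r hr j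
  have hM1 : 1 ≤ M := by rw [hMdef]; linarith
  have hM : ∀ r ∈ rays T, (r j : ℝ) ≤ M - 1 := by
    intro r hr
    rw [hMdef, add_sub_cancel_left]
    exact Finset.single_le_sum (f := fun r : V3 => (r j : ℝ))
      (fun r hr => by exact_mod_cast hnn r hr j) hr
  obtain ⟨x, hx⟩ : ∃ x : E3, x = fun m => if m = i then 1 else if m = j then M else 0 := ⟨_, rfl⟩
  have hxi : x i = 1 := by rw [hx]; simp
  have hxj : x j = M := by rw [hx]; simp [hij.symm]
  have hxk : x k = 0 := by rw [hx]; simp [hik.symm, hjk.symm]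
  have hx0 : ∀ m, 0 ≤ x m := by
    intro m
    rcases axnb_cases i j k hij hjk hik m with e | e | e
    · rw [e, hxi]; norm_num
    · rw [e, hxj]; linarith
    · rw [e, hxk]
  obtain ⟨⟨a, b, c⟩, ht, h1, h2, h3⟩ := hG.cover x hx0
  obtain ⟨b', c', ht', g1, g2, g3⟩ := axnb_start hG hij hjk hik hM hM1 hxi hxj hxk ht h2 h3 h1
  have hd := hG.det1 _ _ _ ht'
  have nb := hG.nn _ _ _ (hG.rot _ _ _ ht')
  have nc := hG.nn _ _ _ (hG.rot _ _ _ (hG.rot _ _ _ ht'))
  have ei := axnb_coord hd x i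
  have ek := axnb_coord hd x k
  rw [hxi] at ei
  rw [hxk] at ek
  have e1 : ((ev j) i : ℝ) = 0 := by simp [ev, hij]
  have e2 : ((ev j) k : ℝ) = 0 := by simp [ev, hjk.symm]
  rw [e1, mul_zero, zero_add] at ei
  rw [e2, mul_zero, zero_add] at ek
  have nbk : (0 : ℝ) ≤ b' k := by exact_mod_cast nb k
  have nck : (0 : ℝ) ≤ c' k := by exact_mod_cast nc k
  have pbk := mul_nonneg g2 nbk
  have pck := mul_nonneg g3 nck
  by_cases hb : 0 < W c' (ev j) x
  · refine ⟨b', ?_, Or.inl ⟨c', ht'⟩⟩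
    have h0 : W c' (ev j) x * b' k = 0 := by linarith
    rcases mul_eq_zero.1 h0 with e | e
    · exact absurd e hb.ne'
    · exact_mod_cast e
  · have hb0 : W c' (ev j) x = 0 := le_antisymm (not_lt.1 hb) g2
    rw [hb0, zero_mul, zero_add] at ei
    have hc : W (ev j) b' x ≠ 0 := by
      intro e; rw [e, zero_mul] at ei; norm_num at ei
    refine ⟨c', ?_, Or.inr ⟨b', hG.rot _ _ _ (hG.rot _ _ _ ht')⟩⟩
    have h0 : W (ev j) b' x * c' k = 0 := by linarith
    rcases mul_eq_zero.1 h0 with e | e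
    · exact absurd e hc
    · exact_mod_cast e

end Pool.Agent.DUR

end

/-! ### H54/Brkc -/

section
set_option autoImplicit false

/-! # BRKC: the bracket formula -/

namespace Pool.Agent.DUR

open Finset

/-- rotation of a cone -/
def rot3 (t : Tri) : Tri := (t.2.1, t.2.2, t.1)

theorem sum_rot3 {T : Finset Tri} (h : ∀ a b c, (a, b, c) ∈ T → (b, c, a) ∈ T) (f : Tri → ℝ) :
    ∑ t ∈ T, f (rot3 t) = ∑ t ∈ T, f t := by
  refine Finset.sum_nbij' rot3 (fun t => rot3 (rot3 t)) ?_ ?_ ?_ ?_ ?_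
  · rintro ⟨a, b, c⟩ ht
    exact h a b c ht
  · rintro ⟨a, b, c⟩ ht
    exact h b c a (h a b c ht)
  · rintro ⟨a, b, c⟩ _
    rfl
  · rintro ⟨a, b, c⟩ _
    rfl
  · intro t _
    rfl

theorem gg_rot3 (l : V3 → ℤ) (x : E3) (t : Tri) : gg l x (rot3 t) = gg l x t := by
  simp only [gg, rot3]
  ring

theorem sum_rays {T : Finset Tri} (f : Tri → ℝ) :
    ∑ a ∈ rays T, ∑ t ∈ T with t.1 = a, f t = ∑ t ∈ T, f t :=
  Finset.sum_fiberwise_of_maps_to (fun _ ht => Finset.mem_image_of_mem _ ht) f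

theorem cross_ne {a b c : V3} (h : det3 a b c = 1) : cross a b ≠ 0 := by
  intro h0
  simp [det3, dot, h0] at h

theorem deg_pos {T : Finset Tri} (hG : Good T) {a b c : V3} (h : (a, b, c) ∈ T) : 0 < deg a := by
  have h1 := hG.nn a b c h
  have h2 := hG.det1 a b c h
  have h0 : 0 ≤ deg a := by
    unfold deg; linarith [h1 0, h1 1, h1 2]
  rcases h0.lt_or_eq with h3 | h3
  · exact h3
  · exfalso
    have e : deg a = a 0 + a 1 + a 2 := rfl
    have e0 : a 0 = 0 := by linarith [h1 0, h1 1, h1 2]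
    have e1 : a 1 = 0 := by linarith [h1 0, h1 1, h1 2]
    have e2 : a 2 = 0 := by linarith [h1 0, h1 1, h1 2]
    simp [det3, dot, cross, e0, e1, e2] at h2

theorem deg_W {a b c : V3} (h : det3 a b c = 1) (x : E3) :
    (deg a : ℝ) * W b c x + deg b * W c a x + deg c * W a b x = x 0 + x 1 + x 2 := by
  have h' : ((det3 a b c : ℤ) : ℝ) = 1 := by rw [h]; norm_num
  have e : (deg a : ℝ) * W b c x + deg b * W c a x + deg c * W a b x =
      (x 0 + x 1 + x 2) * ((det3 a b c : ℤ) : ℝ) := by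
    simp only [deg, W, rd, det3, dot, cross, Matrix.cons_val_zero, Matrix.cons_val_one,
      Matrix.cons_val]
    push_cast
    ring
  rw [e, h', mul_one]

theorem brkc (hA : BrkaStatement) (hB : BrkbStatement) : BrkcStatement := by
  intro T l v e hadm hbal x hx hpos
  have hG := hadm.good
  have hA' := hA T l v e hadm hbal x hx hpos
  have hB' := hB T l v hadm x hx hpos kap (fun a b => by unfold kap; ring)
  have hne : ∀ a b c, (a, b, c) ∈ T → W a b x ≠ 0 := fun a b c h =>
    hx _ (cross_ne (hG.det1 a b c h))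
  -- abbreviations
  obtain ⟨P, hP⟩ : ∃ P : Tri → ℝ, P = fun t => gg l x t / (W t.1 t.2.1 x * W t.2.2 t.1 x) :=
    ⟨_, rfl⟩
  obtain ⟨Q, hQ⟩ : ∃ Q : Tri → ℝ, Q = fun t => gg l x t ^ 2 / (W t.1 t.2.1 x * W t.2.2 t.1 x) :=
    ⟨_, rfl⟩
  have s1 : ∑ t ∈ T, (l t.1 : ℝ) * Q t = ∑ a ∈ rays T, (l a : ℝ) * Ar T l v e a := by
    rw [← sum_rays]
    refine Finset.sum_congr rfl fun a ha => ?_
    rw [← (hA' a ha).2.2, Finset.mul_sum]
    refine Finset.sum_congr rfl fun t ht => ?_
    simp only [hQ, (Finset.mem_filter.1 ht).2]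
  have s2 : ∑ t ∈ T, Q t = ∑ a ∈ rays T, (Ar T l v e a : ℝ) := by
    rw [← sum_rays]
    refine Finset.sum_congr rfl fun a ha => ?_
    rw [← (hA' a ha).2.2, hQ]
  have s3 : ∑ t ∈ T, (1 / (deg t.1 : ℝ)) * P t = 0 := by
    rw [← sum_rays]
    refine Finset.sum_eq_zero fun a ha => ?_
    have h1 : ∑ t ∈ T with t.1 = a, (1 / (deg t.1 : ℝ)) * P t =
        (1 / (deg a : ℝ)) * ∑ t ∈ T with t.1 = a, P t := by
      rw [Finset.mul_sum]
      refine Finset.sum_congr rfl fun t ht => ?_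
      rw [(Finset.mem_filter.1 ht).2]
    rw [h1, hP, (hA' a ha).1, mul_zero]
  -- the pointwise identity
  have key : ∀ t ∈ T, 4 * phi (gg l x t) (W t.2.1 t.2.2 x) (W t.2.2 t.1 x) (W t.1 t.2.1 x) =
      (2 / 3) * ((l t.1 : ℝ) * Q t + (l (rot3 t).1 : ℝ) * Q (rot3 t) +
        (l (rot3 (rot3 t)).1 : ℝ) * Q (rot3 (rot3 t))) +
      (Q t + Q (rot3 t) + Q (rot3 (rot3 t))) +
      (x 0 + x 1 + x 2) / 3 * ((1 / (deg t.1 : ℝ)) * P t + (1 / (deg (rot3 t).1 : ℝ)) * P (rot3 t) +
        (1 / (deg (rot3 (rot3 t)).1 : ℝ)) * P (rot3 (rot3 t))) +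
      (1 / 3) * (kap t.1 t.2.1 * gg l x t / W t.1 t.2.1 x +
        kap (rot3 t).1 (rot3 t).2.1 * gg l x (rot3 t) / W (rot3 t).1 (rot3 t).2.1 x +
        kap (rot3 (rot3 t)).1 (rot3 (rot3 t)).2.1 * gg l x (rot3 (rot3 t)) /
          W (rot3 (rot3 t)).1 (rot3 (rot3 t)).2.1 x) := by
    rintro ⟨a, b, c⟩ ht
    have h1 := hne a b c ht
    have h2 := hne b c a (hG.rot a b c ht)
    have h3 := hne c a b (hG.rot b c a (hG.rot a b c ht))
    have d1 : (deg a : ℝ) ≠ 0 := by exact_mod_cast (deg_pos hG ht).ne'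
    have d2 : (deg b : ℝ) ≠ 0 := by exact_mod_cast (deg_pos hG (hG.rot a b c ht)).ne'
    have d3 : (deg c : ℝ) ≠ 0 := by
      exact_mod_cast (deg_pos hG (hG.rot b c a (hG.rot a b c ht))).ne'
    have hs := deg_W (hG.det1 a b c ht) x
    have g1 := gg_rot3 l x (a, b, c)
    have g2 := gg_rot3 l x (rot3 (a, b, c))
    rw [g1] at g2
    simp only [hP, hQ, g1, g2, ← hs]
    simp only [rot3]
    have hg : gg l x (a, b, c) = W b c x * l a + W c a x * l b + W a b x * l c := rfl
    rw [hg]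
    unfold phi kap
    generalize W b c x = X at *
    generalize W c a x = Y at *
    generalize W a b x = Z at *
    generalize (deg a : ℝ) = A at *
    generalize (deg b : ℝ) = B at *
    generalize (deg c : ℝ) = C at *
    generalize (l a : ℝ) = p at *
    generalize (l b : ℝ) = q at *
    generalize (l c : ℝ) = r at *
    field_simp
    ring
  rw [Finset.mul_sum, Finset.sum_congr rfl key]
  simp only [Finset.sum_add_distrib, ← Finset.mul_sum]
  have r1 := sum_rot3 hG.rot (fun t => (l t.1 : ℝ) * Q t)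
  have r1' := sum_rot3 hG.rot (fun t => (l (rot3 t).1 : ℝ) * Q (rot3 t))
  have r2 := sum_rot3 hG.rot Q
  have r2' := sum_rot3 hG.rot (fun t => Q (rot3 t))
  have r3 := sum_rot3 hG.rot (fun t => (1 / (deg t.1 : ℝ)) * P t)
  have r3' := sum_rot3 hG.rot (fun t => (1 / (deg (rot3 t).1 : ℝ)) * P (rot3 t))
  have r4 := sum_rot3 hG.rot (fun t => kap t.1 t.2.1 * gg l x t / W t.1 t.2.1 x)
  have r4' := sum_rot3 hG.rot (fun t => kap (rot3 t).1 (rot3 t).2.1 * gg l x (rot3 t) /
    W (rot3 t).1 (rot3 t).2.1 x)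
  rw [r1', r1, r2', r2, r3', r3, r4', r4, s1, s2, s3, hB']
  ring

end Pool.Agent.DUR

end

/-! ### H57/Gens -/

section
/-! # GENS -/

set_option autoImplicit false

namespace Pool.Agent.DUR

namespace H57

noncomputable def rl (n : V3) : E3 →ₗ[ℝ] ℝ where
  toFun x := rd n x
  map_add' x y := by simp only [rd, Pi.add_apply]; ring
  map_smul' c x := by simp only [rd, Pi.smul_apply, smul_eq_mul, RingHom.id_apply]; ring

lemma rd_cont (n : V3) : Continuous fun x : E3 => rd n x := by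
  unfold rd; fun_prop

lemma dense_ne (n : V3) (hn : n ≠ 0) : Dense {x : E3 | rd n x ≠ 0} := by
  have h1 : LinearMap.ker (rl n) ≠ ⊤ := by
    intro h
    apply hn
    funext i
    have h2 : (Pi.single i (1 : ℝ) : E3) ∈ LinearMap.ker (rl n) := by rw [h]; trivial
    have h3 : rd n (Pi.single i (1 : ℝ) : E3) = 0 := h2
    unfold rd at h3
    fin_cases i <;> simp at h3 <;> simpa using h3
  have h2 : interior ((LinearMap.ker (rl n) : Submodule ℝ E3) : Set E3) = ∅ := by
    by_contra hne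
    exact h1 (Submodule.eq_top_of_nonempty_interior' _ (Set.nonempty_iff_ne_empty.2 hne))
  have h3 := interior_eq_empty_iff_dense_compl.1 h2
  have h4 : {x : E3 | rd n x ≠ 0} = ((LinearMap.ker (rl n) : Submodule ℝ E3) : Set E3)ᶜ := by
    ext x; simp [LinearMap.mem_ker, rl]
  rw [h4]; exact h3

end H57

open H57 in
theorem gens : GensStatement := by
  intro U hU hne
  have hd : Dense (⋂ n : {n : V3 // n ≠ 0}, {x : E3 | rd n.1 x ≠ 0}) := by
    apply dense_iInter_of_isOpen
    · intro n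
      exact (isOpen_ne_fun (rd_cont n.1) continuous_const)
    · intro n
      exact dense_ne n.1 n.2
  obtain ⟨x, hx, hx'⟩ := hd.inter_open_nonempty U hU hne
  refine ⟨x, hx, ?_⟩
  intro n hn
  have := Set.mem_iInter.1 hx' ⟨n, hn⟩
  exact this

end Pool.Agent.DUR

end

/-! ### H57/Ssum -/

section
/-! # SSUM -/

set_option autoImplicit false

namespace Pool.Agent.DUR

open Finset

namespace H57

lemma det_self12 (a b : V3) : det3 a a b = 0 := by
  simp only [det3, cross, dot, Matrix.cons_val_zero, Matrix.cons_val_one, Matrix.cons_val]; ring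

lemma det_self23 (a b : V3) : det3 a b b = 0 := by
  simp only [det3, cross, dot, Matrix.cons_val_zero, Matrix.cons_val_one, Matrix.cons_val]; ring

lemma det_self13 (a b : V3) : det3 a b a = 0 := by
  simp only [det3, cross, dot, Matrix.cons_val_zero, Matrix.cons_val_one, Matrix.cons_val]; ring

lemma det_zero1 (a b : V3) : det3 0 a b = 0 := by
  simp only [det3, cross, dot, Matrix.cons_val_zero, Matrix.cons_val_one, Matrix.cons_val,
    Pi.zero_apply]; ring

lemma det_zero2 (a b : V3) : det3 a 0 b = 0 := by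
  simp only [det3, cross, dot, Matrix.cons_val_zero, Matrix.cons_val_one, Matrix.cons_val,
    Pi.zero_apply]; ring

lemma ne12 {a b c : V3} (h : det3 a b c = 1) : a ≠ b := by
  rintro rfl; rw [det_self12] at h; exact zero_ne_one h

lemma ne23 {a b c : V3} (h : det3 a b c = 1) : b ≠ c := by
  rintro rfl; rw [det_self23] at h; exact zero_ne_one h

lemma ne13 {a b c : V3} (h : det3 a b c = 1) : a ≠ c := by
  rintro rfl; rw [det_self13] at h; exact zero_ne_one h

lemma nz1 {a b c : V3} (h : det3 a b c = 1) : a ≠ 0 := by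
  rintro rfl; rw [det_zero1] at h; exact zero_ne_one h

lemma nz2 {a b c : V3} (h : det3 a b c = 1) : b ≠ 0 := by
  rintro rfl; rw [det_zero2] at h; exact zero_ne_one h

lemma a_ne {a b c : V3} (h : det3 a b c = 1) : a + b ≠ a := by
  intro h'; exact nz2 h (by simpa using h')

lemma b_ne {a b c : V3} (h : det3 a b c = 1) : a + b ≠ b := by
  intro h'; exact nz1 h (by simpa using h')

/-- `rp a c` does not have `a`. -/
lemma not_has_rp {a c : V3} (hac : c ≠ a) (t : Tri) : ¬ has a (rp a c t) := by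
  obtain ⟨x, y, z⟩ := t
  simp only [has, rp, not_or]
  refine ⟨?_, ?_, ?_⟩ <;> split_ifs with h <;> assumption

lemma has_rp_other {a b c : V3} (hab : a ≠ b) {t : Tri} (h : has b t) : has b (rp a c t) := by
  obtain ⟨x, y, z⟩ := t
  simp only [has, rp] at h ⊢
  rcases h with h | h | h
  · left; rw [if_neg (by rw [h]; exact hab.symm)]; exact h
  · right; left; rw [if_neg (by rw [h]; exact hab.symm)]; exact h
  · right; right; rw [if_neg (by rw [h]; exact hab.symm)]; exact h

lemma has_rp_new {a c : V3} {t : Tri} (h : has a t) : has c (rp a c t) := by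
  obtain ⟨x, y, z⟩ := t
  simp only [has, rp] at h ⊢
  rcases h with h | h | h
  · left; rw [if_pos h]
  · right; left; rw [if_pos h]
  · right; right; rw [if_pos h]

lemma rp_inj {a c : V3} {t t' : Tri} (h : ¬ has c t) (h' : ¬ has c t')
    (e : rp a c t = rp a c t') : t = t' := by
  obtain ⟨x, y, z⟩ := t
  obtain ⟨x', y', z'⟩ := t'
  simp only [has, rp, not_or, Prod.mk.injEq] at h h' e
  obtain ⟨e1, e2, e3⟩ := e
  have key : ∀ u u' : V3, u ≠ c → u' ≠ c → (if u = a then c else u) = (if u' = a then c else u') →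
      u = u' := by
    intro u u' hu hu' he
    by_cases h1 : u = a
    · by_cases h2 : u' = a
      · rw [h1, h2]
      · rw [if_pos h1, if_neg h2] at he; exact absurd he.symm hu'
    · by_cases h2 : u' = a
      · rw [if_neg h1, if_pos h2] at he; exact absurd he hu
      · rw [if_neg h1, if_neg h2] at he; exact he
  rw [key x x' h.1 h'.1 e1, key y y' h.2.1 h'.2.1 e2, key z z' h.2.2 h'.2.2 e3]

end H57

open H57 in
theorem ssum : SsumStatement := by
  intro T a b c habc hdet hfr f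
  have h1 := hdet a b c habc
  have hab := ne12 h1
  have hca := a_ne h1
  have hcb := b_ne h1
  unfold star
  rw [Finset.sum_union, Finset.sum_union, Finset.sum_image, Finset.sum_image, Finset.sum_ite,
    Finset.sum_add_distrib]
  · ring
  · intro t ht t' ht' e
    simp only [coe_filter, Set.mem_setOf_eq] at ht ht'
    exact rp_inj (hfr t ht.1) (hfr t' ht'.1) e
  · intro t ht t' ht' e
    simp only [coe_filter, Set.mem_setOf_eq] at ht ht'
    exact rp_inj (hfr t ht.1) (hfr t' ht'.1) e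
  · rw [Finset.disjoint_left]
    intro t ht ht'
    simp only [mem_filter, mem_image] at ht ht'
    obtain ⟨s, hs, rfl⟩ := ht'
    exact hfr _ ht.1 (has_rp_new hs.2.1)
  · rw [Finset.disjoint_left]
    intro t ht ht'
    simp only [mem_union, mem_filter, mem_image] at ht ht'
    obtain ⟨s, hs, rfl⟩ := ht'
    rcases ht with ht | ⟨s', hs', he⟩
    · exact hfr _ ht.1 (has_rp_new hs.2.2)
    · have h2 : has b (rp a (a + b) s') := has_rp_other hab hs'.2.2
      rw [he] at h2
      exact not_has_rp hcb s h2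

end Pool.Agent.DUR

end

/-! ### H57/Frsh -/

section
/-! # FRSH -/

set_option autoImplicit false

namespace Pool.Agent.DUR

open Finset

namespace H57

/-- The real vector of a lattice vector. -/
def re (a : V3) : E3 := fun i => (a i : ℝ)

lemma W_re (a b c : V3) : W a b (re c) = (det3 a b c : ℝ) := by
  simp only [W, rd, re, det3, dot]; push_cast; ring

lemma W_add (a b : V3) (x y : E3) : W a b (x + y) = W a b x + W a b y := by
  simp only [W, rd, Pi.add_apply]; ring

lemma W_smul (a b : V3) (r : ℝ) (x : E3) : W a b (r • x) = r * W a b x := by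
  simp only [W, rd, Pi.smul_apply, smul_eq_mul]; ring

lemma W_cont (a b : V3) : Continuous fun x : E3 => W a b x := by
  unfold W rd; fun_prop

lemma det_rot (a b c : V3) : det3 b c a = det3 a b c := by
  simp only [det3, cross, dot, Matrix.cons_val_zero, Matrix.cons_val_one, Matrix.cons_val]; ring

lemma det_add1 (a a' b c : V3) : det3 (a + a') b c = det3 a b c + det3 a' b c := by
  simp only [det3, cross, dot, Matrix.cons_val_zero, Matrix.cons_val_one, Matrix.cons_val,
    Pi.add_apply]; ring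

lemma det_add2 (a b b' c : V3) : det3 a (b + b') c = det3 a b c + det3 a b' c := by
  simp only [det3, cross, dot, Matrix.cons_val_zero, Matrix.cons_val_one, Matrix.cons_val,
    Pi.add_apply]; ring

lemma det_add3 (a b c c' : V3) : det3 a b (c + c') = det3 a b c + det3 a b c' := by
  simp only [det3, cross, dot, Matrix.cons_val_zero, Matrix.cons_val_one, Matrix.cons_val,
    Pi.add_apply]; ring

lemma pos_open : IsOpen {x : E3 | Pos x} := by
  have : {x : E3 | Pos x} = ⋂ i, {x : E3 | 0 < x i} := by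
    ext x; simp [Pos]
  rw [this]
  exact isOpen_iInter_of_finite fun i => isOpen_lt continuous_const (continuous_apply i)

lemma W_open (a b : V3) : IsOpen {x : E3 | 0 < W a b x} :=
  isOpen_lt continuous_const (W_cont a b)

lemma pos_sum {a b c : V3} (h : det3 a b c = 1) (ha : ∀ i, 0 ≤ a i) (hb : ∀ i, 0 ≤ b i)
    (hc : ∀ i, 0 ≤ c i) : Pos (re a + re b + re c) := by
  intro i
  simp only [Pi.add_apply, re]
  have h1 : 0 < a i + b i + c i := by
    rcases lt_or_eq_of_le (show 0 ≤ a i + b i + c i by have := ha i; have := hb i; have := hc i; omega)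
      with h0 | h0
    · exact h0
    · exfalso
      have ea : a i = 0 := by have := ha i; have := hb i; have := hc i; omega
      have eb : b i = 0 := by have := ha i; have := hb i; have := hc i; omega
      have ec : c i = 0 := by have := ha i; have := hb i; have := hc i; omega
      simp only [det3, cross, dot, Matrix.cons_val_zero, Matrix.cons_val_one, Matrix.cons_val] at h
      fin_cases i <;> simp only [Fin.zero_eta, Fin.mk_one, Fin.reduceFinMk] at ea eb ec <;>
        rw [ea, eb, ec] at h <;> ring_nf at h <;> exact absurd h (by norm_num)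
  exact_mod_cast h1

lemma pp_nonneg (x : ℝ) : 0 ≤ pp x := by unfold pp; split_ifs <;> norm_num

lemma pp_pos {x : ℝ} (h : 0 < x) : pp x = 1 := by unfold pp; rw [if_pos h]

lemma pp_ne {x : ℝ} (h : pp x ≠ 0) : 0 < x := by
  unfold pp at h; by_contra h'; rw [if_neg h'] at h; exact h rfl

end H57

open H57 in
theorem frsh (hg : GensStatement) : FrshStatement := by
  intro T a b c hT habc t ht hhas
  -- the ray `a + b`
  have hray : ∃ r s, (a + b, r, s) ∈ T := by
    obtain ⟨x, y, z⟩ := t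
    rcases hhas with h | h | h
    · simp only at h; subst h; exact ⟨y, z, ht⟩
    · simp only at h; subst h; exact ⟨z, x, hT.rot _ _ _ ht⟩
    · simp only at h; subst h; exact ⟨x, y, hT.rot _ _ _ (hT.rot _ _ _ ht)⟩
  have hmem : a + b ∈ rays T := by
    obtain ⟨r, s, hrs⟩ := hray
    exact mem_image.2 ⟨_, hrs, rfl⟩
  have hbca := hT.rot _ _ _ habc
  have hcab := hT.rot _ _ _ hbca
  have hd := hT.det1 _ _ _ habc
  have hd2 := hT.det1 _ _ _ hbca
  have hd3 := hT.det1 _ _ _ hcab
  have ha := hT.nn _ _ _ habc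
  have hb := hT.nn _ _ _ hbca
  have hc := hT.nn _ _ _ hcab
  -- a generic point of the cone
  obtain ⟨x, ⟨hxp, hx1, hx2, hx3⟩, hxg⟩ := hg
    ({x : E3 | Pos x} ∩ ({x : E3 | 0 < W a b x} ∩ ({x : E3 | 0 < W b c x} ∩ {x : E3 | 0 < W c a x})))
    (pos_open.inter ((W_open a b).inter ((W_open b c).inter (W_open c a))))
    ⟨re a + re b + re c, pos_sum hd ha hb hc, by
      simp only [Set.mem_setOf_eq, W_add, W_re, det_self13, det_self23, hd]; norm_num, by
      simp only [Set.mem_setOf_eq, W_add, W_re, det_self13, det_self23, hd2]; norm_num, by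
      simp only [Set.mem_setOf_eq, W_add, W_re, det_self13, det_self23, hd3]; norm_num⟩
  simp only [Set.mem_setOf_eq] at hxp hx1 hx2 hx3
  have hn1 := hT.n1 (a + b) hmem x hxg hxp
  obtain ⟨t', ht', hne⟩ := Finset.exists_ne_zero_of_sum_ne_zero
    (show ∑ t ∈ T with t.1 = a + b, pp (W t.1 t.2.1 x) * pp (W t.2.2 t.1 x) ≠ 0 by
      rw [hn1]; exact one_ne_zero)
  obtain ⟨u, r, s⟩ := t'
  simp only [mem_filter] at ht'
  obtain ⟨ht', hu⟩ := ht'
  subst hu
  have hr : 0 < W (a + b) r x := pp_ne (left_ne_zero_of_mul hne)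
  have hs : 0 < W s (a + b) x := pp_ne (right_ne_zero_of_mul hne)
  have hd' := hT.det1 _ _ _ ht'
  have hd'' : det3 r s (a + b) = 1 := by rw [det_rot]; exact hd'
  -- far away in the direction `a + b`
  set N : ℝ := |W r s x| + 1 with hN
  have hN0 : 0 < N := by positivity
  obtain ⟨y, ⟨hyp, hy1, hy2, hy3, hy4, hy5, hy6⟩, hyg⟩ := hg
    ({x : E3 | Pos x} ∩ ({x : E3 | 0 < W a b x} ∩ ({x : E3 | 0 < W b c x} ∩ ({x : E3 | 0 < W c a x} ∩
      ({x : E3 | 0 < W (a + b) r x} ∩ ({x : E3 | 0 < W r s x} ∩ {x : E3 | 0 < W s (a + b) x}))))))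
    (pos_open.inter ((W_open a b).inter ((W_open b c).inter ((W_open c a).inter
      ((W_open _ _).inter ((W_open _ _).inter (W_open _ _)))))))
    ⟨x + N • (re a + re b), by
      intro i
      have h1 := hxp i
      have h2 : (0 : ℝ) ≤ a i := by exact_mod_cast ha i
      have h3 : (0 : ℝ) ≤ b i := by exact_mod_cast hb i
      simp only [Pi.add_apply, Pi.smul_apply, smul_eq_mul, re]
      positivity, by
      simp only [Set.mem_setOf_eq, W_add, W_smul, W_re, det_self13, det_self23, hd]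
      simpa using hx1, by
      simp only [Set.mem_setOf_eq, W_add, W_smul, W_re, det_self13, det_self23, hd2]
      push_cast; linarith, by
      simp only [Set.mem_setOf_eq, W_add, W_smul, W_re, det_self13, det_self23, hd3]
      push_cast; linarith, by
      have h5 : det3 (a + b) r a + det3 (a + b) r b = 0 := by
        rw [← det_add3, det_self13]
      have h6 : (det3 (a + b) r a : ℝ) + (det3 (a + b) r b : ℝ) = 0 := by exact_mod_cast h5
      simp only [Set.mem_setOf_eq, W_add, W_smul, W_re]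
      rw [h6]; linarith, by
      have h5 : det3 r s a + det3 r s b = 1 := by
        rw [← det_add3]; exact hd''
      have h6 : (det3 r s a : ℝ) + (det3 r s b : ℝ) = 1 := by exact_mod_cast h5
      simp only [Set.mem_setOf_eq, W_add, W_smul, W_re]
      rw [h6, hN]; have := neg_abs_le (W r s x); linarith, by
      have h5 : det3 s (a + b) a + det3 s (a + b) b = 0 := by
        rw [← det_add3, det_self23]
      have h6 : (det3 s (a + b) a : ℝ) + (det3 s (a + b) b : ℝ) = 0 := by exact_mod_cast h5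
      simp only [Set.mem_setOf_eq, W_add, W_smul, W_re]
      rw [h6]; linarith⟩
  simp only [Set.mem_setOf_eq] at hyp hy1 hy2 hy3 hy4 hy5 hy6
  have hn3 := hT.n3 y hyg hyp
  set g : Tri → ℝ := fun t => pp (W t.1 t.2.1 y) * pp (W t.2.1 t.2.2 y) * pp (W t.2.2 t.1 y) with hg'
  have hab := ne12 hd
  have hbc := ne23 hd
  have hac := ne13 hd
  have hna := a_ne hd
  have hnb := b_ne hd
  have hnc : a + b ≠ c := by
    intro h; rw [← h, det_add3, det_self13, det_self23] at hd; exact absurd hd (by norm_num)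
  have hsub : ({(a, b, c), (b, c, a), (c, a, b), (a + b, r, s)} : Finset Tri) ⊆ T := by
    intro t ht
    simp only [mem_insert, mem_singleton] at ht
    rcases ht with rfl | rfl | rfl | rfl <;> assumption
  have hle := Finset.sum_le_sum_of_subset_of_nonneg (f := g) hsub (fun t _ _ => by
    simp only [hg']; exact mul_nonneg (mul_nonneg (pp_nonneg _) (pp_nonneg _)) (pp_nonneg _))
  have hn3' : ∑ t ∈ T, g t = 3 := hn3
  rw [hn3', Finset.sum_insert, Finset.sum_insert, Finset.sum_insert, Finset.sum_singleton] at hle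
  · simp only [hg'] at hle
    rw [pp_pos hy1, pp_pos hy2, pp_pos hy3, pp_pos hy4, pp_pos hy5, pp_pos hy6] at hle
    norm_num at hle
  · simp only [mem_singleton, Prod.mk.injEq, not_and]
    intro h; exact absurd h.symm hnc
  · simp only [mem_insert, mem_singleton, Prod.mk.injEq, not_or, not_and]
    exact ⟨fun h => absurd h hbc, fun h => absurd h.symm hnb⟩
  · simp only [mem_insert, mem_singleton, Prod.mk.injEq, not_or, not_and]
    exact ⟨fun h => absurd h hab, fun h => absurd h hac, fun h => absurd h.symm hna⟩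

end Pool.Agent.DUR

end

/-! ### H57/Stra -/

section
/-! # STRA -/

set_option autoImplicit false

namespace Pool.Agent.DUR

open Finset

namespace H57

lemma mem_star {a b : V3} {T : Finset Tri} {t : Tri} : t ∈ star a b T ↔
    (t ∈ T ∧ ¬ (has a t ∧ has b t)) ∨ (∃ s ∈ T, (has a s ∧ has b s) ∧ t = rp a (a + b) s) ∨
      (∃ s ∈ T, (has a s ∧ has b s) ∧ t = rp b (a + b) s) := by
  unfold star
  simp only [mem_union, mem_filter, mem_image]
  constructor
  · rintro ((h | ⟨s, ⟨h1, h2⟩, h3⟩) | ⟨s, ⟨h1, h2⟩, h3⟩)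
    · exact Or.inl h
    · exact Or.inr (Or.inl ⟨s, h1, h2, h3.symm⟩)
    · exact Or.inr (Or.inr ⟨s, h1, h2, h3.symm⟩)
  · rintro (h | ⟨s, h1, h2, h3⟩ | ⟨s, h1, h2, h3⟩)
    · exact Or.inl (Or.inl h)
    · exact Or.inl (Or.inr ⟨s, ⟨h1, h2⟩, h3.symm⟩)
    · exact Or.inr ⟨s, ⟨h1, h2⟩, h3.symm⟩

lemma has_rot {a x y z : V3} : has a (y, z, x) ↔ has a (x, y, z) := by
  simp only [has]; tauto

lemma has_rot' {a x y z : V3} (h : has a (x, y, z)) : has a (y, z, x) := has_rot.2 h

/-- The determinant of a subdivided triple. -/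
lemma det_rp {a b x y z : V3} (h : det3 x y z = 1) (ha : has a (x, y, z)) (hb : has b (x, y, z))
    (hab : a ≠ b) : det3 (rp a (a + b) (x, y, z)).1 (rp a (a + b) (x, y, z)).2.1
      (rp a (a + b) (x, y, z)).2.2 = 1 := by
  have hxy := ne12 h
  have hyz := ne23 h
  have hxz := ne13 h
  simp only [rp]
  simp only [has] at ha hb
  rcases ha with ha | ha | ha
  · subst ha
    rw [if_pos rfl, if_neg hxy.symm, if_neg hxz.symm, det_add1, h]
    rcases hb with hb | hb | hb
    · exact absurd hb hab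
    · subst hb; rw [det_self12]; norm_num
    · subst hb; rw [det_self13]; norm_num
  · subst ha
    rw [if_pos rfl, if_neg hxy, if_neg hyz.symm, det_add2, h]
    rcases hb with hb | hb | hb
    · subst hb; rw [det_self12]; norm_num
    · exact absurd hb hab
    · subst hb; rw [det_self23]; norm_num
  · subst ha
    rw [if_pos rfl, if_neg hxz, if_neg hyz, det_add3, h]
    rcases hb with hb | hb | hb
    · subst hb; rw [det_self13]; norm_num
    · subst hb; rw [det_self23]; norm_num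
    · exact absurd hb hab

end H57

open H57 in
theorem stra : StraStatement := by
  intro T a b c hT habc hfr
  have hd := hT.det1 _ _ _ habc
  have hab := ne12 hd
  have ha := hT.nn _ _ _ habc
  have hb := hT.nn _ _ _ (hT.rot _ _ _ habc)
  refine ⟨?_, ?_, ?_, ?_⟩
  · intro x y z h
    rw [mem_star] at h ⊢
    rcases h with ⟨h1, h2⟩ | ⟨⟨x', y', z'⟩, h1, h2, h3⟩ | ⟨⟨x', y', z'⟩, h1, h2, h3⟩
    · left
      exact ⟨hT.rot _ _ _ h1, fun h => h2 ⟨has_rot.1 h.1, has_rot.1 h.2⟩⟩
    · right; left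
      refine ⟨(y', z', x'), hT.rot _ _ _ h1, ⟨has_rot' h2.1, has_rot' h2.2⟩, ?_⟩
      simp only [rp, Prod.mk.injEq] at h3 ⊢
      exact ⟨h3.2.1, h3.2.2, h3.1⟩
    · right; right
      refine ⟨(y', z', x'), hT.rot _ _ _ h1, ⟨has_rot' h2.1, has_rot' h2.2⟩, ?_⟩
      simp only [rp, Prod.mk.injEq] at h3 ⊢
      exact ⟨h3.2.1, h3.2.2, h3.1⟩
  · intro x y z h
    rw [mem_star] at h
    rcases h with ⟨h1, h2⟩ | ⟨⟨x', y', z'⟩, h1, h2, h3⟩ | ⟨⟨x', y', z'⟩, h1, h2, h3⟩
    · exact hT.det1 _ _ _ h1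
    · have := det_rp (hT.det1 _ _ _ h1) h2.1 h2.2 hab
      rw [← h3] at this; exact this
    · have := det_rp (hT.det1 _ _ _ h1) h2.2 h2.1 hab.symm
      rw [add_comm b a, ← h3] at this; exact this
  · intro x y z h i
    have key : ∀ (d : V3) (t : Tri), t ∈ T → 0 ≤ (rp d (a + b) t).1 i := by
      rintro d ⟨x', y', z'⟩ ht
      simp only [rp]
      split_ifs
      · have := ha i; have := hb i; simp only [Pi.add_apply]; omega
      · exact hT.nn _ _ _ ht i
    rw [mem_star] at h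
    rcases h with ⟨h1, h2⟩ | ⟨s, h1, h2, h3⟩ | ⟨s, h1, h2, h3⟩
    · exact hT.nn _ _ _ h1 i
    · have := key a s h1; rw [← h3] at this; exact this
    · have := key b s h1; rw [← h3] at this; exact this
  · intro i
    obtain ⟨y, z, h⟩ := hT.base i
    by_cases hP : has a (ev i, y, z) ∧ has b (ev i, y, z)
    · by_cases hi : ev i = a
      · refine ⟨(rp b (a + b) (ev i, y, z)).2.1, (rp b (a + b) (ev i, y, z)).2.2, ?_⟩
        rw [mem_star]
        right; right
        refine ⟨(ev i, y, z), h, hP, ?_⟩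
        simp only [rp, Prod.mk.injEq, and_true]
        rw [if_neg (by rw [hi]; exact hab)]
      · refine ⟨(rp a (a + b) (ev i, y, z)).2.1, (rp a (a + b) (ev i, y, z)).2.2, ?_⟩
        rw [mem_star]
        right; left
        refine ⟨(ev i, y, z), h, hP, ?_⟩
        simp only [rp, Prod.mk.injEq, and_true]
        rw [if_neg hi]
    · exact ⟨y, z, mem_star.2 (Or.inl ⟨h, hP⟩)⟩

end Pool.Agent.DUR

end

/-! ### H59/Tools -/

section
/-! # Tools: rays, compact rays, splitting of sums -/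

set_option autoImplicit false
set_option linter.unusedSectionVars false

namespace Pool.Agent.DUR.H59

open Finset

theorem ev_same (i : Fin 3) : ev i i = 1 := by simp [ev]

theorem ev_ne {i j : Fin 3} (h : j ≠ i) : ev i j = 0 := by simp [ev, h]

theorem ev_inj {i j : Fin 3} (h : ev i = ev j) : i = j := by
  by_contra hc
  have := congrFun h i
  rw [ev_same, ev_ne hc] at this
  exact one_ne_zero this

theorem det3_self (a c : V3) : det3 a a c = 0 := by
  simp only [det3, dot, cross, Matrix.cons_val_zero, Matrix.cons_val_one, Matrix.cons_val]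
  ring

section

variable {T : Finset Tri}

theorem mem_rays {a : V3} : a ∈ rays T ↔ ∃ b c, (a, b, c) ∈ T := by
  constructor
  · intro h
    obtain ⟨⟨x, y, z⟩, ht, rfl⟩ := Finset.mem_image.1 h
    exact ⟨y, z, ht⟩
  · rintro ⟨b, c, h⟩
    exact Finset.mem_image.2 ⟨_, h, rfl⟩

theorem ev_mem (hT : Good T) (i : Fin 3) : ev i ∈ rays T := mem_rays.2 (hT.base i)

theorem rays_nn (hT : Good T) {a : V3} (h : a ∈ rays T) (i : Fin 3) : 0 ≤ a i := by
  obtain ⟨b, c, h⟩ := mem_rays.1 h
  exact hT.nn a b c h i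

theorem fst_mem {a b c : V3} (h : (a, b, c) ∈ T) : a ∈ rays T := mem_rays.2 ⟨b, c, h⟩

theorem snd_mem (hT : Good T) {a b c : V3} (h : (a, b, c) ∈ T) : b ∈ rays T :=
  mem_rays.2 ⟨c, a, hT.rot a b c h⟩

theorem rays_ne_zero (hT : Good T) {a : V3} (h : a ∈ rays T) : a ≠ 0 := by
  rintro rfl
  obtain ⟨b, c, h⟩ := mem_rays.1 h
  have := hT.det1 0 b c h
  simp [det3, dot, cross] at this

/-- A ray which is not compact has a zero coordinate. -/
theorem bd_of_not {a : V3} (hT : Good T) (h : a ∈ rays T) (hc : ¬ ∀ i, 0 < a i) :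
    ∃ i, a i = 0 := by
  push Not at hc
  obtain ⟨i, hi⟩ := hc
  exact ⟨i, le_antisymm hi (rays_nn hT h i)⟩

end

section

variable {A : Finset V3} {T : Finset Tri} {v : Tri → V3} (hP : NpadStatement) (hE : EdgeStatement)
  (hL : LposStatement) (h : NP A T v)

theorem mem_VV {a : V3} : a ∈ VV T v ↔
    a ∈ rays T ∧ (∀ i, 0 < a i) ∧ ∃ b ∈ rays T, Lw T v a b ≠ 0 := by
  classical
  unfold VV
  rw [Finset.mem_filter]

include hP hE h in
theorem Lw_symm (a b : V3) : Lw T v a b = Lw T v b a := (hE T _ v (hP A T v h)).1 a b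

include hP hE h in
theorem Lw_self (a : V3) : Lw T v a a = 0 := by
  by_contra hc
  have key : ∀ c, (a, a, c) ∉ T := by
    intro c hc
    have := h.good.det1 a a c hc
    rw [det3_self] at this
    exact zero_ne_one this
  rcases (hE T _ v (hP A T v h)).2.1 a a hc with ⟨c, h1⟩ | ⟨c, h1⟩
  · exact key c h1
  · exact key c h1

include hP hE h in
/-- Compact rays with a nonzero lattice length are in `VV`. -/
theorem mem_VV_of {a b : V3} (ha : a ∈ rays T) (hb : b ∈ rays T) (hc : ∀ i, 0 < a i)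
    (hab : Lw T v a b ≠ 0) : a ∈ VV T v := mem_VV.2 ⟨ha, hc, b, hb, hab⟩

include hP hE hL h in
/-- The neighbours of a compact ray. -/
theorem nb_VV {a b : V3} (ha : a ∈ VV T v) (hb : b ∈ rays T) (hab : Lw T v a b ≠ 0) :
    b ∈ VV T v ∨ ∃ i, b = ev i := by
  obtain ⟨h1, h2, h3⟩ := mem_VV.1 ha
  by_cases hc : ∀ i, 0 < b i
  · left
    refine mem_VV_of hP hE h hb h1 hc ?_
    rwa [Lw_symm hP hE h]
  · right
    by_contra hne
    push Not at hne
    apply hab
    rw [Lw_symm hP hE h]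
    exact (hL A T v h).2.2.1 b a hb h1 (bd_of_not h.good hb hc) hne h2

theorem ev_not_VV (i : Fin 3) : ev i ∉ VV T v := by
  intro hc
  have := (mem_VV.1 hc).2.1
  have key : ∃ j, j ≠ i := by fin_cases i <;> decide
  obtain ⟨j, hj⟩ := key
  have := this j
  rw [ev_ne hj] at this
  exact lt_irrefl _ this

include hP hE hL h in
/-- Sums over the neighbours of a compact ray. -/
theorem sum_nb {M : Type} [AddCommMonoid M] {a : V3} (ha : a ∈ VV T v) (G : V3 → M)
    (hG : ∀ b ∈ rays T, Lw T v a b = 0 → G b = 0) :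
    ∑ b ∈ rays T, G b = ∑ b ∈ VV T v with b ≠ a, G b + ∑ i, G (ev i) := by
  classical
  have h1 : ∑ i, G (ev i) = ∑ b ∈ (univ : Finset (Fin 3)).image ev, G b := by
    rw [Finset.sum_image]
    intro i _ j _ hij
    exact ev_inj hij
  have h2 : Disjoint ((VV T v).filter fun b => b ≠ a) ((univ : Finset (Fin 3)).image ev) := by
    rw [Finset.disjoint_left]
    intro b hb hb'
    obtain ⟨i, -, rfl⟩ := Finset.mem_image.1 hb'
    exact ev_not_VV i (Finset.mem_filter.1 hb).1
  rw [h1, ← Finset.sum_union h2]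
  symm
  refine Finset.sum_subset ?_ ?_
  · intro b hb
    rcases Finset.mem_union.1 hb with hb | hb
    · exact (mem_VV.1 (Finset.mem_filter.1 hb).1).1
    · obtain ⟨i, -, rfl⟩ := Finset.mem_image.1 hb
      exact ev_mem h.good i
  · intro b hb hb'
    refine hG b hb ?_
    by_contra hne
    apply hb'
    rcases nb_VV hP hE hL h ha hb hne with h3 | ⟨i, rfl⟩
    · refine Finset.mem_union_left _ (Finset.mem_filter.2 ⟨h3, ?_⟩)
      rintro rfl
      exact hne (Lw_self hP hE h _)
    · exact Finset.mem_union_right _ (Finset.mem_image_of_mem _ (Finset.mem_univ _))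

theorem BN_of_ne {e : V3 → ℤ} {a b : V3} (hab : b ≠ a) : BN T v e a b = Lw T v a b := by
  unfold BN
  rw [if_neg (Ne.symm hab)]

theorem BN_self {e : V3 → ℤ} (a : V3) : BN T v e a a = -e a := by
  unfold BN
  rw [if_pos rfl]

/-- The balancing condition, coordinatewise. -/
theorem bal_apply {e : V3 → ℤ} (he : Bal T v e) {a : V3} (ha : a ∈ rays T) (i : Fin 3) :
    ∑ b ∈ rays T, Lw T v a b * b i = e a * a i := by
  have h1 := congrFun (he a ha) i
  rw [Finset.sum_apply] at h1
  simpa only [Pi.smul_apply, smul_eq_mul] using h1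

end

end Pool.Agent.DUR.H59

end

/-! ### H59/Ccnp -/

section
/-! # CCNP: the numbers `C_i · E_a` of the Newton polyhedron -/

set_option autoImplicit false
set_option linter.unusedSectionVars false

namespace Pool.Agent.DUR

open Finset H59

theorem fin3_aux : ∀ i j k l : Fin 3, i ≠ j → j ≠ k → i ≠ k → l ≠ j → l ≠ i → l = k := by
  intro i j k l h1 h2 h3 h4 h5
  have := i.isLt
  have := j.isLt
  have := k.isLt
  have := l.isLt
  rw [Ne, Fin.ext_iff] at h1 h2 h3 h4 h5
  rw [Fin.ext_iff]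
  omega

theorem ccnp (hP : NpadStatement) (hE : EdgeStatement) (hL : LposStatement)
    (hX : AxnbStatement) : CcnpStatement := by
  classical
  intro A T v e h he
  have hg := h.good
  refine ⟨fun a ha i => ?_, fun a ha => ?_, fun i j k hij hjk hik => ?_⟩
  · have h1 := bal_apply he (mem_VV.1 ha).1 i
    rw [sum_nb hP hE hL h ha (fun b => Lw T v a b * b i) (fun b _ hb => by
      rw [hb, zero_mul])] at h1
    have h2 : ∑ j, Lw T v a (ev j) * ev j i = Lw T v a (ev i) := by
      rw [Finset.sum_eq_single i]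
      · rw [ev_same, mul_one]
      · intro j _ hj
        rw [ev_ne (Ne.symm hj), mul_zero]
      · intro hi
        exact absurd (Finset.mem_univ i) hi
    have h3 : ∑ b ∈ VV T v, BN T v e a b * b i =
        -e a * a i + ∑ b ∈ VV T v with b ≠ a, Lw T v a b * b i := by
      rw [← Finset.sum_filter_add_sum_filter_not (VV T v) (fun b => b ≠ a), add_comm]
      congr 1
      · have h4 : (VV T v).filter (fun b => ¬ b ≠ a) = {a} := by
          ext b
          simp only [Finset.mem_filter, Finset.mem_singleton, not_not]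
          exact ⟨fun hb => hb.2, fun hb => ⟨hb ▸ ha, hb⟩⟩
        rw [h4, Finset.sum_singleton, BN_self]
      · refine Finset.sum_congr rfl fun b hb => ?_
        rw [BN_of_ne (Finset.mem_filter.1 hb).2]
    unfold cc
    rw [h3]
    rw [h2] at h1
    linarith
  · rw [sum_nb hP hE hL h ha (fun b => Lw T v a b) (fun b _ hb => hb)]
    congr 1
    refine Finset.sum_congr rfl fun b hb => ?_
    rw [BN_of_ne (Finset.mem_filter.1 hb).2]
  · obtain ⟨b₀, hb₀, h1, h2, h3, h4⟩ := hX T hg i j k hij hjk hik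
    have hjr : ev j ∈ rays T := ev_mem hg j
    have hb := bal_apply he hjr i
    rw [ev_ne hij, mul_zero] at hb
    have hb₀V : b₀ ∉ VV T v := by
      intro hc
      have := (mem_VV.1 hc).2.1 k
      omega
    have hLb : Lw T v (ev j) b₀ = -(icpt A k : ℤ) := by
      rcases h3 with ⟨c, h3⟩ | ⟨c, h3⟩
      · exact ((hL A T v h).2.1 _ _ _ k h3 (ev_ne hjk.symm) h2).2
      · rw [Lw_symm hP hE h]
        exact ((hL A T v h).2.1 _ _ _ k h3 h2 (ev_ne hjk.symm)).2
    have hsum : ∑ b ∈ rays T, Lw T v (ev j) b * b i =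
        ∑ b ∈ insert b₀ (VV T v), Lw T v (ev j) b * b i := by
      symm
      refine Finset.sum_subset ?_ ?_
      · intro b hb
        rcases Finset.mem_insert.1 hb with rfl | hb
        · exact hb₀
        · exact (mem_VV.1 hb).1
      · intro b hbr hbn
        by_contra hne
        have hL0 : Lw T v (ev j) b ≠ 0 := fun h0 => hne (by rw [h0, zero_mul])
        have hbi : b i ≠ 0 := fun h0 => hne (by rw [h0, mul_zero])
        apply hbn
        by_cases hc : ∀ i, 0 < b i
        · refine Finset.mem_insert_of_mem (mem_VV_of hP hE h hbr hjr hc ?_)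
          rwa [Lw_symm hP hE h]
        · obtain ⟨l, hl1, hl2⟩ := (hL A T v h).2.2.2 (ev j) b ⟨k, ev_ne hjk.symm⟩
            (bd_of_not hg hbr hc) hL0
          have hlj : l ≠ j := by
            rintro rfl
            rw [ev_same] at hl1
            exact one_ne_zero hl1
          have hli : l ≠ i := by
            rintro rfl
            exact hbi hl2
          have hlk : l = k := fin3_aux i j k l hij hjk hik hlj hli
          subst hlk
          have := h4 b hl2 ((hE T _ v (hP A T v h)).2.1 _ _ hL0)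
          exact Finset.mem_insert.2 (Or.inl this)
    rw [hsum, Finset.sum_insert hb₀V, hLb, h1] at hb
    have h5 : ∑ a ∈ VV T v, a i * Lw T v a (ev j) = ∑ b ∈ VV T v, Lw T v (ev j) b * b i := by
      refine Finset.sum_congr rfl fun b _ => ?_
      rw [Lw_symm hP hE h (ev j) b, mul_comm]
    rw [h5]
    linarith

end Pool.Agent.DUR

end

/-! ### H59/Psin -/

section
/-! # PSIN: the identity `2(μ - 6p) + 2 = Ψ` -/

set_option autoImplicit false
set_option linter.unusedSectionVars false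

namespace Pool.Agent.DUR

namespace H59

open Finset

theorem zero_unique {a b c : V3} (hd : det3 a b c = 1) {i i' : Fin 3} (ha : a i = 0) (hb : b i = 0)
    (ha' : a i' = 0) (hb' : b i' = 0) : i = i' := by
  simp only [det3, dot, cross, Matrix.cons_val_zero, Matrix.cons_val_one, Matrix.cons_val] at hd
  fin_cases i <;> fin_cases i' <;> first
    | rfl
    | (exfalso
       simp only [Fin.zero_eta, Fin.mk_one, Fin.reduceFinMk] at ha hb ha' hb'
       rw [ha, hb, ha', hb'] at hd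
       simp at hd)

theorem one_side {a b c d : V3} (hd : det3 a b c = 1) (hd' : det3 b a d = 1) {i : Fin 3}
    (ha : a i = 0) (hb : b i = 0) (hc : 0 ≤ c i) (hd0 : 0 ≤ d i) : False := by
  simp only [det3, dot, cross, Matrix.cons_val_zero, Matrix.cons_val_one, Matrix.cons_val] at hd hd'
  fin_cases i
  · simp only [Fin.zero_eta] at ha hb hc hd0
    rw [ha, hb] at hd hd'
    have h1 : (a 1 * b 2 - a 2 * b 1) * c 0 = 1 := by linarith
    have h2 : -(a 1 * b 2 - a 2 * b 1) * d 0 = 1 := by linarith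
    by_contra _
    rcases le_total 0 (a 1 * b 2 - a 2 * b 1) with h | h
    · have := mul_nonneg h hd0
      linarith
    · have := mul_nonneg (neg_nonneg.2 h) hc
      linarith
  · simp only [Fin.mk_one] at ha hb hc hd0
    rw [ha, hb] at hd hd'
    have h1 : (a 2 * b 0 - a 0 * b 2) * c 1 = 1 := by linarith
    have h2 : -(a 2 * b 0 - a 0 * b 2) * d 1 = 1 := by linarith
    rcases le_total 0 (a 2 * b 0 - a 0 * b 2) with h | h
    · have := mul_nonneg h hd0
      linarith
    · have := mul_nonneg (neg_nonneg.2 h) hc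
      linarith
  · simp only [Fin.reduceFinMk] at ha hb hc hd0
    rw [ha, hb] at hd hd'
    have h1 : (a 0 * b 1 - a 1 * b 0) * c 2 = 1 := by linarith
    have h2 : -(a 0 * b 1 - a 1 * b 0) * d 2 = 1 := by linarith
    rcases le_total 0 (a 0 * b 1 - a 1 * b 0) with h | h
    · have := mul_nonneg h hd0
      linarith
    · have := mul_nonneg (neg_nonneg.2 h) hc
      linarith

theorem kap_symm (a b : V3) : kap a b = kap b a := by
  unfold kap
  ring

theorem deg_ev (i : Fin 3) : deg (ev i) = 1 := by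
  fin_cases i <;> simp [deg, ev]

/-- Boundary rays. -/
def Bd (T : Finset Tri) : Finset V3 := (rays T).filter fun a => ∃ i, a i = 0

theorem mem_Bd {T : Finset Tri} {a : V3} : a ∈ Bd T ↔ a ∈ rays T ∧ ∃ i, a i = 0 := by
  unfold Bd
  rw [Finset.mem_filter]

section

variable {A : Finset V3} {T : Finset Tri} {v : Tri → V3} (hP : NpadStatement) (hE : EdgeStatement)
  (hL : LposStatement) (h : NP A T v)

include h in
theorem sum_SBd {M : Type} [AddCommMonoid M] (X : V3 → M)
    (hX : ∀ a ∈ rays T, (∀ i, 0 < a i) → a ∉ VV T v → X a = 0) :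
    ∑ a ∈ rays T, X a = ∑ a ∈ VV T v, X a + ∑ a ∈ Bd T, X a := by
  classical
  have h2 : Disjoint (VV T v) (Bd T) := by
    rw [Finset.disjoint_left]
    intro a ha ha'
    obtain ⟨i, hi⟩ := (mem_Bd.1 ha').2
    have := (mem_VV.1 ha).2.1 i
    omega
  rw [← Finset.sum_union h2]
  symm
  refine Finset.sum_subset ?_ ?_
  · intro a ha
    rcases Finset.mem_union.1 ha with ha | ha
    · exact (mem_VV.1 ha).1
    · exact (mem_Bd.1 ha).1
  · intro a ha ha'
    refine hX a ha ?_ fun hc => ha' (Finset.mem_union_left _ hc)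
    by_contra hc
    exact ha' (Finset.mem_union_right _ (mem_Bd.2 ⟨ha, bd_of_not h.good ha hc⟩))

theorem swap_sum {M : Type} [AddCommMonoid M] (S : Finset V3) (F : V3 → V3 → M) :
    ∑ a ∈ S, ∑ b ∈ S with b ≠ a, F a b = ∑ a ∈ S, ∑ b ∈ S with b ≠ a, F b a := by
  refine Finset.sum_comm' ?_
  intro a b
  simp only [Finset.mem_filter]
  constructor
  · rintro ⟨h1, h2, h3⟩
    exact ⟨⟨h1, Ne.symm h3⟩, h2⟩
  · rintro ⟨⟨h1, h2⟩, h3⟩
    exact ⟨h1, h3, Ne.symm h2⟩

/-- The sum over the boundary edges. -/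
theorem sum_bd (hbd : ∀ a b c i, (a, b, c) ∈ T → a i = 0 → b i = 0 →
      Lw T v a b = -(icpt A i : ℤ)) (hLsym : ∀ a b, Lw T v a b = Lw T v b a)
    (hLz : ∀ a b, (∃ i, a i = 0) → (∃ i, b i = 0) → Lw T v a b ≠ 0 → ∃ i, a i = 0 ∧ b i = 0)
    (hLe : ∀ a b, Lw T v a b ≠ 0 → (∃ c, (a, b, c) ∈ T) ∨ ∃ c, (b, a, c) ∈ T)
    (hg : Good T) :
    ∑ a ∈ Bd T, ∑ b ∈ Bd T, kap a b * (Lw T v a b : ℝ) = -2 * ∑ i : Fin 3, (icpt A i : ℝ) := by
  classical
  let Ω : Finset ((Fin 3 × Tri) × Bool) :=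
    (((univ : Finset (Fin 3)) ×ˢ T).filter fun p => p.2.1 p.1 = 0 ∧ p.2.2.1 p.1 = 0) ×ˢ
      (univ : Finset Bool)
  let φ : (Fin 3 × Tri) × Bool → V3 × V3 := fun q =>
    if q.2 then (q.1.2.1, q.1.2.2.1) else (q.1.2.2.1, q.1.2.1)
  have hΩ : ∀ q, q ∈ Ω ↔ q.1.2 ∈ T ∧ q.1.2.1 q.1.1 = 0 ∧ q.1.2.2.1 q.1.1 = 0 := by
    intro q
    simp only [Ω, Finset.mem_product, Finset.mem_filter, Finset.mem_univ, true_and, and_true]
  have key : ∑ q ∈ Ω, (fun p : V3 × V3 => kap p.1 p.2 * (Lw T v p.1 p.2 : ℝ)) (φ q) =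
      ∑ p ∈ Bd T ×ˢ Bd T, kap p.1 p.2 * (Lw T v p.1 p.2 : ℝ) := by
    refine Finset.sum_of_injOn φ ?_ ?_ ?_ (fun q _ => rfl)
    · rintro ⟨⟨i, a, b, c⟩, s⟩ hq ⟨⟨i', a', b', c'⟩, s'⟩ hq' heq
      obtain ⟨h1, h2, h3⟩ := (hΩ _).1 hq
      obtain ⟨h1', h2', h3'⟩ := (hΩ _).1 hq'
      dsimp only at h1 h2 h3 h1' h2' h3'
      cases s <;> cases s' <;> simp only [φ, if_true, if_false, Prod.mk.injEq,
        Bool.false_eq_true] at heq
      · obtain ⟨rfl, rfl⟩ := heq
        have hc : c = c' := hg.uniq _ _ _ _ h1 h1'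
        subst hc
        have hi : i = i' := zero_unique (hg.det1 _ _ _ h1) h2 h3 h2' h3'
        rw [hi]
      · obtain ⟨rfl, rfl⟩ := heq
        have hi : i = i' := zero_unique (hg.det1 _ _ _ h1) h2 h3 h3' h2'
        subst hi
        exact (one_side (hg.det1 _ _ _ h1) (hg.det1 _ _ _ h1') h2 h3
          (hg.nn _ _ _ (hg.rot _ _ _ (hg.rot _ _ _ h1)) i)
          (hg.nn _ _ _ (hg.rot _ _ _ (hg.rot _ _ _ h1')) i)).elim
      · obtain ⟨rfl, rfl⟩ := heq
        have hi : i = i' := zero_unique (hg.det1 _ _ _ h1) h2 h3 h3' h2'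
        subst hi
        exact (one_side (hg.det1 _ _ _ h1) (hg.det1 _ _ _ h1') h2 h3
          (hg.nn _ _ _ (hg.rot _ _ _ (hg.rot _ _ _ h1)) i)
          (hg.nn _ _ _ (hg.rot _ _ _ (hg.rot _ _ _ h1')) i)).elim
      · obtain ⟨rfl, rfl⟩ := heq
        have hc : c = c' := hg.uniq _ _ _ _ h1 h1'
        subst hc
        have hi : i = i' := zero_unique (hg.det1 _ _ _ h1) h2 h3 h2' h3'
        rw [hi]
    · rintro ⟨⟨i, a, b, c⟩, s⟩ hq
      obtain ⟨h1, h2, h3⟩ := (hΩ _).1 hq
      dsimp only at h1 h2 h3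
      have ha : a ∈ Bd T := mem_Bd.2 ⟨fst_mem h1, i, h2⟩
      have hb : b ∈ Bd T := mem_Bd.2 ⟨snd_mem hg h1, i, h3⟩
      cases s
      · exact Finset.mem_coe.2 (Finset.mem_product.2 ⟨hb, ha⟩)
      · exact Finset.mem_coe.2 (Finset.mem_product.2 ⟨ha, hb⟩)
    · rintro ⟨a, b⟩ hp hn
      by_contra hne
      obtain ⟨ha, hb⟩ := Finset.mem_product.1 hp
      have hL0 : Lw T v a b ≠ 0 := by
        intro h0
        apply hne
        dsimp only
        rw [h0, Int.cast_zero, mul_zero]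
      obtain ⟨i, h1, h2⟩ := hLz a b (mem_Bd.1 ha).2 (mem_Bd.1 hb).2 hL0
      apply hn
      rcases hLe a b hL0 with ⟨c, hc⟩ | ⟨c, hc⟩
      · exact ⟨((i, (a, b, c)), true), (hΩ _).2 ⟨hc, h1, h2⟩, rfl⟩
      · exact ⟨((i, (b, a, c)), false), (hΩ _).2 ⟨hc, h2, h1⟩, rfl⟩
  rw [← Finset.sum_product', ← key, Finset.sum_product, Finset.sum_filter, Finset.sum_product]
  have h3 : ∀ i : Fin 3, ∑ t ∈ T, (if (t.1 i = 0 ∧ t.2.1 i = 0) then
      ∑ s : Bool, (fun p : V3 × V3 => kap p.1 p.2 * (Lw T v p.1 p.2 : ℝ)) (φ ((i, t), s)) else 0) =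
      -2 * (icpt A i : ℝ) := by
    intro i
    have h4 := hg.bdk i
    rw [Finset.sum_filter] at h4
    have h5 : ∀ t ∈ T, (if (t.1 i = 0 ∧ t.2.1 i = 0) then
      ∑ s : Bool, (fun p : V3 × V3 => kap p.1 p.2 * (Lw T v p.1 p.2 : ℝ)) (φ ((i, t), s)) else 0) =
      (-2 * (icpt A i : ℝ)) * (if (t.1 i = 0 ∧ t.2.1 i = 0) then kap t.1 t.2.1 else 0) := by
      rintro ⟨a, b, c⟩ ht
      dsimp only
      split_ifs with hc
      · rw [Fintype.sum_bool]
        simp only [φ, if_true, if_false, Bool.false_eq_true]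
        rw [kap_symm b a, hLsym b a, hbd a b c i ht hc.1 hc.2]
        push_cast
        ring
      · rw [mul_zero]
    rw [Finset.sum_congr rfl h5, ← Finset.mul_sum, h4, mul_one]
  rw [Finset.mul_sum]
  exact Finset.sum_congr rfl fun i _ => h3 i

end

end H59

open Finset H59

theorem psin (hC : CnttStatement) (hN : CcnpStatement) (hA : ArbdStatement) (hL : LposStatement)
    (hE : EdgeStatement) (hP : NpadStatement) : PsinStatement := by
  classical
  intro A T v e h he
  have hg := h.good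
  have hAdm := hP A T v h
  obtain ⟨-, hcnt⟩ := hC T _ v e hAdm he
  obtain ⟨hN1, hN2, hN3⟩ := hN A T v e h he
  obtain ⟨hA1, hA2⟩ := hA A T v e h he
  have hsym : ∀ a b, Lw T v a b = Lw T v b a := Lw_symm hP hE h
  have hdeg : ∀ a ∈ VV T v, (0 : ℝ) < (deg a : ℝ) := by
    intro a ha
    have := (mem_VV.1 ha).2.1
    have h0 := this 0
    have h1 := this 1
    have h2 := this 2
    exact_mod_cast (show (0 : ℤ) < deg a by unfold deg; omega)
  -- the numbers `c a`, `D a`
  set c : V3 → ℤ := fun a => ∑ i, Lw T v a (ev i) with hc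
  set D : V3 → ℤ := fun a => ∑ b ∈ VV T v with b ≠ a, Lw T v a b with hD
  have hBD : ∀ a ∈ VV T v, ∑ b ∈ VV T v with b ≠ a, BN T v e a b = D a := by
    intro a _
    exact Finset.sum_congr rfl fun b hb => BN_of_ne (Finset.mem_filter.1 hb).2
  have hR : ∀ a ∈ VV T v, ∑ b ∈ rays T, Lw T v a b = D a + c a := by
    intro a ha
    rw [hN2 a ha, hBD a ha]
  -- degrees
  have hdege : ∀ a ∈ VV T v, deg a * e a =
      ∑ b ∈ VV T v with b ≠ a, Lw T v a b * deg b + c a := by
    intro a ha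
    have h1 : ∑ b ∈ rays T, Lw T v a b * deg b = e a * deg a := by
      have h0 := fun i => bal_apply he (mem_VV.1 ha).1 i
      have e1 : ∑ b ∈ rays T, Lw T v a b * deg b = ∑ b ∈ rays T, Lw T v a b * b 0 +
          ∑ b ∈ rays T, Lw T v a b * b 1 + ∑ b ∈ rays T, Lw T v a b * b 2 := by
        rw [← Finset.sum_add_distrib, ← Finset.sum_add_distrib]
        refine Finset.sum_congr rfl fun b _ => ?_
        unfold deg
        ring
      rw [e1, h0 0, h0 1, h0 2]
      unfold deg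
      ring
    rw [sum_nb hP hE hL h ha (fun b => Lw T v a b * deg b) (fun b _ hb => by
      rw [hb, zero_mul])] at h1
    have h2 : ∑ i, Lw T v a (ev i) * deg (ev i) = c a := by
      rw [hc]
      refine Finset.sum_congr rfl fun i _ => ?_
      rw [deg_ev, mul_one]
    rw [h2] at h1
    linarith
  -- `Ψ`
  have hpsi : psi2 (VV T v) (BN T v e) (KN A T v e) =
      2 * ∑ a ∈ VV T v, (deg a - 3) * Ar T (ell A) v e a + 2 * ∑ i : Fin 3, (icpt A i : ℤ) +
        3 * ∑ a ∈ VV T v, D a + 6 * ∑ a ∈ VV T v, c a - 2 * ∑ a ∈ VV T v, e a -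
        2 * ∑ a ∈ VV T v, deg a * c a := by
    have s1 : ∑ a ∈ VV T v, (deg a - 3) * KN A T v e a =
        ∑ a ∈ VV T v, (deg a - 3) * Ar T (ell A) v e a - ∑ a ∈ VV T v, deg a * D a -
          ∑ a ∈ VV T v, deg a * c a + 3 * ∑ a ∈ VV T v, D a + 3 * ∑ a ∈ VV T v, c a +
          ∑ a ∈ VV T v, deg a * e a - 3 * ∑ a ∈ VV T v, e a := by
      rw [Finset.mul_sum, Finset.mul_sum, Finset.mul_sum, ← Finset.sum_sub_distrib,
        ← Finset.sum_sub_distrib, ← Finset.sum_add_distrib, ← Finset.sum_add_distrib,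
        ← Finset.sum_add_distrib, ← Finset.sum_sub_distrib]
      refine Finset.sum_congr rfl fun a ha => ?_
      unfold KN
      rw [hR a ha]
      ring
    have s2 : ∑ a ∈ VV T v, deg a * e a = ∑ a ∈ VV T v, deg a * D a + ∑ a ∈ VV T v, c a := by
      rw [Finset.sum_congr rfl hdege, Finset.sum_add_distrib, swap_sum]
      congr 1
      refine Finset.sum_congr rfl fun a _ => ?_
      rw [hD, Finset.mul_sum]
      refine Finset.sum_congr rfl fun b _ => ?_
      rw [hsym b a, mul_comm]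
    have s3 : ∑ a ∈ VV T v, ∑ b ∈ VV T v, BN T v e a b =
        ∑ a ∈ VV T v, D a - ∑ a ∈ VV T v, e a := by
      rw [← Finset.sum_sub_distrib]
      refine Finset.sum_congr rfl fun a ha => ?_
      rw [← Finset.sum_filter_add_sum_filter_not (VV T v) (fun b => b ≠ a), hBD a ha]
      have h4 : (VV T v).filter (fun b => ¬ b ≠ a) = {a} := by
        ext b
        simp only [Finset.mem_filter, Finset.mem_singleton, not_not]
        exact ⟨fun hb => hb.2, fun hb => ⟨hb ▸ ha, hb⟩⟩
      rw [h4, Finset.sum_singleton, BN_self]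
      ring
    have s4 : ∑ a ∈ VV T v, ∑ b ∈ VV T v, BN T v e a b * (a 0 * b 1 + a 0 * b 2 + a 1 * b 2) =
        -∑ i : Fin 3, (icpt A i : ℤ) := by
      have h1 : ∀ a ∈ VV T v, ∑ b ∈ VV T v, BN T v e a b *
          (a 0 * b 1 + a 0 * b 2 + a 1 * b 2) =
          -(a 0 * Lw T v a (ev 1)) - a 0 * Lw T v a (ev 2) - a 1 * Lw T v a (ev 2) := by
        intro a ha
        rw [← hN1 a ha 1, ← hN1 a ha 2]
        unfold cc
        rw [mul_neg, mul_neg, mul_neg, Finset.mul_sum, Finset.mul_sum, Finset.mul_sum, neg_neg,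
          sub_neg_eq_add, sub_neg_eq_add, ← Finset.sum_add_distrib, ← Finset.sum_add_distrib]
        refine Finset.sum_congr rfl fun b _ => ?_
        ring
      rw [Finset.sum_congr rfl h1, Finset.sum_sub_distrib, Finset.sum_sub_distrib,
        Finset.sum_neg_distrib, hN3 0 1 2 (by decide) (by decide) (by decide),
        hN3 0 2 1 (by decide) (by decide) (by decide),
        hN3 1 2 0 (by decide) (by decide) (by decide), Fin.sum_univ_three]
      ring
    have s5 : ∑ a ∈ VV T v, ∑ i, cc (VV T v) (BN T v e) a i = ∑ a ∈ VV T v, c a := by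
      refine Finset.sum_congr rfl fun a ha => ?_
      rw [hc]
      exact Finset.sum_congr rfl fun i _ => hN1 a ha i
    have s6 : ∑ a ∈ VV T v, ∑ b ∈ VV T v with b ≠ a, BN T v e a b = ∑ a ∈ VV T v, D a :=
      Finset.sum_congr rfl hBD
    unfold psi2
    rw [s1, s2, s3, s4, s5, s6]
    ring
  -- the areas
  have hAr0 : ∀ a ∈ rays T, (∀ i, 0 < a i) → a ∉ VV T v → Ar T (ell A) v e a = 0 := by
    intro a ha hpos hn
    have h0 : ∀ b ∈ rays T, Lw T v a b = 0 := by
      intro b hb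
      by_contra hne
      exact hn (mem_VV.2 ⟨ha, hpos, b, hb, hne⟩)
    have h1 := bal_apply he ha 0
    rw [Finset.sum_eq_zero fun b hb => by rw [h0 b hb, zero_mul]] at h1
    have h2 : e a = 0 := by
      rcases mul_eq_zero.1 h1.symm with h3 | h3
      · exact h3
      · have := hpos 0
        omega
    unfold Ar
    rw [h2, Finset.sum_eq_zero fun b hb => by rw [h0 b hb, zero_mul], zero_mul, sub_zero]
  have hBdAr : ∀ (G : V3 → ℤ), ∑ a ∈ Bd T, G a * Ar T (ell A) v e a =
      ∑ i, G (ev i) * Ar T (ell A) v e (ev i) := by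
    intro G
    symm
    have h1 : ∑ i, G (ev i) * Ar T (ell A) v e (ev i) =
        ∑ b ∈ (univ : Finset (Fin 3)).image ev, G b * Ar T (ell A) v e b := by
      rw [Finset.sum_image]
      intro i _ j _ hij
      exact ev_inj hij
    rw [h1]
    refine Finset.sum_subset ?_ ?_
    · intro b hb
      obtain ⟨i, -, rfl⟩ := Finset.mem_image.1 hb
      have hk : ∃ j, j ≠ i := by fin_cases i <;> decide
      obtain ⟨j, hj⟩ := hk
      exact mem_Bd.2 ⟨ev_mem hg i, j, ev_ne hj⟩
    · intro b hb hn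
      rw [hA1 b (mem_Bd.1 hb).1 (mem_Bd.1 hb).2, mul_zero]
      rintro i rfl
      exact hn (Finset.mem_image_of_mem _ (Finset.mem_univ _))
  have hArsum : ∑ a ∈ rays T, Ar T (ell A) v e a = ∑ a ∈ VV T v, Ar T (ell A) v e a +
      ∑ i, Ar T (ell A) v e (ev i) := by
    rw [sum_SBd h _ hAr0]
    congr 1
    have := hBdAr fun _ => 1
    simpa only [one_mul] using this
  have hArdeg : ∑ a ∈ VV T v, deg a * Ar T (ell A) v e a +
      ∑ i, Ar T (ell A) v e (ev i) = 0 := by
    have h1 : ∑ a ∈ rays T, deg a * Ar T (ell A) v e a = 0 := by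
      have e1 : ∑ a ∈ rays T, deg a * Ar T (ell A) v e a =
          ∑ a ∈ rays T, a 0 * Ar T (ell A) v e a + ∑ a ∈ rays T, a 1 * Ar T (ell A) v e a +
          ∑ a ∈ rays T, a 2 * Ar T (ell A) v e a := by
        rw [← Finset.sum_add_distrib, ← Finset.sum_add_distrib]
        refine Finset.sum_congr rfl fun b _ => ?_
        unfold deg
        ring
      rw [e1, hA2 0, hA2 1, hA2 2]
      ring
    rw [sum_SBd h _ (fun a ha hpos hn => by rw [hAr0 a ha hpos hn, mul_zero]), hBdAr deg] at h1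
    rw [← h1]
    congr 1
    refine Finset.sum_congr rfl fun i _ => ?_
    rw [deg_ev, one_mul]
  -- the sum of `kap`
  have hG0 : ∀ a ∈ rays T, (∀ i, 0 < a i) → a ∉ VV T v → ∀ b ∈ rays T, Lw T v a b = 0 := by
    intro a ha hpos hn b hb
    by_contra hne
    exact hn (mem_VV.2 ⟨ha, hpos, b, hb, hne⟩)
  have hkapS : ∀ a ∈ VV T v, ∑ b ∈ rays T, kap a b * (Lw T v a b : ℝ) =
      ∑ b ∈ VV T v with b ≠ a, kap a b * (Lw T v a b : ℝ) +
        ∑ i, kap a (ev i) * (Lw T v a (ev i) : ℝ) := by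
    intro a ha
    exact sum_nb hP hE hL h ha (fun b => kap a b * (Lw T v a b : ℝ)) (fun b _ hb => by
      rw [hb, Int.cast_zero, mul_zero])
  have hkapBd : ∀ a ∈ rays T, ∑ b ∈ rays T, kap a b * (Lw T v a b : ℝ) =
      ∑ b ∈ VV T v, kap a b * (Lw T v a b : ℝ) + ∑ b ∈ Bd T, kap a b * (Lw T v a b : ℝ) := by
    intro a ha
    refine sum_SBd h _ fun b hb hpos hn => ?_
    rw [hsym a b, hG0 b hb hpos hn a ha, Int.cast_zero, mul_zero]
  have hkapS' : ∀ a ∈ VV T v, ∑ b ∈ Bd T, kap a b * (Lw T v a b : ℝ) =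
      ∑ i, kap a (ev i) * (Lw T v a (ev i) : ℝ) := by
    intro a ha
    have h1 := hkapS a ha
    rw [hkapBd a (mem_VV.1 ha).1,
      ← Finset.sum_filter_add_sum_filter_not (VV T v) (fun b => b ≠ a)] at h1
    have h4 : (VV T v).filter (fun b => ¬ b ≠ a) = {a} := by
      ext b
      simp only [Finset.mem_filter, Finset.mem_singleton, not_not]
      exact ⟨fun hb => hb.2, fun hb => ⟨hb ▸ ha, hb⟩⟩
    rw [h4, Finset.sum_singleton, Lw_self hP hE h, Int.cast_zero, mul_zero, add_zero] at h1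
    exact add_left_cancel h1
  have hkap : ∑ a ∈ rays T, ∑ b ∈ rays T, kap a b * (Lw T v a b : ℝ) =
      ∑ a ∈ VV T v, ∑ b ∈ VV T v with b ≠ a, kap a b * (Lw T v a b : ℝ) +
        2 * ∑ a ∈ VV T v, ∑ i, kap a (ev i) * (Lw T v a (ev i) : ℝ) -
        2 * ∑ i : Fin 3, (icpt A i : ℝ) := by
    rw [sum_SBd h _ (fun a ha hpos hn => Finset.sum_eq_zero fun b hb => by
      rw [hG0 a ha hpos hn b hb, Int.cast_zero, mul_zero]), Finset.sum_congr rfl hkapS,
      Finset.sum_add_distrib, Finset.sum_congr rfl fun a ha => hkapBd a (mem_Bd.1 ha).1,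
      Finset.sum_add_distrib,
      sum_bd (fun a b c i h1 h2 h3 => ((hL A T v h).2.1 a b c i h1 h2 h3).2) hsym
        (hL A T v h).2.2.2 (hE T _ v hAdm).2.1 hg, Finset.sum_comm (s := Bd T)]
    have h5 : ∑ b ∈ VV T v, ∑ a ∈ Bd T, kap a b * (Lw T v a b : ℝ) =
        ∑ a ∈ VV T v, ∑ i, kap a (ev i) * (Lw T v a (ev i) : ℝ) := by
      refine Finset.sum_congr rfl fun b hb => ?_
      rw [← hkapS' b hb]
      refine Finset.sum_congr rfl fun a _ => ?_
      rw [kap_symm, hsym]
    rw [h5]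
    ring
  -- the sum over pairs of compact rays
  have hkapV : ∑ a ∈ VV T v, ∑ b ∈ VV T v with b ≠ a, kap a b * (Lw T v a b : ℝ) =
      3 * ∑ a ∈ VV T v, (D a : ℝ) - 2 * ∑ a ∈ VV T v, (e a : ℝ) +
        2 * ∑ a ∈ VV T v, (c a : ℝ) / deg a := by
    have e1 : ∑ a ∈ VV T v, ∑ b ∈ VV T v with b ≠ a, kap a b * (Lw T v a b : ℝ) =
        ∑ a ∈ VV T v, ∑ b ∈ VV T v with b ≠ a, 3 * (Lw T v a b : ℝ) -
        ∑ a ∈ VV T v, ∑ b ∈ VV T v with b ≠ a, (deg a : ℝ) / deg b * (Lw T v a b : ℝ) -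
        ∑ a ∈ VV T v, ∑ b ∈ VV T v with b ≠ a, (deg b : ℝ) / deg a * (Lw T v a b : ℝ) := by
      rw [← Finset.sum_sub_distrib, ← Finset.sum_sub_distrib]
      refine Finset.sum_congr rfl fun a _ => ?_
      rw [← Finset.sum_sub_distrib, ← Finset.sum_sub_distrib]
      refine Finset.sum_congr rfl fun b _ => ?_
      unfold kap
      ring
    have e2 : ∑ a ∈ VV T v, ∑ b ∈ VV T v with b ≠ a, (deg a : ℝ) / deg b * (Lw T v a b : ℝ) =
        ∑ a ∈ VV T v, ∑ b ∈ VV T v with b ≠ a, (deg b : ℝ) / deg a * (Lw T v a b : ℝ) := by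
      rw [swap_sum]
      refine Finset.sum_congr rfl fun a _ => ?_
      refine Finset.sum_congr rfl fun b _ => ?_
      rw [hsym b a]
    have e3 : ∀ a ∈ VV T v,
        ∑ b ∈ VV T v with b ≠ a, (deg b : ℝ) / deg a * (Lw T v a b : ℝ) =
          (e a : ℝ) - (c a : ℝ) / deg a := by
      intro a ha
      have h1 : (deg a : ℝ) * e a =
          ∑ b ∈ VV T v with b ≠ a, (Lw T v a b : ℝ) * deg b + c a := by
        exact_mod_cast hdege a ha
      have h2 : ∑ b ∈ VV T v with b ≠ a, (deg b : ℝ) / deg a * (Lw T v a b : ℝ) =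
          (∑ b ∈ VV T v with b ≠ a, (Lw T v a b : ℝ) * deg b) / deg a := by
        rw [Finset.sum_div]
        refine Finset.sum_congr rfl fun b _ => ?_
        ring
      have h3 := (hdeg a ha).ne'
      rw [h2]
      field_simp
      linarith
    rw [e1, e2, Finset.sum_congr rfl e3, Finset.sum_sub_distrib]
    have e4 : ∑ a ∈ VV T v, ∑ b ∈ VV T v with b ≠ a, 3 * (Lw T v a b : ℝ) =
        3 * ∑ a ∈ VV T v, (D a : ℝ) := by
      rw [Finset.mul_sum]
      refine Finset.sum_congr rfl fun a _ => ?_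
      rw [hD]
      push_cast
      rw [Finset.mul_sum]
    rw [e4]
    ring
  have hkapE : ∑ a ∈ VV T v, ∑ i, kap a (ev i) * (Lw T v a (ev i) : ℝ) =
      3 * ∑ a ∈ VV T v, (c a : ℝ) - ∑ a ∈ VV T v, (deg a : ℝ) * c a -
        ∑ a ∈ VV T v, (c a : ℝ) / deg a := by
    rw [Finset.mul_sum, ← Finset.sum_sub_distrib, ← Finset.sum_sub_distrib]
    refine Finset.sum_congr rfl fun a _ => ?_
    have h1 : ∀ i : Fin 3, kap a (ev i) * (Lw T v a (ev i) : ℝ) =
        (3 - (deg a : ℝ) - 1 / deg a) * (Lw T v a (ev i) : ℝ) := by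
      intro i
      unfold kap
      rw [deg_ev, Int.cast_one, div_one]
    rw [Finset.sum_congr rfl fun i _ => h1 i, ← Finset.mul_sum]
    have h2 : (c a : ℝ) = ∑ i, (Lw T v a (ev i) : ℝ) := by
      rw [hc]
      push_cast
      rfl
    rw [← h2]
    ring
  -- conclusion
  have hpsiR : (psi2 (VV T v) (BN T v e) (KN A T v e) : ℝ) =
      2 * ∑ a ∈ VV T v, ((deg a : ℝ) - 3) * Ar T (ell A) v e a +
        2 * ∑ i : Fin 3, (icpt A i : ℝ) + 3 * ∑ a ∈ VV T v, (D a : ℝ) +
        6 * ∑ a ∈ VV T v, (c a : ℝ) - 2 * ∑ a ∈ VV T v, (e a : ℝ) -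
        2 * ∑ a ∈ VV T v, (deg a : ℝ) * c a := by
    rw [hpsi]
    push_cast
    rfl
  have hArsumR : ∑ a ∈ rays T, (Ar T (ell A) v e a : ℝ) = ∑ a ∈ VV T v, (Ar T (ell A) v e a : ℝ) +
      ∑ i, (Ar T (ell A) v e (ev i) : ℝ) := by exact_mod_cast hArsum
  have hArdegR : ∑ a ∈ VV T v, (deg a : ℝ) * Ar T (ell A) v e a +
      ∑ i, (Ar T (ell A) v e (ev i) : ℝ) = 0 := by exact_mod_cast hArdeg
  have hsplit : ∑ a ∈ VV T v, ((deg a : ℝ) - 3) * Ar T (ell A) v e a =
      ∑ a ∈ VV T v, (deg a : ℝ) * Ar T (ell A) v e a -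
        3 * ∑ a ∈ VV T v, (Ar T (ell A) v e a : ℝ) := by
    rw [Finset.mul_sum, ← Finset.sum_sub_distrib]
    refine Finset.sum_congr rfl fun a _ => ?_
    ring
  rw [hpsiR, hsplit]
  rw [hkap, hkapV, hkapE, hArsumR] at hcnt
  linarith

end Pool.Agent.DUR

end
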