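import Pool.Agent.Lib.MP_524519_ag.DUR.Iface

set_option autoImplicit false

/-! ### H63/Cneg -/

section
/-! Module CNEG: a ray with `K a < 0` is an orbit of `(-1)`-curves. -/

set_option autoImplicit false

namespace Pool.Agent.DUR

open Finset

theorem cneg : CnegStatement := by
  classical
  intro S B w K hC a ha hK
  have h1 : B a a < 0 := by
    have h := hC.neg (fun b => if b = a then 1 else 0) ⟨a, ha, by simp⟩
    have e : ∑ c ∈ S, ∑ b ∈ S, B c b * (if c = a then 1 else 0) * (if b = a then 1 else 0) =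
        B a a := by
      rw [sum_eq_single a]
      · rw [sum_eq_single a]
        · simp
        · intro b _ hb
          simp [hb]
        · intro h'
          exact absurd ha h'
      · intro c _ hc
        refine sum_eq_zero fun b _ => ?_
        simp [hc]
      · intro h'
        exact absurd ha h'
    rw [e] at h
    exact h
  have h2 : w a ∣ B a a := hC.dvd a ha a ha
  have h3 : w a ∣ K a := hC.dvdK a ha
  have hw := hC.wpos a ha
  have h4 : w a ≤ -B a a := Int.le_of_dvd (by omega) ((dvd_neg).2 h2)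
  have h5 : w a ≤ -K a := Int.le_of_dvd (by omega) ((dvd_neg).2 h3)
  have h6 := hC.adj a ha
  constructor <;> omega

end Pool.Agent.DUR

end

/-! ### H63/Cntt -/

section
/-! Module CNTT: the count formula. -/

set_option autoImplicit false

namespace Pool.Agent.DUR

open Finset

theorem cntt (h1 : CntxStatement) (h2 : BrkcStatement) (h3 : GensStatement) : CnttStatement := by
  intro T l v e hA hB
  have hopen : IsOpen {x : E3 | Pos x} := by
    have : {x : E3 | Pos x} = ⋂ i, {x : E3 | 0 < x i} := by
      ext x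
      simp [Pos]
    rw [this]
    exact isOpen_iInter_of_finite fun i => isOpen_lt continuous_const (continuous_apply i)
  obtain ⟨x, hx, hg⟩ := h3 _ hopen ⟨fun _ => 1, fun _ => one_pos⟩
  obtain ⟨hf, hc⟩ := h1 T l v hA x hg hx
  refine ⟨hf, ?_⟩
  have h4 := h2 T l v e hA hB x hg hx
  rw [← h4, ← hc]
  ring

end Pool.Agent.DUR

end

/-! ### H63/Comb -/

section
/-! Module COMB: the combinatorial inequality. -/

set_option autoImplicit false

namespace Pool.Agent.DUR

open Finset

theorem comb (h1 : CfgnStatement) (h2 : CthmStatement) (h3 : PsinStatement) : CombStatement := by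
  intro A T v e hN hB
  obtain ⟨hne, w, hc⟩ := h1 A T v e hN hB
  have h4 := h2 _ _ _ _ hc hne
  have h5 := h3 A T v e hN hB
  have h6 : (4 : ℝ) ≤ (psi2 (VV T v) (BN T v e) (KN A T v e) : ℝ) := by exact_mod_cast h4
  linarith

end Pool.Agent.DUR

end

/-! ### H63/Cthm -/

section
/-! Module CTHM: the contraction theorem. -/

set_option autoImplicit false

namespace Pool.Agent.DUR

open Finset

theorem cthm (h1 : CbasStatement) (h2 : CnegStatement) (h3 : Cct1Statement) (h4 : Cct2Statement)
    (h5 : CpsiStatement) (h6 : CtrmStatement) : CthmStatement := by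
  have key : ∀ n : ℕ, ∀ (S : Finset V3) (B : V3 → V3 → ℤ) (w K : V3 → ℤ), S.card = n →
      Cfg S B w K → S.Nonempty → 4 ≤ psi2 S B K := by
    intro n
    induction n with
    | zero =>
      intro S B w K hn _ hne
      rw [card_eq_zero] at hn
      rw [hn] at hne
      exact absurd hne (by simp)
    | succ n ih =>
      intro S B w K hn hC hne
      by_cases hK : ∀ a ∈ S, 0 ≤ K a
      · exact h1 S B w K hC hne hK
      push Not at hK
      obtain ⟨c, hc, hKc⟩ := hK
      obtain ⟨hK', hB'⟩ := h2 S B w K hC c hc hKc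
      have hw := hC.wpos c hc
      obtain ⟨m, hm⟩ : w c ∣ ∑ b ∈ S with b ≠ c, B c b :=
        dvd_sum fun b hb => hC.dvd c hc b (mem_filter.1 hb).1
      rw [mul_comm] at hm
      have hγ : ∀ i, ∃ g, cc S B c i = g * w c := by
        intro i
        have : w c ∣ cc S B c i := by
          rw [cc]
          refine (dvd_neg).2 (dvd_sum fun b hb => ?_)
          exact Dvd.dvd.mul_right (hC.dvd c hc b hb) _
        obtain ⟨g, hg⟩ := this
        exact ⟨g, by rw [hg, mul_comm]⟩
      choose γ hγ using hγ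
      have h7 := h5 S B w K c m γ hC hc hB' hK' hm hγ
      obtain ⟨h8, h9⟩ := h6 S B w K c m γ hC hc hB' hK' hm hγ
      set dr := (3 * m - 5) * (m - 2) + 2 * (γ 0 + γ 1 + γ 2) * (m - 2) +
        2 * (γ 0 * γ 1 + γ 0 * γ 2 + γ 1 * γ 2) with hdr
      rcases (S.erase c).eq_empty_or_nonempty with he | he
      · have hSc : S.filter (fun b => b ≠ c) = ∅ := by
          rw [← he]
          ext b
          simp [and_comm]
        rw [hSc, sum_empty] at hm
        have hm0 : m = 0 := by
          rcases mul_eq_zero.1 hm.symm with h | h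
          · exact h
          · omega
        have h10 := h9 hm0
        have h11 : psi2 (S.erase c) (Bct B w c) (fun a => K a - B a c) = 0 := by
          rw [he]
          simp [psi2]
        rw [h11] at h7
        nlinarith
      · obtain ⟨g1, g2, g3, g4, g5, g6, g7⟩ := h3 S B w K c hC hc hB' hK'
        have hC' : Cfg (S.erase c) (Bct B w c) w (fun a => K a - B a c) := by
          refine ⟨?_, ?_, g1, g2, ?_, g3, g4, ?_, g7, g6, ?_⟩
          · exact fun a ha => hC.pos a (mem_of_mem_erase ha)
          · exact fun a ha => hC.prim a (mem_of_mem_erase ha)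
          · exact fun a ha => hC.wpos a (mem_of_mem_erase ha)
          · intro a ha i
            have k1 := g5 a ha i
            have k2 := hC.cpos a (mem_of_mem_erase ha) i
            have k3 := hC.cpos c hc i
            have k4 := hC.off a (mem_of_mem_erase ha) c hc (ne_of_mem_erase ha)
            have k5 : 0 ≤ w c * cc (S.erase c) (Bct B w c) a i := by
              rw [k1]
              positivity
            exact nonneg_of_mul_nonneg_right k5 (by omega)
          · exact h4 S B w K c hC hc hB' hK'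
        have hcard : (S.erase c).card = n := by
          rw [card_erase_of_mem hc, hn]
          rfl
        have h10 := ih _ _ _ _ hcard hC' he
        nlinarith
  intro S B w K hC hne
  exact key S.card S B w K rfl hC hne

end Pool.Agent.DUR

end

/-! ### H63/Dila -/

section
/-! Module DILA: dilations. -/

set_option autoImplicit false

namespace Pool.Agent.DUR

open Finset

namespace DilaAux

theorem smul_dot (u b : V3) (n : ℤ) : dot (n • u) b = n * dot u b := by
  simp only [dot, Pi.smul_apply, smul_eq_mul]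
  ring

theorem sub_dot (u w b : V3) : dot (u - w) b = dot u b - dot w b := by
  simp only [dot, Pi.sub_apply]
  ring

theorem vE_smul (T : Finset Tri) (v : Tri → V3) (n : ℤ) (a b : V3) :
    vE T (fun t => n • v t) a b = n • vE T v a b := by
  rw [vE, vE, smul_sum]

theorem Lw_smul (T : Finset Tri) (v : Tri → V3) (n : ℤ) (a b : V3) :
    Lw T (fun t => n • v t) a b = n * Lw T v a b := by
  classical
  unfold Lw
  rw [vE_smul, vE_smul]
  split_ifs with h
  · rw [mul_sum]
    refine sum_congr rfl fun t _ => ?_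
    rw [sub_dot, sub_dot, smul_dot, smul_dot]
    ring
  · rw [mul_sum]
    refine sum_congr rfl fun t _ => ?_
    rw [sub_dot, sub_dot, smul_dot, smul_dot]
    ring

end DilaAux

open DilaAux in
theorem dila (h : CnttStatement) : DilaStatement := by
  intro T l v e k hA hB
  have hA' : Adm T (fun a => (k : ℤ) * l a) (fun t => (k : ℤ) • v t) := by
    refine ⟨hA.good, ?_, ?_, ?_⟩
    · intro t ht r hr
      rw [smul_dot, hA.eq t ht r hr]
    · intro t ht r hr
      rw [smul_dot]
      exact mul_le_mul_of_nonneg_left (hA.le t ht r hr) (by positivity)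
    · intro r hr hi
      show (k : ℤ) * l r = 0
      rw [hA.bd r hr hi, mul_zero]
  have hB' : Bal T (fun t => (k : ℤ) • v t) (fun a => (k : ℤ) * e a) := by
    intro a ha
    simp only [Lw_smul, mul_smul]
    rw [← smul_sum, hB a ha]
  obtain ⟨-, h1⟩ := h T _ _ _ hA' hB'
  have hAr : ∀ a, Ar T (fun a => (k : ℤ) * l a) (fun t => (k : ℤ) • v t)
      (fun a => (k : ℤ) * e a) a = (k : ℤ) ^ 2 * Ar T l v e a := by
    intro a
    unfold Ar
    simp only [Lw_smul]
    rw [mul_sub, mul_sum]
    congr 1
    · ring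
    · refine sum_congr rfl fun b _ => ?_
      ring
  rw [h1]
  simp only [hAr, Lw_smul]
  push_cast
  congr 1
  · congr 1
    · rw [mul_sum, mul_sum]
      refine sum_congr rfl fun a _ => ?_
      ring
    · rw [mul_sum, mul_sum]
      refine sum_congr rfl fun a _ => ?_
      ring
  · rw [mul_sum, mul_sum, mul_sum]
    refine sum_congr rfl fun a _ => ?_
    rw [mul_sum, mul_sum, mul_sum]
    refine sum_congr rfl fun b _ => ?_
    ring

end Pool.Agent.DUR

end

/-! ### H63/Hght -/

section
/-! Module HGHT: areas and heights. -/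

set_option autoImplicit false

namespace Pool.Agent.DUR

open Finset

namespace HghtAux

theorem dot_smul (u b : V3) (n : ℤ) : dot u (n • b) = n * dot u b := by
  simp only [dot, Pi.smul_apply, smul_eq_mul]
  ring

theorem dot_add (u b c : V3) : dot u (b + c) = dot u b + dot u c := by
  simp only [dot, Pi.add_apply]
  ring

theorem dot_sum (u : V3) (S : Finset V3) (f : V3 → V3) :
    dot u (∑ b ∈ S, f b) = ∑ b ∈ S, dot u (f b) := by
  classical
  induction S using Finset.induction with
  | empty => simp [dot]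
  | insert a s ha ih => rw [sum_insert ha, sum_insert ha, dot_add, ih]

end HghtAux

theorem hght (_ : NpadStatement) : HghtStatement := by
  intro A T v e hN hB t ht
  have h1 : t.1 ∈ rays T := mem_image_of_mem _ ht
  have h2 := congrArg (dot (v t)) (hB t.1 h1)
  rw [HghtAux.dot_sum, HghtAux.dot_smul, hN.eq t ht t.1 (Or.inl rfl)] at h2
  rw [Ar, ← h2, ← sum_sub_distrib]
  refine sum_congr rfl fun b _ => ?_
  rw [HghtAux.dot_smul]
  ring

end Pool.Agent.DUR

end

/-! ### H65/Sera -/

section
/-! Module SERA: the one-dimensional series. -/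

set_option autoImplicit false

namespace Pool.Agent.DUR

theorem sera : SeraStatement := by
  intro s x k hs hx
  have main : HasSum (fun n : ℤ => Real.exp (-(s * x * n)) * (pp x - if n ≤ k then 1 else 0))
      (Real.exp (-(s * x * k)) / (Real.exp (s * x) - 1)) := by
    rcases lt_or_gt_of_ne hx with h | h
    · have hsx : s * x < 0 := mul_neg_of_pos_of_neg hs h
      have hinj : Function.Injective (fun j : ℕ => k - (j : ℤ)) := by
        intro i j hij
        have : k - (i : ℤ) = k - (j : ℤ) := hij
        omega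
      have hp : pp x = 0 := by
        unfold pp
        rw [if_neg (not_lt.2 h.le)]
      rw [← hinj.hasSum_iff]
      · have e1 : ((fun n : ℤ => Real.exp (-(s * x * n)) * (pp x - if n ≤ k then 1 else 0)) ∘
            fun j : ℕ => k - (j : ℤ)) =
            fun j : ℕ => -Real.exp (-(s * x * k)) * Real.exp (s * x) ^ j := by
          funext j
          have h1 : k - (j : ℤ) ≤ k := by omega
          simp only [Function.comp_apply, hp, if_pos h1]
          rw [← Real.exp_nat_mul, neg_mul, ← Real.exp_add]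
          push_cast
          rw [show -(s * x * ((k : ℝ) - (j : ℝ))) = -(s * x * k) + j * (s * x) by ring]
          ring
        rw [e1]
        have h2 := (hasSum_geometric_of_lt_one (Real.exp_pos (s * x)).le
          ((Real.exp_lt_one_iff.2 hsx))).mul_left (-Real.exp (-(s * x * k)))
        have h3 : Real.exp (s * x) - 1 ≠ 0 := by
          have := (Real.exp_lt_one_iff.2 hsx)
          linarith
        have h4 : 1 - Real.exp (s * x) ≠ 0 := by
          intro h5
          apply h3
          linarith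
        have e2 : -Real.exp (-(s * x * k)) * (1 - Real.exp (s * x))⁻¹ =
            Real.exp (-(s * x * k)) / (Real.exp (s * x) - 1) := by
          rw [← div_eq_mul_inv, div_eq_div_iff h4 h3]
          ring
        rwa [e2] at h2
      · intro n hn
        have h1 : ¬ n ≤ k := by
          intro h2
          apply hn
          refine ⟨(k - n).toNat, ?_⟩
          simp only
          omega
        simp only [hp, if_neg h1, sub_zero, mul_zero]
    · have hsx : 0 < s * x := mul_pos hs h
      have hinj : Function.Injective (fun j : ℕ => k + 1 + (j : ℤ)) := by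
        intro i j hij
        have : k + 1 + (i : ℤ) = k + 1 + (j : ℤ) := hij
        omega
      have hp : pp x = 1 := by
        unfold pp
        rw [if_pos h]
      rw [← hinj.hasSum_iff]
      · have e1 : ((fun n : ℤ => Real.exp (-(s * x * n)) * (pp x - if n ≤ k then 1 else 0)) ∘
            fun j : ℕ => k + 1 + (j : ℤ)) =
            fun j : ℕ => Real.exp (-(s * x * (k + 1))) * Real.exp (-(s * x)) ^ j := by
          funext j
          have h1 : ¬ k + 1 + (j : ℤ) ≤ k := by omega
          simp only [Function.comp_apply, hp, if_neg h1]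
          rw [← Real.exp_nat_mul, ← Real.exp_add]
          push_cast
          rw [show -(s * x * ((k : ℝ) + 1 + (j : ℝ))) = -(s * x * (k + 1)) + j * -(s * x) by ring]
          ring
        rw [e1]
        have hlt : Real.exp (-(s * x)) < 1 := Real.exp_lt_one_iff.2 (by linarith)
        have h2 := (hasSum_geometric_of_lt_one (Real.exp_pos (-(s * x))).le hlt).mul_left
          (Real.exp (-(s * x * (k + 1))))
        have h3 : Real.exp (s * x) - 1 ≠ 0 := by
          have := Real.one_lt_exp_iff.2 hsx
          linarith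
        have h4 : 1 - Real.exp (-(s * x)) ≠ 0 := by linarith
        have e3 : Real.exp (-(s * x)) * Real.exp (s * x) = 1 := by
          rw [← Real.exp_add]; simp
        have e4 : Real.exp (-(s * x * (k + 1))) = Real.exp (-(s * x * k)) * Real.exp (-(s * x)) := by
          rw [← Real.exp_add]; congr 1; ring
        have e2 : Real.exp (-(s * x * (k + 1))) * (1 - Real.exp (-(s * x)))⁻¹ =
            Real.exp (-(s * x * k)) / (Real.exp (s * x) - 1) := by
          rw [← div_eq_mul_inv, div_eq_div_iff h4 h3, e4]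
          linear_combination Real.exp (-(s * x * k)) * e3
        rwa [e2] at h2
      · intro n hn
        have h1 : n ≤ k := by
          by_contra h2
          apply hn
          refine ⟨(n - (k + 1)).toNat, ?_⟩
          simp only
          omega
        simp only [hp, if_pos h1, sub_self, mul_zero]
  exact ⟨main, main.summable.abs⟩

end Pool.Agent.DUR

end

/-! ### H65/Serb -/

section
/-! Module SERB: the series of a unimodular cone. -/

set_option autoImplicit false

namespace Pool.Agent.DUR

namespace SerbAux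

theorem cross0 (a b : V3) : cross a b 0 = a 1 * b 2 - a 2 * b 1 := rfl
theorem cross1 (a b : V3) : cross a b 1 = a 2 * b 0 - a 0 * b 2 := rfl
theorem cross2 (a b : V3) : cross a b 2 = a 0 * b 1 - a 1 * b 0 := rfl

/-- The bijection given by a basis. -/
def eqv (a b c : V3) (h : det3 a b c = 1) : V3 ≃ ℤ × ℤ × ℤ where
  toFun m := (dot m a, dot m b, dot m c)
  invFun p := fun i => p.1 * cross b c i + p.2.1 * cross c a i + p.2.2 * cross a b i
  left_inv m := by
    unfold det3 dot at h
    rw [cross0, cross1, cross2] at h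
    funext i
    fin_cases i
    · show dot m a * cross b c 0 + dot m b * cross c a 0 + dot m c * cross a b 0 = m 0
      simp only [dot, cross0]
      linear_combination m 0 * h
    · show dot m a * cross b c 1 + dot m b * cross c a 1 + dot m c * cross a b 1 = m 1
      simp only [dot, cross1]
      linear_combination m 1 * h
    · show dot m a * cross b c 2 + dot m b * cross c a 2 + dot m c * cross a b 2 = m 2
      simp only [dot, cross2]
      linear_combination m 2 * h
  right_inv p := by
    unfold det3 dot at h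
    rw [cross0, cross1, cross2] at h
    obtain ⟨p, q, r⟩ := p
    refine Prod.ext ?_ (Prod.ext ?_ ?_)
    · simp only [dot, cross0, cross1, cross2]
      linear_combination p * h
    · simp only [dot, cross0, cross1, cross2]
      linear_combination q * h
    · simp only [dot, cross0, cross1, cross2]
      linear_combination r * h

theorem rd_eq (a b c m : V3) (h : det3 a b c = 1) (x : E3) :
    rd m x = W b c x * dot m a + W c a x * dot m b + W a b x * dot m c := by
  unfold det3 dot at h
  rw [cross0, cross1, cross2] at h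
  have h' : (((a 1 * b 2 - a 2 * b 1) * c 0 + (a 2 * b 0 - a 0 * b 2) * c 1 +
      (a 0 * b 1 - a 1 * b 0) * c 2 : ℤ) : ℝ) = 1 := by rw [h]; simp
  push_cast at h'
  simp only [W, rd, dot, cross0, cross1, cross2]
  push_cast
  linear_combination (-((m 0 : ℝ) * x 0 + m 1 * x 1 + m 2 * x 2)) * h'

theorem det_cross (a b c : V3) (h : det3 a b c = 1) :
    cross b c ≠ 0 ∧ cross c a ≠ 0 ∧ cross a b ≠ 0 := by
  unfold det3 dot at h
  rw [cross0, cross1, cross2] at h
  refine ⟨fun h0 => ?_, fun h0 => ?_, fun h0 => ?_⟩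
  · have e0 := congrFun h0 0
    have e1 := congrFun h0 1
    have e2 := congrFun h0 2
    rw [cross0, Pi.zero_apply] at e0
    rw [cross1, Pi.zero_apply] at e1
    rw [cross2, Pi.zero_apply] at e2
    have : (1 : ℤ) = 0 := by linear_combination -h + a 0 * e0 + a 1 * e1 + a 2 * e2
    norm_num at this
  · have e0 := congrFun h0 0
    have e1 := congrFun h0 1
    have e2 := congrFun h0 2
    rw [cross0, Pi.zero_apply] at e0
    rw [cross1, Pi.zero_apply] at e1
    rw [cross2, Pi.zero_apply] at e2
    have : (1 : ℤ) = 0 := by linear_combination -h + b 0 * e0 + b 1 * e1 + b 2 * e2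
    norm_num at this
  · have e0 := congrFun h0 0
    have e1 := congrFun h0 1
    have e2 := congrFun h0 2
    rw [cross0, Pi.zero_apply] at e0
    rw [cross1, Pi.zero_apply] at e1
    rw [cross2, Pi.zero_apply] at e2
    have : (1 : ℤ) = 0 := by linear_combination -h + c 0 * e0 + c 1 * e1 + c 2 * e2
    norm_num at this

end SerbAux

open SerbAux in
theorem serb (h : SeraStatement) : SerbStatement := by
  rintro l x ⟨a, b, c⟩ s hdet hx hs
  simp only at hdet ⊢
  obtain ⟨n1, n2, n3⟩ := det_cross a b c hdet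
  obtain ⟨A1, A2⟩ := h s (W b c x) (l a) hs (hx _ n1)
  obtain ⟨B1, B2⟩ := h s (W c a x) (l b) hs (hx _ n2)
  obtain ⟨C1, C2⟩ := h s (W a b x) (l c) hs (hx _ n3)
  have hBC := summable_mul_of_summable_norm (f := fun n : ℤ => Real.exp (-(s * W c a x * n)) *
    (pp (W c a x) - if n ≤ l b then 1 else 0)) (g := fun n : ℤ => Real.exp (-(s * W a b x * n)) *
    (pp (W a b x) - if n ≤ l c then 1 else 0)) B2 C2
  have hBC' := B1.mul C1 hBC
  have hABC := summable_mul_of_summable_norm (f := fun n : ℤ => Real.exp (-(s * W b c x * n)) *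
    (pp (W b c x) - if n ≤ l a then 1 else 0)) A2 hBC.abs
  have hABC' := A1.mul hBC' hABC
  rw [← (eqv a b c hdet).hasSum_iff] at hABC'
  have e1 : (fun m : V3 => Real.exp (-(s * rd m x)) * lvt l x m (a, b, c)) =
      ((fun x_1 : ℤ × ℤ × ℤ => (Real.exp (-(s * W b c x * x_1.1)) *
        (pp (W b c x) - if x_1.1 ≤ l a then 1 else 0)) *
        ((Real.exp (-(s * W c a x * x_1.2.1)) * (pp (W c a x) - if x_1.2.1 ≤ l b then 1 else 0)) *
        (Real.exp (-(s * W a b x * x_1.2.2)) * (pp (W a b x) - if x_1.2.2 ≤ l c then 1 else 0)))) ∘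
        eqv a b c hdet) := by
    funext m
    show Real.exp (-(s * rd m x)) * lvt l x m (a, b, c) =
      (Real.exp (-(s * W b c x * (dot m a : ℤ))) * (pp (W b c x) - if dot m a ≤ l a then 1 else 0)) *
        ((Real.exp (-(s * W c a x * (dot m b : ℤ))) *
          (pp (W c a x) - if dot m b ≤ l b then 1 else 0)) *
        (Real.exp (-(s * W a b x * (dot m c : ℤ))) *
          (pp (W a b x) - if dot m c ≤ l c then 1 else 0)))
    have h1 : Real.exp (-(s * rd m x)) = Real.exp (-(s * W b c x * (dot m a : ℤ))) *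
        (Real.exp (-(s * W c a x * (dot m b : ℤ))) * Real.exp (-(s * W a b x * (dot m c : ℤ)))) := by
      rw [← Real.exp_add, ← Real.exp_add, rd_eq a b c m hdet x]
      congr 1
      ring
    rw [h1]
    simp only [lvt, bb]
    ring
  have e2 : Real.exp (-(s * gg l x (a, b, c))) / ((Real.exp (s * W b c x) - 1) *
        (Real.exp (s * W c a x) - 1) * (Real.exp (s * W a b x) - 1)) =
      Real.exp (-(s * W b c x * (l a))) / (Real.exp (s * W b c x) - 1) *
          (Real.exp (-(s * W c a x * (l b))) / (Real.exp (s * W c a x) - 1) *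
            (Real.exp (-(s * W a b x * (l c))) / (Real.exp (s * W a b x) - 1))) := by
    have h1 : Real.exp (-(s * gg l x (a, b, c))) = Real.exp (-(s * W b c x * (l a))) *
        (Real.exp (-(s * W c a x * (l b))) * Real.exp (-(s * W a b x * (l c)))) := by
      rw [← Real.exp_add, ← Real.exp_add]
      congr 1
      simp only [gg]
      ring
    rw [h1, div_mul_div_comm, div_mul_div_comm]
    congr 1
    ring
  rw [e1, e2]
  exact hABC'

end Pool.Agent.DUR

end

/-! ### H70/Lvsm -/

section
/-! # LVSM: the sum of the Lawrence–Varchenko terms -/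

set_option autoImplicit false

namespace Pool.Agent.DUR

open Finset

namespace H70

theorem mem_rays_of_has {T : Finset Tri} (hG : Good T) {t : Tri} (ht : t ∈ T) {r : V3}
    (hr : has r t) : r ∈ rays T := by
  obtain ⟨a, b, c⟩ := t
  have h1 := hG.rot a b c ht
  have h2 := hG.rot b c a h1
  unfold rays
  rw [Finset.mem_image]
  rcases hr with h | h | h
  · exact ⟨_, ht, h⟩
  · exact ⟨_, h1, h⟩
  · exact ⟨_, h2, h⟩

end H70

theorem lvsm (h1 : LvinStatement) (h2 : LvbdStatement) : LvsmStatement := by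
  intro T l v hA x hx hxp m
  by_cases hb : ∃ r ∈ rays T, dot m r ≤ l r
  · obtain ⟨y, hy, hyp, h0⟩ := h2 T l v hA m hb
    rw [h1 T l hA.good x y hx hxp hy hyp m, Finset.sum_eq_zero h0, if_neg]
    intro hh
    obtain ⟨r, hr, hr'⟩ := hb
    exact absurd (hh r hr) (not_lt.2 hr')
  · have hb' : ∀ r ∈ rays T, l r < dot m r := by
      intro r hr
      by_contra hc
      exact hb ⟨r, hr, not_lt.1 hc⟩
    rw [if_pos hb', ← hA.good.n3 x hx hxp]
    refine Finset.sum_congr rfl fun t ht => ?_
    have hz : ∀ r, has r t → bb l m r = 0 := by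
      intro r hr
      unfold bb
      rw [if_neg (not_le.2 (hb' r (H70.mem_rays_of_has hA.good ht hr)))]
    unfold lvt
    rw [hz t.1 (Or.inl rfl), hz t.2.1 (Or.inr (Or.inl rfl)), hz t.2.2 (Or.inr (Or.inr rfl))]
    ring

end Pool.Agent.DUR

end

/-! ### H70/Pair -/

section
/-! # PAIR: one linear form can be made of constant sign on all cones -/

set_option autoImplicit false
set_option linter.unusedSimpArgs false

namespace Pool.Agent.DUR

open Finset

namespace H70P

/-- The weight of an edge whose ends have the values `x`, `y`. -/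
def ew (x y : ℤ) : ℕ := if x * y < 0 then 9 ^ (x.natAbs + y.natAbs) else 0

theorem ew_comm (x y : ℤ) : ew x y = ew y x := by
  unfold ew
  rw [mul_comm x y, add_comm x.natAbs]

theorem ew_le {x y : ℤ} {D : ℕ} (h : x * y < 0 → x.natAbs + y.natAbs + 1 ≤ D) :
    ew x y ≤ 9 ^ (D - 1) := by
  unfold ew
  split_ifs with hc
  · exact Nat.pow_le_pow_right (by norm_num) (by have := h hc; omega)
  · exact Nat.zero_le _

theorem ew_key {A B Z : ℤ} (hAB : A * B < 0)
    (hAZ : A * Z < 0 → A.natAbs + Z.natAbs ≤ A.natAbs + B.natAbs)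
    (hBZ : B * Z < 0 → B.natAbs + Z.natAbs ≤ A.natAbs + B.natAbs) :
    ew A (A + B) + ew (A + B) B + 2 * ew (A + B) Z < ew A B := by
  have hs := mul_neg_iff.1 hAB
  set D := A.natAbs + B.natAbs with hD
  have h1 : ew A (A + B) ≤ 9 ^ (D - 1) := by
    apply ew_le
    intro hc
    have := mul_neg_iff.1 hc
    omega
  have h2 : ew (A + B) B ≤ 9 ^ (D - 1) := by
    apply ew_le
    intro hc
    have := mul_neg_iff.1 hc
    omega
  have h3 : ew (A + B) Z ≤ 9 ^ (D - 1) := by
    apply ew_le
    intro hc
    have hc' := mul_neg_iff.1 hc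
    rw [mul_neg_iff] at hAZ hBZ
    omega
  have h4 : ew A B = 9 ^ D := by
    unfold ew
    rw [if_pos hAB]
  have h5 : (9 : ℕ) ^ D = 9 * 9 ^ (D - 1) := by
    rw [← pow_succ']
    congr 1
    omega
  have h6 : 0 < (9 : ℕ) ^ (D - 1) := by positivity
  rw [h4, h5]
  omega

/-- The weight of a triple. -/
def gw (d : V3) (t : Tri) : ℕ :=
  ew (dot d t.1) (dot d t.2.1) + ew (dot d t.2.1) (dot d t.2.2) + ew (dot d t.2.2) (dot d t.1)

theorem dot_add (d a b : V3) : dot d (a + b) = dot d a + dot d b := by
  unfold dot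
  simp only [Pi.add_apply]
  ring

theorem ne_of_det {x y z : V3} (h : det3 x y z = 1) : x ≠ y ∧ y ≠ z ∧ z ≠ x := by
  unfold det3 dot cross at h
  simp only [Matrix.cons_val_zero, Matrix.cons_val_one, Matrix.cons_val] at h
  refine ⟨?_, ?_, ?_⟩
  · rintro rfl
    ring_nf at h
    omega
  · rintro rfl
    ring_nf at h
    omega
  · rintro rfl
    ring_nf at h
    omega

theorem gw_drop (d : V3) {a b : V3} (hab : dot d a * dot d b < 0) {t : Tri}
    (hne : t.1 ≠ t.2.1 ∧ t.2.1 ≠ t.2.2 ∧ t.2.2 ≠ t.1)
    (hmax : ∀ x y, has x t → has y t → dot d x * dot d y < 0 →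
      (dot d x).natAbs + (dot d y).natAbs ≤ (dot d a).natAbs + (dot d b).natAbs)
    (ha : has a t) (hb : has b t) :
    gw d (rp a (a + b) t) + gw d (rp b (a + b) t) < gw d t := by
  have hne' : a ≠ b := by
    rintro rfl
    nlinarith [mul_self_nonneg (dot d a)]
  -- the third vertex
  have key : ∀ z, has z t → 
      ew (dot d a) (dot d a + dot d b) + ew (dot d a + dot d b) (dot d b) +
        2 * ew (dot d a + dot d b) (dot d z) < ew (dot d a) (dot d b) := by
    intro z hz
    exact ew_key hab (hmax a z ha hz) (hmax b z hb hz)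
  obtain ⟨p, q, r⟩ := t
  obtain ⟨h1, h2, h3⟩ := hne
  simp only at h1 h2 h3
  have kp := key p (Or.inl rfl)
  have kq := key q (Or.inr (Or.inl rfl))
  have kr := key r (Or.inr (Or.inr rfl))
  have cp := ew_comm (dot d p) (dot d a + dot d b)
  have cq := ew_comm (dot d q) (dot d a + dot d b)
  have cr := ew_comm (dot d r) (dot d a + dot d b)
  have c1 := ew_comm (dot d a) (dot d a + dot d b)
  have c2 := ew_comm (dot d b) (dot d a + dot d b)
  have c3 := ew_comm (dot d a) (dot d b)
  have c4 := ew_comm (dot d p) (dot d q)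
  have c5 := ew_comm (dot d q) (dot d r)
  have c6 := ew_comm (dot d r) (dot d p)
  rcases ha with ha | ha | ha <;> rcases hb with hb | hb | hb <;> simp only at ha hb
  · exact absurd (ha.symm.trans hb) hne'
  · subst ha
    subst hb
    simp only [gw, rp, if_true, if_neg h1, if_neg h1.symm, if_neg h2, if_neg h2.symm, if_neg h3,
      if_neg h3.symm, dot_add]
    omega
  · subst ha
    subst hb
    simp only [gw, rp, if_true, if_neg h1, if_neg h1.symm, if_neg h2, if_neg h2.symm, if_neg h3,
      if_neg h3.symm, dot_add]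
    omega
  · subst ha
    subst hb
    simp only [gw, rp, if_true, if_neg h1, if_neg h1.symm, if_neg h2, if_neg h2.symm, if_neg h3,
      if_neg h3.symm, dot_add]
    omega
  · exact absurd (ha.symm.trans hb) hne'
  · subst ha
    subst hb
    simp only [gw, rp, if_true, if_neg h1, if_neg h1.symm, if_neg h2, if_neg h2.symm, if_neg h3,
      if_neg h3.symm, dot_add]
    omega
  · subst ha
    subst hb
    simp only [gw, rp, if_true, if_neg h1, if_neg h1.symm, if_neg h2, if_neg h2.symm, if_neg h3,
      if_neg h3.symm, dot_add]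
    omega
  · subst ha
    subst hb
    simp only [gw, rp, if_true, if_neg h1, if_neg h1.symm, if_neg h2, if_neg h2.symm, if_neg h3,
      if_neg h3.symm, dot_add]
    omega
  · exact absurd (ha.symm.trans hb) hne'

theorem cmp_of_nonneg {T : Finset Tri} (hG : Good T) {d : V3}
    (h : ∀ t ∈ T, 0 ≤ dot d t.1 * dot d t.2.1) : Cmp T d := by
  rintro ⟨p, q, r⟩ ht
  have h1 := hG.rot p q r ht
  have h2 := hG.rot q r p h1
  have a1 := h _ ht
  have a2 := h _ h1
  have a3 := h _ h2
  simp only at a1 a2 a3
  have key : (0 ≤ dot d p ∧ 0 ≤ dot d q ∧ 0 ≤ dot d r) ∨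
      (dot d p ≤ 0 ∧ dot d q ≤ 0 ∧ dot d r ≤ 0) := by
    rw [mul_nonneg_iff] at a1 a2 a3
    omega
  rcases key with ⟨k1, k2, k3⟩ | ⟨k1, k2, k3⟩
  · left
    rintro s (hs | hs | hs) <;> simp only at hs <;> subst hs <;> assumption
  · right
    rintro s (hs | hs | hs) <;> simp only at hs <;> subst hs <;> assumption

theorem cmp_star {T : Finset Tri} {a b : V3} {d : V3} (h : Cmp T d) : Cmp (star a b T) d := by
  have key : ∀ t ∈ T, has a t → has b t → ∀ c, ∀ r, has r (rp c (a + b) t) →
      r = a + b ∨ has r t := by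
    rintro ⟨p, q, s⟩ - - - c r hr
    unfold has rp at hr
    simp only at hr
    unfold has
    simp only
    rcases hr with hr | hr | hr
    · split_ifs at hr
      · exact Or.inl hr.symm
      · exact Or.inr (Or.inl hr)
    · split_ifs at hr
      · exact Or.inl hr.symm
      · exact Or.inr (Or.inr (Or.inl hr))
    · split_ifs at hr
      · exact Or.inl hr.symm
      · exact Or.inr (Or.inr (Or.inr hr))
  have key2 : ∀ t ∈ T, has a t → has b t → ∀ c,
      (∀ r, has r (rp c (a + b) t) → 0 ≤ dot d r) ∨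
      (∀ r, has r (rp c (a + b) t) → dot d r ≤ 0) := by
    intro t ht ha hb c
    rcases h t ht with h1 | h1
    · left
      intro r hr
      rcases key t ht ha hb c r hr with rfl | hr
      · rw [dot_add]
        exact add_nonneg (h1 a ha) (h1 b hb)
      · exact h1 r hr
    · right
      intro r hr
      rcases key t ht ha hb c r hr with rfl | hr
      · rw [dot_add]
        exact add_nonpos (h1 a ha) (h1 b hb)
      · exact h1 r hr
  intro t ht
  unfold star at ht
  rw [Finset.mem_union, Finset.mem_union] at ht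
  rcases ht with (ht | ht) | ht
  · exact h t (Finset.mem_filter.1 ht).1
  · obtain ⟨t', ht', rfl⟩ := Finset.mem_image.1 ht
    obtain ⟨h1, h2, h3⟩ := Finset.mem_filter.1 ht'
    exact key2 t' h1 h2 h3 a
  · obtain ⟨t', ht', rfl⟩ := Finset.mem_image.1 ht
    obtain ⟨h1, h2, h3⟩ := Finset.mem_filter.1 ht'
    exact key2 t' h1 h2 h3 b

/-- The size of an opposite pair. -/
def mx (x y : ℤ) : ℕ := if x * y < 0 then x.natAbs + y.natAbs else 0

theorem step (h1 : SsumStatement) (h2 : FrshStatement) {T : Finset Tri} (hG : Good T) {d : V3}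
    (hc : ¬ Cmp T d) :
    ∃ a b c, (a, b, c) ∈ T ∧ ∑ t ∈ star a b T, gw d t < ∑ t ∈ T, gw d t := by
  classical
  obtain ⟨t0, ht0, hneg⟩ : ∃ t ∈ T, dot d t.1 * dot d t.2.1 < 0 := by
    by_contra hh
    push Not at hh
    exact hc (cmp_of_nonneg hG hh)
  obtain ⟨t, ht, hmax⟩ := Finset.exists_max_image T (fun t => mx (dot d t.1) (dot d t.2.1))
    ⟨t0, ht0⟩
  obtain ⟨a, b, z⟩ := t
  simp only at hmax
  have hmneg : dot d a * dot d b < 0 := by
    by_contra hh
    have := hmax t0 ht0
    unfold mx at this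
    rw [if_pos hneg, if_neg hh] at this
    have h3 := mul_neg_iff.1 hneg
    omega
  have hmaxD : ∀ x y w, (x, y, w) ∈ T → dot d x * dot d y < 0 →
      (dot d x).natAbs + (dot d y).natAbs ≤ (dot d a).natAbs + (dot d b).natAbs := by
    intro x y w hxy hn
    have := hmax _ hxy
    simp only [mx] at this
    rwa [if_pos hn, if_pos hmneg] at this
  have hmaxD2 : ∀ t ∈ T, ∀ x y, has x t → has y t → dot d x * dot d y < 0 →
      (dot d x).natAbs + (dot d y).natAbs ≤ (dot d a).natAbs + (dot d b).natAbs := by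
    rintro ⟨p, q, r⟩ ht x y hx hy hn
    have r1 := hG.rot p q r ht
    have r2 := hG.rot q r p r1
    have hne : x ≠ y := by
      rintro rfl
      nlinarith [mul_self_nonneg (dot d x)]
    have hn' : dot d y * dot d x < 0 := by rwa [mul_comm]
    rcases hx with hx | hx | hx <;> rcases hy with hy | hy | hy <;> simp only at hx hy
    · exact absurd (hx.symm.trans hy) hne
    · subst hx; subst hy; exact hmaxD _ _ _ ht hn
    · subst hx; subst hy; rw [add_comm]; exact hmaxD _ _ _ r2 hn'
    · subst hx; subst hy; rw [add_comm]; exact hmaxD _ _ _ ht hn'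
    · exact absurd (hx.symm.trans hy) hne
    · subst hx; subst hy; exact hmaxD _ _ _ r1 hn
    · subst hx; subst hy; exact hmaxD _ _ _ r2 hn
    · subst hx; subst hy; rw [add_comm]; exact hmaxD _ _ _ r1 hn'
    · exact absurd (hx.symm.trans hy) hne
  refine ⟨a, b, z, ht, ?_⟩
  have hS := h1 T a b z ht hG.det1 (h2 T a b z hG ht) (fun t => (gw d t : ℝ))
  have hlt : ∑ t ∈ T, (if has a t ∧ has b t then
      ((gw d (rp a (a + b) t) : ℝ) + (gw d (rp b (a + b) t) : ℝ)) else (gw d t : ℝ)) <
      ∑ t ∈ T, (gw d t : ℝ) := by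
    have hdrop : ∀ t ∈ T, has a t ∧ has b t →
        (gw d (rp a (a + b) t) : ℝ) + (gw d (rp b (a + b) t) : ℝ) < (gw d t : ℝ) := by
      intro t ht hab
      have := gw_drop d hmneg (ne_of_det (hG.det1 t.1 t.2.1 t.2.2 ht)) (hmaxD2 t ht) hab.1 hab.2
      exact_mod_cast this
    apply Finset.sum_lt_sum
    · intro t ht
      split_ifs with hh
      · exact (hdrop t ht hh).le
      · exact le_rfl
    · refine ⟨(a, b, z), ht, ?_⟩
      have hh : has a (a, b, z) ∧ has b (a, b, z) := ⟨Or.inl rfl, Or.inr (Or.inl rfl)⟩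
      rw [if_pos hh]
      exact hdrop _ ht hh
  have : (∑ t ∈ star a b T, (gw d t : ℝ)) < ∑ t ∈ T, (gw d t : ℝ) := by
    rw [hS]
    exact hlt
  exact_mod_cast this

end H70P

theorem pair (h1 : SsumStatement) (h2 : FrshStatement) (h3 : GoodStatement) : PairStatement := by
  have key : ∀ n : ℕ, ∀ (T : Finset Tri) (d : V3), IsFan T → ∑ t ∈ T, H70P.gw d t = n →
      ∃ T', IsFan T' ∧ Cmp T' d ∧ ∀ d' : V3, Cmp T d' → Cmp T' d' := by
    intro n
    induction n using Nat.strong_induction_on with
    | _ n ih =>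
      intro T d hT hn
      by_cases hc : Cmp T d
      · exact ⟨T, hT, hc, fun d' h => h⟩
      · obtain ⟨a, b, c, habc, hlt⟩ := H70P.step h1 h2 (h3 T hT) hc
        obtain ⟨T', hT', hc', hd'⟩ := ih _ (hn ▸ hlt) (star a b T) d (IsFan.step hT habc) rfl
        exact ⟨T', hT', hc', fun d' h => hd' d' (H70P.cmp_star h)⟩
  intro T d hT
  exact key _ T d hT rfl

end Pool.Agent.DUR

end

/-! ### H74/Lvin -/

section
/-!
# Module LVIN: the Lawrence–Varchenko sum does not depend on the generic vector (helper74)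
-/

set_option autoImplicit false

namespace Pool.Agent.DUR.H74

open Finset

theorem W_swap (a b : V3) (x : E3) : W b a x = - W a b x := by
  show ((b 1 * a 2 - b 2 * a 1 : ℤ) : ℝ) * x 0 + ((b 2 * a 0 - b 0 * a 2 : ℤ) : ℝ) * x 1 +
    ((b 0 * a 1 - b 1 * a 0 : ℤ) : ℝ) * x 2 = - (((a 1 * b 2 - a 2 * b 1 : ℤ) : ℝ) * x 0 +
    ((a 2 * b 0 - a 0 * b 2 : ℤ) : ℝ) * x 1 + ((a 0 * b 1 - a 1 * b 0 : ℤ) : ℝ) * x 2)
  push_cast
  ring

theorem pp_add_neg {u : ℝ} (hu : u ≠ 0) : pp u + pp (-u) = 1 := by
  unfold pp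
  rcases lt_or_gt_of_ne hu with h | h
  · rw [if_neg (not_lt.2 h.le), if_pos (by linarith)]
    norm_num
  · rw [if_pos h, if_neg (by linarith)]
    norm_num

theorem W_ne {a b c : V3} (h : det3 a b c = 1) {x : E3} (hx : Gen x) : W a b x ≠ 0 := by
  refine hx _ fun h0 => ?_
  have : det3 a b c = dot (cross a b) c := rfl
  rw [this, h0] at h
  simp [dot] at h

theorem ne_of_det {a b c : V3} (h : det3 a b c = 1) : a ≠ b := by
  rintro rfl
  have : det3 a a c = (a 1 * a 2 - a 2 * a 1) * c 0 + (a 2 * a 0 - a 0 * a 2) * c 1 +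
    (a 0 * a 1 - a 1 * a 0) * c 2 := rfl
  rw [this] at h
  have h2 : (a 1 * a 2 - a 2 * a 1) * c 0 + (a 2 * a 0 - a 0 * a 2) * c 1 +
    (a 0 * a 1 - a 1 * a 0) * c 2 = 0 := by ring
  omega

theorem one_of_mul {u v : ℤ} (h : u * v = 1) (hv : 0 ≤ v) : u = 1 := by
  rcases Int.mul_eq_one_iff_eq_one_or_neg_one.1 h with ⟨h1, -⟩ | ⟨-, h2⟩
  · exact h1
  · omega

theorem pp_bd {a b c : V3} (h : det3 a b c = 1) (hc : ∀ i, 0 ≤ c i)
    (hb : ∃ i, a i = 0 ∧ b i = 0) {x : E3} (hx : Pos x) : pp (W a b x) = 1 := by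
  have hdet : (a 1 * b 2 - a 2 * b 1) * c 0 + (a 2 * b 0 - a 0 * b 2) * c 1 +
    (a 0 * b 1 - a 1 * b 0) * c 2 = 1 := h
  have hW : W a b x = ((a 1 * b 2 - a 2 * b 1 : ℤ) : ℝ) * x 0 +
    ((a 2 * b 0 - a 0 * b 2 : ℤ) : ℝ) * x 1 + ((a 0 * b 1 - a 1 * b 0 : ℤ) : ℝ) * x 2 := rfl
  obtain ⟨i, ha, hb⟩ := hb
  have key : 0 < W a b x := by
    fin_cases i
    · simp only [Fin.zero_eta] at ha hb
      rw [ha, hb] at hdet hW
      have h1 := one_of_mul (u := a 1 * b 2 - a 2 * b 1) (v := c 0) (by linarith) (hc 0)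
      rw [hW, h1]
      have := hx 0
      push_cast
      linarith
    · simp only [Fin.mk_one] at ha hb
      rw [ha, hb] at hdet hW
      have h1 := one_of_mul (u := a 2 * b 0 - a 0 * b 2) (v := c 1) (by linarith) (hc 1)
      rw [hW, h1]
      have := hx 1
      push_cast
      linarith
    · simp only [Fin.reduceFinMk] at ha hb
      rw [ha, hb] at hdet hW
      have h1 := one_of_mul (u := a 0 * b 1 - a 1 * b 0) (v := c 2) (by linarith) (hc 2)
      rw [hW, h1]
      have := hx 2
      push_cast
      linarith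
  unfold pp
  rw [if_pos key]

/-- Rotation of a triple. -/
def R (t : Tri) : Tri := (t.2.1, t.2.2, t.1)

theorem sum_R {T : Finset Tri} (hT : Good T) (f : Tri → ℝ) : ∑ t ∈ T, f (R t) = ∑ t ∈ T, f t := by
  refine Finset.sum_nbij' (i := R) (j := fun t => R (R t)) ?_ ?_ ?_ ?_ ?_
  · rintro ⟨a, b, c⟩ h
    exact hT.rot _ _ _ h
  · rintro ⟨a, b, c⟩ h
    exact hT.rot _ _ _ (hT.rot _ _ _ h)
  · rintro ⟨a, b, c⟩ _
    rfl
  · rintro ⟨a, b, c⟩ _
    rfl
  · intro t _
    rfl

theorem sum_f1 {T : Finset Tri} (hT : Good T) (w : V3 → ℝ) {x : E3} (hx : Gen x) (hp : Pos x) :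
    ∑ t ∈ T, w t.1 * (pp (W t.1 t.2.1 x) * pp (W t.2.2 t.1 x)) = ∑ r ∈ rays T, w r := by
  have h1 : ∀ t ∈ T, t.1 ∈ rays T := fun t ht => Finset.mem_image_of_mem _ ht
  rw [← Finset.sum_fiberwise_of_maps_to h1]
  refine Finset.sum_congr rfl fun r hr => ?_
  have h2 : ∑ t ∈ T with t.1 = r, w t.1 * (pp (W t.1 t.2.1 x) * pp (W t.2.2 t.1 x)) =
      w r * ∑ t ∈ T with t.1 = r, pp (W t.1 t.2.1 x) * pp (W t.2.2 t.1 x) := by
    rw [Finset.mul_sum]
    refine Finset.sum_congr rfl fun t ht => ?_
    rw [(Finset.mem_filter.1 ht).2]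
  rw [h2, hT.n1 r hr x hx hp, mul_one]

open Classical in
theorem sum_f2 {T : Finset Tri} (hT : Good T) (w : V3 → ℝ) {x y : E3} (hx : Gen x) (hpx : Pos x)
    (hy : Gen y) (hpy : Pos y) :
    ∑ t ∈ T, w t.1 * w t.2.1 * (pp (W t.1 t.2.1 x) - pp (W t.1 t.2.1 y)) = 0 := by
  refine Finset.sum_involution (fun t _ => if h : ∃ d, (t.2.1, t.1, d) ∈ T then
    (t.2.1, t.1, Classical.choose h) else t) ?_ ?_ ?_ ?_
  · rintro ⟨a, b, c⟩ ht
    have hd := hT.det1 a b c ht
    by_cases h : ∃ d, (b, a, d) ∈ T
    · simp only [dif_pos h]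
      rw [W_swap a b x, W_swap a b y]
      have e1 := pp_add_neg (W_ne hd hx)
      have e2 := pp_add_neg (W_ne hd hy)
      have e3 : pp (-W a b x) = 1 - pp (W a b x) := by linarith
      have e4 : pp (-W a b y) = 1 - pp (W a b y) := by linarith
      rw [e3, e4]
      ring
    · simp only [dif_neg h]
      have hb := (hT.opp a b c ht).resolve_right h
      have hc := hT.nn c a b (hT.rot _ _ _ (hT.rot _ _ _ ht))
      rw [pp_bd hd hc hb hpx, pp_bd hd hc hb hpy]
      ring
  · rintro ⟨a, b, c⟩ ht h0
    have hd := hT.det1 a b c ht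
    by_cases h : ∃ d, (b, a, d) ∈ T
    · simp only [dif_pos h]
      intro he
      exact ne_of_det hd (congrArg Prod.fst he).symm
    · exfalso
      apply h0
      have hb := (hT.opp a b c ht).resolve_right h
      have hc := hT.nn c a b (hT.rot _ _ _ (hT.rot _ _ _ ht))
      show w a * w b * (pp (W a b x) - pp (W a b y)) = 0
      rw [pp_bd hd hc hb hpx, pp_bd hd hc hb hpy, sub_self, mul_zero]
  · rintro ⟨a, b, c⟩ ht
    by_cases h : ∃ d, (b, a, d) ∈ T
    · simp only [dif_pos h]
      exact Classical.choose_spec h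
    · simp only [dif_neg h]
      exact ht
  · rintro ⟨a, b, c⟩ ht
    by_cases h : ∃ d, (b, a, d) ∈ T
    · have h' : ∃ d, (a, b, d) ∈ T := ⟨c, ht⟩
      simp only [dif_pos h, dif_pos h']
      have := hT.uniq a b _ _ (Classical.choose_spec h') ht
      rw [this]
    · simp only [dif_neg h]

theorem sum_lvt {T : Finset Tri} (hT : Good T) (l : V3 → ℤ) {x : E3} (hx : Gen x) (hp : Pos x)
    (m : V3) : ∑ t ∈ T, lvt l x m t = 3 - 3 * ∑ r ∈ rays T, bb l m r +
      3 * ∑ t ∈ T, bb l m t.1 * bb l m t.2.1 * pp (W t.1 t.2.1 x) -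
      ∑ t ∈ T, bb l m t.1 * bb l m t.2.1 * bb l m t.2.2 := by
  have f1 := sum_f1 hT (bb l m) hx hp
  have f1a := sum_R hT (fun t => bb l m t.1 * (pp (W t.1 t.2.1 x) * pp (W t.2.2 t.1 x)))
  have f1b := sum_R hT (fun t => bb l m (R t).1 * (pp (W (R t).1 (R t).2.1 x) *
    pp (W (R t).2.2 (R t).1 x)))
  have f2a := sum_R hT (fun t => bb l m t.1 * bb l m t.2.1 * pp (W t.1 t.2.1 x))
  have f2b := sum_R hT (fun t => bb l m (R t).1 * bb l m (R t).2.1 * pp (W (R t).1 (R t).2.1 x))
  have f3 := hT.n3 x hx hp
  have hexp : ∀ t : Tri, lvt l x m t =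
      pp (W t.1 t.2.1 x) * pp (W t.2.1 t.2.2 x) * pp (W t.2.2 t.1 x) -
      (bb l m t.1 * (pp (W t.1 t.2.1 x) * pp (W t.2.2 t.1 x)) +
      bb l m (R t).1 * (pp (W (R t).1 (R t).2.1 x) * pp (W (R t).2.2 (R t).1 x)) +
      bb l m (R (R t)).1 * (pp (W (R (R t)).1 (R (R t)).2.1 x) *
        pp (W (R (R t)).2.2 (R (R t)).1 x))) +
      (bb l m t.1 * bb l m t.2.1 * pp (W t.1 t.2.1 x) +
      bb l m (R t).1 * bb l m (R t).2.1 * pp (W (R t).1 (R t).2.1 x) +
      bb l m (R (R t)).1 * bb l m (R (R t)).2.1 * pp (W (R (R t)).1 (R (R t)).2.1 x)) -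
      bb l m t.1 * bb l m t.2.1 * bb l m t.2.2 := by
    rintro ⟨a, b, c⟩
    show (pp (W b c x) - bb l m a) * (pp (W c a x) - bb l m b) * (pp (W a b x) - bb l m c) =
      pp (W a b x) * pp (W b c x) * pp (W c a x) -
      (bb l m a * (pp (W a b x) * pp (W c a x)) + bb l m b * (pp (W b c x) * pp (W a b x)) +
      bb l m c * (pp (W c a x) * pp (W b c x))) +
      (bb l m a * bb l m b * pp (W a b x) + bb l m b * bb l m c * pp (W b c x) +
      bb l m c * bb l m a * pp (W c a x)) - bb l m a * bb l m b * bb l m c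
    ring
  rw [Finset.sum_congr rfl fun t _ => hexp t, Finset.sum_sub_distrib, Finset.sum_add_distrib,
    Finset.sum_sub_distrib, Finset.sum_add_distrib, Finset.sum_add_distrib,
    Finset.sum_add_distrib, Finset.sum_add_distrib, f3, f1b, f1a, f1, f2b, f2a]
  ring

/-- **LVIN** -/
theorem lvin : LvinStatement := by
  intro T l hT x y hx hpx hy hpy m
  have h1 := sum_lvt hT l hx hpx m
  have h2 := sum_lvt hT l hy hpy m
  have h3 := sum_f2 hT (bb l m) hx hpx hy hpy
  simp only [mul_sub] at h3
  rw [Finset.sum_sub_distrib] at h3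
  linarith

end Pool.Agent.DUR.H74

end
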