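import Pool.Agent.Lib.MP_524519_ag.DUR.Iface

set_option autoImplicit false

/-! ### H75/Axis -/

section
/-! # AXIS: intercepts -/

set_option autoImplicit false

namespace Pool.Agent.DUR

namespace AxisAux

/-- An auxiliary convex set. -/
def CC (m : ℕ) (i : Fin 3) : Set E3 :=
  {x | (∀ j, 0 ≤ x j) ∧ ((m : ℝ) ≤ x i ∨ ∃ j, j ≠ i ∧ 0 < x j)}

theorem CC_convex (m : ℕ) (i : Fin 3) : Convex ℝ (CC m i) := by
  rw [convex_iff_forall_pos]
  rintro x ⟨hx, hx'⟩ y ⟨hy, hy'⟩ a b ha hb hab
  refine ⟨fun j => ?_, ?_⟩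
  · have := hx j
    have := hy j
    simp only [Pi.add_apply, Pi.smul_apply, smul_eq_mul]
    positivity
  · rcases hx' with hx' | ⟨j, hj, hxj⟩
    · rcases hy' with hy' | ⟨j, hj, hyj⟩
      · left
        simp only [Pi.add_apply, Pi.smul_apply, smul_eq_mul]
        have e1 : a * (m : ℝ) ≤ a * x i := mul_le_mul_of_nonneg_left hx' ha.le
        have e2 : b * (m : ℝ) ≤ b * y i := mul_le_mul_of_nonneg_left hy' hb.le
        have e3 : (m : ℝ) = a * m + b * m := by rw [← add_mul, hab, one_mul]
        linarith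
      · right
        refine ⟨j, hj, ?_⟩
        have := hx j
        simp only [Pi.add_apply, Pi.smul_apply, smul_eq_mul]
        positivity
    · right
      refine ⟨j, hj, ?_⟩
      have := hy j
      simp only [Pi.add_apply, Pi.smul_apply, smul_eq_mul]
      positivity

theorem mem_iff (A : Finset V3) (i : Fin 3) (hA : ∀ u ∈ A, ∀ i, 0 ≤ u i)
    (hA' : ∀ i, ∃ n : ℤ, 0 < n ∧ n • ev i ∈ A) {t : ℝ} (ht : 0 ≤ t) :
    (Pi.single i t : E3) ∈ PA A ↔ (icpt A i : ℝ) ≤ t := by
  have hne : {n : ℕ | (n : ℤ) • ev i ∈ A}.Nonempty := by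
    obtain ⟨n, hn, hnA⟩ := hA' i
    refine ⟨n.toNat, ?_⟩
    show ((n.toNat : ℕ) : ℤ) • ev i ∈ A
    rwa [Int.toNat_of_nonneg hn.le]
  have hmem : ((icpt A i : ℕ) : ℤ) • ev i ∈ A := Nat.sInf_mem hne
  have hmin : ∀ n : ℕ, (n : ℤ) • ev i ∈ A → icpt A i ≤ n := fun n hn => Nat.sInf_le hn
  constructor
  · rintro ⟨p, hp, o, ho, hpo⟩
    have hpC : p ∈ CC (icpt A i) i := by
      refine convexHull_min ?_ (CC_convex _ _) hp
      rintro _ ⟨u, hu, rfl⟩
      have hu' := hA u hu
      refine ⟨fun j => (Int.cast_nonneg (hu' j) : (0 : ℝ) ≤ ((u j : ℤ) : ℝ)), ?_⟩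
      by_cases hj : ∃ j, j ≠ i ∧ 0 < u j
      · right
        obtain ⟨j, hj, hj'⟩ := hj
        exact ⟨j, hj, (Int.cast_pos.2 hj' : (0 : ℝ) < ((u j : ℤ) : ℝ))⟩
      · left
        push Not at hj
        have e : ((u i).toNat : ℤ) • ev i = u := by
          funext j
          rw [Int.toNat_of_nonneg (hu' i)]
          by_cases hji : j = i
          · subst hji
            simp [ev]
          · have h0 : u j = 0 := le_antisymm (hj j hji) (hu' j)
            simp [ev, hji, h0]
        have h1 : icpt A i ≤ (u i).toNat := hmin _ (by rw [e]; exact hu)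
        have h2 : ((icpt A i : ℕ) : ℤ) ≤ u i := by
          have := Int.toNat_of_nonneg (hu' i)
          omega
        show ((icpt A i : ℕ) : ℝ) ≤ ((u i : ℤ) : ℝ)
        exact_mod_cast h2
    obtain ⟨hp0, hp1⟩ := hpC
    have hsum : ∀ j, p j + o j = (Pi.single i t : E3) j := fun j => congrFun hpo j
    rcases hp1 with hp1 | ⟨j, hj, hpj⟩
    · have h1 := hsum i
      have h2 : 0 ≤ o i := ho i
      rw [Pi.single_eq_same] at h1
      linarith
    · exfalso
      have h1 := hsum j
      have h2 : 0 ≤ o j := ho j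
      rw [Pi.single_eq_of_ne hj] at h1
      linarith
  · intro hle
    refine ⟨fun j => (((((icpt A i : ℕ) : ℤ) • ev i : V3) j : ℤ) : ℝ),
      subset_convexHull ℝ _ ⟨_, hmem, rfl⟩,
      Pi.single i (t - icpt A i), fun j => ?_, ?_⟩
    · by_cases hji : j = i
      · subst hji
        rw [Pi.single_eq_same]
        linarith
      · rw [Pi.single_eq_of_ne hji]
    · funext j
      by_cases hji : j = i
      · subst hji
        simp [ev]
      · simp [ev, hji]

end AxisAux

open AxisAux in
theorem axis : AxisStatement := by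
  intro A i hA hA'
  have e : {t : ℝ | 0 ≤ t ∧ (Pi.single i t : E3) ∉ PA A} = Set.Ico 0 (icpt A i : ℝ) := by
    ext t
    constructor
    · rintro ⟨ht, hn⟩
      rw [mem_iff A i hA hA' ht, not_le] at hn
      exact ⟨ht, hn⟩
    · rintro ⟨ht, hn⟩
      exact ⟨ht, fun hc => absurd ((mem_iff A i hA hA' ht).1 hc) (not_le.2 hn)⟩
  rw [e, MeasureTheory.measureReal_def, Real.volume_Ico, sub_zero,
    ENNReal.toReal_ofReal (Nat.cast_nonneg _)]

end Pool.Agent.DUR

end

/-! ### H8/Brga -/

section
set_option autoImplicit false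

namespace Pool.Agent.DUR

open Finset
open scoped Pointwise

theorem brga_dec {a b c : V3} (h : det3 a b c = 1) (k x : E3) :
    k 0 * x 0 + k 1 * x 1 + k 2 * x 2 =
      W b c k * rd a x + W c a k * rd b x + W a b k * rd c x := by
  have hr : ((det3 a b c : ℤ) : ℝ) = 1 := by exact_mod_cast h
  simp only [det3, dot, cross, W, rd, Matrix.cons_val_zero, Matrix.cons_val_one,
    Matrix.cons_val] at hr ⊢
  push_cast at hr ⊢
  linear_combination (-(k 0 * x 0 + k 1 * x 1 + k 2 * x 2)) * hr

theorem brga_rays {T : Finset Tri} (hT : Good T) {r : V3} (hr : r ∈ rays T) (i : Fin 3) :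
    0 ≤ r i := by
  unfold rays at hr
  obtain ⟨⟨a, b, c⟩, ht, rfl⟩ := Finset.mem_image.1 hr
  exact hT.nn a b c ht i

theorem brga_rd_add (r : V3) (x y : E3) : rd r (x + y) = rd r x + rd r y := by
  simp only [rd, Pi.add_apply]; ring

theorem brga_ell {A : Finset V3} {u : V3} (hu : u ∈ A) (k : V3) : ell A k ≤ dot u k := by
  have hA : A.Nonempty := ⟨u, hu⟩
  rw [ell, dif_pos hA]
  exact Finset.inf'_le (fun v => dot v k) hu

theorem brga_rd_cast (u r : V3) : rd r (fun i => (u i : ℝ)) = ((dot u r : ℤ) : ℝ) := by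
  simp only [rd, dot]; push_cast; ring

theorem brga_closed (A : Finset V3) : IsClosed (PA A) := by
  unfold PA
  refine IsClosed.add_left_of_isCompact ?_ ?_
  · have : {x : E3 | ∀ i, 0 ≤ x i} = ⋂ i, {x : E3 | 0 ≤ x i} := by ext; simp
    rw [this]
    exact isClosed_iInter fun i => isClosed_le continuous_const (continuous_apply i)
  · exact Set.Finite.isCompact_convexHull ℝ (A.finite_toSet.image _)

theorem brga_convex (A : Finset V3) : Convex ℝ (PA A) := by
  unfold PA
  refine (convex_convexHull ℝ _).add ?_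
  intro x hx y hy s t hs ht _ i
  have h1 := hx i
  have h2 := hy i
  simp only [Pi.add_apply, Pi.smul_apply, smul_eq_mul]
  positivity

theorem brga_mem {A : Finset V3} {u : V3} (hu : u ∈ A) {x : E3} (hx : ∀ i, 0 ≤ x i) :
    (fun i => (u i : ℝ)) + x ∈ PA A :=
  Set.add_mem_add (subset_convexHull ℝ _ ⟨u, hu, rfl⟩) hx

theorem brga : BrgaStatement := by
  intro A T v h x
  constructor
  · rintro ⟨y, hy, z, hz, rfl⟩ r hr
    rw [brga_rd_add]
    have hrn := brga_rays h.good hr
    have h1 : (ell A r : ℝ) ≤ rd r y := by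
      have hc : Convex ℝ {y : E3 | (ell A r : ℝ) ≤ rd r y} := by
        intro y1 hy1 y2 hy2 s t hs ht hst
        simp only [Set.mem_ofPred_eq, rd, Pi.add_apply, Pi.smul_apply, smul_eq_mul] at hy1 hy2 ⊢
        have e1 := mul_le_mul_of_nonneg_left hy1 hs
        have e2 := mul_le_mul_of_nonneg_left hy2 ht
        have e3 : (ell A r : ℝ) = s * ell A r + t * ell A r := by
          rw [← add_mul, hst, one_mul]
        rw [e3]
        linarith
      have hsub : (fun (u : V3) (i : Fin 3) => (u i : ℝ)) '' (A : Set V3) ⊆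
          {y : E3 | (ell A r : ℝ) ≤ rd r y} := by
        rintro _ ⟨u, hu, rfl⟩
        simp only [Set.mem_ofPred_eq]
        rw [brga_rd_cast]
        exact_mod_cast brga_ell hu r
      exact convexHull_min hsub hc hy
    have h2 : 0 ≤ rd r z := by
      unfold rd
      have a0 : (0 : ℝ) ≤ r 0 := by exact_mod_cast hrn 0
      have a1 : (0 : ℝ) ≤ r 1 := by exact_mod_cast hrn 1
      have a2 : (0 : ℝ) ≤ r 2 := by exact_mod_cast hrn 2
      have b0 : 0 ≤ z 0 := hz 0
      have b1 : 0 ≤ z 1 := hz 1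
      have b2 : 0 ≤ z 2 := hz 2
      positivity
    linarith
  · intro hx
    by_contra hn
    obtain ⟨f, s, hfx, hfs⟩ :=
      geometric_hahn_banach_point_closed (brga_convex A) (brga_closed A) hn
    -- the functional as a vector
    obtain ⟨k, hk⟩ : ∃ k : E3, ∀ y, f y = k 0 * y 0 + k 1 * y 1 + k 2 * y 2 := by
      refine ⟨fun i => f (Pi.single i 1), fun y => ?_⟩
      have : y = y 0 • (Pi.single 0 1 : E3) + y 1 • (Pi.single 1 1 : E3) +
          y 2 • (Pi.single 2 1 : E3) := by
        ext i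
        fin_cases i <;> simp
      conv_lhs => rw [this]
      rw [map_add, map_add, map_smul, map_smul, map_smul]
      simp only [smul_eq_mul]
      ring
    obtain ⟨u0, hu0⟩ : ∃ u, u ∈ A := by
      obtain ⟨n, _, hn⟩ := h.conv 0
      exact ⟨_, hn⟩
    have hk0 : ∀ i, 0 ≤ k i := by
      intro i
      by_contra hi
      push Not at hi
      -- go far in the direction `i`
      have hd : ∀ m : ℝ, 0 ≤ m → s < f (fun j => (u0 j : ℝ)) + m * k i := by
        intro m hm
        have h1 := hfs _ (brga_mem hu0 (x := Pi.single i m) (fun j => by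
          by_cases hj : j = i
          · subst hj; simpa using hm
          · simp [hj]))
        rw [map_add] at h1
        have h2 : f (Pi.single i m) = m * k i := by
          rw [hk]
          fin_cases i <;> simp [mul_comm]
        rw [h2] at h1
        exact h1
      obtain ⟨m, hm⟩ := exists_nat_gt ((f (fun j => (u0 j : ℝ)) - s) / (-k i))
      have h1 := hd m (Nat.cast_nonneg m)
      rw [div_lt_iff₀ (by linarith)] at hm
      linarith
    obtain ⟨⟨a, b, c⟩, ht, h1, h2, h3⟩ := h.good.cover k hk0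
    simp only at h1 h2 h3
    have hdet := h.good.det1 a b c ht
    have hrot := h.good.rot a b c ht
    have hrot2 := h.good.rot b c a hrot
    have ra : a ∈ rays T := Finset.mem_image.2 ⟨_, ht, rfl⟩
    have rb : b ∈ rays T := Finset.mem_image.2 ⟨_, hrot, rfl⟩
    have rc : c ∈ rays T := Finset.mem_image.2 ⟨_, hrot2, rfl⟩
    have hv := h.mem _ ht
    have ea := h.eq _ ht a (Or.inl rfl)
    have eb := h.eq _ ht b (Or.inr (Or.inl rfl))
    have ec := h.eq _ ht c (Or.inr (Or.inr rfl))
    have hfv := hfs _ (brga_mem hv (x := 0) (fun _ => le_refl _))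
    have e := brga_dec hdet k (fun i => ((v (a, b, c) i : ℤ) : ℝ))
    simp only [brga_rd_cast, ea, eb, ec] at e
    rw [add_zero, hk, e] at hfv
    rw [hk, brga_dec hdet] at hfx
    have xa := mul_le_mul_of_nonneg_left (hx a ra) h2
    have xb := mul_le_mul_of_nonneg_left (hx b rb) h3
    have xc := mul_le_mul_of_nonneg_left (hx c rc) h1
    linarith

end Pool.Agent.DUR

end

/-! ### H8/Volu -/

section
set_option autoImplicit false

namespace Pool.Agent.DUR

open Finset MeasureTheory Filter Topology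
open scoped Pointwise

/-- the open octant -/
def voluO : Set E3 := {x | ∀ i, 0 < x i}

theorem voluO_open : IsOpen voluO := by
  have : voluO = ⋂ i, {x : E3 | 0 < x i} := by ext; simp [voluO]
  rw [this]
  exact isOpen_iInter_of_finite fun i => isOpen_lt continuous_const (continuous_apply i)

theorem voluO_convex : Convex ℝ voluO := by
  intro x hx y hy s t hs ht hst i
  have h1 : 0 < x i := hx i
  have h2 : 0 < y i := hy i
  simp only [Pi.add_apply, Pi.smul_apply, smul_eq_mul]
  rcases hs.lt_or_eq with h | h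
  · have := mul_pos h h1
    have := mul_nonneg ht h2.le
    linarith
  · have : t = 1 := by linarith
    rw [← h, this]
    linarith

theorem volu_closure {x : E3} (hx : ∀ i, 0 ≤ x i) : x ∈ closure voluO := by
  have h1 : Tendsto (fun t : ℝ => x + t • (1 : E3)) (𝓝[>] 0) (𝓝 (x + (0 : ℝ) • (1 : E3))) := by
    refine Tendsto.mono_left ?_ nhdsWithin_le_nhds
    exact (Continuous.tendsto (by fun_prop) 0)
  rw [zero_smul, add_zero] at h1
  refine mem_closure_of_tendsto h1 ?_
  filter_upwards [self_mem_nhdsWithin] with t ht i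
  have h2 : 0 < t := ht
  have h3 : 0 ≤ x i := hx i
  simp only [Pi.add_apply, Pi.smul_apply, Pi.one_apply, smul_eq_mul, mul_one]
  linarith

theorem volu_ray_ne {T : Finset Tri} (hT : Good T) {r : V3} (hr : r ∈ rays T) : r ≠ 0 := by
  unfold rays at hr
  obtain ⟨⟨a, b, c⟩, ht, rfl⟩ := Finset.mem_image.1 hr
  intro h
  have h1 := hT.det1 a b c ht
  simp only at h
  rw [h] at h1
  simp [det3, dot, cross] at h1

/-- a ray whose half space cuts a positive point is compact, and bounds the point -/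
theorem volu_bound {T : Finset Tri} {l : V3 → ℤ} {v : Tri → V3} (h : Adm T l v) {x : E3}
    (hx : ∀ i, 0 < x i) {r : V3} (hr : r ∈ rays T) (hrx : rd r x ≤ l r) :
    ∀ i, x i ≤ l r := by
  have h0 := fun i => brga_rays h.good hr i
  have hc : ∀ i, (0 : ℝ) ≤ r i := fun i => by exact_mod_cast h0 i
  have hne := volu_ray_ne h.good hr
  have hpos : 0 < rd r x := by
    have h1 : ∀ i, 0 ≤ (r i : ℝ) * x i := fun i => mul_nonneg (hc i) (hx i).le
    obtain ⟨i, hi⟩ : ∃ i, r i ≠ 0 := by
      by_contra hcon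
      push Not at hcon
      exact hne (funext hcon)
    have h2 : 0 < (r i : ℝ) * x i := by
      refine mul_pos ?_ (hx i)
      have : 0 < r i := lt_of_le_of_ne (h0 i) (Ne.symm hi)
      exact_mod_cast this
    have h3 := h1 0
    have h4 := h1 1
    have h5 := h1 2
    unfold rd
    fin_cases i
    · have h6 : 0 < (r 0 : ℝ) * x 0 := h2
      linarith
    · have h6 : 0 < (r 1 : ℝ) * x 1 := h2
      linarith
    · have h6 : 0 < (r 2 : ℝ) * x 2 := h2
      linarith
  have hno : ¬ ∃ i, r i = 0 := by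
    intro hb
    have := h.bd r hr hb
    rw [this] at hrx
    push_cast at hrx
    linarith
  push Not at hno
  have h1 : ∀ i, (1 : ℝ) ≤ r i := fun i => by
    have : 1 ≤ r i := by
      have := h0 i
      have := hno i
      omega
    exact_mod_cast this
  have h2 : ∀ i, x i ≤ (r i : ℝ) * x i := fun i => by
    have := mul_le_mul_of_nonneg_right (h1 i) (hx i).le
    linarith
  have h3 : ∀ i, 0 ≤ (r i : ℝ) * x i := fun i => mul_nonneg (hc i) (hx i).le
  have a0 := h2 0
  have a1 := h2 1
  have a2 := h2 2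
  have b0 := h3 0
  have b1 := h3 1
  have b2 := h3 2
  unfold rd at hrx
  intro i
  fin_cases i
  · show x 0 ≤ _
    linarith
  · show x 1 ≤ _
    linarith
  · show x 2 ≤ _
    linarith

theorem volu (hB : BrgbStatement) (hD : DilaStatement) (hN : NpadStatement) : VoluStatement := by
  intro A T v e h hbal
  have hadm := hN A T v h
  have hint := hB A T v h
  set S : Set E3 := voluO ∩ (interior (PA A))ᶜ with hS
  -- bounded
  have hcut : ∀ x ∈ S, ∃ r ∈ rays T, rd r x ≤ ell A r := by
    rintro x ⟨_, hx⟩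
    have h1 : ¬ ∀ r ∈ rays T, (ell A r : ℝ) < rd r x := fun h' => hx ((hint x).2 h')
    push Not at h1
    exact h1
  have hbd : Bornology.IsBounded S := by
    have hsub : S ⊆ Set.Icc (0 : E3) (fun _ => ∑ r ∈ rays T, |(ell A r : ℝ)|) := by
      intro x hx
      obtain ⟨r, hr, hrx⟩ := hcut x hx
      have h1 := volu_bound hadm hx.1 hr hrx
      have h2 : |(ell A r : ℝ)| ≤ ∑ r ∈ rays T, |(ell A r : ℝ)| :=
        Finset.single_le_sum (f := fun r => |(ell A r : ℝ)|) (fun _ _ => abs_nonneg _) hr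
      refine ⟨fun i => (hx.1 i).le, fun i => ?_⟩
      exact ((h1 i).trans (le_abs_self _)).trans h2
    exact (Metric.isBounded_Icc _ _).subset hsub
  have hmeas : MeasurableSet S :=
    voluO_open.measurableSet.inter isOpen_interior.measurableSet.compl
  have hf1 : volume (frontier voluO) = 0 := voluO_convex.addHaar_frontier volume
  have hf2 : volume (frontier (interior (PA A))) = 0 :=
    (brga_convex A).interior.addHaar_frontier volume
  have hf3 : volume (frontier (PA A)) = 0 := (brga_convex A).addHaar_frontier volume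
  have hfr : volume (frontier S) = 0 := by
    refine measure_mono_null (t := frontier voluO ∪ frontier (interior (PA A))) ?_
      (measure_union_null hf1 hf2)
    refine (frontier_inter_subset _ _).trans ?_
    rw [frontier_compl]
    exact Set.union_subset_union Set.inter_subset_left Set.inter_subset_right
  -- the count
  have hcard : ∀ n : ℕ, 0 < n → Nat.card ↑(S ∩ (n : ℝ)⁻¹ •
      (Submodule.span ℤ (Set.range (Pi.basisFun ℝ (Fin 3))) : Set (Fin 3 → ℝ))) =
      (BB T (fun a => n * ell A a)).ncard := by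
    intro n hn
    have : NeZero n := ⟨hn.ne'⟩
    have hn0 : (0 : ℝ) < n := by exact_mod_cast hn
    rw [Nat.card_coe_set_eq]
    have himg : S ∩ (n : ℝ)⁻¹ •
        (Submodule.span ℤ (Set.range (Pi.basisFun ℝ (Fin 3))) : Set (Fin 3 → ℝ)) =
        (fun m : V3 => (fun i => (m i : ℝ) / n : E3)) '' BB T (fun a => n * ell A a) := by
      ext x
      constructor
      · rintro ⟨hxS, hxL⟩
        have hxL' : x ∈ (n : ℝ)⁻¹ • Submodule.span ℤ (Set.range (Pi.basisFun ℝ (Fin 3))) := hxL
        rw [BoxIntegral.unitPartition.mem_smul_span_iff] at hxL'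
        choose m hm using hxL'
        have hxm : ∀ i, x i = (m i : ℝ) / n := fun i => by
          rw [eq_div_iff hn0.ne', mul_comm]
          exact (hm i).symm
        refine ⟨m, ⟨fun i => ?_, ?_⟩, funext fun i => (hxm i).symm⟩
        · have h1 := hxS.1 i
          rw [hxm i] at h1
          have h2 : (0 : ℝ) < m i := by
            by_contra hc
            push Not at hc
            have := div_nonpos_of_nonpos_of_nonneg hc hn0.le
            linarith
          exact_mod_cast h2
        · obtain ⟨r, hr, hrx⟩ := hcut x hxS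
          refine ⟨r, hr, ?_⟩
          have h3 : rd r x = ((dot m r : ℤ) : ℝ) / n := by
            simp only [rd, dot, hxm]
            push_cast
            ring
          rw [h3, div_le_iff₀ hn0] at hrx
          have h4 : ((dot m r : ℤ) : ℝ) ≤ (((n : ℤ) * ell A r : ℤ) : ℝ) := by
            push_cast
            linarith
          exact_mod_cast h4
      · rintro ⟨m, ⟨hm, r, hr, hrm⟩, rfl⟩
        refine ⟨⟨fun i => ?_, fun hin => ?_⟩, ?_⟩
        · have : (0 : ℝ) < m i := by exact_mod_cast hm i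
          positivity
        · have h1 := (hint _).1 hin r hr
          have h3 : rd r (fun i => (m i : ℝ) / n) = ((dot m r : ℤ) : ℝ) / n := by
            simp only [rd, dot]
            push_cast
            ring
          rw [h3, lt_div_iff₀ hn0] at h1
          have h4 : ((dot m r : ℤ) : ℝ) ≤ (((n : ℤ) * ell A r : ℤ) : ℝ) := by
            exact_mod_cast hrm
          push_cast at h4
          linarith
        · have : (fun i => (m i : ℝ) / n : E3) ∈
              (n : ℝ)⁻¹ • Submodule.span ℤ (Set.range (Pi.basisFun ℝ (Fin 3))) := by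
            rw [BoxIntegral.unitPartition.mem_smul_span_iff]
            intro i
            refine ⟨m i, ?_⟩
            simp only [eq_intCast]
            field_simp
          exact this
    rw [himg, Set.ncard_image_of_injective]
    intro m m' hmm
    funext i
    have h1 := congrFun hmm i
    simp only at h1
    rw [div_left_inj' hn0.ne'] at h1
    exact_mod_cast h1
  -- the limits
  have hlim := tendsto_card_div_pow_atTop_volume S hbd hmeas hfr
  set S3 : ℝ := ∑ a ∈ rays T, (ell A a : ℝ) * Ar T (ell A) v e a with hS3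
  set S2 : ℝ := ∑ a ∈ rays T, (Ar T (ell A) v e a : ℝ) with hS2
  set S1 : ℝ := (1 / 2) * ∑ a ∈ rays T, ∑ b ∈ rays T, kap a b * Lw T v a b with hS1
  have hlim2 : Tendsto (fun n : ℕ => (2 * S3 + 3 * S2 * (n : ℝ)⁻¹ - S1 * ((n : ℝ)⁻¹) ^ 2) / 12)
      atTop (𝓝 ((2 * S3 + 3 * S2 * 0 - S1 * 0 ^ 2) / 12)) := by
    have h1 : Tendsto (fun n : ℕ => (n : ℝ)⁻¹) atTop (𝓝 0) := tendsto_inv_atTop_nhds_zero_nat
    exact (((h1.const_mul (3 * S2)).const_add (2 * S3)).sub
      ((h1.pow 2).const_mul S1)).div_const 12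
  have heq : ∀ᶠ n : ℕ in atTop, (Nat.card ↑(S ∩ (n : ℝ)⁻¹ •
      (Submodule.span ℤ (Set.range (Pi.basisFun ℝ (Fin 3))) : Set (Fin 3 → ℝ))) : ℝ) /
        (n : ℝ) ^ Fintype.card (Fin 3) =
      (2 * S3 + 3 * S2 * (n : ℝ)⁻¹ - S1 * ((n : ℝ)⁻¹) ^ 2) / 12 := by
    filter_upwards [eventually_gt_atTop 0] with n hn
    have hn0 : (0 : ℝ) < n := by exact_mod_cast hn
    rw [hcard n hn, Fintype.card_fin]
    have h1 := hD T (ell A) v e n hadm hbal
    rw [← hS3, ← hS2, ← hS1] at h1
    have h2 : ((BB T (fun a => n * ell A a)).ncard : ℝ) =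
        (2 * (n : ℝ) ^ 3 * S3 + 3 * (n : ℝ) ^ 2 * S2 - (n : ℝ) * S1) / 12 := by
      rw [eq_div_iff (by norm_num)]
      linarith
    rw [h2]
    field_simp
  have hlim3 := hlim.congr' heq
  have hval := tendsto_nhds_unique hlim3 hlim2
  -- the null set
  have hae : (S : Set E3) =ᵐ[volume] {x : E3 | (∀ i, 0 ≤ x i) ∧ x ∉ PA A} := by
    have hnull : volume (frontier voluO ∪ frontier (PA A)) = 0 := measure_union_null hf1 hf3
    have hae0 : ∀ᵐ x ∂(volume : Measure E3), x ∉ frontier voluO ∪ frontier (PA A) :=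
      measure_eq_zero_iff_ae_notMem.1 hnull
    filter_upwards [hae0] with x hx
    rw [Set.mem_union, not_or] at hx
    refine propext ⟨fun hxS => ?_, fun hxX => ?_⟩
    · have hxS' : x ∈ S := hxS
      refine ⟨fun i => (hxS'.1 i).le, fun hmem => hx.2 ?_⟩
      exact ⟨subset_closure hmem, hxS'.2⟩
    · obtain ⟨h1, h2⟩ : (∀ i, 0 ≤ x i) ∧ x ∉ PA A := hxX
      have hO : x ∈ voluO := by
        by_contra hc
        refine hx.1 ⟨volu_closure h1, ?_⟩
        rw [voluO_open.interior_eq]
        exact hc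
      exact ⟨hO, fun hi => h2 (interior_subset hi)⟩
  have hvol : volume.real {x : E3 | (∀ i, 0 ≤ x i) ∧ x ∉ PA A} = volume.real S := by
    rw [measureReal_def, measureReal_def, measure_congr hae]
  rw [hvol, hval]
  ring

end Pool.Agent.DUR

end

/-! ### H86/Cfgn -/

section
set_option autoImplicit false

namespace Pool.Agent.DUR

open Finset

namespace H86

lemma cramerZ (a b c f : V3) (i : Fin 3) : det3 a b c * f i =
    dot f a * cross b c i + dot f b * cross c a i + dot f c * cross a b i := by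
  fin_cases i <;>
  · simp [det3, dot, cross]
    ring

lemma mem_VV {T : Finset Tri} {v : Tri → V3} {a : V3} :
    a ∈ VV T v ↔ a ∈ rays T ∧ (∀ i, 0 < a i) ∧ ∃ b ∈ rays T, Lw T v a b ≠ 0 := by
  classical
  unfold VV
  rw [Finset.mem_filter]

lemma dot_ev (f : V3) (i : Fin 3) : dot f (ev i) = f i := by
  fin_cases i <;> simp [dot, ev]

lemma icpt_pos {A : Finset V3} {T : Finset Tri} {v : Tri → V3} (h : NP A T v) (k : Fin 3) :
    0 < icpt A k := by
  have hne : {n : ℕ | (n : ℤ) • ev k ∈ A}.Nonempty := by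
    obtain ⟨n, hn, hA⟩ := h.conv k
    refine ⟨n.toNat, ?_⟩
    show ((n.toNat : ℕ) : ℤ) • ev k ∈ A
    rw [Int.toNat_of_nonneg hn.le]
    exact hA
  have hmem : icpt A k ∈ {n : ℕ | (n : ℤ) • ev k ∈ A} := Nat.sInf_mem hne
  rcases Nat.eq_zero_or_pos (icpt A k) with h0 | h0
  · rw [h0] at hmem
    have : ((0 : ℕ) : ℤ) • ev k ∈ A := hmem
    simp only [Nat.cast_zero, zero_smul] at this
    exact absurd this h.zero
  · exact h0

lemma dot_smul_left (n : ℤ) (a b : V3) : dot (n • a) b = n * dot a b := by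
  simp [dot]; ring

lemma cross_smul_left (n : ℤ) (a b : V3) : cross (n • a) b = n • cross a b := by
  funext i
  fin_cases i <;> · simp [cross]; ring

end H86

open H86 in
theorem cfgn (hC : CcnpStatement) (hS : StypStatement) (hP : PickStatement) (hN : NegdStatement)
    (hL : LposStatement) (hE : EdgeStatement) (hNP : NpadStatement) : CfgnStatement := by
  classical
  intro A T v e hnp hbal
  have hadm := hNP A T v hnp
  obtain ⟨esym, enz, -, -, -⟩ := hE T (ell A) v hadm
  obtain ⟨lp1, lp2, lp3, lp4⟩ := hL A T v hnp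
  obtain ⟨cn1, cn2, cn3⟩ := hC A T v e hnp hbal
  have hgood := hnp.good
  -- elementary facts
  have hposV : ∀ a ∈ VV T v, ∀ i, 0 < a i := fun a ha => (mem_VV.1 ha).2.1
  have hrayV : ∀ a ∈ VV T v, a ∈ rays T := fun a ha => (mem_VV.1 ha).1
  have hLnn : ∀ a ∈ VV T v, ∀ b, 0 ≤ Lw T v a b := by
    intro a ha b
    apply lp1
    rintro ⟨i, hi, -⟩
    exact absurd hi (hposV a ha i).ne'
  have hne : (VV T v).Nonempty := by
    rw [Finset.nonempty_iff_ne_empty]
    intro hemp
    have h := cn3 0 1 2 (by decide) (by decide) (by decide)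
    rw [hemp] at h
    simp only [Finset.sum_empty] at h
    have := icpt_pos hnp 2
    omega
  refine ⟨hne, ?_⟩
  -- the weights
  have hw : ∀ a : V3, ∃ w : ℤ, a ∈ VV T v → (1 ≤ w ∧ (Rk T v a → w = 1) ∧
      (¬ Rk T v a → (∀ b, w ∣ Lw T v a b) ∧ w ∣ e a ∧ Ar T (ell A) v e a = 0 ∧
      ∑ b ∈ rays T, Lw T v a b = 2 * w)) := by
    intro a
    by_cases ha : a ∈ VV T v
    · by_cases hr : Rk T v a
      · exact ⟨1, fun _ => ⟨le_refl _, fun _ => rfl, fun h => absurd hr h⟩⟩
      · obtain ⟨w, h1, h2, h3, h4, h5⟩ := hS A T v e hnp hbal a ha hr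
        exact ⟨w, fun _ => ⟨h1, fun h => absurd h hr, fun _ => ⟨h2, h3, h4, h5⟩⟩⟩
    · exact ⟨1, fun h => absurd h ha⟩
  choose w hw using hw
  refine ⟨w, ?_⟩
  have hBoff : ∀ a b, a ≠ b → BN T v e a b = Lw T v a b := by
    intro a b hab
    unfold BN
    rw [if_neg hab]
  have hBdiag : ∀ a, BN T v e a a = -e a := by
    intro a
    unfold BN
    rw [if_pos rfl]
  have hsymm : ∀ a b, BN T v e a b = BN T v e b a := by
    intro a b
    by_cases hab : a = b
    · rw [hab]
    · rw [hBoff a b hab, hBoff b a (Ne.symm hab), esym a b]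
  have hoff : ∀ a ∈ VV T v, ∀ b ∈ VV T v, a ≠ b → 0 ≤ BN T v e a b := by
    intro a ha b _ hab
    rw [hBoff a b hab]
    exact hLnn a ha b
  have hcpos : ∀ a ∈ VV T v, ∀ i, 0 ≤ cc (VV T v) (BN T v e) a i := by
    intro a ha i
    rw [cn1 a ha i]
    exact hLnn a ha _
  have hsum : ∀ a ∈ VV T v, ∑ b ∈ VV T v with b ≠ a, BN T v e a b +
      ∑ i, cc (VV T v) (BN T v e) a i = ∑ b ∈ rays T, Lw T v a b := by
    intro a ha
    rw [cn2 a ha]
    congr 1
    exact Finset.sum_congr rfl fun i _ => cn1 a ha i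
  have hpos1 : ∀ a ∈ VV T v, ∀ i, 1 ≤ a i := fun a ha i => hposV a ha i
  -- a neighbour of a compact ray is in `VV` or an `ev i`
  have hnb : ∀ a ∈ VV T v, ∀ b ∈ rays T, Lw T v a b ≠ 0 → b ∈ VV T v ∨ ∃ i, b = ev i := by
    intro a ha b hb hab
    by_cases hb0 : ∃ i, b i = 0
    · right
      by_contra hcon
      push Not at hcon
      exact hab (by rw [esym]; exact lp3 b a hb (hrayV a ha) hb0 hcon (hposV a ha))
    · left
      push Not at hb0
      obtain ⟨s, hs, hsr⟩ := Finset.mem_image.1 hb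
      have hnn := hgood.nn s.1 s.2.1 s.2.2 hs
      rw [hsr] at hnn
      exact mem_VV.2 ⟨hb, fun i => lt_of_le_of_ne (hnn i) (Ne.symm (hb0 i)),
        a, hrayV a ha, by rw [esym]; exact hab⟩
  refine ⟨hpos1, ?_, hsymm, hoff, fun a ha => (hw a ha).1, ?_, ?_, hcpos, ?_, ?_, ?_⟩
  · -- prim
    intro a ha n b hab
    obtain ⟨s, hs, hsr⟩ := Finset.mem_image.1 (hrayV a ha)
    have hdet : det3 s.1 s.2.1 s.2.2 = 1 := hgood.det1 s.1 s.2.1 s.2.2 hs
    rw [hsr, hab, det3, cross_smul_left, dot_smul_left] at hdet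
    exact Int.eq_one_or_neg_one_of_mul_eq_one hdet
  · -- dvd
    intro a ha b _
    by_cases hr : Rk T v a
    · rw [(hw a ha).2.1 hr]; exact one_dvd _
    · obtain ⟨h2, h3, h4, h5⟩ := (hw a ha).2.2 hr
      by_cases hab : a = b
      · rw [← hab, hBdiag]; exact (dvd_neg).2 h3
      · rw [hBoff a b hab]; exact h2 b
  · -- dvdK
    intro a ha
    by_cases hr : Rk T v a
    · rw [(hw a ha).2.1 hr]; exact one_dvd _
    · obtain ⟨h2, h3, h4, h5⟩ := (hw a ha).2.2 hr
      unfold KN
      rw [h4, h5]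
      exact dvd_add (dvd_sub (dvd_zero _) (dvd_mul_left _ _)) h3
  · -- neg
    apply hN (VV T v) (BN T v e) hpos1 hsymm hoff hcpos
    · intro a ha b hb hab hB hcr
      rw [hBoff a b hab] at hB
      rcases enz a b hB with ⟨c, hc⟩ | ⟨c, hc⟩
      · have := hgood.det1 a b c hc
        rw [det3, hcr] at this
        simp [dot] at this
      · have h1 := hgood.det1 b a c hc
        have h2 : det3 b a c = - dot (cross a b) c := by
          simp [det3, dot, cross]; ring
        rw [h2, hcr] at h1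
        simp [dot] at h1
    · intro a ha
      by_contra hcon
      push Not at hcon
      obtain ⟨hc1, hc2⟩ := hcon
      have h1 := hsum a ha
      have h2 : ∑ b ∈ VV T v with b ≠ a, BN T v e a b = 0 :=
        Finset.sum_eq_zero fun b hb => hc1 b (Finset.mem_filter.1 hb).1 (Finset.mem_filter.1 hb).2
      have h3 : ∑ i, cc (VV T v) (BN T v e) a i = 0 :=
        Finset.sum_eq_zero fun i _ => hc2 i
      rw [h2, h3, zero_add] at h1
      obtain ⟨b, hb, hab⟩ := (mem_VV.1 ha).2.2
      have h4 := (Finset.sum_eq_zero_iff_of_nonneg (fun b _ => hLnn a ha b)).1 h1.symm b hb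
      exact hab h4
  · -- adj
    intro a ha
    rw [hBdiag]
    unfold KN
    by_cases hr : Rk T v a
    · have := hP A T v e hnp hbal a ha hr
      rw [(hw a ha).2.1 hr]
      linarith
    · obtain ⟨h2, h3, h4, h5⟩ := (hw a ha).2.2 hr
      rw [h4, h5]
      linarith
  · -- loc
    intro a ha
    by_cases hr : Rk T v a
    · left
      intro f hfa hfb hfc
      obtain ⟨b, hb, c, hc, hab, hac, hdet⟩ := hr
      have hkill : ∀ b ∈ rays T, Lw T v a b ≠ 0 → dot f b = 0 := by
        intro b hb hab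
        rcases hnb a ha b hb hab with h | ⟨i, hi⟩
        · by_cases hba : b = a
          · rw [hba]; exact hfa
          · exact hfb b h hba (by rw [hBoff a b (Ne.symm hba)]; exact hab)
        · rw [hi, dot_ev]
          apply hfc
          rw [cn1 a ha i, ← hi]
          exact hab
      have kb := hkill b hb hab
      have kc := hkill c hc hac
      funext i
      have := cramerZ a b c f i
      rw [hfa, kb, kc] at this
      simp only [zero_mul, add_zero] at this
      rcases mul_eq_zero.1 this with h | h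
      · exact absurd h hdet
      · exact h
    · right
      obtain ⟨h2, h3, h4, h5⟩ := (hw a ha).2.2 hr
      rw [hsum a ha, h5]

end Pool.Agent.DUR

end

/-! ### H86/Lvbd -/

section
set_option autoImplicit false

namespace Pool.Agent.DUR

open Finset

namespace H86

lemma cramer (a b c n : V3) (h : det3 a b c = 1) (y : E3) :
    rd n y = W b c y * dot n a + W c a y * dot n b + W a b y * dot n c := by
  have hR : ((det3 a b c : ℤ) : ℝ) = 1 := by rw [h]; norm_num
  have key : ((det3 a b c : ℤ) : ℝ) * rd n y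
      = W b c y * dot n a + W c a y * dot n b + W a b y * dot n c := by
    simp only [det3, W, rd, dot, cross, Matrix.cons_val_zero, Matrix.cons_val_one,
      Matrix.cons_val]
    push_cast
    ring
  rw [hR, one_mul] at key
  exact key

/-- The function `F_t`. -/
noncomputable def FF (v : Tri → V3) (m : V3) (t : Tri) (y : E3) : ℝ :=
  max (W t.2.1 t.2.2 y) 0 + max (W t.2.2 t.1 y) 0 + max (W t.1 t.2.1 y) 0 - (rd m y - rd (v t) y)

lemma cont_rd (n : V3) : Continuous (fun y : E3 => rd n y) := by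
  unfold rd
  fun_prop

lemma cont_FF (v : Tri → V3) (m : V3) (t : Tri) : Continuous (FF v m t) := by
  have h := fun n => cont_rd n
  unfold FF W
  have h1 := h (cross t.2.1 t.2.2)
  have h2 := h (cross t.2.2 t.1)
  have h3 := h (cross t.1 t.2.1)
  have h4 := h m
  have h5 := h (v t)
  fun_prop

lemma term_le (l : V3 → ℤ) (m r : V3) (u : ℝ) (h : pp u - bb l m r ≠ 0) :
    max u 0 ≤ u * ((dot m r : ℤ) - (l r : ℤ) : ℝ) := by
  unfold pp bb at h
  by_cases hu : 0 < u
  · rw [if_pos hu] at h
    by_cases hd : dot m r ≤ l r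
    · rw [if_pos hd] at h; exact absurd (sub_self _) h
    · have : (1 : ℝ) ≤ (dot m r : ℤ) - (l r : ℤ) := by
        have : l r + 1 ≤ dot m r := by omega
        have : ((l r + 1 : ℤ) : ℝ) ≤ (dot m r : ℤ) := by exact_mod_cast this
        push_cast at this
        linarith
      rw [max_eq_left hu.le]
      nlinarith
  · rw [if_neg hu] at h
    by_cases hd : dot m r ≤ l r
    · have : ((dot m r : ℤ) : ℝ) ≤ (l r : ℤ) := by exact_mod_cast hd
      push Not at hu
      rw [max_eq_right hu]
      nlinarith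
    · rw [if_neg hd] at h; exact absurd (sub_self _) h

lemma lvt_zero (T : Finset Tri) (l : V3 → ℤ) (v : Tri → V3) (hA : Adm T l v) (m : V3) (t : Tri)
    (ht : t ∈ T) (y : E3) (hF : 0 < FF v m t y) : lvt l y m t = 0 := by
  by_contra hne
  unfold lvt at hne
  have h12 := left_ne_zero_of_mul hne
  have h3 := right_ne_zero_of_mul hne
  have h1 := left_ne_zero_of_mul h12
  have h2 := right_ne_zero_of_mul h12
  have e1 := term_le l m _ _ h1
  have e2 := term_le l m _ _ h2
  have e3 := term_le l m _ _ h3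
  have hdet : det3 t.1 t.2.1 t.2.2 = 1 := hA.good.det1 t.1 t.2.1 t.2.2 ht
  have c1 := cramer t.1 t.2.1 t.2.2 m hdet y
  have c2 := cramer t.1 t.2.1 t.2.2 (v t) hdet y
  rw [hA.eq t ht t.1 (Or.inl rfl), hA.eq t ht t.2.1 (Or.inr (Or.inl rfl)),
    hA.eq t ht t.2.2 (Or.inr (Or.inr rfl))] at c2
  unfold FF at hF
  rw [c1, c2] at hF
  nlinarith

lemma FF_pos (T : Finset Tri) (l : V3 → ℤ) (v : Tri → V3) (hA : Adm T l v) (m : V3) (r : V3)
    (hr : r ∈ rays T) (hbad : dot m r ≤ l r) (t : Tri) (ht : t ∈ T) :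
    0 < FF v m t (fun i => (r i : ℝ)) := by
  have hdet : det3 t.1 t.2.1 t.2.2 = 1 := hA.good.det1 t.1 t.2.1 t.2.2 ht
  have hrd : ∀ n : V3, rd n (fun i => (r i : ℝ)) = (dot n r : ℤ) := by
    intro n
    simp [rd, dot]
  have hle := hA.le t ht r hr
  have h1 : (dot m r : ℝ) - (dot (v t) r : ℤ) ≤ 0 := by
    have : dot m r ≤ dot (v t) r := hbad.trans hle
    have : ((dot m r : ℤ) : ℝ) ≤ (dot (v t) r : ℤ) := by exact_mod_cast this
    linarith
  -- the degree of r is positive
  obtain ⟨s, hs, hsr⟩ := Finset.mem_image.1 hr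
  have hdets : det3 s.1 s.2.1 s.2.2 = 1 := hA.good.det1 s.1 s.2.1 s.2.2 hs
  have hnns : ∀ i, 0 ≤ r i := by
    rw [← hsr]; exact hA.good.nn s.1 s.2.1 s.2.2 hs
  have hdeg : 0 < r 0 + r 1 + r 2 := by
    by_contra hcon
    have h0 := hnns 0
    have h1 := hnns 1
    have h2 := hnns 2
    have e0 : r 0 = 0 := by omega
    have e1 : r 1 = 0 := by omega
    have e2 : r 2 = 0 := by omega
    rw [hsr] at hdets
    simp [det3, dot, cross, e0, e1, e2] at hdets
  have hrot := hA.good.rot t.1 t.2.1 t.2.2 ht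
  have hrot2 := hA.good.rot t.2.1 t.2.2 t.1 hrot
  have n1 := hA.good.nn t.1 t.2.1 t.2.2 ht
  have n2 := hA.good.nn t.2.1 t.2.2 t.1 hrot
  have n3 := hA.good.nn t.2.2 t.1 t.2.1 hrot2
  have c := cramer t.1 t.2.1 t.2.2 (fun _ => 1) hdet (fun i => (r i : ℝ))
  have hc1 : ∀ w : V3, dot (fun _ => 1) w = w 0 + w 1 + w 2 := by intro w; simp [dot]
  rw [hrd, hc1, hc1, hc1, hc1] at c
  have d1 : (0 : ℝ) ≤ ((t.1 0 + t.1 1 + t.1 2 : ℤ) : ℝ) := by
    exact_mod_cast (add_nonneg (add_nonneg (n1 0) (n1 1)) (n1 2))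
  have d2 : (0 : ℝ) ≤ ((t.2.1 0 + t.2.1 1 + t.2.1 2 : ℤ) : ℝ) := by
    exact_mod_cast (add_nonneg (add_nonneg (n2 0) (n2 1)) (n2 2))
  have d3 : (0 : ℝ) ≤ ((t.2.2 0 + t.2.2 1 + t.2.2 2 : ℤ) : ℝ) := by
    exact_mod_cast (add_nonneg (add_nonneg (n3 0) (n3 1)) (n3 2))
  have hdegR : (0 : ℝ) < ((r 0 + r 1 + r 2 : ℤ) : ℝ) := by exact_mod_cast hdeg
  unfold FF
  rw [hrd, hrd]
  generalize W t.2.1 t.2.2 (fun i => (r i : ℝ)) = y1 at *
  generalize W t.2.2 t.1 (fun i => (r i : ℝ)) = y2 at *
  generalize W t.1 t.2.1 (fun i => (r i : ℝ)) = y3 at *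
  have m1 : 0 ≤ max y1 0 := le_max_right _ _
  have m2 : 0 ≤ max y2 0 := le_max_right _ _
  have m3 : 0 ≤ max y3 0 := le_max_right _ _
  have hpos : 0 < max y1 0 + max y2 0 + max y3 0 := by
    by_contra hcon
    have z1 : max y1 0 = 0 := by linarith
    have z2 : max y2 0 = 0 := by linarith
    have z3 : max y3 0 = 0 := by linarith
    have w1 : y1 ≤ 0 := by rw [← z1]; exact le_max_left _ _
    have w2 : y2 ≤ 0 := by rw [← z2]; exact le_max_left _ _
    have w3 : y3 ≤ 0 := by rw [← z3]; exact le_max_left _ _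
    have := mul_nonneg (neg_nonneg.2 w1) d1
    have := mul_nonneg (neg_nonneg.2 w2) d2
    have := mul_nonneg (neg_nonneg.2 w3) d3
    nlinarith
  linarith

end H86

open H86 in
theorem lvbd (hG : GensStatement) : LvbdStatement := by
  intro T l v hA m ⟨r, hr, hbad⟩
  set rr : E3 := fun i => (r i : ℝ) with hrr
  have hopen : IsOpen {y : E3 | (∀ i, 0 < y i) ∧ ∀ t ∈ T, 0 < FF v m t y} := by
    have h1 : IsOpen {y : E3 | ∀ i, 0 < y i} := by
      rw [Set.ofPred_forall]
      exact isOpen_iInter_of_finite fun i => isOpen_lt continuous_const (continuous_apply i)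
    have h2 : IsOpen {y : E3 | ∀ t ∈ T, 0 < FF v m t y} := by
      have : {y : E3 | ∀ t ∈ T, 0 < FF v m t y} = ⋂ t ∈ T, {y : E3 | 0 < FF v m t y} := by
        ext y; simp
      rw [this]
      exact isOpen_biInter_finset fun t _ => isOpen_lt continuous_const (cont_FF v m t)
    exact h1.inter h2
  have hne : {y : E3 | (∀ i, 0 < y i) ∧ ∀ t ∈ T, 0 < FF v m t y}.Nonempty := by
    have hcurve : Continuous (fun ε : ℝ => (fun i => rr i + ε : E3)) := by fun_prop
    have hev : ∀ᶠ ε in nhdsWithin (0 : ℝ) (Set.Ioi 0), ∀ t ∈ T, 0 < FF v m t (fun i => rr i + ε) := by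
      rw [Filter.eventually_all_finset]
      intro t ht
      have hc : Continuous (fun ε : ℝ => FF v m t (fun i => rr i + ε)) := (cont_FF v m t).comp hcurve
      have h0 : 0 < FF v m t (fun i => rr i + 0) := by
        have : (fun i => rr i + 0 : E3) = rr := by funext i; simp
        rw [this]
        exact FF_pos T l v hA m r hr hbad t ht
      have hnhds : ∀ᶠ ε in nhds (0 : ℝ), 0 < FF v m t (fun i => rr i + ε) :=
        hc.continuousAt.eventually (lt_mem_nhds h0)
      exact hnhds.filter_mono nhdsWithin_le_nhds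
    have hev2 : ∀ᶠ ε in nhdsWithin (0 : ℝ) (Set.Ioi 0), 0 < ε := eventually_mem_nhdsWithin
    obtain ⟨ε, h1, h2⟩ := (hev.and hev2).exists
    obtain ⟨s, hs, hsr⟩ := Finset.mem_image.1 hr
    have hnns : ∀ i, 0 ≤ r i := by
      rw [← hsr]; exact hA.good.nn s.1 s.2.1 s.2.2 hs
    refine ⟨fun i => rr i + ε, fun i => ?_, h1⟩
    have : (0 : ℝ) ≤ (r i : ℝ) := by exact_mod_cast hnns i
    show 0 < rr i + ε
    rw [hrr]
    show 0 < (r i : ℝ) + ε
    linarith
  obtain ⟨y, hy, hgen⟩ := hG _ hopen hne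
  exact ⟨y, hgen, hy.1, fun t ht => lvt_zero T l v hA m t ht y (hy.2 t ht)⟩

end Pool.Agent.DUR

end

/-! ### H87/PickBase -/

section
set_option autoImplicit false

/-! # Common lemmas for PICK and STYP -/

namespace Pool.Agent.DUR.H87

open Finset

theorem dot_add (a b c : V3) : dot a (b + c) = dot a b + dot a c := by
  simp [dot]; ring

theorem dot_sub (a b c : V3) : dot a (b - c) = dot a b - dot a c := by
  simp [dot]; ring

theorem dot_smul (n : ℤ) (a b : V3) : dot a (n • b) = n * dot a b := by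
  simp [dot]; ring

theorem add_dot (a b c : V3) : dot (a + b) c = dot a c + dot b c := by
  simp [dot]; ring

theorem sub_dot (a b c : V3) : dot (a - b) c = dot a c - dot b c := by
  simp [dot]; ring

theorem smul_dot (n : ℤ) (a b : V3) : dot (n • a) b = n * dot a b := by
  simp [dot]; ring

theorem dot_sum {ι : Type*} (s : Finset ι) (a : V3) (f : ι → V3) :
    dot a (∑ i ∈ s, f i) = ∑ i ∈ s, dot a (f i) := by
  classical
  induction s using Finset.induction_on with
  | empty => simp [dot]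
  | insert i s hi ih => rw [sum_insert hi, sum_insert hi, dot_add, ih]

theorem det3_def (a b c : V3) : dot (cross a b) c = det3 a b c := rfl

theorem det3_self_left (a b : V3) : det3 a b a = 0 := by
  simp [det3, dot, cross]; ring

theorem det3_self_right (a b : V3) : det3 a b b = 0 := by
  simp [det3, dot, cross]; ring

theorem det3_swap (a b c : V3) : det3 a c b = -det3 a b c := by
  simp [det3, dot, cross]; ring

/-- Expansion in the basis `a, b, c`. -/
theorem expand (a b c x : V3) (h : det3 a b c = 1) :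
    x = (det3 x b c) • a + (det3 a x c) • b + (det3 a b x) • c := by
  have key : ∀ i, det3 a b c * x i = det3 x b c * a i + det3 a x c * b i + det3 a b x * c i := by
    intro i
    fin_cases i <;> simp [det3, dot, cross] <;> ring
  funext i
  have := key i
  rw [h, one_mul] at this
  simpa [Pi.add_apply, Pi.smul_apply, smul_eq_mul] using this

theorem plucker (a b c x y : V3) :
    det3 a x y * det3 a b c = det3 a x b * det3 a y c - det3 a x c * det3 a y b := by
  simp [det3, dot, cross]; ring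

/-- Two vectors that are parts of bases with `a` and parallel modulo `a`. -/
theorem par (a b c b' c' : V3) (h : det3 a b c = 1) (h' : det3 a b' c' = 1)
    (h0 : det3 a b b' = 0) : ∃ n : ℤ, b' = b + n • a ∨ b' = n • a - b := by
  have h1 := expand a b c b' h
  rw [h0, zero_smul, add_zero] at h1
  set x := det3 b' b c
  set y := det3 a b' c
  have hy : y * det3 a b c' = 1 := by
    have : det3 a b' c' = y * det3 a b c' := by
      rw [h1]
      simp [det3, dot, cross]; ring
    rw [← this, h']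
  have hy1 : y = 1 ∨ y = -1 := by
    have := Int.isUnit_iff.mp (IsUnit.of_mul_eq_one _ hy)
    exact this
  rcases hy1 with hy1 | hy1
  · refine ⟨x, Or.inl ?_⟩
    rw [h1, hy1, one_smul, add_comm]
  · refine ⟨x, Or.inr ?_⟩
    rw [h1, hy1, neg_smul, one_smul, sub_eq_add_neg]

/-- Independence of `a` and `b`. -/
theorem indep (a b c : V3) (h : det3 a b c = 1) (x y : ℤ) (h0 : x • a = y • b) :
    x = 0 ∧ y = 0 := by
  constructor
  · have h1 := congrArg (fun z => det3 b c z) h0
    have h2 : det3 b c (x • a) = x * det3 a b c := by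
      simp [det3, dot, cross]; ring
    have h3 : det3 b c (y • b) = 0 := by
      simp [det3, dot, cross]; ring
    simp only [h2, h3, h, mul_one] at h1
    exact h1
  · have h1 := congrArg (fun z => det3 c a z) h0
    have h2 : det3 c a (x • a) = 0 := by
      simp [det3, dot, cross]; ring
    have h3 : det3 c a (y • b) = y * det3 a b c := by
      simp [det3, dot, cross]; ring
    simp only [h2, h3, h, mul_one] at h1
    exact h1.symm

/-- Expansion of a linear form in the dual basis. -/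
theorem dual_expand (a b c x : V3) (h : det3 a b c = 1) :
    x = (dot x a) • cross b c + (dot x b) • cross c a + (dot x c) • cross a b := by
  have key : ∀ i, det3 a b c * x i =
      dot x a * cross b c i + dot x b * cross c a i + dot x c * cross a b i := by
    intro i
    fin_cases i <;> simp [det3, dot, cross] <;> ring
  funext i
  have := key i
  rw [h, one_mul] at this
  simpa [Pi.add_apply, Pi.smul_apply, smul_eq_mul] using this

variable {A : Finset V3} {T : Finset Tri} {v : Tri → V3} {e : V3 → ℤ} {a : V3}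

/-- Neighbours with nonzero length of a compact ray have both triangles. -/
theorem nbr (hG : Good T) (hE : (∀ a b, Lw T v a b ≠ 0 → (∃ c, (a, b, c) ∈ T) ∨
    ∃ c, (b, a, c) ∈ T)) (ha : ∀ i, 0 < a i) {b : V3} (hb : Lw T v a b ≠ 0) :
    (∃ c, (a, b, c) ∈ T) ∧ (∃ d, (b, a, d) ∈ T) ∧ b ∈ rays T := by
  have hno : ∀ b : V3, ¬ ∃ i, a i = 0 ∧ b i = 0 := by
    rintro b ⟨i, hi, _⟩
    exact absurd hi (ha i).ne'
  have hno' : ∀ b : V3, ¬ ∃ i, b i = 0 ∧ a i = 0 := by
    rintro b ⟨i, _, hi⟩
    exact absurd hi (ha i).ne'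
  have h1 : ∃ c, (a, b, c) ∈ T := by
    rcases hE a b hb with h | ⟨c, h⟩
    · exact h
    · rcases hG.opp _ _ _ h with h' | h'
      · exact absurd h' (hno' b)
      · exact h'
  obtain ⟨c, hc⟩ := h1
  refine ⟨⟨c, hc⟩, ?_, ?_⟩
  · rcases hG.opp _ _ _ hc with h' | h'
    · exact absurd h' (hno b)
    · exact h'
  · exact mem_image.mpr ⟨(b, c, a), hG.rot _ _ _ hc, rfl⟩

end Pool.Agent.DUR.H87

end

/-! ### H87/Pick -/

section
set_option autoImplicit false

/-! # PICK: Pick's inequality for the polygon of a compact ray -/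

namespace Pool.Agent.DUR.H87

open Finset

theorem pick (hNP : NpadStatement) (hED : EdgeStatement) (hLP : LposStatement)
    (hLN : LnkwStatement) (hHG : HghtStatement) (hSU : SuccStatement) : PickStatement := by
  classical
  intro A T v e hA hB a ha hR
  have hAdm := hNP A T v hA
  have hG := hAdm.good
  obtain ⟨hsym, hsupp, hvE, hrot, hdiff⟩ := hED T (ell A) v hAdm
  obtain ⟨hpos, -, -, -⟩ := hLP A T v hA
  obtain ⟨hra, ha0, b0, hb0r, hb0⟩ : a ∈ rays T ∧ (∀ i, 0 < a i) ∧ ∃ b ∈ rays T, Lw T v a b ≠ 0 := by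
    have h := ha
    unfold VV at h
    rw [mem_filter] at h
    exact ⟨h.1, h.2.1, h.2.2⟩
  have hnn : ∀ b, 0 ≤ Lw T v a b := fun b => hpos a b (by
    rintro ⟨i, hi, _⟩
    exact absurd hi (ha0 i).ne')
  have hnb := fun b (hb : Lw T v a b ≠ 0) => nbr hG hsupp ha0 hb
  set J := (rays T).filter fun b => Lw T v a b ≠ 0 with hJ
  have hmemJ : ∀ b, b ∈ J ↔ Lw T v a b ≠ 0 := fun b => by
    rw [hJ, mem_filter]
    exact ⟨fun h => h.2, fun h => ⟨(hnb b h).2.2, h⟩⟩
  have hLpos : ∀ b ∈ J, 1 ≤ Lw T v a b := fun b hb => by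
    have h1 := (hmemJ b).mp hb
    have h2 := hnn b
    omega
  -- values at a
  have hva : ∀ t ∈ T, t.1 = a → dot (v t) a = ell A a := fun t ht h =>
    hAdm.eq t ht a (Or.inl h)
  -- two neighbours with height zero at the same vertex are not parallel
  have hnp : ∀ t ∈ T, t.1 = a → ∀ b ∈ J, ∀ b' ∈ J, b ≠ b' → dot (v t) b = ell A b →
      dot (v t) b' = ell A b' → det3 a b b' ≠ 0 := by
    intro t ht hta b hb b' hb' hne h1 h2 h0
    obtain ⟨⟨c, hc⟩, -, hbr⟩ := hnb b ((hmemJ b).mp hb)
    obtain ⟨⟨c', hc'⟩, -, hbr'⟩ := hnb b' ((hmemJ b').mp hb')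
    obtain ⟨n, h | h⟩ := par a b c b' c' (hG.det1 _ _ _ hc) (hG.det1 _ _ _ hc') h0
    · exact hne (hLN T a b b' n hG ha0 ⟨c, hc⟩ ⟨c', hc'⟩ h)
    · -- all vertices of the face take the same value at b
      have hsumv : ell A b + ell A b' = n * ell A a := by
        rw [← h1, ← h2, ← hva t ht hta, ← dot_add, ← dot_smul, h]
        congr 1
        abel
      have hall : ∀ t' ∈ T, t'.1 = a → dot (v t') b = ell A b := by
        intro t' ht' hta'
        have h3 := hAdm.le t' ht' b hbr
        have h4 := hAdm.le t' ht' b' hbr'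
        have h5 : dot (v t') b + dot (v t') b' = n * ell A a := by
          rw [← hva t' ht' hta', ← dot_add, ← dot_smul, h]
          congr 1
          abel
        omega
      -- so all directions are parallel to b
      have hdir : ∀ x ∈ J, det3 a x b = 0 := by
        intro x hx
        obtain ⟨⟨y, hy⟩, ⟨z, hz⟩, -⟩ := hnb x ((hmemJ x).mp hx)
        have h3 := hdiff a x y hy
        have h4 : dot (vE T v x a - vE T v a x) b = 0 := by
          rw [sub_dot, hvE _ _ _ hz, hvE _ _ _ hy, ← hrot _ _ _ hz,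
            hall _ (hG.rot _ _ _ hz) rfl, hall _ hy rfl, sub_self]
        rw [h3, smul_dot, det3_def] at h4
        exact (mul_eq_zero.mp h4).resolve_left ((hmemJ x).mp hx)
      obtain ⟨x, hx, y, hy, hx0, hy0, hxy⟩ := hR
      have h5 := plucker a b c x y
      rw [hdir x ((hmemJ x).mpr hx0), hdir y ((hmemJ y).mpr hy0), hG.det1 _ _ _ hc] at h5
      apply hxy
      simpa using h5
  -- the first edge
  obtain ⟨b1, hb1J, hb1two⟩ : ∃ b1 ∈ J, 2 ≤ Lw T v a b1 ∨ ∀ b ∈ J, Lw T v a b = 1 := by
    by_cases h : ∃ b ∈ J, 2 ≤ Lw T v a b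
    · obtain ⟨b, hb, h2⟩ := h
      exact ⟨b, hb, Or.inl h2⟩
    · push Not at h
      exact ⟨b0, (hmemJ b0).mpr hb0, Or.inr fun b hb => by
        have := h b hb
        have := hLpos b hb
        omega⟩
  obtain ⟨⟨c1, hc1⟩, ⟨d1, hd1⟩, hb1r⟩ := hnb b1 ((hmemJ b1).mp hb1J)
  obtain ⟨b2, c2, hc2, hb2, hb21, hv2⟩ := hSU A T v hA a b1 ha0 ⟨c1, hc1⟩ ((hmemJ b1).mp hb1J)
  have hb2J : b2 ∈ J := (hmemJ b2).mpr hb2
  have htd : (a, d1, b1) ∈ T := hG.rot _ _ _ hd1
  set u := v (a, d1, b1) with hu
  have hu1 : vE T v b1 a = u := by rw [hvE _ _ _ hd1, hu, ← hrot _ _ _ hd1]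
  have hu2 : vE T v a b2 = u := by rw [hv2, hu1]
  have hua : dot u a = ell A a := hva _ htd rfl
  have hub1 : dot u b1 = ell A b1 := hAdm.eq _ htd b1 (Or.inr (Or.inr rfl))
  have hub2 : dot u b2 = ell A b2 := by
    rw [← hu2, hvE _ _ _ hc2]
    exact hAdm.eq _ hc2 b2 (Or.inr (Or.inl rfl))
  set hh : V3 → ℤ := fun b => dot u b - ell A b with hhh
  have hh0 : ∀ b ∈ J, 0 ≤ hh b := fun b hb => by
    have h1 : ell A b ≤ dot u b := hAdm.le _ htd b (hnb b ((hmemJ b).mp hb)).2.2
    simp only [hhh]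
    omega
  -- area
  have hArea : Ar T (ell A) v e a - ∑ b ∈ rays T, Lw T v a b =
      ∑ b ∈ J, Lw T v a b * (hh b - 1) := by
    have h := hHG A T v e hA hB _ htd
    simp only at h
    rw [h, ← Finset.sum_sub_distrib, hJ, Finset.sum_filter_of_ne]
    · exact Finset.sum_congr rfl fun b _ => by simp only [hhh]; ring
    · intro b _ hb h0
      rw [h0, zero_mul] at hb
      exact hb rfl
  rw [hArea]
  -- the balancing condition
  have hbal : ∑ b ∈ J, Lw T v a b * det3 a b1 b = 0 := by
    have h := congrArg (dot (cross a b1)) (hB a hra)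
    rw [dot_sum] at h
    have h2 : dot (cross a b1) (e a • a) = 0 := by
      rw [dot_smul, det3_def, det3_self_left, mul_zero]
    rw [h2] at h
    rw [← h, hJ, Finset.sum_filter_of_ne]
    · exact Finset.sum_congr rfl fun b _ => by rw [dot_smul, det3_def]
    · intro b _ hb h0
      rw [h0, zero_mul] at hb
      exact hb rfl
  set L1 := Lw T v a b1 with hL1
  have hL1pos : 1 ≤ L1 := hLpos b1 hb1J
  -- the other end of b1
  have hend1 : v (a, b1, c1) = u - L1 • cross a b1 := by
    have h := hdiff a b1 c1 hc1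
    rw [hu1, hvE _ _ _ hc1] at h
    rw [hL1, ← h]
    abel
  have hp : ∀ b ∈ J, L1 * det3 a b1 b ≤ hh b := by
    intro b hb
    have h := hAdm.le _ hc1 b (hnb b ((hmemJ b).mp hb)).2.2
    rw [hend1, sub_dot, smul_dot, det3_def] at h
    simp only [hhh]
    linarith
  have hp0 : ∀ b ∈ J, b ≠ b1 → hh b = 0 → det3 a b1 b ≤ -1 := by
    intro b hb hne h0
    have h1 := hp b hb
    rw [h0] at h1
    have h2 : det3 a b1 b ≠ 0 := hnp _ htd rfl b1 hb1J b hb (Ne.symm hne) hub1
      (by show dot u b = ell A b; simp only [hhh] at h0; omega)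
    have h3 : det3 a b1 b ≤ 0 := by
      by_contra hcon
      push Not at hcon
      nlinarith
    omega
  rcases hb1two with htwo | hone
  · -- case 1
    set Z := J.filter fun b => hh b = 0 with hZ
    set Z' := J.filter fun b => ¬ hh b = 0 with hZ'
    have hsplit : ∀ f : V3 → ℤ, ∑ b ∈ J, f b = ∑ b ∈ Z, f b + ∑ b ∈ Z', f b := fun f =>
      (Finset.sum_filter_add_sum_filter_not J (fun b => hh b = 0) f).symm
    have hb1Z : b1 ∈ Z := mem_filter.mpr ⟨hb1J, by simp only [hhh]; omega⟩
    have hb2Z : b2 ∈ Z.erase b1 := mem_erase.mpr ⟨hb21, mem_filter.mpr ⟨hb2J, by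
      simp only [hhh]; omega⟩⟩
    set S := ∑ b ∈ Z.erase b1, Lw T v a b with hS
    have hS1 : 1 ≤ S := by
      have h1 : Lw T v a b2 ≤ S := Finset.single_le_sum (f := fun b => Lw T v a b)
        (fun b _ => hnn b) hb2Z
      have h2 := hLpos b2 hb2J
      omega
    have hZsum : ∑ b ∈ Z, Lw T v a b * (hh b - 1) = -L1 - S := by
      rw [← Finset.add_sum_erase _ _ hb1Z]
      have h1 : ∑ b ∈ Z.erase b1, Lw T v a b * (hh b - 1) = -S := by
        rw [hS, ← Finset.sum_neg_distrib]
        apply Finset.sum_congr rfl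
        intro b hb
        rw [(mem_filter.mp (mem_of_mem_erase hb)).2]
        ring
      rw [h1, (mem_filter.mp hb1Z).2]
      ring
    have hZp : ∑ b ∈ Z, Lw T v a b * det3 a b1 b ≤ -S := by
      rw [← Finset.add_sum_erase _ _ hb1Z, det3_self_right, mul_zero, zero_add, hS,
        ← Finset.sum_neg_distrib]
      apply Finset.sum_le_sum
      intro b hb
      have hbZ := mem_of_mem_erase hb
      have h1 := hp0 b (mem_filter.mp hbZ).1 (ne_of_mem_erase hb) (mem_filter.mp hbZ).2
      have h2 := hnn b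
      nlinarith
    have hZ'sum : (L1 - 1) * ∑ b ∈ Z', Lw T v a b * det3 a b1 b ≤
        ∑ b ∈ Z', Lw T v a b * (hh b - 1) := by
      rw [Finset.mul_sum]
      apply Finset.sum_le_sum
      intro b hb
      obtain ⟨hbJ, hb0⟩ := mem_filter.mp hb
      have h1 := hp b hbJ
      have h2 := hnn b
      have h3 := hh0 b hbJ
      have h4 : 1 ≤ hh b := by omega
      have h5 : (L1 - 1) * det3 a b1 b ≤ hh b - 1 := by
        rcases le_or_gt (det3 a b1 b) 0 with h | h
        · nlinarith
        · nlinarith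
      nlinarith
    rw [hsplit] at hbal ⊢
    have h6 : S ≤ ∑ b ∈ Z', Lw T v a b * det3 a b1 b := by linarith
    have h7 : (L1 - 1) * S ≤ ∑ b ∈ Z', Lw T v a b * (hh b - 1) := by nlinarith
    rw [hZsum]
    nlinarith
  · -- case 2
    have hZ2 : ∀ b3 ∈ J, hh b3 = 0 → b3 = b1 ∨ b3 = b2 := by
      intro b3 hb3 h30
      by_contra hcon
      push Not at hcon
      obtain ⟨h31, h32⟩ := hcon
      obtain ⟨⟨c3, hc3⟩, ⟨d3, hd3⟩, hb3r⟩ := hnb b3 ((hmemJ b3).mp hb3)
      have hub3 : dot u b3 = ell A b3 := by simp only [hhh] at h30; omega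
      have hD1 : det3 a b1 b3 ≠ 0 := hnp _ htd rfl b1 hb1J b3 hb3 (Ne.symm h31) hub1 hub3
      have hD2 : det3 a b2 b3 ≠ 0 := hnp _ htd rfl b2 hb2J b3 hb3 (Ne.symm h32) hub2 hub3
      have hD1' : det3 a b1 b3 ≤ 0 := by
        have := hp b3 hb3
        rw [h30] at this
        by_contra hcon
        push Not at hcon
        nlinarith
      -- the other end of b2
      obtain ⟨-, ⟨d2, hd2⟩, hb2r⟩ := hnb b2 hb2
      have hD2' : 0 ≤ det3 a b2 b3 := by
        have h := hdiff a b2 c2 hc2
        have h2 := hAdm.le _ hd2 b3 hb3r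
        rw [← hvE _ _ _ hd2] at h2
        have h3 : dot (vE T v b2 a) b3 = dot u b3 + Lw T v a b2 * det3 a b2 b3 := by
          rw [← det3_def, ← smul_dot, ← h, ← add_dot, hu2]
          congr 1
          abel
        rw [h3, hub3] at h2
        have h4 := hLpos b2 hb2J
        by_contra hcon
        push Not at hcon
        nlinarith
      -- an end of b3 different from u
      obtain ⟨t', ht', ht'a, ht'b, s, hs, hst⟩ : ∃ t' ∈ T, t'.1 = a ∧ dot (v t') b3 = ell A b3 ∧
          ∃ s : ℤ, s ≠ 0 ∧ v t' = u + s • cross a b3 := by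
        have hform : ∀ t' ∈ T, t'.1 = a → dot (v t') b3 = ell A b3 →
            v t' = u + (dot (v t' - u) c3) • cross a b3 := by
          intro t' ht' hta' htb'
          have h1 : dot (v t' - u) a = 0 := by
            rw [sub_dot, hva t' ht' hta', hua, sub_self]
          have h2 : dot (v t' - u) b3 = 0 := by rw [sub_dot, htb', hub3, sub_self]
          have hdet := hG.det1 _ _ _ hc3
          have key := dual_expand a b3 c3 (v t' - u) hdet
          rw [h1, h2, zero_smul, zero_smul, zero_add, zero_add] at key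
          rw [← key]
          abel
        have e1 : dot (v (a, b3, c3)) b3 = ell A b3 := hAdm.eq _ hc3 b3 (Or.inr (Or.inl rfl))
        have htd3 : (a, d3, b3) ∈ T := hG.rot _ _ _ hd3
        have e2 : dot (v (a, d3, b3)) b3 = ell A b3 := hAdm.eq _ htd3 b3 (Or.inr (Or.inr rfl))
        have f1 := hform _ hc3 rfl e1
        have f2 := hform _ htd3 rfl e2
        by_cases hs : dot (v (a, b3, c3) - u) c3 = 0
        · refine ⟨_, htd3, rfl, e2, _, ?_, f2⟩
          intro hs2
          rw [hs, zero_smul, add_zero] at f1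
          rw [hs2, zero_smul, add_zero] at f2
          have h := hdiff a b3 c3 hc3
          rw [hvE _ _ _ hd3, hvE _ _ _ hc3, ← hrot _ _ _ hd3, f1, f2, sub_self] at h
          have h5 := congrArg (fun z => dot z c3) h
          simp only [smul_dot, det3_def, hG.det1 _ _ _ hc3, mul_one] at h5
          have h6 : dot (0 : V3) c3 = 0 := by simp [dot]
          rw [h6] at h5
          exact (hmemJ b3).mp hb3 h5.symm
        · exact ⟨_, hc3, rfl, e1, _, hs, f1⟩
      have g1 := hAdm.le t' ht' b1 hb1r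
      have g2 := hAdm.le t' ht' b2 hb2r
      rw [hst, add_dot, smul_dot, det3_def, hub1, det3_swap] at g1
      rw [hst, add_dot, smul_dot, det3_def, hub2, det3_swap] at g2
      have hlt1 : det3 a b1 b3 < 0 := lt_of_le_of_ne hD1' hD1
      have hlt2 : 0 < det3 a b2 b3 := lt_of_le_of_ne hD2' (Ne.symm hD2)
      have g1' : s * det3 a b1 b3 ≤ 0 := by linarith
      have g2' : s * det3 a b2 b3 ≤ 0 := by linarith
      rcases lt_or_gt_of_ne hs with hs | hs
      · nlinarith
      · nlinarith
    have hle : ∑ b ∈ J, (if b = b1 ∨ b = b2 then (-1 : ℤ) else 0) ≤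
        ∑ b ∈ J, Lw T v a b * (hh b - 1) := by
      apply Finset.sum_le_sum
      intro b hb
      rw [hone b hb, one_mul]
      have h1 := hh0 b hb
      split_ifs with h
      · omega
      · have h2 : hh b ≠ 0 := fun h0 => h (hZ2 b hb h0)
        omega
    refine le_trans ?_ hle
    rw [← Finset.sum_filter, Finset.sum_const, nsmul_eq_mul]
    have hcard : (J.filter fun b => b = b1 ∨ b = b2).card ≤ 2 := by
      refine le_trans (Finset.card_le_card (t := {b1, b2}) ?_) Finset.card_le_two
      intro b hb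
      rw [mem_insert, mem_singleton]
      exact (mem_filter.mp hb).2
    have : ((J.filter fun b => b = b1 ∨ b = b2).card : ℤ) ≤ 2 := by exact_mod_cast hcard
    linarith

end Pool.Agent.DUR.H87

end

/-! ### H87/Styp -/

section
set_option autoImplicit false

/-! # STYP: the rays whose face is a segment -/

namespace Pool.Agent.DUR.H87

open Finset

theorem styp (hNP : NpadStatement) (hED : EdgeStatement) (hLP : LposStatement)
    (hLN : LnkwStatement) (hHG : HghtStatement) (hSU : SuccStatement) : StypStatement := by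
  classical
  intro A T v e hA hB a ha hR
  have hAdm := hNP A T v hA
  have hG := hAdm.good
  obtain ⟨hsym, hsupp, hvE, hrot, hdiff⟩ := hED T (ell A) v hAdm
  obtain ⟨hpos, -, -, -⟩ := hLP A T v hA
  obtain ⟨hra, ha0, b0, hb0r, hb0⟩ : a ∈ rays T ∧ (∀ i, 0 < a i) ∧ ∃ b ∈ rays T, Lw T v a b ≠ 0 := by
    have h := ha
    unfold VV at h
    rw [mem_filter] at h
    exact ⟨h.1, h.2.1, h.2.2⟩
  have hnn : ∀ b, 0 ≤ Lw T v a b := fun b => hpos a b (by
    rintro ⟨i, hi, _⟩
    exact absurd hi (ha0 i).ne')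
  have hnb := fun b (hb : Lw T v a b ≠ 0) => nbr hG hsupp ha0 hb
  -- all directions are parallel
  have hpar : ∀ b, Lw T v a b ≠ 0 → b = b0 ∨ ∃ n : ℤ, b = n • a - b0 := by
    intro b hb
    obtain ⟨⟨c, hc⟩, -, hbr⟩ := hnb b hb
    obtain ⟨⟨c0, hc0⟩, -, -⟩ := hnb b0 hb0
    have h0 : det3 a b0 b = 0 := by
      by_contra h
      exact hR ⟨b0, hb0r, b, hbr, hb0, hb, h⟩
    obtain ⟨n, h | h⟩ := par a b0 c0 b c (hG.det1 _ _ _ hc0) (hG.det1 _ _ _ hc) h0
    · exact Or.inl (hLN T a b0 b n hG ha0 ⟨c0, hc0⟩ ⟨c, hc⟩ h).symm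
    · exact Or.inr ⟨n, h⟩
  obtain ⟨⟨c0, hc0⟩, ⟨d0, hd0⟩, -⟩ := hnb b0 hb0
  -- the second edge
  obtain ⟨b1, c1, hc1, hb1, hb10, hv1⟩ := hSU A T v hA a b0 ha0 ⟨c0, hc0⟩ hb0
  obtain ⟨n, hn⟩ : ∃ n : ℤ, b1 = n • a - b0 := (hpar b1 hb1).resolve_left hb10
  have honly : ∀ b, Lw T v a b ≠ 0 → b = b0 ∨ b = b1 := by
    intro b hb
    rcases hpar b hb with h | ⟨n', h⟩
    · exact Or.inl h
    · obtain ⟨⟨c, hc⟩, -, -⟩ := hnb b hb
      refine Or.inr (hLN T a b1 b (n' - n) hG ha0 ⟨c1, hc1⟩ ⟨c, hc⟩ ?_).symm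
      rw [h, hn, sub_smul]
      abel
  have hb1r : b1 ∈ rays T := (hnb b1 hb1).2.2
  -- sums over the rays
  have hsum : ∀ {M : Type} [AddCommMonoid M] (f : V3 → M),
      (∀ b, Lw T v a b = 0 → f b = 0) → ∑ b ∈ rays T, f b = f b0 + f b1 := by
    intro M _ f hf
    rw [← Finset.sum_pair (Ne.symm hb10)]
    symm
    apply Finset.sum_subset
    · intro x hx
      rw [mem_insert, mem_singleton] at hx
      rcases hx with rfl | rfl
      · exact hb0r
      · exact hb1r
    · intro x _ hx
      apply hf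
      by_contra h
      apply hx
      rw [mem_insert, mem_singleton]
      exact honly x h
  have hbal := hB a hra
  rw [hsum (fun b => Lw T v a b • b) (fun b hb => by simp [hb])] at hbal
  set w0 := Lw T v a b0 with hw0
  set w1 := Lw T v a b1 with hw1
  have hind : (e a - w1 * n) • a = (w0 - w1) • b0 := by
    rw [hn, smul_sub, smul_smul] at hbal
    rw [sub_smul, sub_smul, ← hbal]
    abel
  obtain ⟨h1, h2⟩ := indep a b0 c0 (hG.det1 _ _ _ hc0) _ _ hind
  have hw : w0 = w1 := by omega
  have hw0pos : 0 < w0 := lt_of_le_of_ne (hnn b0) (Ne.symm hb0)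
  refine ⟨w0, hw0pos, ?_, ?_, ?_, ?_⟩
  · intro b
    by_cases hb : Lw T v a b = 0
    · rw [hb]; exact dvd_zero _
    · rcases honly b hb with rfl | rfl
      · exact dvd_refl _
      · rw [← hw1, ← hw]
  · have : e a = w1 * n := by omega
    rw [this, ← hw]
    exact dvd_mul_right _ _
  · -- the area
    have ht : (a, d0, b0) ∈ T := hG.rot _ _ _ hd0
    have hvt : v (a, d0, b0) = v (b0, a, d0) := hrot _ _ _ hd0
    have h := hHG A T v e hA hB _ ht
    simp only at h
    rw [h, hsum (fun b => Lw T v a b * (dot (v (a, d0, b0)) b - ell A b))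
      (fun b hb => by simp [hb])]
    have e0 : dot (v (a, d0, b0)) b0 = ell A b0 := hAdm.eq _ ht b0 (Or.inr (Or.inr rfl))
    have e1 : dot (v (a, d0, b0)) b1 = ell A b1 := by
      rw [hvt, ← hvE _ _ _ hd0, ← hv1, hvE _ _ _ hc1]
      exact hAdm.eq _ hc1 b1 (Or.inr (Or.inl rfl))
    rw [e0, e1]
    ring
  · rw [hsum (fun b => Lw T v a b) (fun b hb => hb), ← hw0, ← hw1, ← hw]
    ring

end Pool.Agent.DUR.H87

end
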