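import Pool.Agent.Lib.MP_524519_ag.DUR.Iface

set_option autoImplicit false

/-! ### H90/Ctrm -/

section
/-! CTRM: the drop of `Ψ` is nonnegative. -/

set_option autoImplicit false

namespace Pool.Agent.DUR

open Finset

/-- Relation (R) at the contracted ray. -/
theorem rel_at {S : Finset V3} {B : V3 → V3 → ℤ} {w : V3 → ℤ} {c : V3} (hc : c ∈ S)
    (hB : B c c = -w c) (i : Fin 3) :
    w c * c i = ∑ b ∈ S with b ≠ c, B c b * b i + cc S B c i := by
  have h : ∑ b ∈ S, B c b * b i = B c c * c i + ∑ b ∈ S with b ≠ c, B c b * b i := by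
    rw [← Finset.sum_erase_add S _ hc, add_comm, Finset.filter_ne']
  unfold cc
  rw [h, hB]
  ring

theorem ctrm : CtrmStatement := by
  intro S B w K c m γ hC hc hB hK hm hγ
  have hw : 1 ≤ w c := hC.wpos c hc
  have hoff : ∀ b ∈ S.filter (fun b => b ≠ c), 0 ≤ B c b := by
    intro b hb
    rw [mem_filter] at hb
    exact hC.off c hc b hb.1 (Ne.symm hb.2)
  have hm0 : 0 ≤ m := by
    have h1 : 0 ≤ m * w c := by rw [← hm]; exact Finset.sum_nonneg hoff
    by_contra hcon
    push Not at hcon
    nlinarith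
  have hg : ∀ i, 0 ≤ γ i := by
    intro i
    have h1 : 0 ≤ γ i * w c := by rw [← hγ i]; exact hC.cpos c hc i
    by_contra hcon
    push Not at hcon
    nlinarith
  have hg0 := hg 0
  have hg1 := hg 1
  have hg2 := hg 2
  have hR : ∀ i, w c * c i = ∑ b ∈ S with b ≠ c, B c b * b i + γ i * w c := by
    intro i
    rw [rel_at hc hB i, hγ i]
  have h01 : 0 ≤ γ 0 * γ 1 := mul_nonneg hg0 hg1
  have h02 : 0 ≤ γ 0 * γ 2 := mul_nonneg hg0 hg2
  have h12 : 0 ≤ γ 1 * γ 2 := mul_nonneg hg1 hg2
  -- the case `m = 0`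
  have hzero : m = 0 → 4 ≤ (3 * m - 5) * (m - 2) + 2 * (γ 0 + γ 1 + γ 2) * (m - 2) +
        2 * (γ 0 * γ 1 + γ 0 * γ 2 + γ 1 * γ 2) := by
    intro h0
    subst h0
    have hz : ∀ b ∈ S.filter (fun b => b ≠ c), B c b = 0 := by
      have h1 : ∑ b ∈ S with b ≠ c, B c b = 0 := by rw [hm]; ring
      exact (Finset.sum_eq_zero_iff_of_nonneg hoff).1 h1
    have hci : ∀ i, γ i = c i := by
      intro i
      have h1 : ∑ b ∈ S with b ≠ c, B c b * b i = 0 := by
        apply Finset.sum_eq_zero
        intro b hb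
        rw [hz b hb, zero_mul]
      have h2 := hR i
      rw [h1, zero_add] at h2
      have h3 : w c * (c i - γ i) = 0 := by rw [mul_sub, h2]; ring
      rcases mul_eq_zero.1 h3 with h4 | h4
      · omega
      · omega
    have k0 : 1 ≤ γ 0 := by rw [hci]; exact hC.pos c hc 0
    have k1 : 1 ≤ γ 1 := by rw [hci]; exact hC.pos c hc 1
    have k2 : 1 ≤ γ 2 := by rw [hci]; exact hC.pos c hc 2
    nlinarith [mul_nonneg (sub_nonneg.2 k0) (sub_nonneg.2 k1),
      mul_nonneg (sub_nonneg.2 k0) (sub_nonneg.2 k2), mul_nonneg (sub_nonneg.2 k1)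
      (sub_nonneg.2 k2)]
  refine ⟨?_, hzero⟩
  rcases lt_trichotomy m 1 with hm1 | hm1 | hm1
  · have : m = 0 := by omega
    have := hzero this
    linarith
  · subst hm1
    -- the unique neighbour
    obtain ⟨b, hb, hb0⟩ : ∃ b ∈ S.filter (fun b => b ≠ c), B c b ≠ 0 := by
      by_contra hcon
      push Not at hcon
      have h1 : ∑ b ∈ S with b ≠ c, B c b = 0 := Finset.sum_eq_zero hcon
      rw [hm] at h1
      omega
    have hbS : b ∈ S := (mem_filter.1 hb).1
    have hbc : b ≠ c := (mem_filter.1 hb).2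
    have hbpos : 0 < B c b := lt_of_le_of_ne (hoff b hb) (Ne.symm hb0)
    have hbw : w c ≤ B c b := Int.le_of_dvd hbpos (hC.dvd c hc b hbS)
    have hsplit : B c b + ∑ d ∈ (S.filter (fun b => b ≠ c)).erase b, B c d = w c := by
      rw [add_comm, Finset.sum_erase_add _ _ hb, hm]; ring
    have hrest0 : 0 ≤ ∑ d ∈ (S.filter (fun b => b ≠ c)).erase b, B c d :=
      Finset.sum_nonneg (fun d hd => hoff d (Finset.mem_of_mem_erase hd))
    have hBb : B c b = w c := by omega
    have hrest : ∑ d ∈ (S.filter (fun b => b ≠ c)).erase b, B c d = 0 := by omega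
    have hz : ∀ d ∈ (S.filter (fun b => b ≠ c)).erase b, B c d = 0 :=
      (Finset.sum_eq_zero_iff_of_nonneg
        (fun d hd => hoff d (Finset.mem_of_mem_erase hd))).1 hrest
    have hci : ∀ i, c i = b i + γ i := by
      intro i
      have h1 : ∑ d ∈ S with d ≠ c, B c d * d i = w c * b i := by
        rw [← Finset.sum_erase_add _ _ hb, hBb, Finset.sum_eq_zero, zero_add]
        intro d hd
        rw [hz d hd, zero_mul]
      have h2 := hR i
      rw [h1] at h2
      have h3 : w c * (c i - b i - γ i) = 0 := by linear_combination h2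
      rcases mul_eq_zero.1 h3 with h4 | h4
      · omega
      · omega
    rcases hC.loc c hc with hD | hD
    · -- at least two of the `γ` are positive
      have key : ∀ j : Fin 3, ¬ (∀ i, i ≠ j → γ i = 0) := by
        intro j hj
        have hf0 : dot (cross b (ev j)) b = 0 := by
          simp [dot, cross]; ring
        have hfj : (cross b (ev j)) j = 0 := by
          fin_cases j <;> simp [cross, ev]
        have hf : dot (cross b (ev j)) c = 0 := by
          have h1 : dot (cross b (ev j)) c = dot (cross b (ev j)) b +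
              ∑ i, (cross b (ev j)) i * γ i := by
            rw [Fin.sum_univ_three]
            unfold dot
            rw [hci 0, hci 1, hci 2]
            ring
          rw [h1, hf0, zero_add]
          apply Finset.sum_eq_zero
          intro i _
          by_cases hij : i = j
          · rw [hij, hfj, zero_mul]
          · rw [hj i hij, mul_zero]
        have h2 := hD (cross b (ev j)) hf (by
          intro d hd hdc hd0
          by_cases hdb : d = b
          · rw [hdb]; exact hf0
          · exfalso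
            apply hd0
            apply hz
            rw [Finset.mem_erase, mem_filter]
            exact ⟨hdb, hd, hdc⟩) (by
          intro i hi
          by_cases hij : i = j
          · rw [hij, hfj]
          · exfalso
            apply hi
            rw [hγ i, hj i hij, zero_mul])
        have hb0 := hC.pos b hbS 0
        have hb1 := hC.pos b hbS 1
        have hb2 := hC.pos b hbS 2
        have e0 := congrFun h2 0
        have e1 := congrFun h2 1
        have e2 := congrFun h2 2
        fin_cases j <;> simp [cross, ev] at e0 e1 e2 <;> omega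
      have q0 := key 0
      have q1 := key 1
      have q2 := key 2
      have r0 : ¬ (γ 1 = 0 ∧ γ 2 = 0) := by
        intro h
        apply q0
        intro i hi
        fin_cases i
        · exact absurd rfl hi
        · exact h.1
        · exact h.2
      have r1 : ¬ (γ 0 = 0 ∧ γ 2 = 0) := by
        intro h
        apply q1
        intro i hi
        fin_cases i
        · exact h.1
        · exact absurd rfl hi
        · exact h.2
      have r2 : ¬ (γ 0 = 0 ∧ γ 1 = 0) := by
        intro h
        apply q2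
        intro i hi
        fin_cases i
        · exact h.1
        · exact h.2
        · exact absurd rfl hi
      have main : 0 ≤ 1 - (γ 0 + γ 1 + γ 2) + (γ 0 * γ 1 + γ 0 * γ 2 + γ 1 * γ 2) := by
        rcases eq_or_lt_of_le hg0 with h0 | h0
        · have k1 : 1 ≤ γ 1 := by omega
          have k2 : 1 ≤ γ 2 := by omega
          rw [← h0]
          nlinarith [mul_nonneg (sub_nonneg.2 k1) (sub_nonneg.2 k2)]
        · rcases eq_or_lt_of_le hg1 with h1 | h1
          · have k2 : 1 ≤ γ 2 := by omega
            rw [← h1]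
            have k0 : 1 ≤ γ 0 := by omega
            nlinarith [mul_nonneg (sub_nonneg.2 k0) (sub_nonneg.2 k2)]
          · have k0 : 1 ≤ γ 0 := by omega
            have k1 : 1 ≤ γ 1 := by omega
            have k3 : 0 ≤ γ 2 * (γ 0 + γ 1 - 1) := mul_nonneg hg2 (by omega)
            nlinarith [mul_nonneg (sub_nonneg.2 k0) (sub_nonneg.2 k1)]
      nlinarith
    · have h1 : ∑ i, cc S B c i = (γ 0 + γ 1 + γ 2) * w c := by
        rw [Fin.sum_univ_three, hγ 0, hγ 1, hγ 2]; ring
      rw [h1, hm] at hD
      have h2 : w c * (γ 0 + γ 1 + γ 2 - 1) = 0 := by linear_combination hD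
      rcases mul_eq_zero.1 h2 with h3 | h3
      · omega
      · have h4 : γ 0 + γ 1 + γ 2 = 1 := by omega
        rw [h4]
        nlinarith
  · have h2 : 0 ≤ m - 2 := by omega
    have h3 : 0 ≤ 3 * m - 5 := by omega
    have h4 : 0 ≤ (3 * m - 5) * (m - 2) := mul_nonneg h3 h2
    have h5 : 0 ≤ (γ 0 + γ 1 + γ 2) * (m - 2) := mul_nonneg (by omega) h2
    nlinarith

end Pool.Agent.DUR

end

/-! ### H90/Cct2 -/

section
/-! CCT2: contraction preserves the local alternative. -/

set_option autoImplicit false

namespace Pool.Agent.DUR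

open Finset

/-- Proportional primitive vectors with positive coordinates are equal. -/
theorem prim_prop {a c : V3} (ha : ∀ (n : ℤ) (b : V3), a = n • b → n = 1 ∨ n = -1)
    (hc : ∀ (n : ℤ) (b : V3), c = n • b → n = 1 ∨ n = -1) {k l : ℤ} (hk : 0 < k) (hl : 0 < l)
    (h : ∀ i, k * a i = l * c i) : a = c := by
  obtain ⟨k', l', hkg, hlg, hcop⟩ : ∃ k' l' : ℤ, k = Int.gcd k l * k' ∧ l = Int.gcd k l * l' ∧
      IsCoprime k' l' := by
    have hg : 0 < Int.gcd k l := Int.gcd_pos_of_ne_zero_left l hk.ne'
    refine ⟨k / Int.gcd k l, l / Int.gcd k l, ?_, ?_, ?_⟩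
    · rw [Int.mul_ediv_cancel' (Int.gcd_dvd_left ..)]
    · rw [Int.mul_ediv_cancel' (Int.gcd_dvd_right ..)]
    · rw [Int.isCoprime_iff_gcd_eq_one]
      exact Int.gcd_ediv_gcd_ediv_gcd hg
  have hg : (0 : ℤ) < Int.gcd k l := by
    exact_mod_cast Int.gcd_pos_of_ne_zero_left l hk.ne'
  generalize (Int.gcd k l : ℤ) = g at *
  have h1 : ∀ i, k' * a i = l' * c i := by
    intro i
    have h2 := h i
    rw [hkg, hlg] at h2
    have h3 : g * (k' * a i - l' * c i) = 0 := by linear_combination h2
    rcases mul_eq_zero.1 h3 with h4 | h4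
    · omega
    · omega
  have hk' : 0 < k' := by
    by_contra hcon
    push Not at hcon
    nlinarith
  have hl' : 0 < l' := by
    by_contra hcon
    push Not at hcon
    nlinarith
  have hla : ∀ i, l' ∣ a i := by
    intro i
    exact hcop.symm.dvd_of_dvd_mul_left ⟨c i, h1 i⟩
  have hkc : ∀ i, k' ∣ c i := by
    intro i
    exact hcop.dvd_of_dvd_mul_left ⟨a i, (h1 i).symm⟩
  have hl1 : l' = 1 := by
    rcases ha l' (fun i => a i / l') (by
      funext i
      simp only [Pi.smul_apply, smul_eq_mul]
      exact (Int.mul_ediv_cancel' (hla i)).symm) with h5 | h5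
    · exact h5
    · omega
  have hk1 : k' = 1 := by
    rcases hc k' (fun i => c i / k') (by
      funext i
      simp only [Pi.smul_apply, smul_eq_mul]
      exact (Int.mul_ediv_cancel' (hkc i)).symm) with h5 | h5
    · exact h5
    · omega
  funext i
  have := h1 i
  rw [hl1, hk1] at this
  linarith

theorem cct2 (h1 : Cct1Statement) : Cct2Statement := by
  intro S B w K c hC hc hB hK a ha
  obtain ⟨_, _, _, _, hcc, _, _⟩ := h1 S B w K c hC hc hB hK
  have haS : a ∈ S := Finset.mem_of_mem_erase ha
  have hac : a ≠ c := Finset.ne_of_mem_erase ha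
  have hw : 1 ≤ w c := hC.wpos c hc
  have hwa : 1 ≤ w a := hC.wpos a haS
  -- the quotients
  obtain ⟨q, hq⟩ : ∃ q : V3 → ℤ, ∀ b ∈ S, B c b = w c * q b := by
    refine ⟨fun b => B c b / w c, fun b hb => ?_⟩
    exact (Int.mul_ediv_cancel' (hC.dvd c hc b hb)).symm
  have hccd : ∀ i, w c ∣ cc S B c i := by
    intro i
    unfold cc
    rw [dvd_neg]
    exact Finset.dvd_sum (fun b hb => Dvd.dvd.mul_right (hC.dvd c hc b hb) _)
  obtain ⟨γ, hγ⟩ : ∃ γ : Fin 3 → ℤ, ∀ i, cc S B c i = w c * γ i :=
    ⟨fun i => cc S B c i / w c, fun i => (Int.mul_ediv_cancel' (hccd i)).symm⟩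
  have hq0 : ∀ b ∈ S, b ≠ c → 0 ≤ q b := by
    intro b hb hbc
    have h2 := hC.off c hc b hb (Ne.symm hbc)
    rw [hq b hb] at h2
    by_contra hcon
    push Not at hcon
    nlinarith
  have hγ0 : ∀ i, 0 ≤ γ i := by
    intro i
    have h2 := hC.cpos c hc i
    rw [hγ i] at h2
    by_contra hcon
    push Not at hcon
    nlinarith
  have hBct : ∀ b ∈ S, Bct B w c a b = B a b + B a c * q b := by
    intro b hb
    unfold Bct
    rw [hq b hb]
    congr 1
    rw [show B a c * (w c * q b) = w c * (B a c * q b) by ring]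
    exact Int.mul_ediv_cancel_left _ (by omega)
  have hcc' : ∀ i, cc (S.erase c) (Bct B w c) a i = cc S B a i + B a c * γ i := by
    intro i
    have h2 := hcc a ha i
    rw [hγ i] at h2
    have h3 : w c * (cc (S.erase c) (Bct B w c) a i - (cc S B a i + B a c * γ i)) = 0 := by
      linear_combination h2
    rcases mul_eq_zero.1 h3 with h4 | h4
    · omega
    · omega
  -- relation at `c`
  have hR : ∀ i, c i = ∑ b ∈ S with b ≠ c, q b * b i + γ i := by
    intro i
    have h2 := rel_at hc hB i
    have h3 : ∑ b ∈ S with b ≠ c, B c b * b i = w c * ∑ b ∈ S with b ≠ c, q b * b i := by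
      rw [Finset.mul_sum]
      apply Finset.sum_congr rfl
      intro b hb
      rw [hq b (mem_filter.1 hb).1]
      ring
    rw [h3, hγ i] at h2
    have h4 : w c * (c i - (∑ b ∈ S with b ≠ c, q b * b i + γ i)) = 0 := by
      linear_combination h2
    rcases mul_eq_zero.1 h4 with h5 | h5
    · omega
    · omega
  have hβ0 : 0 ≤ B a c := hC.off a haS c hc hac
  have haf : a ∈ S.filter (fun b => b ≠ c) := by rw [mem_filter]; exact ⟨haS, hac⟩
  have hcf : c ∈ S.filter (fun b => b ≠ a) := by rw [mem_filter]; exact ⟨hc, Ne.symm hac⟩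
  have hset : (S.erase c).filter (fun b => b ≠ a) = (S.filter (fun b => b ≠ a)).erase c := by
    ext b
    simp only [mem_filter, Finset.mem_erase]
    tauto
  have hsumB : ∑ b ∈ S with b ≠ a, B a b =
      ∑ b ∈ S.erase c with b ≠ a, B a b + B a c := by
    rw [hset, Finset.sum_erase_add _ _ hcf]
  rcases eq_or_lt_of_le hβ0 with hβ | hβ
  · -- nothing changes at `a`
    have hBct' : ∀ b ∈ S, Bct B w c a b = B a b := by
      intro b hb
      rw [hBct b hb, ← hβ]; ring
    have hcc'' : ∀ i, cc (S.erase c) (Bct B w c) a i = cc S B a i := by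
      intro i
      rw [hcc' i, ← hβ]; ring
    rcases hC.loc a haS with hD | hD
    · left
      intro f hf hfb hfi
      apply hD f hf
      · intro b hb hba hBab
        have hbc : b ≠ c := by
          intro h2
          rw [h2] at hBab
          exact hBab hβ.symm
        apply hfb b (Finset.mem_erase.2 ⟨hbc, hb⟩) hba
        rw [hBct' b hb]
        exact hBab
      · intro i hi
        apply hfi i
        rw [hcc'' i]
        exact hi
    · right
      rw [hsumB, ← hβ, add_zero] at hD
      rw [← hD]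
      congr 1
      · apply Finset.sum_congr rfl
        intro b hb
        exact hBct' b (Finset.mem_of_mem_erase (mem_filter.1 hb).1)
      · apply Finset.sum_congr rfl
        intro i _
        exact hcc'' i
  · -- `B a c > 0`
    have hBctpos : ∀ b ∈ S, b ≠ a → b ≠ c → (B a b ≠ 0 ∨ q b ≠ 0) → Bct B w c a b ≠ 0 := by
      intro b hb hba hbc h2
      rw [hBct b hb]
      have h3 := hC.off a haS b hb (Ne.symm hba)
      have h4 := hq0 b hb hbc
      rcases h2 with h2 | h2
      · have : 0 < B a b := lt_of_le_of_ne h3 (Ne.symm h2)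
        have := mul_nonneg hβ0 h4
        omega
      · have h5 : 0 < q b := lt_of_le_of_ne h4 (Ne.symm h2)
        have := mul_pos hβ h5
        omega
    have hccpos : ∀ i, (cc S B a i ≠ 0 ∨ γ i ≠ 0) → cc (S.erase c) (Bct B w c) a i ≠ 0 := by
      intro i h2
      rw [hcc' i]
      have h3 := hC.cpos a haS i
      have h4 := hγ0 i
      rcases h2 with h2 | h2
      · have : 0 < cc S B a i := lt_of_le_of_ne h3 (Ne.symm h2)
        have := mul_nonneg hβ0 h4
        omega
      · have h5 : 0 < γ i := lt_of_le_of_ne h4 (Ne.symm h2)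
        have := mul_pos hβ h5
        omega
    -- killing the new neighbourhood kills `c`
    have hkill : ∀ f : V3, dot f a = 0 →
        (∀ b ∈ S.erase c, b ≠ a → Bct B w c a b ≠ 0 → dot f b = 0) →
        (∀ i, cc (S.erase c) (Bct B w c) a i ≠ 0 → f i = 0) → dot f c = 0 := by
      intro f hf hfb hfi
      have h2 : dot f c = ∑ b ∈ S with b ≠ c, q b * dot f b +
          (f 0 * γ 0 + f 1 * γ 1 + f 2 * γ 2) := by
        unfold dot
        rw [hR 0, hR 1, hR 2]
        have : ∑ b ∈ S with b ≠ c, q b * (f 0 * b 0 + f 1 * b 1 + f 2 * b 2) =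
            f 0 * ∑ b ∈ S with b ≠ c, q b * b 0 + f 1 * ∑ b ∈ S with b ≠ c, q b * b 1 +
            f 2 * ∑ b ∈ S with b ≠ c, q b * b 2 := by
          rw [Finset.mul_sum, Finset.mul_sum, Finset.mul_sum, ← Finset.sum_add_distrib,
            ← Finset.sum_add_distrib]
          apply Finset.sum_congr rfl
          intro b _
          ring
        rw [this]
        ring
      have h3 : ∀ i, f i * γ i = 0 := by
        intro i
        by_cases h4 : γ i = 0
        · rw [h4, mul_zero]
        · rw [hfi i (hccpos i (Or.inr h4)), zero_mul]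
      rw [h2, h3 0, h3 1, h3 2]
      simp only [add_zero]
      apply Finset.sum_eq_zero
      intro b hb
      rw [mem_filter] at hb
      by_cases hba : b = a
      · rw [hba, hf, mul_zero]
      · by_cases h4 : q b = 0
        · rw [h4, zero_mul]
        · rw [hfb b (Finset.mem_erase.2 ⟨hb.2, hb.1⟩) hba (hBctpos b hb.1 hba hb.2 (Or.inr h4)),
            mul_zero]
    rcases hC.loc a haS with hD | hD
    · left
      intro f hf hfb hfi
      apply hD f hf
      · intro b hb hba hBab
        by_cases hbc : b = c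
        · rw [hbc]; exact hkill f hf hfb hfi
        · exact hfb b (Finset.mem_erase.2 ⟨hbc, hb⟩) hba (hBctpos b hb hba hbc (Or.inl hBab))
      · intro i hi
        exact hfi i (hccpos i (Or.inl hi))
    · rcases hC.loc c hc with hE | hE
      · left
        intro f hf hfb hfi
        apply hE f (hkill f hf hfb hfi)
        · intro b hb hbc hBcb
          by_cases hba : b = a
          · rw [hba]; exact hf
          · refine hfb b (Finset.mem_erase.2 ⟨hbc, hb⟩) hba (hBctpos b hb hba hbc (Or.inr ?_))
            intro h4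
            apply hBcb
            rw [hq b hb, h4, mul_zero]
        · intro i hi
          refine hfi i (hccpos i (Or.inr ?_))
          intro h4
          apply hi
          rw [hγ i, h4, mul_zero]
      · right
        -- both sums are `2 w`
        have hsq : ∑ b ∈ S with b ≠ c, q b + ∑ i, γ i = 2 := by
          have h2 : ∑ b ∈ S with b ≠ c, B c b = w c * ∑ b ∈ S with b ≠ c, q b := by
            rw [Finset.mul_sum]
            apply Finset.sum_congr rfl
            intro b hb
            exact hq b (mem_filter.1 hb).1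
          have h3 : ∑ i, cc S B c i = w c * ∑ i, γ i := by
            rw [Finset.mul_sum]
            exact Finset.sum_congr rfl (fun i _ => hγ i)
          rw [h2, h3] at hE
          have h4 : w c * (∑ b ∈ S with b ≠ c, q b + ∑ i, γ i - 2) = 0 := by
            linear_combination hE
          rcases mul_eq_zero.1 h4 with h5 | h5
          · omega
          · omega
        have hβq : B a c = w c * q a := by rw [hC.symm a c]; exact hq a haS
        have hqa : 0 < q a := by
          by_contra hcon
          push Not at hcon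
          rw [hβq] at hβ
          nlinarith
        have hqs : ∑ b ∈ S with b ≠ c, q b =
            ∑ b ∈ (S.filter (fun b => b ≠ c)).erase a, q b + q a := by
          rw [Finset.sum_erase_add _ _ haf]
        have hqr0 : ∀ b ∈ (S.filter (fun b => b ≠ c)).erase a, 0 ≤ q b := by
          intro b hb
          have h2 := mem_filter.1 (Finset.mem_of_mem_erase hb)
          exact hq0 b h2.1 h2.2
        have hqr : 0 ≤ ∑ b ∈ (S.filter (fun b => b ≠ c)).erase a, q b :=
          Finset.sum_nonneg hqr0
        have hγs : 0 ≤ ∑ i, γ i := Finset.sum_nonneg (fun i _ => hγ0 i)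
        have hRa : ∀ i, c i = ∑ b ∈ (S.filter (fun b => b ≠ c)).erase a, q b * b i +
            q a * a i + γ i := by
          intro i
          rw [hR i, Finset.sum_erase_add _ _ haf]
        -- `q a = 1`
        have hq1 : q a = 1 := by
          by_contra hne
          have h2 : q a = 2 := by omega
          have h3 : ∑ b ∈ (S.filter (fun b => b ≠ c)).erase a, q b = 0 := by omega
          have h4 : ∑ i, γ i = 0 := by omega
          have h5 := (Finset.sum_eq_zero_iff_of_nonneg hqr0).1 h3
          have h6 := (Finset.sum_eq_zero_iff_of_nonneg (fun i _ => hγ0 i)).1 h4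
          have h7 : c = (2 : ℤ) • a := by
            funext i
            rw [hRa i, Finset.sum_eq_zero, h6 i (Finset.mem_univ i), h2]
            · simp
            · intro b hb
              rw [h5 b hb, zero_mul]
          rcases hC.prim c hc 2 a h7 with h8 | h8 <;> omega
        have hβw : B a c = w c := by rw [hβq, hq1, mul_one]
        have hsa : 0 ≤ ∑ b ∈ S.erase c with b ≠ a, B a b := by
          apply Finset.sum_nonneg
          intro b hb
          rw [mem_filter] at hb
          exact hC.off a haS b (Finset.mem_of_mem_erase hb.1) (Ne.symm hb.2)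
        have hsc : 0 ≤ ∑ i, cc S B a i := Finset.sum_nonneg (fun i _ => hC.cpos a haS i)
        rw [hsumB] at hD
        have hle : B a c ≤ 2 * w a := by omega
        obtain ⟨k, hk⟩ := hC.dvd a haS c hc
        have hk1 : k = 1 := by
          have hkpos : 0 < k := by
            by_contra hcon
            push Not at hcon
            rw [hk] at hβ
            nlinarith
          have hk2 : k ≤ 2 := by
            by_contra hcon
            push Not at hcon
            rw [hk] at hle
            nlinarith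
          by_contra hne
          have h2 : k = 2 := by omega
          have h3 : B a c = 2 * w a := by rw [hk, h2]; ring
          have h4 : ∑ b ∈ S.erase c with b ≠ a, B a b = 0 := by omega
          have h5 : ∑ i, cc S B a i = 0 := by omega
          have h6 := (Finset.sum_eq_zero_iff_of_nonneg (by
            intro b hb
            rw [mem_filter] at hb
            exact hC.off a haS b (Finset.mem_of_mem_erase hb.1) (Ne.symm hb.2))).1 h4
          have h7 := (Finset.sum_eq_zero_iff_of_nonneg (fun i _ => hC.cpos a haS i)).1 h5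
          -- relation at `a`
          have h8 : ∀ i, -B a a * a i = B a c * c i := by
            intro i
            have h9 := h7 i (Finset.mem_univ i)
            unfold cc at h9
            have h10 : ∑ b ∈ S, B a b * b i = ∑ b ∈ (S.erase c).filter (fun b => b ≠ a),
                B a b * b i + B a c * c i + B a a * a i := by
              rw [hset, Finset.sum_erase_add _ _ hcf, Finset.filter_ne',
                Finset.sum_erase_add _ _ haS]
            rw [h10, Finset.sum_eq_zero (fun b hb => by rw [h6 b hb, zero_mul])] at h9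
            linarith
          have hneg : 0 < -B a a := by
            have h9 := h8 0
            have h10 := hC.pos a haS 0
            have h11 := hC.pos c hc 0
            have h12 : 0 < B a c * c 0 := mul_pos hβ (by omega)
            by_contra hcon
            push Not at hcon
            nlinarith
          exact hac (prim_prop (hC.prim a haS) (hC.prim c hc) hneg hβ h8)
        have hwac : w a = w c := by rw [← hβw, hk, hk1, mul_one]
        -- the final sum
        have hset2 : (S.erase c).filter (fun b => b ≠ a) =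
            (S.filter (fun b => b ≠ c)).erase a := by
          ext b
          simp only [mem_filter, Finset.mem_erase]
          tauto
        have hfin : ∑ b ∈ S.erase c with b ≠ a, Bct B w c a b =
            ∑ b ∈ S.erase c with b ≠ a, B a b +
              w c * ∑ b ∈ (S.filter (fun b => b ≠ c)).erase a, q b := by
          rw [← hset2, Finset.mul_sum, ← Finset.sum_add_distrib]
          apply Finset.sum_congr rfl
          intro b hb
          rw [hBct b (Finset.mem_of_mem_erase (mem_filter.1 hb).1), hβw]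
        have hfin2 : ∑ i, cc (S.erase c) (Bct B w c) a i = ∑ i, cc S B a i +
            w c * ∑ i, γ i := by
          rw [Finset.mul_sum, ← Finset.sum_add_distrib]
          apply Finset.sum_congr rfl
          intro i _
          rw [hcc' i, hβw]
        rw [hfin, hfin2]
        rw [hqs, hq1] at hsq
        have h13 : w c * ∑ b ∈ (S.filter (fun b => b ≠ c)).erase a, q b + w c * ∑ i, γ i =
            w c := by
          have h14 : ∑ b ∈ (S.filter (fun b => b ≠ c)).erase a, q b + ∑ i, γ i = 1 := by omega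
          rw [← mul_add, h14, mul_one]
        rw [hβw] at hD
        linarith

end Pool.Agent.DUR

end

/-! ### H95/Cntx -/

section
/-! # CNTX: the count as a sum over the cones (helper95) -/

set_option autoImplicit false

namespace Pool.Agent.DUR

open Finset

namespace H95

theorem adm_zero {T : Finset Tri} {l : V3 → ℤ} {v : Tri → V3} (h : Adm T l v) :
    Adm T (fun _ => 0) (fun _ => 0) where
  good := h.good
  eq := fun t _ r _ => by simp [dot]
  le := fun t _ r _ => by simp [dot]
  bd := fun _ _ _ => rfl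

theorem cross_ne {a b c : V3} (h : det3 a b c = 1) : cross a b ≠ 0 := by
  intro h0
  rw [det3, h0] at h
  simp [dot] at h

theorem det3_rot (a b c : V3) : det3 b c a = det3 a b c := by
  simp only [det3, dot, cross, Matrix.cons_val_zero, Matrix.cons_val_one, Matrix.cons_val]
  ring

theorem W_ne {T : Finset Tri} (hG : Good T) {t : Tri} (ht : t ∈ T) {x : E3} (hx : Gen x) :
    W t.2.1 t.2.2 x ≠ 0 ∧ W t.2.2 t.1 x ≠ 0 ∧ W t.1 t.2.1 x ≠ 0 := by
  obtain ⟨a, b, c⟩ := t
  have h1 := hG.det1 a b c ht
  have h2 : det3 b c a = 1 := by rw [det3_rot]; exact h1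
  have h3 : det3 c a b = 1 := by rw [det3_rot, det3_rot]; exact h1
  exact ⟨hx _ (cross_ne h2), hx _ (cross_ne h3), hx _ (cross_ne h1)⟩

theorem dot_ev (m : V3) (i : Fin 3) : dot m (ev i) = m i := by
  fin_cases i <;> simp [dot, ev]

theorem ev_mem {T : Finset Tri} (hG : Good T) (i : Fin 3) : ev i ∈ rays T := by
  obtain ⟨b, c, h⟩ := hG.base i
  exact Finset.mem_image.2 ⟨_, h, rfl⟩

theorem ray_nn {T : Finset Tri} (hG : Good T) {r : V3} (hr : r ∈ rays T) :
    (∀ i, 0 ≤ r i) ∧ ∃ i, 0 < r i := by
  obtain ⟨⟨a, b, c⟩, h, rfl⟩ := Finset.mem_image.1 hr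
  refine ⟨hG.nn a b c h, ?_⟩
  by_contra hc
  push Not at hc
  have h0 : a = 0 := by
    funext i
    exact le_antisymm (hc i) (hG.nn a b c h i)
  have h1 := hG.det1 a b c h
  rw [h0] at h1
  simp [det3, dot, cross] at h1

theorem dot_pos {m r : V3} (hm : ∀ i, 0 < m i) (h0 : ∀ i, 0 ≤ r i) (h1 : ∃ i, 0 < r i) :
    0 < dot m r := by
  have e0 := mul_nonneg (hm 0).le (h0 0)
  have e1 := mul_nonneg (hm 1).le (h0 1)
  have e2 := mul_nonneg (hm 2).le (h0 2)
  obtain ⟨i, hi⟩ := h1
  have := mul_pos (hm i) hi
  unfold dot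
  fin_cases i <;> simp at this <;> linarith

theorem good0_iff {T : Finset Tri} (hG : Good T) (m : V3) :
    (∀ r ∈ rays T, (0 : ℤ) < dot m r) ↔ ∀ i, 0 < m i := by
  constructor
  · intro h i
    have := h _ (ev_mem hG i)
    rwa [dot_ev] at this
  · intro h r hr
    obtain ⟨h0, h1⟩ := ray_nn hG hr
    exact dot_pos h h0 h1

theorem goodl_imp {T : Finset Tri} {l : V3 → ℤ} {v : Tri → V3} (hA : Adm T l v) (m : V3)
    (h : ∀ r ∈ rays T, l r < dot m r) : ∀ i, 0 < m i := by
  intro i
  have h1 := h _ (ev_mem hA.good i)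
  rw [dot_ev, hA.bd _ (ev_mem hA.good i)] at h1
  · exact h1
  · fin_cases i
    · exact ⟨1, by simp [ev]⟩
    · exact ⟨0, by simp [ev]⟩
    · exact ⟨0, by simp [ev]⟩

theorem BB_finite {T : Finset Tri} {l : V3 → ℤ} {v : Tri → V3} (hA : Adm T l v) :
    (BB T l).Finite := by
  refine (Set.finite_Icc (0 : V3) (fun _ => ∑ r ∈ rays T, |l r|)).subset ?_
  rintro m ⟨hm, r, hr, hb⟩
  refine ⟨fun i => (hm i).le, fun i => ?_⟩
  obtain ⟨h0, h1⟩ := ray_nn hA.good hr
  have hpos := dot_pos hm h0 h1
  have hall : ∀ j, 1 ≤ r j := by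
    intro j
    by_contra hc
    have : r j = 0 := le_antisymm (by omega) (h0 j)
    have := hA.bd r hr ⟨j, this⟩
    omega
  have e1 : m i ≤ dot m r := by
    have a0 : m 0 ≤ m 0 * r 0 := le_mul_of_one_le_right (hm 0).le (hall 0)
    have a1 : m 1 ≤ m 1 * r 1 := le_mul_of_one_le_right (hm 1).le (hall 1)
    have a2 : m 2 ≤ m 2 * r 2 := le_mul_of_one_le_right (hm 2).le (hall 2)
    have b0 := hm 0
    have b1 := hm 1
    have b2 := hm 2
    unfold dot
    fin_cases i
    · show m 0 ≤ _
      linarith
    · show m 1 ≤ _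
      linarith
    · show m 2 ≤ _
      linarith
  have e2 : |l r| ≤ ∑ r ∈ rays T, |l r| :=
    Finset.single_le_sum (f := fun r => |l r|) (fun _ _ => abs_nonneg _) hr
  have e3 := le_abs_self (l r)
  show m i ≤ ∑ r ∈ rays T, |l r|
  linarith

open Classical in
theorem series {T : Finset Tri} {l : V3 → ℤ} {v : Tri → V3} (h1 : SerbStatement)
    (h3 : LvsmStatement) (hA : Adm T l v) {x : E3} (hx : Gen x) (hp : Pos x) {s : ℝ} (hs : 0 < s) :
    HasSum (fun m : V3 => Real.exp (-(s * rd m x)) *
        (if ∀ r ∈ rays T, l r < dot m r then (3 : ℝ) else 0))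
      (∑ t ∈ T, Real.exp (-(s * gg l x t)) / ((Real.exp (s * W t.2.1 t.2.2 x) - 1) *
        (Real.exp (s * W t.2.2 t.1 x) - 1) * (Real.exp (s * W t.1 t.2.1 x) - 1))) := by
  have h := hasSum_sum (s := T) (f := fun (t : Tri) (m : V3) =>
      Real.exp (-(s * rd m x)) * lvt l x m t) (fun t ht => h1 l x t s
        (hA.good.det1 t.1 t.2.1 t.2.2 ht) hx hs)
  convert h using 2 with m
  rw [← Finset.mul_sum, h3 T l v hA x hx hp m]

end H95

theorem cntx (h1 : SerbStatement) (h2 : ExpdStatement) (h3 : LvsmStatement) : CntxStatement := by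
  classical
  intro T l v hA x hx hp
  have hfin := H95.BB_finite hA
  refine ⟨hfin, ?_⟩
  have key : ∀ s : ℝ, 0 < s → ∑ m ∈ hfin.toFinset, Real.exp (-(s * rd m x)) * 3 =
      ∑ t ∈ T, (1 - Real.exp (-(s * gg l x t))) / ((Real.exp (s * W t.2.1 t.2.2 x) - 1) *
        (Real.exp (s * W t.2.2 t.1 x) - 1) * (Real.exp (s * W t.1 t.2.1 x) - 1)) := by
    intro s hs
    have a1 := H95.series h1 h3 hA hx hp hs
    have a0 := H95.series h1 h3 (H95.adm_zero hA) hx hp hs
    have a2 := a0.sub a1
    have a3 : HasSum (fun m : V3 => if m ∈ hfin.toFinset then Real.exp (-(s * rd m x)) * 3 else 0)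
        (∑ m ∈ hfin.toFinset, Real.exp (-(s * rd m x)) * 3) := by
      have b1 : ∑ m ∈ hfin.toFinset, Real.exp (-(s * rd m x)) * 3 = ∑ m ∈ hfin.toFinset,
          (fun m : V3 => if m ∈ hfin.toFinset then Real.exp (-(s * rd m x)) * 3 else 0) m :=
        Finset.sum_congr rfl fun m hm => (if_pos hm).symm
      rw [b1]
      exact hasSum_sum_of_ne_finset_zero (fun m hm => if_neg hm)
    have a4 : (fun m : V3 => Real.exp (-(s * rd m x)) *
          (if ∀ r ∈ rays T, (0 : ℤ) < dot m r then (3 : ℝ) else 0) -
        Real.exp (-(s * rd m x)) * (if ∀ r ∈ rays T, l r < dot m r then (3 : ℝ) else 0)) =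
        fun m : V3 => if m ∈ hfin.toFinset then Real.exp (-(s * rd m x)) * 3 else 0 := by
      funext m
      by_cases g1 : ∀ r ∈ rays T, l r < dot m r
      · have g0 := (H95.good0_iff hA.good m).2 (H95.goodl_imp hA m g1)
        have g2 : m ∉ hfin.toFinset := by
          rw [Set.Finite.mem_toFinset]
          rintro ⟨_, r, hr, hb⟩
          have := g1 r hr
          omega
        rw [if_pos g1, if_pos g0, if_neg g2, sub_self]
      · by_cases g0 : ∀ r ∈ rays T, (0 : ℤ) < dot m r
        · have g2 : m ∈ hfin.toFinset := by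
            rw [Set.Finite.mem_toFinset]
            refine ⟨(H95.good0_iff hA.good m).1 g0, ?_⟩
            push Not at g1
            exact g1
          rw [if_neg g1, if_pos g0, if_pos g2, mul_zero, sub_zero]
        · have g2 : m ∉ hfin.toFinset := by
            rw [Set.Finite.mem_toFinset]
            rintro ⟨hm, _⟩
            exact g0 ((H95.good0_iff hA.good m).2 hm)
          rw [if_neg g1, if_neg g0, if_neg g2, mul_zero, sub_zero]
    rw [a4] at a2
    have a5 := a3.unique a2
    rw [a5, ← Finset.sum_sub_distrib]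
    refine Finset.sum_congr rfl fun t _ => ?_
    have : gg (fun _ => 0) x t = 0 := by simp [gg]
    rw [this, mul_zero, neg_zero, Real.exp_zero, ← sub_div]
  have hlim : Filter.Tendsto (fun s : ℝ => ∑ m ∈ hfin.toFinset, Real.exp (-(s * rd m x)) * 3)
      (nhdsWithin 0 (Set.Ioi 0)) (nhds (∑ m ∈ hfin.toFinset, Real.exp (-(0 * rd m x)) * 3)) := by
    refine Filter.Tendsto.mono_left ?_ nhdsWithin_le_nhds
    refine Continuous.tendsto (f := fun s : ℝ =>
      ∑ m ∈ hfin.toFinset, Real.exp (-(s * rd m x)) * 3) ?_ 0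
    fun_prop
  have hlim2 := hlim.congr' (f₂ := fun s : ℝ => ∑ t ∈ T, (1 - Real.exp (-(s * gg l x t))) /
      ((Real.exp (s * W t.2.1 t.2.2 x) - 1) *
        (Real.exp (s * W t.2.2 t.1 x) - 1) * (Real.exp (s * W t.1 t.2.1 x) - 1)))
      (eventually_nhdsWithin_of_forall fun s hs => key s hs)
  have hfinal := h2 T (gg l x) (fun t => W t.2.1 t.2.2 x) (fun t => W t.2.2 t.1 x)
    (fun t => W t.1 t.2.1 x) _ (fun t ht => H95.W_ne hA.good ht hx) hlim2
  rw [← hfinal, Set.ncard_eq_toFinset_card _ hfin]
  simp [mul_comm]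

end Pool.Agent.DUR

end

/-! ### H95/Str1 -/

section
/-! # STR1: the invariant n1 is preserved by star subdivisions (helper95) -/

set_option autoImplicit false

namespace Pool.Agent.DUR

open Finset

namespace H95s

theorem det3_rot (a b c : V3) : det3 b c a = det3 a b c := by
  simp only [det3, dot, cross, Matrix.cons_val_zero, Matrix.cons_val_one, Matrix.cons_val]
  ring

theorem W_add_right (a b c : V3) (x : E3) : W a (b + c) x = W a b x + W a c x := by
  simp only [W, rd, cross, Matrix.cons_val_zero, Matrix.cons_val_one, Matrix.cons_val,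
    Pi.add_apply]
  push_cast
  ring

theorem W_add_left (a b c : V3) (x : E3) : W (a + b) c x = W a c x + W b c x := by
  simp only [W, rd, cross, Matrix.cons_val_zero, Matrix.cons_val_one, Matrix.cons_val,
    Pi.add_apply]
  push_cast
  ring

theorem W_self (a : V3) (x : E3) : W a a x = 0 := by
  simp only [W, rd, cross, Matrix.cons_val_zero, Matrix.cons_val_one, Matrix.cons_val]
  push_cast
  ring

theorem W_swap (a b : V3) (x : E3) : W b a x = -W a b x := by
  simp only [W, rd, cross, Matrix.cons_val_zero, Matrix.cons_val_one, Matrix.cons_val]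
  push_cast
  ring

theorem W_ne {a b c : V3} (h : det3 a b c = 1) {x : E3} (hx : Gen x) : W a b x ≠ 0 := by
  refine hx _ ?_
  intro h0
  rw [det3, h0] at h
  simp [dot] at h

theorem pp_of_pos {x : ℝ} (h : 0 < x) : pp x = 1 := if_pos h
theorem pp_of_neg {x : ℝ} (h : x < 0) : pp x = 0 := if_neg h.not_gt

theorem pp_add_neg {x : ℝ} (h : x ≠ 0) : pp x + pp (-x) = 1 := by
  rcases lt_or_gt_of_ne h with h | h
  · rw [pp_of_neg h, pp_of_pos (by linarith)]; norm_num
  · rw [pp_of_pos h, pp_of_neg (by linarith)]; norm_num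

/-- the splitting identity -/
theorem pp_split {u v : ℝ} (hu : u ≠ 0) (hv : v ≠ 0) (huv : u - v ≠ 0) :
    pp (u - v) * pp v + pp u * pp (v - u) = pp u * pp v := by
  rcases lt_or_gt_of_ne hu with h | h <;> rcases lt_or_gt_of_ne hv with h' | h' <;>
  rcases lt_or_gt_of_ne huv with h'' | h''
  all_goals first
    | (exfalso; linarith)
    | (simp only [pp]; split_ifs <;> first | (exfalso; linarith) | norm_num)

/-- the contribution of the new ray on one side of the edge -/
noncomputable def hh (a b : V3) (x : E3) (t : Tri) : ℝ :=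
  (if t.1 = a ∧ t.2.1 = b then pp (W a b x) * pp (W t.2.2 (a + b) x) else 0) +
    (if t.1 = b ∧ t.2.2 = a then pp (W (a + b) t.2.1 x) * pp (W a b x) else 0)

theorem ne_of_det {a b c : V3} (h : det3 a b c = 1) : a ≠ b := by
  rintro rfl
  have : det3 a a c = 0 := by
    simp only [det3, dot, cross, Matrix.cons_val_zero, Matrix.cons_val_one, Matrix.cons_val]
    ring
  omega

theorem ne_zero_of_det {a b c : V3} (h : det3 a b c = 1) : a ≠ 0 := by
  rintro rfl
  simp [det3, dot, cross] at h

theorem det_shift {a b z : V3} (h : det3 a b z = 1) : det3 z (a + b) b = 1 := by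
  rw [← h]
  simp only [det3, dot, cross, Matrix.cons_val_zero, Matrix.cons_val_one, Matrix.cons_val,
    Pi.add_apply]
  ring

theorem side {T : Finset Tri} (hG : Good T) {a b z : V3} (h : (a, b, z) ∈ T) {x : E3}
    (hx : Gen x) : ∑ t ∈ T, hh a b x t = pp (W a b x) := by
  have hdet := hG.det1 a b z h
  have hab := ne_of_det hdet
  unfold hh
  rw [Finset.sum_add_distrib]
  rw [Finset.sum_eq_single_of_mem (a, b, z) h]
  · rw [Finset.sum_eq_single_of_mem (b, z, a) (hG.rot _ _ _ h)]
    · simp only [and_self, if_true]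
      rw [W_swap z (a + b) x, mul_comm (pp (-W z (a + b) x)) _, ← mul_add,
        pp_add_neg (W_ne (det_shift hdet) hx), mul_one]
    · rintro ⟨p, q, w⟩ ht hne
      rw [if_neg]
      rintro ⟨h1, h2⟩
      simp only at h1 h2
      subst h1 h2
      have := hG.uniq _ _ _ _ h (hG.rot _ _ _ (hG.rot _ _ _ ht))
      exact hne (by rw [this])
  · rintro ⟨p, q, w⟩ ht hne
    rw [if_neg]
    rintro ⟨h1, h2⟩
    simp only at h1 h2
    subst h1 h2
    have := hG.uniq _ _ _ _ h ht
    exact hne (by rw [this])

theorem noside {T : Finset Tri} (hG : Good T) {a b : V3} (h : ¬ ∃ z, (a, b, z) ∈ T) {x : E3} :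
    ∑ t ∈ T, hh a b x t = 0 := by
  refine Finset.sum_eq_zero ?_
  rintro ⟨p, q, w⟩ ht
  unfold hh
  rw [if_neg, if_neg, add_zero]
  · rintro ⟨h1, h2⟩
    simp only at h1 h2
    subst h1 h2
    exact h ⟨_, hG.rot _ _ _ (hG.rot _ _ _ ht)⟩
  · rintro ⟨h1, h2⟩
    simp only at h1 h2
    subst h1 h2
    exact h ⟨_, ht⟩

/-- the summand -/
noncomputable def ff (r : V3) (x : E3) (t : Tri) : ℝ :=
  if t.1 = r then pp (W t.1 t.2.1 x) * pp (W t.2.2 t.1 x) else 0

/-- the pointwise identity away from the new ray, positive orientation -/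
theorem ptw {a b z r : V3} {x : E3} (hx : Gen x) (hr : r ≠ a + b) (hdet : det3 a b z = 1)
    (t : Tri) (ht : t = (a, b, z) ∨ t = (b, z, a) ∨ t = (z, a, b)) :
    ff r x (rp a (a + b) t) + ff r x (rp b (a + b) t) = ff r x t := by
  have hdet2 : det3 b z a = 1 := by rw [det3_rot]; exact hdet
  have hdet3 : det3 z a b = 1 := by rw [det3_rot]; exact hdet2
  have hab := ne_of_det hdet
  have hbz := ne_of_det hdet2
  have hza := ne_of_det hdet3
  rcases ht with rfl | rfl | rfl
  · have e1 : rp a (a + b) (a, b, z) = (a + b, b, z) := by simp [rp, hab.symm, hza]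
    have e2 : rp b (a + b) (a, b, z) = (a, a + b, z) := by simp [rp, hab, hbz.symm]
    rw [e1, e2]
    simp only [ff, if_neg (Ne.symm hr), W_add_right, W_self, zero_add]
  · have e1 : rp a (a + b) (b, z, a) = (b, z, a + b) := by simp [rp, hab.symm, hza]
    have e2 : rp b (a + b) (b, z, a) = (a + b, z, a) := by simp [rp, hab, hbz.symm]
    rw [e1, e2]
    simp only [ff, if_neg (Ne.symm hr), W_add_left, W_self, add_zero]
  · have e1 : rp a (a + b) (z, a, b) = (z, a + b, b) := by simp [rp, hab.symm, hza]
    have e2 : rp b (a + b) (z, a, b) = (z, a, a + b) := by simp [rp, hab, hbz.symm]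
    rw [e1, e2]
    simp only [ff]
    split_ifs with hz
    · rw [W_add_right, W_add_left, W_swap b z x, W_swap z a x]
      have h1 := W_ne hdet3 hx
      have h2 := W_ne hdet2 hx
      have h3 := W_ne (det_shift hdet) hx
      rw [W_add_right, W_swap b z x] at h3
      have := pp_split h1 h2 h3
      rw [← this]
      congr 2
      ring_nf
    · simp

/-- the pointwise identity at the new ray, positive orientation -/
theorem ptn {a b z : V3} {x : E3} (hdet : det3 a b z = 1) (hz : z ≠ a + b)
    (t : Tri) (ht : t = (a, b, z) ∨ t = (b, z, a) ∨ t = (z, a, b)) :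
    ff (a + b) x (rp a (a + b) t) + ff (a + b) x (rp b (a + b) t) =
      hh a b x t + hh b a x t := by
  have hdet2 : det3 b z a = 1 := by rw [det3_rot]; exact hdet
  have hdet3 : det3 z a b = 1 := by rw [det3_rot]; exact hdet2
  have hab := ne_of_det hdet
  have hbz := ne_of_det hdet2
  have hza := ne_of_det hdet3
  have ha0 := ne_zero_of_det hdet
  have hb0 := ne_zero_of_det hdet2
  have ha1 : a ≠ a + b := fun h => hb0 (by simpa using h.symm)
  have hb1 : b ≠ a + b := fun h => ha0 (by simpa using h.symm)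
  rcases ht with rfl | rfl | rfl
  · have e1 : rp a (a + b) (a, b, z) = (a + b, b, z) := by simp [rp, hab.symm, hza]
    have e2 : rp b (a + b) (a, b, z) = (a, a + b, z) := by simp [rp, hab, hbz.symm]
    rw [e1, e2]
    simp only [ff, hh, if_neg ha1, hab, hab.symm, hza, hbz.symm, W_add_left a b b, W_self,
      add_zero, if_true, and_self, and_false, if_false]
  · have e1 : rp a (a + b) (b, z, a) = (b, z, a + b) := by simp [rp, hab.symm, hza]
    have e2 : rp b (a + b) (b, z, a) = (a + b, z, a) := by simp [rp, hab, hbz.symm]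
    rw [e1, e2]
    simp only [ff, hh, if_neg hb1, hab, hab.symm, hza, hbz.symm, W_add_right a a b, W_self,
      add_zero, zero_add, if_true, and_self, and_false, if_false]
  · have e1 : rp a (a + b) (z, a, b) = (z, a + b, b) := by simp [rp, hab.symm, hza]
    have e2 : rp b (a + b) (z, a, b) = (z, a, a + b) := by simp [rp, hab, hbz.symm]
    rw [e1, e2]
    simp only [ff, hh, if_neg hz, hab, hab.symm, hza, hbz.symm,
      add_zero, false_and, and_false, if_false]

/-- the six kinds of triangles -/
theorem kinds {T : Finset Tri} (hG : Good T) {a b : V3} (hab : a ≠ b) {t : Tri} (ht : t ∈ T)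
    (h1 : has a t) (h2 : has b t) :
    (∃ z, det3 a b z = 1 ∧ has z t ∧ (t = (a, b, z) ∨ t = (b, z, a) ∨ t = (z, a, b))) ∨
    (∃ z, det3 b a z = 1 ∧ has z t ∧ (t = (b, a, z) ∨ t = (a, z, b) ∨ t = (z, b, a))) := by
  obtain ⟨p, q, w⟩ := t
  have hdet := hG.det1 p q w ht
  have hdet2 : det3 q w p = 1 := by rw [det3_rot]; exact hdet
  have hdet3 : det3 w p q = 1 := by rw [det3_rot]; exact hdet2
  simp only [has] at h1 h2 ⊢
  rcases h1 with rfl | rfl | rfl <;> rcases h2 with rfl | rfl | rfl
  all_goals first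
    | exact absurd rfl hab
    | exact Or.inl ⟨_, hdet, by simp, by simp⟩
    | exact Or.inl ⟨_, hdet2, by simp, by simp⟩
    | exact Or.inl ⟨_, hdet3, by simp, by simp⟩
    | exact Or.inr ⟨_, hdet, by simp, by simp⟩
    | exact Or.inr ⟨_, hdet2, by simp, by simp⟩
    | exact Or.inr ⟨_, hdet3, by simp, by simp⟩

theorem bdW {a b c : V3} (hdet : det3 a b c = 1) (hc : ∀ i, 0 ≤ c i)
    (h : ∃ i, a i = 0 ∧ b i = 0) {x : E3} (hp : Pos x) : pp (W a b x) = 1 := by
  have key : ∃ i, W a b x = x i := by
    obtain ⟨i, ha, hb⟩ := h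
    refine ⟨i, ?_⟩
    fin_cases i
    · simp only [Fin.zero_eta, Fin.isValue] at ha hb ⊢
      have h1 : (a 1 * b 2 - a 2 * b 1) * c 0 = 1 := by
        have := hdet
        simp only [det3, dot, cross, Matrix.cons_val_zero, Matrix.cons_val_one, Matrix.cons_val,
          ha, hb] at this
        linarith
      have h2 : c 0 = 1 := by
        rcases Int.mul_eq_one_iff_eq_one_or_neg_one.1 h1 with ⟨_, h⟩ | ⟨_, h⟩
        · exact h
        · have := hc 0
          omega
      rw [h2, mul_one] at h1
      have h1' : ((a 1 : ℝ) * b 2 - a 2 * b 1) = 1 := by exact_mod_cast h1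
      simp only [W, rd, cross, Matrix.cons_val_zero, Matrix.cons_val_one, Matrix.cons_val,
          ha, hb]
      push_cast
      rw [h1']
      ring
    · simp only [Fin.mk_one, Fin.isValue] at ha hb ⊢
      have h1 : (a 2 * b 0 - a 0 * b 2) * c 1 = 1 := by
        have := hdet
        simp only [det3, dot, cross, Matrix.cons_val_zero, Matrix.cons_val_one, Matrix.cons_val,
          ha, hb] at this
        linarith
      have h2 : c 1 = 1 := by
        rcases Int.mul_eq_one_iff_eq_one_or_neg_one.1 h1 with ⟨_, h⟩ | ⟨_, h⟩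
        · exact h
        · have := hc 1
          omega
      rw [h2, mul_one] at h1
      have h1' : ((a 2 : ℝ) * b 0 - a 0 * b 2) = 1 := by exact_mod_cast h1
      simp only [W, rd, cross, Matrix.cons_val_zero, Matrix.cons_val_one, Matrix.cons_val,
          ha, hb]
      push_cast
      rw [h1']
      ring
    · simp only [Fin.reduceFinMk, Fin.isValue] at ha hb ⊢
      have h1 : (a 0 * b 1 - a 1 * b 0) * c 2 = 1 := by
        have := hdet
        simp only [det3, dot, cross, Matrix.cons_val_zero, Matrix.cons_val_one, Matrix.cons_val,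
          ha, hb] at this
        linarith
      have h2 : c 2 = 1 := by
        rcases Int.mul_eq_one_iff_eq_one_or_neg_one.1 h1 with ⟨_, h⟩ | ⟨_, h⟩
        · exact h
        · have := hc 2
          omega
      rw [h2, mul_one] at h1
      have h1' : ((a 0 : ℝ) * b 1 - a 1 * b 0) = 1 := by exact_mod_cast h1
      simp only [W, rd, cross, Matrix.cons_val_zero, Matrix.cons_val_one, Matrix.cons_val,
          ha, hb]
      push_cast
      rw [h1']
      ring
  obtain ⟨i, hi⟩ := key
  rw [hi]
  exact pp_of_pos (hp i)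

end H95s

theorem str1 (h : SsumStatement) : Str1Statement := by
  classical
  intro T a b c hG habc hfr r hr x hx hp
  have hdet := hG.det1 a b c habc
  have hab := H95s.ne_of_det hdet
  have hS := h T a b c habc hG.det1 hfr (H95s.ff r x)
  rw [Finset.sum_filter]
  have e0 : ∑ t ∈ star a b T, (if t.1 = r then pp (W t.1 t.2.1 x) * pp (W t.2.2 t.1 x) else 0) =
      ∑ t ∈ star a b T, H95s.ff r x t := rfl
  rw [e0, hS]
  by_cases hrc : r = a + b
  · subst hrc
    have e1 : ∀ t ∈ T, (if has a t ∧ has b t then H95s.ff (a + b) x (rp a (a + b) t) +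
        H95s.ff (a + b) x (rp b (a + b) t) else H95s.ff (a + b) x t) =
        H95s.hh a b x t + H95s.hh b a x t := by
      intro t ht
      split_ifs with hh
      · rcases H95s.kinds hG hab ht hh.1 hh.2 with ⟨z, hz, hzt, hk⟩ | ⟨z, hz, hzt, hk⟩
        · refine H95s.ptn hz ?_ t hk
          rintro rfl
          exact hfr t ht hzt
        · have := H95s.ptn (x := x) hz (by
            rintro rfl
            rw [add_comm] at hzt
            exact hfr t ht hzt) t hk
          rw [add_comm b a] at this
          rw [add_comm, this, add_comm]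
      · have h1 : H95s.ff (a + b) x t = 0 := if_neg fun h => hfr t ht (Or.inl h)
        rw [h1]
        have h2 : H95s.hh a b x t = 0 := by
          unfold H95s.hh
          rw [if_neg, if_neg, add_zero]
          · rintro ⟨h1, h2⟩
            exact hh ⟨Or.inr (Or.inr h2), Or.inl h1⟩
          · rintro ⟨h1, h2⟩
            exact hh ⟨Or.inl h1, Or.inr (Or.inl h2)⟩
        have h3 : H95s.hh b a x t = 0 := by
          unfold H95s.hh
          rw [if_neg, if_neg, add_zero]
          · rintro ⟨h1, h2⟩
            exact hh ⟨Or.inl h1, Or.inr (Or.inr h2)⟩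
          · rintro ⟨h1, h2⟩
            exact hh ⟨Or.inr (Or.inl h2), Or.inl h1⟩
        rw [h2, h3, add_zero]
    rw [Finset.sum_congr rfl e1, Finset.sum_add_distrib, H95s.side hG habc hx]
    by_cases hd : ∃ d, (b, a, d) ∈ T
    · obtain ⟨d, hd⟩ := hd
      rw [H95s.side hG hd hx, H95s.W_swap a b x]
      exact H95s.pp_add_neg (H95s.W_ne hdet hx)
    · rw [H95s.noside hG hd, add_zero]
      refine H95s.bdW hdet ?_ ?_ hp
      · exact hG.nn c a b (hG.rot _ _ _ (hG.rot _ _ _ habc))
      · rcases hG.opp a b c habc with h | h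
        · exact h
        · exact absurd h hd
  · have e1 : ∀ t ∈ T, (if has a t ∧ has b t then H95s.ff r x (rp a (a + b) t) +
        H95s.ff r x (rp b (a + b) t) else H95s.ff r x t) = H95s.ff r x t := by
      intro t ht
      split_ifs with hh
      · rcases H95s.kinds hG hab ht hh.1 hh.2 with ⟨z, hz, hzt, hk⟩ | ⟨z, hz, hzt, hk⟩
        · exact H95s.ptw hx hrc hz t hk
        · have := H95s.ptw (r := r) hx (by rw [add_comm]; exact hrc) hz t hk
          rw [add_comm b a] at this
          rw [add_comm, this]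
      · rfl
    rw [Finset.sum_congr rfl e1]
    have hrT : r ∈ rays T := by
      obtain ⟨t, ht, rfl⟩ := Finset.mem_image.1 hr
      rw [star, Finset.mem_union, Finset.mem_union, Finset.mem_image, Finset.mem_image] at ht
      rcases ht with (ht | ⟨s, hs, rfl⟩) | ⟨s, hs, rfl⟩
      · exact Finset.mem_image.2 ⟨t, (Finset.mem_filter.1 ht).1, rfl⟩
      · by_cases hsa : s.1 = a
        · exact absurd (by simp [rp, hsa]) hrc
        · exact Finset.mem_image.2 ⟨s, (Finset.mem_filter.1 hs).1, by simp [rp, hsa]⟩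
      · by_cases hsa : s.1 = b
        · exact absurd (by simp [rp, hsa]) hrc
        · exact Finset.mem_image.2 ⟨s, (Finset.mem_filter.1 hs).1, by simp [rp, hsa]⟩
    have := hG.n1 r hrT x hx hp
    rw [Finset.sum_filter] at this
    exact this

end Pool.Agent.DUR

end

/-! ### H97/Adpt -/

section
set_option autoImplicit false

namespace Pool.Agent.DUR

theorem adpt (h : PairStatement) (_hG : GoodStatement) : AdptStatement := by
  classical
  intro A
  have key : ∀ D : Finset V3, ∃ T, IsFan T ∧ ∀ d ∈ D, Cmp T d := by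
    intro D
    induction D using Finset.induction_on with
    | empty => exact ⟨T0, IsFan.base, by simp⟩
    | insert d D _ ih =>
      obtain ⟨T, hT, hD⟩ := ih
      obtain ⟨T', hT', hd, hall⟩ := h T d hT
      refine ⟨T', hT', ?_⟩
      intro d' hd'
      rcases Finset.mem_insert.1 hd' with h1 | h1
      · rw [h1]; exact hd
      · exact hall d' (hD d' h1)
  obtain ⟨T, hT, hD⟩ := key ((A ×ˢ A).image fun p => p.1 - p.2)
  refine ⟨T, hT, ?_⟩
  intro v hv w hw
  apply hD
  exact Finset.mem_image.2 ⟨(v, w), Finset.mem_product.2 ⟨hv, hw⟩, rfl⟩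

end Pool.Agent.DUR

end

/-! ### H97/Arbd -/

section
set_option autoImplicit false

namespace Pool.Agent.DUR

open Finset

theorem arbd (hN : NpadStatement) (hE : EdgeStatement) (hL : LposStatement) :
    ArbdStatement := by
  classical
  intro A T v e hNP hB
  have hA : Adm T (ell A) v := hN A T v hNP
  obtain ⟨-, -, hL3, -⟩ := hL A T v hNP
  obtain ⟨hsym, -⟩ := hE T (ell A) v hA
  have hnn : ∀ b ∈ rays T, ∀ i, 0 ≤ b i := by
    intro b hb i
    obtain ⟨⟨x, y, z⟩, ht, rfl⟩ := Finset.mem_image.1 hb
    exact hNP.good.nn x y z ht i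
  constructor
  · intro a ha h0 hev
    have h1 : ell A a = 0 := hA.bd a ha h0
    unfold Ar
    rw [h1, mul_zero, zero_sub, neg_eq_zero]
    apply Finset.sum_eq_zero
    intro b hb
    by_cases hb0 : ∃ i, b i = 0
    · rw [hA.bd b hb hb0, mul_zero]
    · rw [hL3 a b ha hb h0 hev ?_, zero_mul]
      intro i
      have h2 := hnn b hb i
      have h3 : b i ≠ 0 := fun h => hb0 ⟨i, h⟩
      omega
  · intro i
    have hbal : ∀ b ∈ rays T, ∑ a ∈ rays T, Lw T v b a * a i = e b * b i := by
      intro b hb
      have := congrFun (hB b hb) i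
      simpa [Finset.sum_apply] using this
    have h1 : ∑ a ∈ rays T, a i * Ar T (ell A) v e a =
        ∑ a ∈ rays T, a i * (e a * ell A a) -
          ∑ a ∈ rays T, ∑ b ∈ rays T, a i * (Lw T v a b * ell A b) := by
      rw [← Finset.sum_sub_distrib]
      apply Finset.sum_congr rfl
      intro a _
      unfold Ar
      rw [mul_sub, Finset.mul_sum]
    rw [h1, Finset.sum_comm, sub_eq_zero]
    apply Finset.sum_congr rfl
    intro b hb
    have h2 : ∑ a ∈ rays T, a i * (Lw T v a b * ell A b) =
        (∑ a ∈ rays T, Lw T v b a * a i) * ell A b := by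
      rw [Finset.sum_mul]
      apply Finset.sum_congr rfl
      intro a _
      rw [hsym a b]
      ring
    rw [h2, hbal b hb]
    ring

end Pool.Agent.DUR

end

/-! ### H97/Pyra -/

section
set_option autoImplicit false

namespace Pool.Agent.DUR

open Finset

private theorem ell_le (A : Finset V3) (k u : V3) (hu : u ∈ A) : ell A k ≤ dot u k := by
  unfold ell
  rw [dif_pos ⟨u, hu⟩]
  exact Finset.inf'_le (fun v => dot v k) hu

private theorem det_inj (a b c u w : V3) (h : det3 a b c = 1) (ha : dot u a = dot w a)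
    (hb : dot u b = dot w b) (hc : dot u c = dot w c) : u = w := by
  have key : ∀ k : Fin 3, (u k - w k) * det3 a b c =
      (dot u a - dot w a) * cross b c k + (dot u b - dot w b) * cross c a k +
      (dot u c - dot w c) * cross a b k := by
    intro k
    fin_cases k <;> simp [det3, dot, cross] <;> ring
  funext k
  have := key k
  rw [h, ha, hb, hc] at this
  linarith

private theorem dot_ev (u : V3) (i : Fin 3) : dot u (ev i) = u i := by
  fin_cases i <;> simp [dot, ev]

private theorem dot_ev' (u : V3) (i : Fin 3) : dot (ev i) u = u i := by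
  fin_cases i <;> simp [dot, ev]

private theorem plane (i : Fin 3) (a b D : V3) (hpos : ∀ j, 0 < a j) (hDi : D i = 0)
    (hDa : dot D a = 0) (hc : cross a b i = 0) : dot D b = 0 := by
  fin_cases i
  · simp [cross] at hc hDi
    simp only [dot] at hDa ⊢
    rw [hDi] at hDa ⊢
    have h : a 1 * (0 * b 0 + D 1 * b 1 + D 2 * b 2) = 0 := by
      linear_combination b 1 * hDa + D 2 * hc
    rcases mul_eq_zero.1 h with h1 | h1
    · exact absurd h1 (ne_of_gt (hpos 1))
    · exact h1
  · simp [cross] at hc hDi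
    simp only [dot] at hDa ⊢
    rw [hDi] at hDa ⊢
    have h : a 0 * (D 0 * b 0 + 0 * b 1 + D 2 * b 2) = 0 := by
      linear_combination b 0 * hDa - D 2 * hc
    rcases mul_eq_zero.1 h with h1 | h1
    · exact absurd h1 (ne_of_gt (hpos 0))
    · exact h1
  · simp [cross] at hc hDi
    simp only [dot] at hDa ⊢
    rw [hDi] at hDa ⊢
    have h : a 0 * (D 0 * b 0 + D 1 * b 1 + 0 * b 2) = 0 := by
      linear_combination b 0 * hDa + D 1 * hc
    rcases mul_eq_zero.1 h with h1 | h1
    · exact absurd h1 (ne_of_gt (hpos 0))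
    · exact h1

private theorem dot_sub (u w b : V3) : dot (u - w) b = dot u b - dot w b := by
  simp [dot]; ring

theorem pyra (hN : NpadStatement) (hE : EdgeStatement) (_hL : LposStatement)
    (hR : ArbdStatement) (hH : HghtStatement) : PyraStatement := by
  classical
  intro A T v v' e e' i hNP hB hNP' hB'
  have hA : Adm T (ell A) v := hN A T v hNP
  have hA' : Adm T (ell (pyr A i)) v' := hN (pyr A i) T v' hNP'
  obtain ⟨hArb, hSum⟩ := hR (pyr A i) T v' e' hNP' hB'
  have hnn : ∀ b ∈ rays T, ∀ j, 0 ≤ b j := by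
    intro b hb j
    obtain ⟨⟨x, y, z⟩, ht, rfl⟩ := Finset.mem_image.1 hb
    exact hNP.good.nn x y z ht j
  have hevi : ev i ∈ rays T := by
    obtain ⟨b, c, hbc⟩ := hNP.good.base i
    exact Finset.mem_image.2 ⟨_, hbc, rfl⟩
  have hbdi : ∃ j, (ev i) j = 0 := by
    fin_cases i
    · exact ⟨1, by simp [ev]⟩
    · exact ⟨0, by simp [ev]⟩
    · exact ⟨0, by simp [ev]⟩
  have hli : ell A (ev i) = 0 := hA.bd _ hevi hbdi
  have hli' : ell (pyr A i) (ev i) = 0 := hA'.bd _ hevi hbdi
  have hevmem : ev i ∈ pyr A i := Finset.mem_insert_self _ _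
  -- step 2
  have step2 : ∀ a ∈ rays T, a ≠ ev i →
      (ell (pyr A i) a - a i) * Ar T (ell (pyr A i)) v' e' a = 0 := by
    intro a ha hai
    by_cases h0 : ∃ j, a j = 0
    · by_cases hj : ∀ j, a ≠ ev j
      · rw [hArb a ha h0 hj, mul_zero]
      · push Not at hj
        obtain ⟨j, rfl⟩ := hj
        have hij : i ≠ j := by
          rintro rfl; exact hai rfl
        rw [hA'.bd _ ha h0]
        have : (ev j) i = 0 := by simp [ev, hij]
        rw [this]; simp
    · have hpos : ∀ j, 0 < a j := by
        intro j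
        have h1 := hnn a ha j
        have h2 : a j ≠ 0 := fun h => h0 ⟨j, h⟩
        omega
      by_cases hle : ell (pyr A i) a = a i
      · rw [hle]; simp
      · -- all vertices at a are in the plane
        have hpl : ∀ t ∈ T, has a t → (v' t) i = 0 := by
          intro t ht hat
          have h1 := hNP'.mem t ht
          rcases Finset.mem_insert.1 h1 with h2 | h2
          · exfalso
            apply hle
            rw [← hNP'.eq t ht a hat, h2, dot_ev']
          · exact (Finset.mem_filter.1 h2).2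
        obtain ⟨t, ht, hta⟩ := Finset.mem_image.1 ha
        have hta' : t.1 = a := hta
        have hAr := hH (pyr A i) T v' e' hNP' hB' t ht
        rw [hta'] at hAr
        rw [hAr]
        have hhas : has a t := Or.inl hta'
        have hz : ∑ b ∈ rays T, Lw T v' a b * (dot (v' t) b - ell (pyr A i) b) = 0 := by
          apply Finset.sum_eq_zero
          intro b hb
          by_cases hLw : Lw T v' a b = 0
          · rw [hLw, zero_mul]
          · obtain ⟨hsym, hnb, hvE, hrot, hdiff⟩ := hE T (ell (pyr A i)) v' hA'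
            -- both triangles
            have hno : ¬ ∃ j, a j = 0 ∧ b j = 0 := by
              rintro ⟨j, hj, -⟩
              exact h0 ⟨j, hj⟩
            have hno' : ¬ ∃ j, b j = 0 ∧ a j = 0 := by
              rintro ⟨j, -, hj⟩
              exact h0 ⟨j, hj⟩
            have hboth : (∃ c, (a, b, c) ∈ T) ∧ ∃ d, (b, a, d) ∈ T := by
              rcases hnb a b hLw with ⟨c, hc⟩ | ⟨c, hc⟩
              · exact ⟨⟨c, hc⟩, (hNP.good.opp a b c hc).resolve_left hno⟩
              · exact ⟨(hNP.good.opp b a c hc).resolve_left hno', ⟨c, hc⟩⟩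
            obtain ⟨⟨c, hc⟩, ⟨d, hd⟩⟩ := hboth
            have h1 : has a (a, b, c) := Or.inl rfl
            have h1b : has b (a, b, c) := Or.inr (Or.inl rfl)
            have h2 : has a (b, a, d) := Or.inr (Or.inl rfl)
            have hcr := hdiff a b c hc
            rw [hvE a b c hc, hvE b a d hd] at hcr
            have hcri := congrFun hcr i
            simp only [Pi.sub_apply, Pi.smul_apply, smul_eq_mul] at hcri
            rw [hpl _ hc h1, hpl _ hd h2, sub_zero] at hcri
            have hci : cross a b i = 0 := by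
              rcases mul_eq_zero.1 hcri.symm with h | h
              · exact absurd h hLw
              · exact h
            have hD : dot (v' t - v' (a, b, c)) b = 0 := by
              apply plane i a b _ hpos _ _ hci
              · simp [hpl t ht hhas, hpl _ hc h1]
              · rw [dot_sub, hNP'.eq t ht a hhas, hNP'.eq _ hc a h1, sub_self]
            rw [dot_sub, hNP'.eq _ hc b h1b] at hD
            rw [hD, mul_zero]
        rw [hz, mul_zero]
  -- step 3
  have step3 : ∑ a ∈ rays T, ell (pyr A i) a * Ar T (ell (pyr A i)) v' e' a =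
      - Ar T (ell (pyr A i)) v' e' (ev i) := by
    have h1 : ∑ a ∈ rays T, (ell (pyr A i) a - a i) * Ar T (ell (pyr A i)) v' e' a =
        - Ar T (ell (pyr A i)) v' e' (ev i) := by
      rw [Finset.sum_eq_single_of_mem (ev i) hevi (fun a ha hne => step2 a ha hne), hli']
      have : (ev i) i = 1 := by simp [ev]
      rw [this]; ring
    have h2 : ∑ a ∈ rays T, ell (pyr A i) a * Ar T (ell (pyr A i)) v' e' a =
        ∑ a ∈ rays T, (ell (pyr A i) a - a i) * Ar T (ell (pyr A i)) v' e' a +
        ∑ a ∈ rays T, a i * Ar T (ell (pyr A i)) v' e' a := by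
      rw [← Finset.sum_add_distrib]
      apply Finset.sum_congr rfl
      intro a _
      ring
    rw [h2, h1, hSum i, add_zero]
  rw [step3]
  -- step 4
  have hkey : ∀ t ∈ T, has (ev i) t → (∀ r, has r t → ell A r = ell (pyr A i) r) ∧ v t = v' t := by
    intro t ht hit
    have hv : (v t) i = 0 := by
      rw [← dot_ev (v t) i, hNP.eq t ht _ hit, hli]
    have hv' : (v' t) i = 0 := by
      rw [← dot_ev (v' t) i, hNP'.eq t ht _ hit, hli']
    have hm : v t ∈ pyr A i :=
      Finset.mem_insert_of_mem (Finset.mem_filter.2 ⟨hNP.mem t ht, hv⟩)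
    have hm' : v' t ∈ A := by
      rcases Finset.mem_insert.1 (hNP'.mem t ht) with h2 | h2
      · exfalso
        rw [h2] at hv'
        simp [ev] at hv'
      · exact (Finset.mem_filter.1 h2).1
    have hl : ∀ r, has r t → ell A r = ell (pyr A i) r := by
      intro r hr
      apply le_antisymm
      · rw [← hNP'.eq t ht r hr]
        exact ell_le A r _ hm'
      · rw [← hNP.eq t ht r hr]
        exact ell_le _ r _ hm
    refine ⟨hl, ?_⟩
    obtain ⟨a, b, c⟩ := t
    have h1 : has a (a, b, c) := Or.inl rfl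
    have h2 : has b (a, b, c) := Or.inr (Or.inl rfl)
    have h3 : has c (a, b, c) := Or.inr (Or.inr rfl)
    apply det_inj a b c _ _ (hNP.good.det1 a b c ht)
    · rw [hNP.eq _ ht a h1, hNP'.eq _ ht a h1, hl a h1]
    · rw [hNP.eq _ ht b h2, hNP'.eq _ ht b h2, hl b h2]
    · rw [hNP.eq _ ht c h3, hNP'.eq _ ht c h3, hl c h3]
  have hvE1 : ∀ b, vE T v (ev i) b = vE T v' (ev i) b := by
    intro b
    unfold vE
    apply Finset.sum_congr rfl
    intro t ht
    obtain ⟨h1, h2, h3⟩ := Finset.mem_filter.1 ht
    exact (hkey t h1 (Or.inl h2)).2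
  have hvE2 : ∀ b, vE T v b (ev i) = vE T v' b (ev i) := by
    intro b
    unfold vE
    apply Finset.sum_congr rfl
    intro t ht
    obtain ⟨h1, h2, h3⟩ := Finset.mem_filter.1 ht
    exact (hkey t h1 (Or.inr (Or.inl h3))).2
  have hLweq : ∀ b, Lw T v (ev i) b = Lw T v' (ev i) b := by
    intro b
    unfold Lw
    rw [hvE1 b, hvE2 b]
  have hfin : Ar T (ell (pyr A i)) v' e' (ev i) = Ar T (ell A) v e (ev i) := by
    unfold Ar
    rw [hli, hli', mul_zero, mul_zero]
    congr 1
    apply Finset.sum_congr rfl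
    intro b _
    rw [← hLweq b]
    by_cases hz : Lw T v (ev i) b = 0
    · rw [hz]; simp
    · obtain ⟨-, hnb, -⟩ := hE T (ell A) v hA
      have : ell A b = ell (pyr A i) b := by
        rcases hnb _ _ hz with ⟨c, hc⟩ | ⟨c, hc⟩
        · exact (hkey _ hc (Or.inl rfl)).1 b (Or.inr (Or.inl rfl))
        · exact (hkey _ hc (Or.inr (Or.inl rfl))).1 b (Or.inl rfl)
      rw [this]
  rw [hfin]

end Pool.Agent.DUR

end

/-! ### H98/Cbas -/

section
set_option autoImplicit false

namespace Pool.Agent.DUR

open Finset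

theorem cbas : CbasStatement := by
  intro S B w K h hne hK
  obtain ⟨a0, ha0⟩ := hne
  have h1 := h.neg (fun _ => 1) ⟨a0, ha0, one_ne_zero⟩
  simp only [mul_one] at h1
  have h2 : 0 ≤ ∑ a ∈ S, (deg a - 3) * K a := by
    refine Finset.sum_nonneg fun a ha => mul_nonneg ?_ (hK a ha)
    have := h.pos a ha
    have e0 := this 0; have e1 := this 1; have e2 := this 2
    unfold deg; linarith
  have h3 : 0 ≤ ∑ a ∈ S, ∑ b ∈ S with b ≠ a, B a b := by
    refine Finset.sum_nonneg fun a ha => Finset.sum_nonneg fun b hb => ?_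
    rw [Finset.mem_filter] at hb
    exact h.off a ha b hb.1 (Ne.symm hb.2)
  -- the sums with `cc`
  have key : ∀ i j : Fin 3, ∑ a ∈ S, ∑ b ∈ S, B a b * (a i * b j) =
      -∑ a ∈ S, cc S B a i * a j := by
    intro i j
    rw [Finset.sum_comm, ← Finset.sum_neg_distrib]
    refine Finset.sum_congr rfl fun b _ => ?_
    unfold cc
    rw [neg_mul, neg_neg, Finset.sum_mul]
    refine Finset.sum_congr rfl fun a _ => ?_
    rw [h.symm a b]; ring
  have h4 : ∑ a ∈ S, ∑ b ∈ S, B a b * (a 0 * b 1 + a 0 * b 2 + a 1 * b 2) =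
      -∑ a ∈ S, cc S B a 0 * a 1 - ∑ a ∈ S, cc S B a 2 * a 0 - ∑ a ∈ S, cc S B a 1 * a 2 := by
    have e1 := key 0 1
    have e2 := key 2 0
    have e3 := key 1 2
    have e2' : ∑ a ∈ S, ∑ b ∈ S, B a b * (a 0 * b 2) = -∑ a ∈ S, cc S B a 2 * a 0 := by
      rw [← e2, Finset.sum_comm]
      refine Finset.sum_congr rfl fun a _ => Finset.sum_congr rfl fun b _ => ?_
      rw [h.symm b a]; ring
    have : ∀ a b : V3, B a b * (a 0 * b 1 + a 0 * b 2 + a 1 * b 2) =
      B a b * (a 0 * b 1) + B a b * (a 0 * b 2) + B a b * (a 1 * b 2) := fun a b => by ring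
    simp_rw [this, Finset.sum_add_distrib]
    rw [e1, e2', e3]
    ring
  have h5 : ∑ a ∈ S, ∑ i, cc S B a i = ∑ a ∈ S, cc S B a 0 + ∑ a ∈ S, cc S B a 1 +
      ∑ a ∈ S, cc S B a 2 := by
    simp_rw [Fin.sum_univ_three, Finset.sum_add_distrib]
  have h6 : ∀ i j : Fin 3, ∑ a ∈ S, cc S B a i ≤ ∑ a ∈ S, cc S B a i * a j := by
    intro i j
    refine Finset.sum_le_sum fun a ha => ?_
    have := h.cpos a ha i
    have := h.pos a ha j
    nlinarith
  have g1 := h6 0 1
  have g2 := h6 2 0
  have g3 := h6 1 2
  unfold psi2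
  rw [h4, h5]
  linarith

end Pool.Agent.DUR

end

/-! ### H98/Negd -/

section
set_option autoImplicit false

namespace Pool.Agent.DUR

open Finset

/-- the identity for the coordinate `i` -/
theorem negd_id (S : Finset V3) (B : V3 → V3 → ℤ) (hpos : ∀ a ∈ S, ∀ i, 1 ≤ a i)
    (hs : ∀ a b, B a b = B b a) (x : V3 → ℤ) (i : Fin 3) :
    ((∑ a ∈ S, ∑ b ∈ S, B a b * x a * x b : ℤ) : ℝ) =
      -(1 / 2) * ∑ a ∈ S, ∑ b ∈ S, (B a b : ℝ) * (a i * b i) *
        ((x a : ℝ) / a i - (x b : ℝ) / b i) ^ 2 -
      ∑ a ∈ S, (cc S B a i : ℝ) * a i * ((x a : ℝ) / a i) ^ 2 := by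
  have h1 : ∑ a ∈ S, (cc S B a i : ℝ) * a i * ((x a : ℝ) / a i) ^ 2 =
      -∑ a ∈ S, ∑ b ∈ S, (B a b : ℝ) * (a i * b i) * ((x a : ℝ) / a i) ^ 2 := by
    rw [← Finset.sum_neg_distrib]
    refine Finset.sum_congr rfl fun a _ => ?_
    unfold cc
    push_cast
    rw [neg_mul, neg_mul, Finset.sum_mul, Finset.sum_mul]
    congr 1
    refine Finset.sum_congr rfl fun b _ => ?_
    ring
  have h2 : ∑ a ∈ S, ∑ b ∈ S, (B a b : ℝ) * (a i * b i) * ((x b : ℝ) / b i) ^ 2 =
      ∑ a ∈ S, ∑ b ∈ S, (B a b : ℝ) * (a i * b i) * ((x a : ℝ) / a i) ^ 2 := by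
    rw [Finset.sum_comm]
    refine Finset.sum_congr rfl fun a _ => Finset.sum_congr rfl fun b _ => ?_
    rw [hs b a]; ring
  have h3 : ∀ a ∈ S, ∀ b ∈ S, (B a b : ℝ) * (a i * b i) * ((x a : ℝ) / a i - (x b : ℝ) / b i) ^ 2 =
      (B a b : ℝ) * (a i * b i) * ((x a : ℝ) / a i) ^ 2 +
      (B a b : ℝ) * (a i * b i) * ((x b : ℝ) / b i) ^ 2 - 2 * ((B a b : ℝ) * x a * x b) := by
    intro a ha b hb
    have e1 : (a i : ℝ) ≠ 0 := by
      have := hpos a ha i
      have : (0 : ℤ) < a i := by omega
      exact_mod_cast this.ne'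
    have e2 : (b i : ℝ) ≠ 0 := by
      have := hpos b hb i
      have : (0 : ℤ) < b i := by omega
      exact_mod_cast this.ne'
    field_simp
    ring
  have h4 : ∑ a ∈ S, ∑ b ∈ S, (B a b : ℝ) * (a i * b i) *
        ((x a : ℝ) / a i - (x b : ℝ) / b i) ^ 2 =
      2 * ∑ a ∈ S, ∑ b ∈ S, (B a b : ℝ) * (a i * b i) * ((x a : ℝ) / a i) ^ 2 -
        2 * ∑ a ∈ S, ∑ b ∈ S, (B a b : ℝ) * x a * x b := by
    rw [Finset.sum_congr rfl fun a ha => Finset.sum_congr rfl fun b hb => h3 a ha b hb]
    simp_rw [Finset.sum_sub_distrib, Finset.sum_add_distrib]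
    rw [h2]
    simp_rw [← Finset.mul_sum]
    ring
  rw [h4, h1]
  push_cast
  ring

theorem negd : NegdStatement := by
  intro S B hpos hs hoff hcc hx hn x ⟨a, ha, hxa⟩
  by_contra hcon
  push Not at hcon
  have hposr : ∀ a ∈ S, ∀ i, (0 : ℝ) < a i := by
    intro a ha i
    have := hpos a ha i
    have : (0 : ℤ) < a i := by omega
    exact_mod_cast this
  have hQ : (0 : ℝ) ≤ ((∑ a ∈ S, ∑ b ∈ S, B a b * x a * x b : ℤ) : ℝ) := by exact_mod_cast hcon
  have t1 : ∀ i : Fin 3, ∀ a ∈ S, ∀ b ∈ S, 0 ≤ (B a b : ℝ) * (a i * b i) *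
        ((x a : ℝ) / a i - (x b : ℝ) / b i) ^ 2 := by
    intro i a ha b hb
    by_cases hab : a = b
    · subst hab; simp
    · have e0 : (0 : ℝ) ≤ B a b := by exact_mod_cast hoff a ha b hb hab
      have e1 := hposr a ha i
      have e2 := hposr b hb i
      positivity
  have t2 : ∀ i : Fin 3, ∀ a ∈ S, 0 ≤ (cc S B a i : ℝ) * a i * ((x a : ℝ) / a i) ^ 2 := by
    intro i a ha
    have e0 : (0 : ℝ) ≤ cc S B a i := by exact_mod_cast hcc a ha i
    have e1 := hposr a ha i
    positivity
  have z1 : ∀ i : Fin 3, ∑ a ∈ S, ∑ b ∈ S, (B a b : ℝ) * (a i * b i) *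
        ((x a : ℝ) / a i - (x b : ℝ) / b i) ^ 2 = 0 ∧
      ∑ a ∈ S, (cc S B a i : ℝ) * a i * ((x a : ℝ) / a i) ^ 2 = 0 := by
    intro i
    have h1 := negd_id S B hpos hs x i
    have h2 : 0 ≤ ∑ a ∈ S, ∑ b ∈ S, (B a b : ℝ) * (a i * b i) *
        ((x a : ℝ) / a i - (x b : ℝ) / b i) ^ 2 :=
      Finset.sum_nonneg fun a ha => Finset.sum_nonneg fun b hb => t1 i a ha b hb
    have h3 : 0 ≤ ∑ a ∈ S, (cc S B a i : ℝ) * a i * ((x a : ℝ) / a i) ^ 2 :=
      Finset.sum_nonneg fun a ha => t2 i a ha
    rw [h1] at hQ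
    constructor <;> linarith
  rcases hn a ha with ⟨b, hb, hba, hB⟩ | ⟨i, hi⟩
  · apply hx a ha b hb (Ne.symm hba) hB
    have hxab : ∀ i : Fin 3, x a * b i = x b * a i := by
      intro i
      have h1 := (Finset.sum_eq_zero_iff_of_nonneg
        (fun a ha => Finset.sum_nonneg fun b hb => t1 i a ha b hb)).1 (z1 i).1 a ha
      have h2 := (Finset.sum_eq_zero_iff_of_nonneg (fun b hb => t1 i a ha b hb)).1 h1 b hb
      have e1 := hposr a ha i
      have e2 := hposr b hb i
      have hBr : (B a b : ℝ) ≠ 0 := by exact_mod_cast hB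
      have h3 : (x a : ℝ) / a i - (x b : ℝ) / b i = 0 := by
        rcases mul_eq_zero.1 h2 with h | h
        · rcases mul_eq_zero.1 h with h | h
          · exact absurd h hBr
          · exact absurd h (mul_pos e1 e2).ne'
        · exact pow_eq_zero_iff (two_ne_zero) |>.1 h
      have h4 : (x a : ℝ) * b i = x b * a i := by
        rw [sub_eq_zero, div_eq_div_iff e1.ne' e2.ne'] at h3
        exact h3
      exact_mod_cast h4
    have hz : ∀ i j : Fin 3, a i * b j - a j * b i = 0 := by
      intro i j
      have h1 := hxab i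
      have h2 := hxab j
      have h3 : x a * (a i * b j - a j * b i) = 0 := by
        calc x a * (a i * b j - a j * b i) = a i * (x a * b j) - a j * (x a * b i) := by ring
          _ = 0 := by rw [h1, h2]; ring
      exact (mul_eq_zero.1 h3).resolve_left hxa
    have c0 := hz 1 2
    have c1 := hz 2 0
    have c2 := hz 0 1
    unfold cross
    funext j
    fin_cases j
    · exact c0
    · exact c1
    · exact c2
  · have h1 := (Finset.sum_eq_zero_iff_of_nonneg (fun a ha => t2 i a ha)).1 (z1 i).2 a ha
    have e1 := hposr a ha i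
    have hcr : (cc S B a i : ℝ) ≠ 0 := by exact_mod_cast hi
    have hxr : (x a : ℝ) ≠ 0 := by exact_mod_cast hxa
    have : (cc S B a i : ℝ) * a i * ((x a : ℝ) / a i) ^ 2 ≠ 0 :=
      mul_ne_zero (mul_ne_zero hcr e1.ne') (pow_ne_zero _ (div_ne_zero hxr e1.ne'))
    exact this h1

end Pool.Agent.DUR

end

/-! ### H98/Pyrb -/

section
set_option autoImplicit false

namespace Pool.Agent.DUR

open Finset
open scoped Pointwise

/-- the embedding of lattice vectors -/
def pyrbE (u : V3) : E3 := fun i => (u i : ℝ)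

/-- points of the hull in a coordinate plane are in the hull of the points in the plane -/
theorem pyrb_face (A : Finset V3) (i : Fin 3) (hA : ∀ u ∈ A, ∀ i, 0 ≤ u i) {z : E3}
    (hz : z ∈ convexHull ℝ (pyrbE '' (A : Set V3))) (hzi : z i = 0) :
    z ∈ convexHull ℝ (pyrbE '' ((A.filter fun u => u i = 0 : Finset V3) : Set V3)) := by
  have hsub : convexHull ℝ (pyrbE '' (A : Set V3)) ⊆ {z : E3 | 0 ≤ z i ∧ (z i = 0 →
      z ∈ convexHull ℝ (pyrbE '' ((A.filter fun u => u i = 0 : Finset V3) : Set V3)))} := by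
    refine convexHull_min ?_ ?_
    · rintro _ ⟨u, hu, rfl⟩
      refine ⟨?_, fun h => ?_⟩
      · have := hA u hu i
        have h2 : (0 : ℝ) ≤ (u i : ℝ) := by exact_mod_cast this
        exact h2
      · refine subset_convexHull ℝ _ ⟨u, ?_, rfl⟩
        have h2 : (u i : ℝ) = 0 := h
        have h3 : u i = 0 := by exact_mod_cast h2
        simp only [Finset.coe_filter, Set.mem_ofPred_eq]
        exact ⟨hu, h3⟩
    · intro p hp q hq s t hs ht hst
      have e : (s • p + t • q) i = s * p i + t * q i := rfl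
      refine ⟨by rw [e]; exact add_nonneg (mul_nonneg hs hp.1) (mul_nonneg ht hq.1), fun h => ?_⟩
      rw [e] at h
      have h1 : s * p i = 0 := le_antisymm
        (by have := mul_nonneg ht hq.1; linarith) (mul_nonneg hs hp.1)
      have h2 : t * q i = 0 := by linarith
      rcases hs.eq_or_lt with hs0 | hs0
      · have ht1 : t = 1 := by linarith
        rw [← hs0, ht1, zero_smul, zero_add, one_smul]
        rw [ht1, one_mul] at h2
        exact hq.2 h2
      · rcases ht.eq_or_lt with ht0 | ht0
        · have hs1 : s = 1 := by linarith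
          rw [← ht0, hs1, zero_smul, add_zero, one_smul]
          rw [hs1, one_mul] at h1
          exact hp.2 h1
        · have h3 : p i = 0 := (mul_eq_zero.1 h1).resolve_left hs0.ne'
          have h4 : q i = 0 := (mul_eq_zero.1 h2).resolve_left ht0.ne'
          exact convex_convexHull ℝ _ (hp.2 h3) (hq.2 h4) hs ht hst
  exact (hsub hz).2 hzi

theorem pyrb_coord (A : Finset V3) (i : Fin 3) {z : E3}
    (hz : z ∈ convexHull ℝ (pyrbE '' ((A.filter fun u => u i = 0 : Finset V3) : Set V3))) :
    z i = 0 := by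
  have hsub : convexHull ℝ (pyrbE '' ((A.filter fun u => u i = 0 : Finset V3) : Set V3)) ⊆
      {z : E3 | z i = 0} := by
    refine convexHull_min ?_ ?_
    · rintro _ ⟨u, hu, rfl⟩
      simp only [Finset.coe_filter, Set.mem_ofPred_eq] at hu
      change ((u i : ℤ) : ℝ) = 0
      rw [hu.2, Int.cast_zero]
    · intro p hp q hq s t hs ht hst
      change s * p i + t * q i = 0
      rw [show p i = 0 from hp, show q i = 0 from hq]; ring
  exact hsub hz

theorem pyrb_nonneg (A : Finset V3) (hA : ∀ u ∈ A, ∀ i, 0 ≤ u i) {z : E3}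
    (hz : z ∈ convexHull ℝ (pyrbE '' (A : Set V3))) (j : Fin 3) : 0 ≤ z j := by
  have hsub : convexHull ℝ (pyrbE '' (A : Set V3)) ⊆ {z : E3 | 0 ≤ z j} := by
    refine convexHull_min ?_ ?_
    · rintro _ ⟨u, hu, rfl⟩
      have := hA u hu j
      have h2 : (0 : ℝ) ≤ (u j : ℝ) := by exact_mod_cast this
      exact h2
    · intro p hp q hq s t hs ht hst
      exact add_nonneg (mul_nonneg hs hp) (mul_nonneg ht hq)
  exact hsub hz

theorem pyrb_ne (A : Finset V3) (i : Fin 3) (hc : ∀ i, ∃ n : ℤ, 0 < n ∧ n • ev i ∈ A) :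
    (pyrbE '' ((A.filter fun u => u i = 0 : Finset V3) : Set V3)).Nonempty := by
  obtain ⟨j, hj⟩ : ∃ j : Fin 3, j ≠ i := exists_ne i
  obtain ⟨n, hn, hm⟩ := hc j
  refine ⟨_, n • ev j, ?_, rfl⟩
  simp only [Finset.coe_filter, Set.mem_ofPred_eq]
  refine ⟨hm, ?_⟩
  simp [ev, hj.symm]

theorem pyrb_hull (A : Finset V3) (i : Fin 3) (hc : ∀ i, ∃ n : ℤ, 0 < n ∧ n • ev i ∈ A) (y : E3) :
    y ∈ convexHull ℝ (pyrbE '' ((pyr A i : Finset V3) : Set V3)) ↔
      ∃ z ∈ convexHull ℝ (pyrbE '' ((A.filter fun u => u i = 0 : Finset V3) : Set V3)),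
      ∃ m : ℝ, 0 ≤ m ∧ m ≤ 1 ∧ y = m • pyrbE (ev i) + (1 - m) • z := by
  have e : pyrbE '' ((pyr A i : Finset V3) : Set V3) = insert (pyrbE (ev i))
      (pyrbE '' ((A.filter fun u => u i = 0 : Finset V3) : Set V3)) := by
    unfold pyr
    rw [Finset.coe_insert, Set.image_insert_eq]
  rw [e, convexHull_insert (pyrb_ne A i hc), mem_convexJoin]
  constructor
  · rintro ⟨p, hp, z, hz, s, t, hs, ht, hst, rfl⟩
    rw [Set.mem_singleton_iff] at hp
    subst hp
    exact ⟨z, hz, s, hs, by linarith, by rw [← hst, add_sub_cancel_left]⟩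
  · rintro ⟨z, hz, m, h0, h1, rfl⟩
    exact ⟨_, rfl, z, hz, m, 1 - m, h0, by linarith, by ring, rfl⟩

theorem pyrb : PyrbStatement := by
  intro A i hA hc x hx hxi
  have hev : ∀ j, pyrbE (ev i) j = if j = i then 1 else 0 := by
    intro j
    unfold pyrbE ev
    rw [Pi.single_apply]
    split_ifs <;> simp
  have hd : 0 < 1 - x i := by linarith
  constructor
  · rintro ⟨y, hy, o, ho, rfl⟩
    obtain ⟨z, hz, m, hm0, hm1, rfl⟩ := (pyrb_hull A i hc y).1 hy
    have hzi := pyrb_coord A i hz
    have hzA : z ∈ convexHull ℝ (pyrbE '' (A : Set V3)) := by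
      refine convexHull_mono (Set.image_mono ?_) hz
      intro u hu
      simp only [Finset.coe_filter, Set.mem_ofPred_eq] at hu
      exact hu.1
    have hz0 := pyrb_nonneg A hA hzA
    refine ⟨z, hzA, fun j => (if j = i then 0 else
      (m • pyrbE (ev i) + (1 - m) • z + o) j / (1 - (m • pyrbE (ev i) + (1 - m) • z + o) i)) - z j,
      fun j => ?_, ?_⟩
    · have exi : (m • pyrbE (ev i) + (1 - m) • z + o) i = m + o i := by
        change m * pyrbE (ev i) i + (1 - m) * z i + o i = _
        rw [hev, if_pos rfl, hzi]; ring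
      simp only
      by_cases hj : j = i
      · rw [if_pos hj, hj, hzi]; simp
      · rw [if_neg hj, exi]
        have hd' : 0 < 1 - (m + o i) := by rw [← exi]; exact hd
        have exj : (m • pyrbE (ev i) + (1 - m) • z + o) j = (1 - m) * z j + o j := by
          change m * pyrbE (ev i) j + (1 - m) * z j + o j = _
          rw [hev, if_neg hj]; ring
        rw [exj, sub_nonneg, le_div_iff₀ hd']
        have h1 := ho i
        have h2 := ho j
        have h3 := hz0 j
        nlinarith [mul_nonneg h1 h3]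
    · funext j
      change z j + _ = _
      ring
  · rintro ⟨z, hz, o, ho, hzo⟩
    have hzo' : ∀ j, z j + o j = if j = i then 0 else x j / (1 - x i) := fun j => congrFun hzo j
    have hzn := pyrb_nonneg A hA hz
    have hzi : z i = 0 := by
      have h1 := hzo' i
      rw [if_pos rfl] at h1
      have := hzn i
      have := ho i
      linarith
    have hoi : o i = 0 := by
      have h1 := hzo' i
      rw [if_pos rfl] at h1
      linarith
    have hzf := pyrb_face A i hA hz hzi
    refine ⟨x i • pyrbE (ev i) + (1 - x i) • z, (pyrb_hull A i hc _).2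
      ⟨z, hzf, x i, hx i, hxi.le, rfl⟩, (1 - x i) • o, fun j => mul_nonneg hd.le (ho j), ?_⟩
    funext j
    change x i * pyrbE (ev i) j + (1 - x i) * z j + (1 - x i) * o j = x j
    rw [hev]
    by_cases hj : j = i
    · rw [if_pos hj, hj, hzi, hoi]; ring
    · rw [if_neg hj]
      have h1 := hzo' j
      rw [if_neg hj, eq_div_iff hd.ne'] at h1
      linarith

end Pool.Agent.DUR

end

/-! ### H98/Pyrc -/

section
set_option autoImplicit false

namespace Pool.Agent.DUR

open Finset MeasureTheory
open scoped Pointwise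

theorem pyrc_closed (A : Finset V3) : IsClosed (PA A) := by
  unfold PA
  have h1 : IsCompact (convexHull ℝ ((fun (u : V3) (i : Fin 3) => (u i : ℝ)) '' (A : Set V3))) :=
    (A.finite_toSet.image _).isCompact_convexHull ℝ
  have h2 : IsClosed {x : E3 | ∀ i, 0 ≤ x i} := by
    rw [Set.ofPred_forall]
    exact isClosed_iInter fun i => isClosed_le continuous_const (continuous_apply i)
  rw [add_comm]
  exact h2.add_right_of_isCompact h1

/-- points with `x i ≥ 1` are in the pyramid polyhedron -/
theorem pyrc_high (A : Finset V3) (i : Fin 3) {x : E3} (hx : ∀ j, 0 ≤ x j) (h1 : 1 ≤ x i) :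
    x ∈ PA (pyr A i) := by
  refine ⟨fun j => (ev i j : ℝ), subset_convexHull ℝ _ ⟨ev i, ?_, rfl⟩, fun j => x j - (ev i j : ℝ),
    fun j => ?_, ?_⟩
  · simp [pyr]
  · by_cases hj : j = i
    · subst hj; simp [ev, h1]
    · simp [ev, hj, hx j]
  · funext j; simp

theorem pyrc (h : PyrbStatement) : PyrcStatement := by
  intro A i hA hc
  set e : E3 ≃ᵐ ℝ × (Fin 2 → ℝ) := MeasurableEquiv.piFinSuccAbove (fun _ => ℝ) i with he
  have hmp : MeasurePreserving e := volume_preserving_piFinSuccAbove (fun _ => ℝ) i
  have hes : ∀ z y, e.symm (z, y) = i.insertNth z y := fun z y => rfl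
  set U : Set E3 := {x : E3 | (∀ j, 0 ≤ x j) ∧ x ∉ PA (pyr A i)} with hU
  set R : Set (Fin 2 → ℝ) := {y | (∀ j, 0 ≤ y j) ∧ i.insertNth (0 : ℝ) y ∉ PA A} with hR
  have hUm : MeasurableSet U := by
    have h1 : MeasurableSet {x : E3 | ∀ j, 0 ≤ x j} := by
      rw [Set.ofPred_forall]
      exact MeasurableSet.iInter fun i => measurableSet_le measurable_const (measurable_pi_apply i)
    exact h1.inter (pyrc_closed _).measurableSet.compl
  have hV : volume (e.symm ⁻¹' U) = volume U := hmp.symm.measure_preimage_equiv U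
  have hVm : MeasurableSet (e.symm ⁻¹' U) := e.symm.measurable hUm
  rw [Measure.volume_eq_prod, Measure.prod_apply hVm] at hV
  -- the slices
  have hin : ∀ z : ℝ, ∀ y : Fin 2 → ℝ, (∀ j, 0 ≤ (i.insertNth z y : E3) j) ↔
      0 ≤ z ∧ ∀ j, 0 ≤ y j := by
    intro z y
    rw [Fin.forall_iff_succAbove i]
    simp
  have hslice : ∀ z : ℝ, volume (Prod.mk z ⁻¹' (e.symm ⁻¹' U)) =
      (Set.Ico (0 : ℝ) 1).indicator (fun z => ENNReal.ofReal ((1 - z) ^ 2) * volume R) z := by
    intro z
    by_cases hz : z ∈ Set.Ico (0 : ℝ) 1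
    · rw [Set.indicator_of_mem hz]
      have hd : 0 < 1 - z := by linarith [hz.2]
      have hset : Prod.mk z ⁻¹' (e.symm ⁻¹' U) = (1 - z) • R := by
        ext y
        rw [Set.mem_smul_set_iff_inv_smul_mem₀ hd.ne']
        change ((∀ j, 0 ≤ (i.insertNth z y : E3) j) ∧ (i.insertNth z y : E3) ∉ PA (pyr A i)) ↔
          ((∀ j, 0 ≤ ((1 - z)⁻¹ • y) j) ∧ (i.insertNth (0 : ℝ) ((1 - z)⁻¹ • y) : E3) ∉ PA A)
        have hy : (∀ j, 0 ≤ ((1 - z)⁻¹ • y) j) ↔ ∀ j, 0 ≤ y j := by
          refine forall_congr' fun j => ?_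
          rw [Pi.smul_apply, smul_eq_mul]
          exact mul_nonneg_iff_of_pos_left (inv_pos.2 hd)
        rw [hy, hin]
        constructor
        · rintro ⟨⟨-, h1⟩, h2⟩
          refine ⟨h1, fun h3 => h2 ?_⟩
          have h4 : ∀ j, 0 ≤ (i.insertNth z y : E3) j := (hin z y).2 ⟨hz.1, h1⟩
          refine (h A i hA hc _ h4 (by simpa using hz.2)).2 ?_
          convert h3 using 1
          funext j
          rcases Fin.eq_self_or_eq_succAbove i j with rfl | ⟨k, rfl⟩
          · simp
          · simp [Fin.succAbove_ne, div_eq_inv_mul]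
        · rintro ⟨h1, h2⟩
          refine ⟨⟨hz.1, h1⟩, fun h3 => h2 ?_⟩
          have h4 : ∀ j, 0 ≤ (i.insertNth z y : E3) j := (hin z y).2 ⟨hz.1, h1⟩
          have h5 := (h A i hA hc _ h4 (by simpa using hz.2)).1 h3
          convert h5 using 1
          funext j
          rcases Fin.eq_self_or_eq_succAbove i j with rfl | ⟨k, rfl⟩
          · simp
          · simp [Fin.succAbove_ne, div_eq_inv_mul]
      rw [hset, Measure.addHaar_smul]
      simp
    · rw [Set.indicator_of_notMem hz]
      have hset : Prod.mk z ⁻¹' (e.symm ⁻¹' U) = ∅ := by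
        rw [Set.eq_empty_iff_forall_notMem]
        rintro y ⟨h1, h2⟩
        have h1' : ∀ j, 0 ≤ (i.insertNth z y : E3) j := h1
        have h3 := ((hin z y).1 h1').1
        have h4 : 1 ≤ z := by
          by_contra hcon
          push Not at hcon
          exact hz ⟨h3, hcon⟩
        exact h2 (pyrc_high A i h1 (by
          have : (i.insertNth z y : E3) i = z := by simp
          change 1 ≤ (i.insertNth z y : E3) i
          rw [this]; exact h4))
      rw [hset, measure_empty]
  simp_rw [hslice] at hV
  rw [lintegral_indicator measurableSet_Ico, lintegral_mul_const _ (by fun_prop)] at hV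
  have hint : ∫⁻ z in Set.Ico (0 : ℝ) 1, ENNReal.ofReal ((1 - z) ^ 2) =
      ENNReal.ofReal (1 / 3) := by
    have hi : IntegrableOn (fun z : ℝ => (1 - z) ^ 2) (Set.Ico 0 1) := by
      refine (Continuous.integrableOn_Icc (by fun_prop)).mono_set Set.Ico_subset_Icc_self
    rw [← ofReal_integral_eq_lintegral_ofReal hi (Filter.Eventually.of_forall fun z => sq_nonneg _)]
    congr 1
    rw [integral_Ico_eq_integral_Ioc, ← intervalIntegral.integral_of_le zero_le_one,
      intervalIntegral.integral_comp_sub_left (fun z : ℝ => z ^ 2) 1]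
    simp
    norm_num
  rw [hint] at hV
  change 3 * (volume U).toReal = (volume R).toReal
  rw [← hV, ENNReal.toReal_mul, ENNReal.toReal_ofReal (by norm_num)]
  ring

end Pool.Agent.DUR

end
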