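import Pool.Agent.Lib.MP_524519_ag.DUR.All.M1
import Pool.Agent.Lib.MP_524519_ag.DUR.All.M2
import Pool.Agent.Lib.MP_524519_ag.DUR.All.M3
import Pool.Agent.Lib.MP_524519_ag.DUR.All.M4
import Pool.Agent.Lib.MP_524519_ag.DUR.All.M5
import Pool.Agent.Lib.MP_524519_ag.DUR.All.M6

/-! # Assembly of the combinatorial inequality -/

set_option autoImplicit false

namespace Pool.Agent.DUR

theorem main : FinlStatement := by
  have hEdge : EdgeStatement := edge
  have hNpad : NpadStatement := npad
  have hLpos : LposStatement := lpos hNpad hEdge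
  have hGens : GensStatement := gens
  have hSsum : SsumStatement := ssum
  have hFrsh : FrshStatement := frsh hGens
  have hGood : GoodStatement :=
    good hFrsh stra H30.strb H30.strc (str1 hSsum) (str3 hSsum) (strk hSsum)
  have hAdpt : AdptStatement := adpt (pair hSsum hFrsh hGood) hGood
  have hBala : BalaStatement := H30.bala hEdge
  have hCntx : CntxStatement := cntx (serb sera) expd (lvsm H74.lvin (lvbd hGens))
  have hCntt : CnttStatement := cntt hCntx (brkc (brka hEdge) (brkb hEdge)) hGens
  have hDila : DilaStatement := dila hCntt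
  have hBrgb : BrgbStatement := H43.brgb brga
  have hArbd : ArbdStatement := arbd hNpad hEdge hLpos
  have hHght : HghtStatement := hght hNpad
  have hCcnp : CcnpStatement := ccnp hNpad hEdge hLpos (axnb hGens)
  have hLnkw : LnkwStatement := lnkw hGens
  have hSucc : SuccStatement := succ hNpad hEdge hLpos
  have hPick : PickStatement := H87.pick hNpad hEdge hLpos hLnkw hHght hSucc
  have hStyp : StypStatement := H87.styp hNpad hEdge hLpos hLnkw hHght hSucc
  have hCfgn : CfgnStatement := cfgn hCcnp hStyp hPick negd hLpos hEdge hNpad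
  have hCthm : CthmStatement := cthm cbas cneg cct1 (cct2 cct1) H30.cpsi ctrm
  have hPsin : PsinStatement := psin hCntt hCcnp hArbd hLpos hEdge hNpad
  exact finl hAdpt hGood npex hNpad (volu hBrgb hDila hNpad)
    (pyra hNpad hEdge hLpos hArbd hHght) (pyrc pyrb) axis (comb hCfgn hCthm hPsin) hBrgb hBala

end Pool.Agent.DUR
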